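import Pool.Agent.H35R3.Al.Tile

/-!
The sum over the far triples.
-/

set_option autoImplicit false

namespace H35A

open H974 H12S H973N Finset

variable {M : ℕ}

theorem exists_round (hM : 0 < M) (x : ℤ) : ∃ z : ℤ, 2 * |x + M * z| ≤ M := by
  have hM' : (0:ℤ) < M := by exact_mod_cast hM
  have h1 := Int.emod_nonneg x hM'.ne'
  have h2 := Int.emod_lt_of_pos x hM'
  have h3 := Int.emod_add_mul_ediv x M
  by_cases h : 2 * (x % M) ≤ M
  · refine ⟨-(x / M), ?_⟩
    have : x + M * -(x / M) = x % M := by linarith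
    rw [this, abs_of_nonneg h1]
    exact h
  · refine ⟨-(x / M) - 1, ?_⟩
    have : x + M * (-(x / M) - 1) = x % M - M := by linarith
    rw [this, abs_of_nonpos (by omega)]
    omega

theorem Fr_lt (hM : 0 < M) {r : ℤ} {a b : Edg} (h : Fr M r a b) : 2 * r < M := by
  obtain ⟨z1, h1⟩ := exists_round hM (a.1 - b.1)
  obtain ⟨z2, h2⟩ := exists_round hM (a.2.1 - b.2.1)
  have h3 := h (z1, z2)
  unfold dst shE at h3
  simp only at h3
  have e1 : a.1 + M * z1 - b.1 = a.1 - b.1 + M * z1 := by ring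
  have e2 : a.2.1 + M * z2 - b.2.1 = a.2.1 - b.2.1 + M * z2 := by ring
  rw [e1, e2, lt_max_iff] at h3
  rcases h3 with h3 | h3 <;> omega

theorem not_Fr {r : ℤ} {a b : Edg} (h : ¬ Fr M r a b) : ∃ z, dst (shE M z a) b ≤ r := by
  unfold Fr at h
  push Not at h
  exact h

theorem dst_le {e g : Edg} {r : ℤ} : dst e g ≤ r ↔ |e.1 - g.1| ≤ r ∧ |e.2.1 - g.2.1| ≤ r := by
  unfold dst; exact max_le_iff

/-- Triangle inequality. -/
theorem Fr_tri {r r' : ℤ} {a b c : Edg} (h : Fr M r a b) (h' : ¬ Fr M r' b c) :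
    Fr M (r - r') a c := by
  obtain ⟨z, hz⟩ := not_Fr h'
  intro y
  by_contra hy
  push Not at hy
  have h1 := h (y.1 - z.1, y.2 - z.2)
  apply absurd _ (not_le.2 h1)
  rw [dst_le] at hz hy ⊢
  unfold shE at hz hy ⊢
  simp only at hz hy ⊢
  constructor
  · have e : a.1 + M * (y.1 - z.1) - b.1 = (a.1 + M * y.1 - c.1) - (b.1 + M * z.1 - c.1) := by ring
    rw [e]
    refine (abs_sub _ _).trans ?_
    linarith [hz.1, hy.1]
  · have e : a.2.1 + M * (y.2 - z.2) - b.2.1 =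
        (a.2.1 + M * y.2 - c.2.1) - (b.2.1 + M * z.2 - c.2.1) := by ring
    rw [e]
    refine (abs_sub _ _).trans ?_
    linarith [hz.2, hy.2]

theorem mem_blk_of {c : ℤ × ℤ} {R : ℕ} {e : Edg} (h1 : |e.1 - c.1| < R)
    (h2 : |e.2.1 - c.2| < R) : e ∈ blk c R := by
  rw [abs_lt] at h1 h2
  obtain ⟨x, y, _ | _⟩ := e
  · unfold blk
    rw [mem_RE_false]
    simp only at h1 h2
    omega
  · unfold blk
    rw [mem_RE_true]
    simp only at h1 h2
    omega

/-- The tile of an edge. -/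
def til (s : ℕ) (b : Edg) : ℤ × ℤ := (b.1 / s, b.2.1 / s)

/-- The lower left corner of a tile. -/
def ctr (s : ℕ) (t : ℤ × ℤ) : ℤ × ℤ := (s * t.1, s * t.2)

theorem til_near {s : ℕ} (hs : 0 < s) (b : Edg) :
    (0 ≤ b.1 - (ctr s (til s b)).1 ∧ b.1 - (ctr s (til s b)).1 < s) ∧
      (0 ≤ b.2.1 - (ctr s (til s b)).2 ∧ b.2.1 - (ctr s (til s b)).2 < s) := by
  have hs' : (0:ℤ) < s := by exact_mod_cast hs
  unfold ctr til
  simp only
  have h1 := Int.emod_nonneg b.1 hs'.ne'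
  have h2 := Int.emod_lt_of_pos b.1 hs'
  have h3 := Int.emod_add_mul_ediv b.1 s
  have h4 := Int.emod_nonneg b.2.1 hs'.ne'
  have h5 := Int.emod_lt_of_pos b.2.1 hs'
  have h6 := Int.emod_add_mul_ediv b.2.1 s
  refine ⟨⟨?_, ?_⟩, ?_, ?_⟩ <;> linarith

/-- Inclusion of the local block of an edge near the tile. -/
theorem blk_sub {c : ℤ × ℤ} {b : Edg} {r R : ℕ} {d : ℤ} {z : ℤ × ℤ}
    (h1 : |(shE M z b).1 - c.1| ≤ d) (h2 : |(shE M z b).2.1 - c.2| ≤ d) (hR : d + r < R) :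
    bT M (bp b) r ⊆ bT M c R := by
  intro e he
  obtain ⟨g, hg, rfl⟩ := mem_bT.1 he
  refine mem_bT.2 ⟨shE M z g, ?_, red_shE _ _⟩
  have := mem_blk hg
  unfold bp at this
  simp only at this
  rw [abs_le] at h1 h2
  unfold shE at h1 h2 ⊢
  simp only at h1 h2
  apply mem_blk_of
  · simp only
    rw [abs_lt]
    omega
  · simp only
    rw [abs_lt]
    omega

theorem tile_good {j k : ℕ} (hjk : k + 7 ≤ j) {a b : Edg} (hMpos : 0 < M) (ha : red M a = a)
    (hab : Fr M (2 ^ j) a b) :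
    Good M (EM M \ bT M (bp a) (2 ^ (j - 2))) a (ctr (2 ^ k) (til (2 ^ k) b)) (8 * 2 ^ k) := by
  have hnear := til_near (s := 2 ^ k) (by positivity) b
  set c := ctr (2 ^ k) (til (2 ^ k) b) with hc
  set ra : ℕ := 2 ^ (j - 2) with hra
  set s : ℕ := 2 ^ k with hs
  have hj : 2 ^ j = 4 * ra := by
    rw [hra, show (4:ℕ) = 2 ^ 2 by norm_num, ← pow_add]
    congr 1; omega
  have hjZ : (2:ℤ) ^ j = 4 * ra := by exact_mod_cast hj
  have hsra : 32 * s ≤ ra := by
    rw [hra, hs, show (32:ℕ) = 2 ^ 5 by norm_num, ← pow_add]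
    exact Nat.pow_le_pow_right (by norm_num) (by omega)
  have hspos : 1 ≤ s := Nat.one_le_two_pow
  have hsub : ∀ z : ℤ × ℤ, ∀ g ∈ blk c (3 * (8 * s)), ¬ (|g.1 - (shE M z a).1| ≤ ra ∧
      |g.2.1 - (shE M z a).2.1| ≤ ra) := by
    intro z g hg h
    have h1 := hab z
    apply absurd _ (not_le.2 h1)
    rw [dst_le]
    have h2 := mem_blk hg
    rw [abs_le, abs_le] at h ⊢
    push_cast at h2 hnear
    push_cast
    rw [hjZ]
    omega
  have hsub' : bT M c (3 * (8 * s)) ⊆ EM M \ bT M (bp a) ra := by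
    intro e he
    obtain ⟨g, hg, rfl⟩ := mem_bT.1 he
    rw [Finset.mem_sdiff]
    refine ⟨red_mem_EM hMpos _, ?_⟩
    intro h
    obtain ⟨g', hg', hgg⟩ := mem_bT.1 h
    obtain ⟨z, hz⟩ := eq_shE_of_red (M := M) hgg.symm
    have h3 := mem_blk hg'
    apply hsub z g hg
    rw [hz]
    unfold shE bp at *
    simp only at *
    rw [abs_le, abs_le]
    omega
  refine ⟨hsub', ?_, ?_, ?_⟩
  · intro z
    have h1 := hab z
    unfold dst at h1
    rw [lt_max_iff, lt_abs, lt_abs] at h1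
    rw [← src_shE]
    unfold BSfar
    have h4 : src (shE M z a) = ((shE M z a).1, (shE M z a).2.1) := rfl
    rw [h4]
    simp only
    push_cast at hnear ⊢
    omega
  · intro z
    have h1 := hab z
    unfold dst at h1
    rw [lt_max_iff, lt_abs, lt_abs] at h1
    rw [← tgt_shE]
    unfold BSfar
    generalize shE M z a = a' at h1 ⊢
    obtain ⟨x, y, _ | _⟩ := a'
    · simp only [tgt_false] at h1 ⊢
      push_cast at hnear ⊢
      omega
    · simp only [tgt_true] at h1 ⊢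
      push_cast at hnear ⊢
      omega
  · intro h
    have h2 := (Finset.mem_sdiff.1 (hsub' h)).2
    exact h2 (mem_bT.2 ⟨a, bp_mem_blk (by omega), ha⟩)

theorem card_fib {s : ℕ} (hs : 0 < s) (T : Finset Edg) (t : ℤ × ℤ) :
    (T.filter fun b => til s b = t).card ≤ 2 * s ^ 2 := by
  classical
  have hsub : (T.filter fun b => til s b = t) ⊆
      Finset.Ico (s * t.1) (s * t.1 + s) ×ˢ (Finset.Ico (s * t.2) (s * t.2 + s) ×ˢ
        (Finset.univ : Finset Bool)) := by
    intro b hb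
    have h1 := (Finset.mem_filter.1 hb).2
    have h2 := til_near hs b
    rw [h1] at h2
    unfold ctr at h2
    simp only at h2
    rw [Finset.mem_product, Finset.mem_product, Finset.mem_Ico, Finset.mem_Ico]
    refine ⟨?_, ?_, Finset.mem_univ _⟩ <;> omega
  refine (Finset.card_le_card hsub).trans ?_
  rw [Finset.card_product, Finset.card_product, Int.card_Ico, Int.card_Ico]
  simp only [add_sub_cancel_left, Int.toNat_natCast, Finset.card_univ, Fintype.card_bool]
  apply le_of_eq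
  ring

theorem til_mem {s m L : ℕ} (hs : 0 < s) (hM : M = s * m) {a b : Edg}
    (hb : b ∈ EM M) (hab : ¬ Fr M (s * L) a b) :
    ∃ u ∈ Finset.Icc (a.1 / s - L) (a.1 / s + L) ×ˢ Finset.Icc (a.2.1 / s - L) (a.2.1 / s + L),
      (u.1 % (m:ℤ), u.2 % (m:ℤ)) = til s b := by
  have hs' : (0:ℤ) < s := by exact_mod_cast hs
  obtain ⟨z, hz⟩ := not_Fr hab
  rw [dst_le] at hz
  unfold shE at hz
  simp only at hz
  rw [mem_EM] at hb
  have key : ∀ x y ζ : ℤ, |x + M * ζ - y| ≤ s * L → 0 ≤ y → y < M →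
      (x / s - L ≤ y / s - m * ζ ∧ y / s - m * ζ ≤ x / s + L) ∧
        (y / s - m * ζ) % m = y / s := by
    intro x y ζ h h0 h1
    have hMz : (M:ℤ) = s * m := by rw [hM]; push_cast; ring
    have e1 : y / s - m * ζ = (y - M * ζ) / s := by
      rw [hMz, show y - (s * m : ℤ) * ζ = y + s * (-(m * ζ)) by ring,
        Int.add_mul_ediv_left _ _ hs'.ne']
      ring
    rw [abs_le] at h
    refine ⟨⟨?_, ?_⟩, ?_⟩
    · rw [e1]
      have e2 : x / s - L = (x - s * L) / s := by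
        rw [show x - (s:ℤ) * L = x + s * (-L) by ring, Int.add_mul_ediv_left _ _ hs'.ne']
        ring
      rw [e2]
      exact Int.ediv_le_ediv hs' (by linarith [h.2])
    · rw [e1]
      have e2 : x / s + L = (x + s * L) / s := by
        rw [Int.add_mul_ediv_left _ _ hs'.ne']
      rw [e2]
      exact Int.ediv_le_ediv hs' (by linarith [h.1])
    · have h3 : 0 ≤ y / s := Int.ediv_nonneg h0 hs'.le
      have h4 : y / s < m := Int.ediv_lt_of_lt_mul hs' (by rw [hMz] at h1; linarith)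
      rw [show y / (s:ℤ) - m * ζ = y / s + m * (-ζ) by ring, Int.add_mul_emod_self_left]
      exact Int.emod_eq_of_lt h3 h4
  have k1 := key a.1 b.1 z.1 hz.1 hb.1.1 hb.1.2
  have k2 := key a.2.1 b.2.1 z.2 hz.2 hb.2.1 hb.2.2
  refine ⟨(b.1 / s - m * z.1, b.2.1 / s - m * z.2), ?_, ?_⟩
  · rw [Finset.mem_product, Finset.mem_Icc, Finset.mem_Icc]
    exact ⟨k1.1, k2.1⟩
  · simp only
    rw [k1.2, k2.2]
    rfl

theorem AA_nonneg {q : ℝ} (h0 : 0 ≤ q) (h1 : q ≤ 1) (k : ℕ) : 0 ≤ AA q k := by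
  unfold AA
  split_ifs
  · norm_num
  · unfold a4
    exact add_nonneg (Pr_nonneg (okq h0 h1) _ _) (Pr_nonneg (okq h0 h1) _ _)

theorem card_til {s m L : ℕ} (hs : 0 < s) (hM : M = s * m) {a : Edg} (Sh : Finset Edg)
    (hSh : ∀ b ∈ Sh, b ∈ EM M ∧ ¬ Fr M (s * L) a b) (T : Finset (ℤ × ℤ))
    (hT : ∀ t ∈ T, ∃ b ∈ Sh, til s b = t) : T.card ≤ (2 * L + 1) ^ 2 := by
  classical
  have hsub : T ⊆ (Finset.Icc (a.1 / (s:ℤ) - L) (a.1 / s + L) ×ˢ
      Finset.Icc (a.2.1 / (s:ℤ) - L) (a.2.1 / s + L)).image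
        (fun u => (u.1 % (m:ℤ), u.2 % (m:ℤ))) := by
    intro t ht
    obtain ⟨b, hb, hbt⟩ := hT t ht
    obtain ⟨u, hu, hut⟩ := til_mem hs hM (hSh b hb).1 (hSh b hb).2
    rw [Finset.mem_image]
    exact ⟨u, hu, hut.trans hbt⟩
  refine (Finset.card_le_card hsub).trans (Finset.card_image_le.trans ?_)
  rw [Finset.card_product, Int.card_Icc, Int.card_Icc]
  apply le_of_eq
  have e1 : (a.1 / (s:ℤ) + L + 1 - (a.1 / s - L)).toNat = 2 * L + 1 := by omega
  have e2 : (a.2.1 / (s:ℤ) + L + 1 - (a.2.1 / s - L)).toNat = 2 * L + 1 := by omega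
  rw [e1, e2]
  ring

theorem far_point (hP2 : TaskP2) (hP3 : TaskP3) {q : ℝ} (h0 : 0 ≤ q) (h1 : q ≤ 1) {j k : ℕ}
    (hjk : k + 7 ≤ j) (hM : 2 ^ (j + 1) < M) {a b c : Edg} (ha : a ∈ EM M) (hb : b ∈ EM M)
    (hc : c ∈ EM M) (hF : Far M j k a b c) :
    X3 q M a b c ≤ Ex (fun _ => q) (bT M (bp a) (2 ^ (j - 2))) (fun w =>
      ind (L4T M (2 ^ (j - 2)) a w) * (AA q k ^ 2 *
        PQ q (EM M \ bT M (bp a) (2 ^ (j - 2))) (Bf (fun F => fe M a (F ∪ w))
          (bT M (ctr (2 ^ k) (til (2 ^ k) b)) (8 * 2 ^ k))))) := by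
  obtain ⟨hbc, ⟨hab, hab'⟩, hk, hk'⟩ := hF
  have hMpos : 0 < M := lt_of_le_of_lt (Nat.zero_le _) hM
  have hra := red_of_mem ha
  have hrb := red_of_mem hb
  have hrc := red_of_mem hc
  have hG := tile_good hjk hMpos hra hab
  set ra : ℕ := 2 ^ (j - 2) with hradef
  set s : ℕ := 2 ^ k with hs
  have hj : 2 ^ j = 4 * ra := by
    rw [hradef, show (4:ℕ) = 2 ^ 2 by norm_num, ← pow_add]
    congr 1; omega
  have hjZ : (2:ℤ) ^ j = 4 * ra := by exact_mod_cast hj
  have hsra : 32 * s ≤ ra := by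
    rw [hradef, hs, show (32:ℕ) = 2 ^ 5 by norm_num, ← pow_add]
    exact Nat.pow_le_pow_right (by norm_num) (by omega)
  have hsZ : (2:ℤ) ^ k = s := by rw [hs]; push_cast; rfl
  have hspos : 1 ≤ s := Nat.one_le_two_pow
  have hMra : 2 * ra < M := by
    have : 2 ^ (j + 1) = 8 * ra := by rw [pow_succ, hj]; ring
    omega
  have hac : Fr M (2 ^ j - 2 ^ (k + 1)) a c := Fr_tri hab hk'
  have hka : (2:ℤ) ^ (k + 1) = 2 * s := by rw [pow_succ, hsZ]; ring
  have hac' : Fr M (ra + 1) a c := hac.mono (by rw [hjZ, hka]; omega)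
  have hab1 : Fr M (ra + 1) a b := hab.mono (by rw [hjZ]; omega)
  refine (hP3 q h0 h1 M ra (by omega) hMra a ha b hb c hc hbc hab1 hac').trans ?_
  set S := EM M \ bT M (bp a) ra with hS
  have hnear := til_near (s := s) (by omega) b
  set ct := ctr s (til s b) with hct
  obtain ⟨z, hz⟩ := not_Fr hk'
  rw [dst_le, hka] at hz
  -- inclusions of small blocks
  have hbsub : ∀ r : ℕ, r ≤ s → bT M (bp b) r ⊆ bT M ct (8 * s) := by
    intro r hr
    refine blk_sub (z := (0, 0)) (d := s) ?_ ?_ ?_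
    · unfold shE; simp only; rw [abs_le]; omega
    · unfold shE; simp only; rw [abs_le]; omega
    · push_cast; omega
  have hcsub : ∀ r : ℕ, r ≤ s → bT M (bp c) r ⊆ bT M ct (8 * s) := by
    intro r hr
    unfold shE at hz
    simp only at hz
    rw [abs_le, abs_le] at hz
    refine blk_sub (z := (-z.1, -z.2)) (d := 3 * s) ?_ ?_ ?_
    · unfold shE
      simp only
      rw [abs_le]
      have e : (M:ℤ) * -z.1 = -(M * z.1) := by ring
      rw [e]
      omega
    · unfold shE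
      simp only
      rw [abs_le]
      have e : (M:ℤ) * -z.2 = -(M * z.2) := by ring
      rw [e]
      omega
    · push_cast; omega
  have hctS : bT M ct (8 * s) ⊆ S := by
    refine Finset.Subset.trans ?_ hG.sub
    intro e he
    rw [mem_bT] at he ⊢
    obtain ⟨g, hg, rfl⟩ := he
    refine ⟨g, ?_, rfl⟩
    unfold blk at hg ⊢
    exact RE_subset (by push_cast; omega) (by push_cast; omega) (by push_cast; omega)
      (by push_cast; omega) hg
  apply Ex_mono (okq h0 h1)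
  intro w hw
  apply mul_le_mul_of_nonneg_left _ (ind_nonneg _)
  have hwS : Disjoint w S := by
    rw [Finset.disjoint_left]
    intro e he he'
    exact (Finset.mem_sdiff.1 he').2 (hw he)
  have hwEM : w ⊆ EM M := by
    intro e he
    obtain ⟨g, _, rfl⟩ := mem_bT.1 (hw he)
    exact red_mem_EM hMpos _
  by_cases hk0 : k = 0
  · have hAA : AA q k = 1 := by unfold AA; rw [if_pos hk0]
    rw [hAA, one_pow, one_mul]
    apply Pr_mono (okq h0 h1)
    intro F _ hSD
    refine SD_block (fun F G hFG h => fe_mono _ _ (Finset.union_subset_union_left hFG) h) ?_ ?_ hSD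
    · exact hbsub 1 hspos (mem_bT.2 ⟨b, bp_mem_blk le_rfl, hrb⟩)
    · exact hcsub 1 hspos (mem_bT.2 ⟨c, bp_mem_blk le_rfl, hrc⟩)
  · have hAA : AA q k = a4 q (2 ^ (k - 1)) := by unfold AA; rw [if_neg hk0]
    rw [hAA]
    set r : ℕ := 2 ^ (k - 1) with hr
    have hrs : s = 2 * r := by
      rw [hs, hr, ← pow_succ']
      congr 1; omega
    have hr1 : 1 ≤ r := Nat.one_le_two_pow
    have hbc' : Fr M (2 * r) b c := by
      have := hk.resolve_left hk0
      rw [hsZ, hrs] at this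
      push_cast at this
      exact this
    exact hP2 q h0 h1 M r (8 * s) hr1 (by omega) S w Finset.sdiff_subset hwS hwEM a ha b hb c hc ct
      (hab.mono (by rw [hjZ]; omega)) hbc' (hac.mono (by rw [hjZ, hka]; omega))
      (hbsub r (by omega)) (hcsub r (by omega)) hctS

end H35A
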