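import Pool.Agent.H35R3.Al.StmtsB

/-!
Project ALPHA (MP_5f99b0_pr): Task P2 (two disjoint blocks inside a larger block).
-/

set_option autoImplicit false

namespace H35A

open H974 H12S H973N Finset

namespace P2x

variable {M : ℕ}

theorem red_mem_bT {c : ℤ × ℤ} {r : ℕ} {g : Edg} (hg : g ∈ blk c r) : red M g ∈ bT M c r := by
  classical
  unfold bT
  exact Finset.mem_image_of_mem _ hg

theorem disj_bT {r : ℕ} {b c : Edg} (h : Fr M (2 * r) b c) :
    Disjoint (bT M (bp b) r) (bT M (bp c) r) := by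
  classical
  rw [Finset.disjoint_left]
  intro x hx hx'
  unfold bT at hx hx'
  rw [Finset.mem_image] at hx hx'
  obtain ⟨g, hg, rfl⟩ := hx
  obtain ⟨g', hg', hgg⟩ := hx'
  obtain ⟨z, hz⟩ := eq_shE_of_red hgg
  have h1 := dst_blk hg
  have h2 := dst_blk hg'
  have h3 := h z
  rw [hz] at h2
  unfold dst at h1 h2 h3
  unfold shE at h2 h3
  simp only at h1 h2 h3
  rw [max_le_iff, abs_le, abs_le] at h1 h2
  rw [lt_max_iff, lt_abs, lt_abs] at h3
  generalize (M:ℤ) * z.1 = A at *
  generalize (M:ℤ) * z.2 = B at *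
  omega

theorem mem_bT_self {b : Edg} {r : ℕ} (hr : 1 ≤ r) (hb : red M b = b) : b ∈ bT M (bp b) r := by
  have := red_mem_bT (M := M) (bp_mem_blk (e := b) hr)
  rwa [hb] at this

theorem L4T_inter {r : ℕ} {b : Edg} {F B : Finset Edg} (hB : bT M (bp b) r ⊆ B) :
    L4T M r b F ↔ L4T M r b (F ∩ B) := by
  apply L4T_congr
  intro g hg
  rw [Finset.mem_inter]
  exact ⟨fun h => ⟨h, hB (red_mem_bT hg)⟩, fun h => h.1⟩

theorem L4T_union {r : ℕ} {b : Edg} {F w S : Finset Edg} (hB : bT M (bp b) r ⊆ S)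
    (hw : Disjoint w S) : L4T M r b (F ∪ w) ↔ L4T M r b F := by
  apply L4T_congr
  intro g hg
  rw [Finset.mem_union]
  refine ⟨fun h => h.resolve_right fun h2 => ?_, fun h => Or.inl h⟩
  exact (Finset.disjoint_left.1 hw h2) (hB (red_mem_bT hg))

theorem Pf_union {f : Finset Edg → Prop} {w : Finset Edg} {b : Edg} (hb : b ∉ w)
    (F : Finset Edg) : Pf (fun F => f (F ∪ w)) b F ↔ Pf f b (F ∪ w) := by
  unfold Pf
  have e1 : insert b F ∪ w = insert b (F ∪ w) := Finset.insert_union _ _ _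
  have e2 : F.erase b ∪ w = (F ∪ w).erase b := by
    rw [Finset.erase_union_distrib, Finset.erase_eq_of_notMem hb]
  simp only
  rw [e1, e2]

theorem SD_union {f : Finset Edg → Prop} {w : Finset Edg} {b c : Edg} (hb : b ∉ w) (hc : c ∉ w)
    (F : Finset Edg) : SD (fun F => f (F ∪ w)) b c F ↔ SD f b c (F ∪ w) := by
  unfold SD
  rw [Pf_union hb, Pf_union hb, Pf_union hc, Pf_union hc]
  have e1 : ∀ G : Finset Edg, ∀ x, insert x G ∪ w = insert x (G ∪ w) :=
    fun G x => Finset.insert_union _ _ _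
  have e2 : ∀ G : Finset Edg, ∀ x, x ∉ w → G.erase x ∪ w = (G ∪ w).erase x := by
    intro G x hx
    rw [Finset.erase_union_distrib, Finset.erase_eq_of_notMem hx]
  have e3 : insert b (insert c F) ∪ w = insert b (insert c (F ∪ w)) := by rw [e1, e1]
  have e4 : (F.erase b).erase c ∪ w = ((F ∪ w).erase b).erase c := by
    rw [e2 _ _ hc, e2 _ _ hb]
  rw [e1, e1, e2 _ _ hc, e2 _ _ hb]
  simp only
  rw [e3, e4]

end P2x

open P2x

theorem taskP2 : TaskP2 := by
  classical
  intro q h0 h1 M r R hr hrM S w hS hwS hw a ha b hb c hc ctr hab hbc hac hbB hcB hBS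
  have hp : Ok (fun _ : Edg => q) := fun _ => ⟨h0, h1⟩
  set B := bT M ctr R with hB
  set f : Finset Edg → Prop := fun F => fe M a (F ∪ w) with hf
  have hfm : ∀ F G : Finset Edg, F ⊆ G → f F → f G :=
    fun F G h => fe_mono _ _ (Finset.union_subset_union_left h)
  have hbT := mem_bT_self (M := M) hr (red_of_mem hb)
  have hcT := mem_bT_self (M := M) hr (red_of_mem hc)
  have hbw : b ∉ w := fun h => Finset.disjoint_left.1 hwS h (hBS (hbB hbT))
  have hcw : c ∉ w := fun h => Finset.disjoint_left.1 hwS h (hBS (hcB hcT))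
  have h1' : ((r:ℤ) + 1) ≤ 2 * r := by omega
  have h2' : (r:ℤ) ≤ 2 * r := by omega
  have step : ∀ F, F ⊆ S → SD f b c F → (L4T M r b F ∧ L4T M r c F) ∧ Bf f B F := by
    intro F hF hSD
    have hSD2 : SD (fe M a) b c (F ∪ w) := (SD_union hbw hcw F).1 hSD
    refine ⟨⟨?_, ?_⟩, SD_block hfm (hbB hbT) (hcB hcT) hSD⟩
    · rw [← L4T_union (hbB.trans hBS) hwS]
      exact SD_L4T hr hrM (red_of_mem ha) (red_of_mem hb) (red_of_mem hc) (hab.mono h1')
        (hbc.symm.mono h2') hSD2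
    · rw [← L4T_union (hcB.trans hBS) hwS]
      exact SD_L4T hr hrM (red_of_mem ha) (red_of_mem hc) (red_of_mem hb) (hac.mono h1')
        (hbc.mono h2') (SD_comm hSD2)
  refine (Pr_mono hp step).trans ?_
  have ind1 : PQ q S (fun F => (L4T M r b F ∧ L4T M r c F) ∧ Bf f B F) =
      PQ q S (fun F => L4T M r b F ∧ L4T M r c F) * PQ q S (Bf f B) := by
    refine Pr_indep (S := B) (T := S \ B) hBS Finset.sdiff_subset Finset.disjoint_sdiff ?_ ?_
    · intro F _
      rw [L4T_inter (F := F) hbB, L4T_inter (F := F) hcB]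
    · intro F hF
      have e1 : F ∪ B = F ∩ (S \ B) ∪ B := by
        ext x
        simp only [Finset.mem_union, Finset.mem_inter, Finset.mem_sdiff]
        constructor
        · rintro (h | h)
          · by_cases hx : x ∈ B
            · exact Or.inr hx
            · exact Or.inl ⟨h, hF h, hx⟩
          · exact Or.inr h
        · rintro (h | h)
          · exact Or.inl h.1
          · exact Or.inr h
      have e2 : F \ B = (F ∩ (S \ B)) \ B := by
        ext x
        simp only [Finset.mem_inter, Finset.mem_sdiff]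
        constructor
        · rintro ⟨h, h'⟩
          exact ⟨⟨h, hF h, h'⟩, h'⟩
        · rintro ⟨h, h'⟩
          exact ⟨h.1, h'⟩
      unfold Bf
      rw [← e1, ← e2]
  have ind2 : PQ q S (fun F => L4T M r b F ∧ L4T M r c F) =
      PQ q S (L4T M r b) * PQ q S (L4T M r c) := by
    refine Pr_indep (S := bT M (bp b) r) (T := bT M (bp c) r) (hbB.trans hBS) (hcB.trans hBS)
      (disj_bT hbc) ?_ ?_
    · intro F _
      exact L4T_inter (Finset.Subset.refl _)
    · intro F _
      exact L4T_inter (Finset.Subset.refl _)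
  change PQ q S (fun F => (L4T M r b F ∧ L4T M r c F) ∧ Bf f B F) ≤ _
  rw [ind1, ind2]
  have k1 : PQ q S (L4T M r b) ≤ a4 q r :=
    pr_L4T h0 h1 hrM fun g hg => hBS (hbB (red_mem_bT hg))
  have k2 : PQ q S (L4T M r c) ≤ a4 q r :=
    pr_L4T h0 h1 hrM fun g hg => hBS (hcB (red_mem_bT hg))
  have n1 : 0 ≤ PQ q S (L4T M r b) := Pr_nonneg hp _ _
  have n2 : 0 ≤ PQ q S (L4T M r c) := Pr_nonneg hp _ _
  have n3 : 0 ≤ PQ q S (Bf f B) := Pr_nonneg hp _ _
  refine mul_le_mul_of_nonneg_right ?_ n3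
  rw [sq]
  exact mul_le_mul k1 k2 n2 (n1.trans k1)

end H35A
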