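import Pool.Agent.H35R3.Al.StmtsB

/-!
Project ALPHA (MP_5f99b0_pr): tasks P4 (counting) and P5 (comparable triples).
-/

set_option autoImplicit false

namespace H35A

open H974 H12S H973N Finset

/-- The box of edges around `a`. -/
noncomputable def bxE (r : ℕ) (a : Edg) : Finset Edg :=
  Finset.Icc (a.1 - r) (a.1 + r) ×ˢ (Finset.Icc (a.2.1 - r) (a.2.1 + r) ×ˢ Finset.univ)

theorem taskP4 : TaskP4 := by
  classical
  intro M r a
  have hsub : Nb M r a ⊆ (bxE r a).image (red M) := by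
    intro b hb
    unfold Nb at hb
    rw [Finset.mem_filter] at hb
    obtain ⟨hb1, hb2⟩ := hb
    unfold Fr at hb2
    push Not at hb2
    obtain ⟨z, hz⟩ := hb2
    rw [Finset.mem_image]
    refine ⟨shE M (-z.1, -z.2) b, ?_, ?_⟩
    · unfold bxE
      rw [Finset.mem_product, Finset.mem_product, Finset.mem_Icc, Finset.mem_Icc]
      unfold dst shE at hz
      simp only [max_le_iff, abs_le] at hz
      unfold shE
      simp only [Finset.mem_univ, and_true]
      obtain ⟨⟨h1, h2⟩, h3, h4⟩ := hz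
      refine ⟨⟨?_, ?_⟩, ?_, ?_⟩ <;> linarith
    · rw [red_shE, red_of_mem hb1]
  have hcard : (bxE r a).card = 2 * (2 * r + 1) ^ 2 := by
    unfold bxE
    rw [Finset.card_product, Finset.card_product, Int.card_Icc, Int.card_Icc, Finset.card_univ,
      Fintype.card_bool]
    have e1 : (a.1 + r + 1 - (a.1 - r)).toNat = 2 * r + 1 := by omega
    have e2 : (a.2.1 + r + 1 - (a.2.1 - r)).toNat = 2 * r + 1 := by omega
    rw [e1, e2]
    ring
  calc (Nb M r a).card ≤ ((bxE r a).image (red M)).card := Finset.card_le_card hsub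
    _ ≤ (bxE r a).card := Finset.card_image_le
    _ = _ := hcard

theorem X3_nonneg {q : ℝ} (h0 : 0 ≤ q) (h1 : q ≤ 1) (M : ℕ) (a b c : Edg) : 0 ≤ X3 q M a b c :=
  Pr_nonneg (fun _ => ⟨h0, h1⟩) _ _

theorem X3_le_one {q : ℝ} (h0 : 0 ≤ q) (h1 : q ≤ 1) (M : ℕ) (a b c : Edg) : X3 q M a b c ≤ 1 :=
  Pr_le_one (fun _ => ⟨h0, h1⟩) _ _

theorem AA_nonneg {q : ℝ} (h0 : 0 ≤ q) (h1 : q ≤ 1) (k : ℕ) : 0 ≤ AA q k := by
  unfold AA
  split_ifs
  · exact zero_le_one
  · exact add_nonneg (Pr_nonneg (fun _ => ⟨h0, h1⟩) _ _) (Pr_nonneg (fun _ => ⟨h0, h1⟩) _ _)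

theorem taskP5 : TaskP5 := by
  classical
  intro P1 P4 q h0 h1 M k hkM a ha
  have hA0 : 0 ≤ AA q k := AA_nonneg h0 h1 k
  have hA3 : 0 ≤ AA q k ^ 3 := pow_nonneg hA0 3
  have hX : ∀ b ∈ EM M, ∀ c ∈ EM M, Cmp M k a b c → X3 q M a b c ≤ AA q k ^ 3 := by
    intro b hb c hc h
    by_cases hk : k = 0
    · subst hk
      unfold AA
      rw [if_pos rfl, one_pow]
      exact X3_le_one h0 h1 _ _ _ _
    · obtain ⟨_, h2, _⟩ := h
      obtain ⟨f1, f2, f3⟩ := h2.resolve_left hk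
      unfold AA
      rw [if_neg hk]
      obtain ⟨j, rfl⟩ := Nat.exists_eq_succ_of_ne_zero hk
      have e1 : j.succ - 1 = j := rfl
      rw [e1]
      have e2 : (2:ℤ) ^ j.succ = 2 * ((2 ^ j : ℕ) : ℤ) := by
        push_cast
        rw [pow_succ]
        ring
      rw [e2] at f1 f2 f3
      refine P1 q h0 h1 M (2 ^ j) Nat.one_le_two_pow ?_ a ha b hb c hc f1 f2 f3
      rw [pow_succ] at hkM
      omega
  have hterm : ∀ b ∈ EM M, ∀ c ∈ EM M, ind (Cmp M k a b c) * X3 q M a b c ≤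
      (if b ∈ Nb M (2 ^ (k + 8)) a then (if c ∈ Nb M (2 ^ (k + 1)) b then AA q k ^ 3 else 0)
        else 0) := by
    intro b hb c hc
    by_cases h : Cmp M k a b c
    · have m1 : b ∈ Nb M (2 ^ (k + 8)) a := by
        unfold Nb
        rw [Finset.mem_filter]
        refine ⟨hb, ?_⟩
        have := h.2.2.2
        push_cast
        exact this
      have m2 : c ∈ Nb M (2 ^ (k + 1)) b := by
        unfold Nb
        rw [Finset.mem_filter]
        refine ⟨hc, ?_⟩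
        have := h.2.2.1
        push_cast
        exact this
      rw [ind_of h, one_mul, if_pos m1, if_pos m2]
      exact hX b hb c hc h
    · rw [ind_not_of h, zero_mul]
      split_ifs
      · exact hA3
      · exact le_refl _
      · exact le_refl _
  have c1 : ((Nb M (2 ^ (k + 8)) a).card : ℝ) ≤ 18 * 65536 * 4 ^ k := by
    have h := P4 M (2 ^ (k + 8)) a
    have h' : ((Nb M (2 ^ (k + 8)) a).card : ℝ) ≤ 2 * (2 * 2 ^ (k + 8) + 1) ^ 2 := by
      exact_mod_cast h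
    refine h'.trans ?_
    have e : (4:ℝ) ^ k = (2 ^ k) ^ 2 := by
      rw [← pow_mul, mul_comm, pow_mul]; norm_num
    have h1' : (1:ℝ) ≤ 2 ^ k := one_le_pow₀ (by norm_num)
    rw [e, pow_add]
    nlinarith
  have c2 : ∀ b, ((Nb M (2 ^ (k + 1)) b).card : ℝ) ≤ 50 * 4 ^ k := by
    intro b
    have h := P4 M (2 ^ (k + 1)) b
    have h' : ((Nb M (2 ^ (k + 1)) b).card : ℝ) ≤ 2 * (2 * 2 ^ (k + 1) + 1) ^ 2 := by
      exact_mod_cast h
    refine h'.trans ?_
    have e : (4:ℝ) ^ k = (2 ^ k) ^ 2 := by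
      rw [← pow_mul, mul_comm, pow_mul]; norm_num
    have h1' : (1:ℝ) ≤ 2 ^ k := one_le_pow₀ (by norm_num)
    rw [e, pow_succ (2:ℝ) k]
    nlinarith
  have hNb : ∀ r b, Nb M r b ⊆ EM M := by
    intro r b
    unfold Nb
    exact Finset.filter_subset _ _
  calc ∑ b ∈ EM M, ∑ c ∈ EM M, ind (Cmp M k a b c) * X3 q M a b c
      ≤ ∑ b ∈ EM M, ∑ c ∈ EM M, (if b ∈ Nb M (2 ^ (k + 8)) a then
          (if c ∈ Nb M (2 ^ (k + 1)) b then AA q k ^ 3 else 0) else 0) :=
        Finset.sum_le_sum fun b hb => Finset.sum_le_sum fun c hc => hterm b hb c hc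
    _ = ∑ b ∈ EM M, (if b ∈ Nb M (2 ^ (k + 8)) a then
          ((Nb M (2 ^ (k + 1)) b).card : ℝ) * AA q k ^ 3 else 0) := by
        apply Finset.sum_congr rfl
        intro b _
        by_cases hb : b ∈ Nb M (2 ^ (k + 8)) a
        · simp only [if_pos hb]
          rw [Finset.sum_ite_mem, Finset.inter_eq_right.2 (hNb _ _), Finset.sum_const,
            nsmul_eq_mul]
        · simp only [if_neg hb, Finset.sum_const_zero]
    _ = ∑ b ∈ Nb M (2 ^ (k + 8)) a, ((Nb M (2 ^ (k + 1)) b).card : ℝ) * AA q k ^ 3 := by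
        rw [Finset.sum_ite_mem, Finset.inter_eq_right.2 (hNb _ _)]
    _ ≤ ∑ b ∈ Nb M (2 ^ (k + 8)) a, 50 * 4 ^ k * AA q k ^ 3 :=
        Finset.sum_le_sum fun b _ => mul_le_mul_of_nonneg_right (c2 b) hA3
    _ = ((Nb M (2 ^ (k + 8)) a).card : ℝ) * (50 * 4 ^ k * AA q k ^ 3) := by
        rw [Finset.sum_const, nsmul_eq_mul]
    _ ≤ 18 * 65536 * 4 ^ k * (50 * 4 ^ k * AA q k ^ 3) :=
        mul_le_mul_of_nonneg_right c1 (by positivity)
    _ = 58982400 * 16 ^ k * AA q k ^ 3 := by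
        have e : (16:ℝ) ^ k = 4 ^ k * 4 ^ k := by
          rw [← mul_pow]; norm_num
        rw [e]; ring
    _ ≤ 2 ^ 30 * 16 ^ k * AA q k ^ 3 := by
        have h16 : (0:ℝ) ≤ 16 ^ k := by positivity
        apply mul_le_mul_of_nonneg_right _ hA3
        apply mul_le_mul_of_nonneg_right _ h16
        norm_num

end H35A
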