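import Pool.Agent.H35R3.Al.StmtsB

/-!
Project ALPHA, task P7 (helper169): decomposition of the sum over all triples of edges of the torus.
-/

set_option autoImplicit false

namespace H35A

open H974 H12S H973N Finset

namespace P7

/-- The torus distance. -/
noncomputable def dd (M : ℕ) (a b : Edg) : ℕ := sInf {r : ℕ | ¬ Fr M (r : ℤ) a b}

theorem not_fr_dst (M : ℕ) (a b : Edg) : ¬ Fr M (dst a b) a b := by
  intro h
  have h1 := h (0, 0)
  have h2 : shE M (0, 0) a = a := by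
    unfold shE
    simp
  rw [h2] at h1
  exact lt_irrefl _ h1

theorem dst_nonneg (a b : Edg) : 0 ≤ dst a b := by
  unfold dst
  exact le_max_of_le_left (abs_nonneg _)

theorem exists_not (M : ℕ) (a b : Edg) : ∃ r : ℕ, ¬ Fr M (r : ℤ) a b := by
  refine ⟨(dst a b).toNat, ?_⟩
  rw [Int.toNat_of_nonneg (dst_nonneg a b)]
  exact not_fr_dst M a b

theorem fr_iff {M : ℕ} {r : ℕ} {a b : Edg} : Fr M (r : ℤ) a b ↔ r < dd M a b := by
  have hne : {r : ℕ | ¬ Fr M (r : ℤ) a b}.Nonempty := exists_not M a b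
  constructor
  · intro h
    by_contra hc
    push Not at hc
    have h1 : ¬ Fr M ((dd M a b : ℕ) : ℤ) a b := Nat.sInf_mem hne
    exact h1 (h.mono (by exact_mod_cast hc))
  · intro h
    by_contra hc
    have h1 : dd M a b ≤ r := Nat.sInf_le hc
    omega

theorem fr2_iff {M : ℕ} {k : ℕ} {a b : Edg} : Fr M (2 ^ k) a b ↔ 2 ^ k < dd M a b := by
  rw [← fr_iff]
  push_cast
  exact Iff.rfl

theorem dd_comm (M : ℕ) (a b : Edg) : dd M a b = dd M b a := by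
  unfold dd
  congr 1
  ext r
  exact not_congr ⟨fun h => h.symm, fun h => h.symm⟩

theorem dd_lt {M : ℕ} {a b : Edg} (ha : a ∈ EM M) (hb : b ∈ EM M) : dd M a b < M := by
  rw [mem_EM] at ha hb
  by_contra hc
  push Not at hc
  have hM : 0 < M := by
    have := ha.1
    omega
  have h1 : Fr M ((M - 1 : ℕ) : ℤ) a b := by
    rw [fr_iff]; omega
  refine not_fr_dst M a b (h1.mono ?_)
  unfold dst
  rw [max_le_iff, abs_le, abs_le]
  omega

theorem X3_nonneg {q : ℝ} (h0 : 0 ≤ q) (h1 : q ≤ 1) (M : ℕ) (a b c : Edg) : 0 ≤ X3 q M a b c :=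
  Pr_nonneg (fun _ => ⟨h0, h1⟩) _ _

theorem X3_comm (q : ℝ) (M : ℕ) (a b c : Edg) : X3 q M a b c = X3 q M a c b :=
  Pr_congr (fun _ _ => ⟨SD_comm, SD_comm⟩)

theorem X3_rot (q : ℝ) {M : ℕ} {a b c : Edg} (ha : a ∈ EM M) (hb : b ∈ EM M) (hab : a ≠ b)
    (hbc : b ≠ c) (hac : a ≠ c) : X3 q M a b c = X3 q M b a c :=
  Pr_congr (fun _ _ => ⟨SD_rot (red_of_mem ha) (red_of_mem hb) hab hbc hac,
    SD_rot (red_of_mem hb) (red_of_mem ha) hab.symm hac hbc⟩)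

/-- weight of the distinct triples -/
noncomputable def W (q : ℝ) (M : ℕ) (a b c : Edg) : ℝ :=
  ind (a ≠ b ∧ b ≠ c ∧ a ≠ c) * X3 q M a b c

theorem W_nonneg {q : ℝ} (h0 : 0 ≤ q) (h1 : q ≤ 1) (M : ℕ) (a b c : Edg) : 0 ≤ W q M a b c :=
  mul_nonneg (ind_nonneg _) (X3_nonneg h0 h1 _ _ _ _)

theorem W_comm (q : ℝ) (M : ℕ) (a b c : Edg) : W q M a b c = W q M a c b := by
  unfold W
  rw [X3_comm, ind_congr (P := a ≠ b ∧ b ≠ c ∧ a ≠ c) (Q := a ≠ c ∧ c ≠ b ∧ a ≠ b)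
    ⟨fun h => ⟨h.2.2, h.2.1.symm, h.1⟩, fun h => ⟨h.2.2, h.2.1.symm, h.1⟩⟩]

theorem W_rot (q : ℝ) {M : ℕ} {a b c : Edg} (ha : a ∈ EM M) (hb : b ∈ EM M) :
    W q M a b c = W q M b a c := by
  unfold W
  by_cases h : a ≠ b ∧ b ≠ c ∧ a ≠ c
  · rw [ind_of h, ind_of ⟨h.1.symm, h.2.2, h.2.1⟩, X3_rot q ha hb h.1 h.2.1 h.2.2]
  · have h' : ¬ (b ≠ a ∧ a ≠ c ∧ b ≠ c) := fun h2 => h ⟨h2.1.symm, h2.2.2, h2.2.1⟩
    rw [ind_not_of h, ind_not_of h', zero_mul, zero_mul]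

/-- `(b, c)` is the closest pair -/
def Cl (M : ℕ) (a b c : Edg) : Prop := dd M b c ≤ dd M a b ∧ dd M b c ≤ dd M a c

theorem W_le {q : ℝ} (h0 : 0 ≤ q) (h1 : q ≤ 1) {M : ℕ} {a b c : Edg} (ha : a ∈ EM M)
    (hb : b ∈ EM M) (hc : c ∈ EM M) :
    W q M a b c ≤ ind (Cl M a b c) * W q M a b c + ind (Cl M b a c) * W q M b a c +
      ind (Cl M c a b) * W q M c a b := by
  have e1 : W q M b a c = W q M a b c := (W_rot q ha hb).symm
  have e2 : W q M c a b = W q M a b c := by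
    rw [W_comm q M a b c, W_rot q ha hc]
  rw [e1, e2]
  have hW := W_nonneg h0 h1 M a b c
  have hcases : Cl M a b c ∨ Cl M b a c ∨ Cl M c a b := by
    unfold Cl
    rw [dd_comm M b a, dd_comm M c a, dd_comm M c b]
    omega
  have i1 := mul_nonneg (ind_nonneg (Cl M a b c)) hW
  have i2 := mul_nonneg (ind_nonneg (Cl M b a c)) hW
  have i3 := mul_nonneg (ind_nonneg (Cl M c a b)) hW
  rcases hcases with h | h | h
  · rw [ind_of h] at i1 ⊢
    linarith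
  · rw [ind_of h] at i2 ⊢
    linarith
  · rw [ind_of h] at i3 ⊢
    linarith

theorem sum_W_le {q : ℝ} (h0 : 0 ≤ q) (h1 : q ≤ 1) (M : ℕ) :
    ∑ a ∈ EM M, ∑ b ∈ EM M, ∑ c ∈ EM M, W q M a b c ≤
      3 * ∑ a ∈ EM M, ∑ b ∈ EM M, ∑ c ∈ EM M, ind (Cl M a b c) * W q M a b c := by
  have key : ∑ a ∈ EM M, ∑ b ∈ EM M, ∑ c ∈ EM M, W q M a b c ≤
      ∑ a ∈ EM M, ∑ b ∈ EM M, ∑ c ∈ EM M, (ind (Cl M a b c) * W q M a b c +
        ind (Cl M b a c) * W q M b a c + ind (Cl M c a b) * W q M c a b) :=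
    Finset.sum_le_sum fun a ha => Finset.sum_le_sum fun b hb => Finset.sum_le_sum fun c hc =>
      W_le h0 h1 ha hb hc
  refine key.trans (le_of_eq ?_)
  simp only [Finset.sum_add_distrib]
  have e1 : ∑ a ∈ EM M, ∑ b ∈ EM M, ∑ c ∈ EM M, ind (Cl M b a c) * W q M b a c =
      ∑ a ∈ EM M, ∑ b ∈ EM M, ∑ c ∈ EM M, ind (Cl M a b c) * W q M a b c := Finset.sum_comm
  have e2 : ∑ a ∈ EM M, ∑ b ∈ EM M, ∑ c ∈ EM M, ind (Cl M c a b) * W q M c a b =
      ∑ a ∈ EM M, ∑ b ∈ EM M, ∑ c ∈ EM M, ind (Cl M a b c) * W q M a b c := by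
    rw [← Finset.sum_comm (s := EM M) (t := EM M)
      (f := fun a c => ∑ b ∈ EM M, ind (Cl M c a b) * W q M c a b)]
    exact Finset.sum_congr rfl fun a _ => Finset.sum_comm
  rw [e1, e2]
  ring

theorem exists_k {N d : ℕ} (hN : 1 ≤ N) (hd : d < 2 ^ N) :
    ∃ k < N, (k = 0 ∨ 2 ^ k < d) ∧ d ≤ 2 ^ (k + 1) := by
  classical
  have hex : ∃ k, d ≤ 2 ^ (k + 1) := ⟨N, by
    have : 2 ^ N ≤ 2 ^ (N + 1) := Nat.pow_le_pow_right (by norm_num) (by omega)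
    omega⟩
  refine ⟨Nat.find hex, ?_, ?_, Nat.find_spec hex⟩
  · have h1 : d ≤ 2 ^ (N - 1 + 1) := by
      rw [Nat.sub_add_cancel hN]; exact hd.le
    have h2 := Nat.find_le (h := hex) h1
    have h3 : Nat.find hex ≤ N - 1 := Nat.find_min' hex h1
    omega
  · rcases Nat.eq_zero_or_pos (Nat.find hex) with h | h
    · exact Or.inl h
    · right
      have h1 := Nat.find_min hex (m := Nat.find hex - 1) (by omega)
      rw [Nat.sub_add_cancel h] at h1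
      omega

theorem decomp {N : ℕ} (hN : 1 ≤ N) {a b c : Edg} (ha : a ∈ EM (2 ^ N)) (hb : b ∈ EM (2 ^ N))
    (hc : c ∈ EM (2 ^ N)) (hd : a ≠ b ∧ b ≠ c ∧ a ≠ c) (hcl : Cl (2 ^ N) a b c) :
    (∃ k ∈ Finset.range N, Cmp (2 ^ N) k a b c) ∨
      (∃ j ∈ Finset.range N, ∃ k ∈ Finset.range (j - 6), Far (2 ^ N) j k a b c) := by
  have hbc := dd_lt hb hc
  have hab := dd_lt ha hb
  obtain ⟨hc1, hc2⟩ := hcl
  obtain ⟨k, hk, hk1, hk2⟩ := exists_k hN hbc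
  by_cases h8 : Fr (2 ^ N) (2 ^ (k + 8)) a b
  · right
    rw [fr2_iff] at h8
    obtain ⟨j, hj, hj1, hj2⟩ := exists_k hN hab
    have hlt : 2 ^ (k + 8) < 2 ^ (j + 1) := lt_of_lt_of_le h8 hj2
    have hlt' : k + 8 < j + 1 := (Nat.pow_lt_pow_iff_right (by norm_num)).1 hlt
    refine ⟨j, Finset.mem_range.2 hj, k, Finset.mem_range.2 (by omega), hd.2.1, ⟨?_, ?_⟩, ?_, ?_⟩
    · rw [fr2_iff]
      rcases hj1 with hj1 | hj1
      · omega
      · exact hj1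
    · rw [fr2_iff]; omega
    · rcases hk1 with hk1 | hk1
      · exact Or.inl hk1
      · right; rw [fr2_iff]; exact hk1
    · rw [fr2_iff]; omega
  · left
    refine ⟨k, Finset.mem_range.2 hk, hd, ?_, ?_, h8⟩
    · rcases hk1 with hk1 | hk1
      · exact Or.inl hk1
      · right
        rw [fr2_iff, fr2_iff, fr2_iff]
        omega
    · rw [fr2_iff]; omega

theorem term_le {q : ℝ} (h0 : 0 ≤ q) (h1 : q ≤ 1) {N : ℕ} (hN : 1 ≤ N) {a b c : Edg}
    (ha : a ∈ EM (2 ^ N)) (hb : b ∈ EM (2 ^ N)) (hc : c ∈ EM (2 ^ N)) :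
    ind (Cl (2 ^ N) a b c) * W q (2 ^ N) a b c ≤
      ∑ k ∈ Finset.range N, ind (Cmp (2 ^ N) k a b c) * X3 q (2 ^ N) a b c +
      ∑ j ∈ Finset.range N, ∑ k ∈ Finset.range (j - 6),
        ind (Far (2 ^ N) j k a b c) * X3 q (2 ^ N) a b c := by
  have hX := X3_nonneg h0 h1 (2 ^ N) a b c
  have n1 : ∀ k ∈ Finset.range N, 0 ≤ ind (Cmp (2 ^ N) k a b c) * X3 q (2 ^ N) a b c :=
    fun k _ => mul_nonneg (ind_nonneg _) hX
  have n2 : ∀ j ∈ Finset.range N, ∀ k ∈ Finset.range (j - 6),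
      0 ≤ ind (Far (2 ^ N) j k a b c) * X3 q (2 ^ N) a b c :=
    fun j _ k _ => mul_nonneg (ind_nonneg _) hX
  have n2' : ∀ j ∈ Finset.range N, 0 ≤ ∑ k ∈ Finset.range (j - 6),
      ind (Far (2 ^ N) j k a b c) * X3 q (2 ^ N) a b c :=
    fun j hj => Finset.sum_nonneg (n2 j hj)
  have s1 := Finset.sum_nonneg n1
  have s2 := Finset.sum_nonneg n2'
  by_cases hd : a ≠ b ∧ b ≠ c ∧ a ≠ c
  · by_cases hcl : Cl (2 ^ N) a b c
    · unfold W
      rw [ind_of hcl, ind_of hd, one_mul, one_mul]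
      rcases decomp hN ha hb hc hd hcl with ⟨k, hk, h⟩ | ⟨j, hj, k, hk, h⟩
      · have h2 := Finset.single_le_sum n1 hk
        simp only [ind_of h, one_mul] at h2
        linarith
      · have h2 := Finset.single_le_sum (n2 j hj) hk
        have h3 := Finset.single_le_sum n2' hj
        simp only [ind_of h, one_mul] at h2
        linarith
    · rw [ind_not_of hcl, zero_mul]
      linarith
  · unfold W
    rw [ind_not_of hd, zero_mul, mul_zero]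
    linarith

theorem card_EM (M : ℕ) : (EM M).card = 2 * M ^ 2 := by
  unfold EM
  rw [Finset.card_product, Finset.card_product, Int.card_Ico]
  simp
  ring

theorem sum_swap3 {ι : Type*} (S : Finset Edg) (T : Finset ι) (f : Edg → Edg → ι → ℝ) :
    ∑ b ∈ S, ∑ c ∈ S, ∑ k ∈ T, f b c k = ∑ k ∈ T, ∑ b ∈ S, ∑ c ∈ S, f b c k := by
  rw [Finset.sum_comm' (s := T) (t := fun _ => S) (t' := S) (s' := fun _ => T) (by simp [and_comm])]
  exact Finset.sum_congr rfl fun b _ => Finset.sum_comm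

end P7

open P7 in
theorem taskP7 : TaskP7 := by
  intro q N U V hN h0 h1 hU hV hC hF
  have step1 := sum_W_le h0 h1 (2 ^ N)
  have step2 : ∀ a ∈ EM (2 ^ N), ∑ b ∈ EM (2 ^ N), ∑ c ∈ EM (2 ^ N),
      ind (Cl (2 ^ N) a b c) * W q (2 ^ N) a b c ≤
      ∑ k ∈ Finset.range N, V k + ∑ j ∈ Finset.range N, ∑ k ∈ Finset.range (j - 6), U j k := by
    intro a ha
    have t1 : ∑ b ∈ EM (2 ^ N), ∑ c ∈ EM (2 ^ N), ind (Cl (2 ^ N) a b c) * W q (2 ^ N) a b c ≤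
        ∑ b ∈ EM (2 ^ N), ∑ c ∈ EM (2 ^ N),
        (∑ k ∈ Finset.range N, ind (Cmp (2 ^ N) k a b c) * X3 q (2 ^ N) a b c +
        ∑ j ∈ Finset.range N, ∑ k ∈ Finset.range (j - 6),
          ind (Far (2 ^ N) j k a b c) * X3 q (2 ^ N) a b c) :=
      Finset.sum_le_sum fun b hb => Finset.sum_le_sum fun c hc => term_le h0 h1 hN ha hb hc
    refine t1.trans ?_
    simp only [Finset.sum_add_distrib]
    refine add_le_add ?_ ?_
    · rw [sum_swap3]
      exact Finset.sum_le_sum fun k hk => hC k (Finset.mem_range.1 hk) a ha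
    · rw [sum_swap3]
      refine Finset.sum_le_sum fun j hj => ?_
      rw [sum_swap3]
      refine Finset.sum_le_sum fun k hk => ?_
      have hk' := Finset.mem_range.1 hk
      exact hF j (Finset.mem_range.1 hj) k (by omega) a ha
  have step3 := Finset.sum_le_sum step2
  rw [Finset.sum_const, card_EM, nsmul_eq_mul] at step3
  have e4 : (((2 * (2 ^ N) ^ 2 : ℕ)) : ℝ) = 2 * 4 ^ N := by
    push_cast
    rw [← pow_mul, mul_comm N 2, pow_mul]
    norm_num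
  rw [e4] at step3
  have goal : ∑ a ∈ EM (2 ^ N), ∑ b ∈ EM (2 ^ N), ∑ c ∈ EM (2 ^ N), W q (2 ^ N) a b c ≤
      6 * 4 ^ N * (∑ k ∈ Finset.range N, V k +
        ∑ j ∈ Finset.range N, ∑ k ∈ Finset.range (j - 6), U j k) := by
    linarith
  exact goal

end H35A
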