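import Pool.Agent.H35R3.Al.StmtsB

/-! Task P8 of project ALPHA (helper217). -/

set_option autoImplicit false

namespace H35A

open Finset

lemma P8_pow2_rpow (i : ℕ) (s : ℝ) : (((2 ^ i : ℕ) : ℝ)) ^ s = ((2:ℝ) ^ s) ^ i := by
  push_cast
  rw [← Real.rpow_natCast, ← Real.rpow_mul (by norm_num), mul_comm, Real.rpow_mul (by norm_num),
    Real.rpow_natCast]

lemma P8_geo_le (y : ℝ) (hy : 1 < y) (N : ℕ) : ∑ k ∈ Finset.range N, y ^ k ≤ y ^ N / (y - 1) := by
  rw [geom_sum_eq (ne_of_gt hy)]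
  apply div_le_div_of_nonneg_right _ (by linarith)
  linarith

theorem taskP8 : TaskP8 := by
  intro ε B hε hε1 hB
  set x : ℝ := (2:ℝ) ^ (-(5/4) + ε) with hx
  set y : ℝ := (2:ℝ) ^ (1/4 + 3 * ε) with hy
  set z : ℝ := (2:ℝ) ^ (1/2 + 2 * ε) with hz
  have hx0 : 0 < x := by positivity
  have hy0 : 0 < y := by positivity
  have hz0 : 0 < z := by positivity
  have hy1 : 1 < y := Real.one_lt_rpow (by norm_num) (by linarith)
  have hz1 : 1 < z := Real.one_lt_rpow (by norm_num) (by linarith)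
  have e16 : (16:ℝ) = (2:ℝ) ^ (4:ℝ) := by
    rw [show (4:ℝ) = ((4:ℕ):ℝ) by norm_num, Real.rpow_natCast]; norm_num
  have e8 : (8:ℝ) = (2:ℝ) ^ (3:ℝ) := by
    rw [show (3:ℝ) = ((3:ℕ):ℝ) by norm_num, Real.rpow_natCast]; norm_num
  have e2 : (2:ℝ) = (2:ℝ) ^ (1:ℝ) := by simp
  have hx3 : x ^ 3 = (2:ℝ) ^ (3 * (-(5/4) + ε)) := by
    rw [hx, ← Real.rpow_natCast, ← Real.rpow_mul (by norm_num)]; congr 1; push_cast; ring
  have hx2 : x ^ 2 = (2:ℝ) ^ (2 * (-(5/4) + ε)) := by
    rw [hx, ← Real.rpow_natCast, ← Real.rpow_mul (by norm_num)]; congr 1; push_cast; ring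
  have h16 : 16 * x ^ 3 = y := by
    rw [hx3, e16, ← Real.rpow_add (by norm_num), hy]; congr 1; ring
  have h8 : 8 * x ^ 2 = z := by
    rw [hx2, e8, ← Real.rpow_add (by norm_num), hz]; congr 1; ring
  have h2xz : 2 * (x * z) = y := by
    have : x * z = (2:ℝ) ^ ((-(5/4) + ε) + (1/2 + 2 * ε)) := by
      rw [hx, hz, ← Real.rpow_add (by norm_num)]
    rw [this, hy]
    nth_rewrite 1 [e2]
    rw [← Real.rpow_add (by norm_num)]; congr 1; ring
  have hxinv : 1 ≤ 4 * x := by
    have : (4:ℝ) = (2:ℝ) ^ (2:ℝ) := by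
      rw [show (2:ℝ) = ((2:ℕ):ℝ) by norm_num, Real.rpow_natCast]; norm_num
    rw [this, hx, ← Real.rpow_add (by norm_num)]
    exact Real.one_le_rpow (by norm_num) (by linarith)
  set A : ℝ := 1 + 4 * B with hA
  have hA1 : 1 ≤ A := by rw [hA]; linarith
  refine ⟨(A ^ 3 + 16 * B * A ^ 2 / (z - 1)) / (y - 1), ?_⟩
  intro N f hf0 hf
  have hg : ∀ k, k < N → (if k = 0 then (1:ℝ) else f (2 ^ (k - 1))) ≤ A * x ^ k := by
    intro k hk
    by_cases h0 : k = 0
    · subst h0; simp; exact hA1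
    · rw [if_neg h0]
      obtain ⟨i, rfl⟩ : ∃ i, k = i + 1 := ⟨k - 1, by omega⟩
      have h1 := hf (2 ^ i) Nat.one_le_two_pow (Nat.pow_le_pow_right (by norm_num) (by omega))
      rw [P8_pow2_rpow] at h1
      simp only [Nat.add_sub_cancel]
      calc f (2 ^ i) ≤ B * x ^ i := h1
        _ = B * x ^ i * 1 := by ring
        _ ≤ B * x ^ i * (4 * x) := by
            apply mul_le_mul_of_nonneg_left hxinv; positivity
        _ = (4 * B) * x ^ (i + 1) := by ring
        _ ≤ A * x ^ (i + 1) := by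
            apply mul_le_mul_of_nonneg_right _ (by positivity); rw [hA]; linarith
  have hg0 : ∀ k : ℕ, 0 ≤ (if k = 0 then (1:ℝ) else f (2 ^ (k - 1))) := by
    intro k; split_ifs
    · norm_num
    · exact hf0 _
  have hS1 : ∑ k ∈ Finset.range N, (16:ℝ) ^ k * (if k = 0 then 1 else f (2 ^ (k - 1))) ^ 3 ≤
      A ^ 3 * (y ^ N / (y - 1)) := by
    calc ∑ k ∈ Finset.range N, (16:ℝ) ^ k * (if k = 0 then 1 else f (2 ^ (k - 1))) ^ 3
        ≤ ∑ k ∈ Finset.range N, A ^ 3 * y ^ k := by
          apply Finset.sum_le_sum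
          intro k hk
          rw [Finset.mem_range] at hk
          calc (16:ℝ) ^ k * (if k = 0 then 1 else f (2 ^ (k - 1))) ^ 3
              ≤ (16:ℝ) ^ k * (A * x ^ k) ^ 3 := by
                apply mul_le_mul_of_nonneg_left _ (by positivity)
                exact pow_le_pow_left₀ (hg0 k) (hg k hk) 3
            _ = A ^ 3 * (16 * x ^ 3) ^ k := by rw [mul_pow, mul_pow, ← pow_mul, ← pow_mul]; ring
            _ = A ^ 3 * y ^ k := by rw [h16]
      _ = A ^ 3 * ∑ k ∈ Finset.range N, y ^ k := by rw [Finset.mul_sum]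
      _ ≤ A ^ 3 * (y ^ N / (y - 1)) := by
          apply mul_le_mul_of_nonneg_left (P8_geo_le y hy1 N) (by positivity)
  have hS2 : ∑ j ∈ Finset.range N, ∑ k ∈ Finset.range (j - 6),
      f (2 ^ (j - 2)) * (16 ^ k * (if k = 0 then 1 else f (2 ^ (k - 1))) ^ 2 * 2 ^ (j - k)) ≤
      (16 * B * A ^ 2 / (z - 1)) * (y ^ N / (y - 1)) := by
    have hj : ∀ j ∈ Finset.range N, ∑ k ∈ Finset.range (j - 6),
        f (2 ^ (j - 2)) * (16 ^ k * (if k = 0 then 1 else f (2 ^ (k - 1))) ^ 2 * 2 ^ (j - k)) ≤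
        (16 * B * A ^ 2 / (z - 1)) * y ^ j := by
      intro j hjN
      rw [Finset.mem_range] at hjN
      have hz1' : 0 < z - 1 := by linarith
      by_cases hj6 : j ≤ 6
      · rw [Nat.sub_eq_zero_of_le hj6]
        simp only [Finset.range_zero, Finset.sum_empty]
        positivity
      push Not at hj6
      have hfj : f (2 ^ (j - 2)) ≤ 16 * B * x ^ j := by
        have h1 := hf (2 ^ (j - 2)) Nat.one_le_two_pow
          (Nat.pow_le_pow_right (by norm_num) (by omega))
        rw [P8_pow2_rpow] at h1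
        obtain ⟨i, rfl⟩ : ∃ i, j = i + 2 := ⟨j - 2, by omega⟩
        simp only [Nat.add_sub_cancel] at h1 ⊢
        have h4 : 1 ≤ (4 * x) ^ 2 := one_le_pow₀ hxinv
        calc f (2 ^ i) ≤ B * x ^ i := h1
          _ = B * x ^ i * 1 := by ring
          _ ≤ B * x ^ i * (4 * x) ^ 2 := by
              apply mul_le_mul_of_nonneg_left h4; positivity
          _ = 16 * B * x ^ (i + 2) := by ring
      calc ∑ k ∈ Finset.range (j - 6),
          f (2 ^ (j - 2)) * (16 ^ k * (if k = 0 then 1 else f (2 ^ (k - 1))) ^ 2 * 2 ^ (j - k))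
          ≤ ∑ k ∈ Finset.range (j - 6), (16 * B * x ^ j) * (A ^ 2 * z ^ k * 2 ^ j) := by
            apply Finset.sum_le_sum
            intro k hk
            rw [Finset.mem_range] at hk
            apply mul_le_mul hfj _ _ (by positivity)
            · calc 16 ^ k * (if k = 0 then 1 else f (2 ^ (k - 1))) ^ 2 * 2 ^ (j - k)
                  ≤ 16 ^ k * (A * x ^ k) ^ 2 * 2 ^ (j - k) := by
                    apply mul_le_mul_of_nonneg_right _ (by positivity)
                    apply mul_le_mul_of_nonneg_left _ (by positivity)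
                    exact pow_le_pow_left₀ (hg0 k) (hg k (by omega)) 2
                _ = A ^ 2 * z ^ k * 2 ^ j := by
                    have h3 : (2:ℝ) ^ j = 2 ^ k * 2 ^ (j - k) := by
                      rw [← pow_add]; congr 1; omega
                    rw [← h8, h3, mul_pow, mul_pow, ← pow_mul, ← pow_mul]
                    have h4 : (16:ℝ) ^ k = 8 ^ k * 2 ^ k := by rw [← mul_pow]; norm_num
                    rw [h4]; ring
            · have := hg0 k
              positivity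
        _ = 16 * B * A ^ 2 * (x ^ j * 2 ^ j) * ∑ k ∈ Finset.range (j - 6), z ^ k := by
            rw [Finset.mul_sum]; apply Finset.sum_congr rfl; intro k _; ring
        _ ≤ 16 * B * A ^ 2 * (x ^ j * 2 ^ j) * (z ^ j / (z - 1)) := by
            apply mul_le_mul_of_nonneg_left _ (by positivity)
            refine (P8_geo_le z hz1 _).trans ?_
            apply div_le_div_of_nonneg_right _ hz1'.le
            exact pow_le_pow_right₀ hz1.le (Nat.sub_le _ _)
        _ = (16 * B * A ^ 2 / (z - 1)) * (2 * (x * z)) ^ j := by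
            rw [mul_pow, mul_pow]; ring
        _ = (16 * B * A ^ 2 / (z - 1)) * y ^ j := by rw [h2xz]
    refine (Finset.sum_le_sum hj).trans ?_
    rw [← Finset.mul_sum]
    apply mul_le_mul_of_nonneg_left (P8_geo_le y hy1 N)
    have hz1' : 0 < z - 1 := by linarith
    positivity
  have hyN : y ^ N ≤ ((2:ℝ) ^ N) ^ (1/4 + 5 * ε) := by
    have : y ^ N = ((2:ℝ) ^ N) ^ (1/4 + 3 * ε) := by
      have := P8_pow2_rpow N (1/4 + 3 * ε)
      push_cast at this
      rw [this]
    rw [this]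
    apply Real.rpow_le_rpow_of_exponent_le
    · exact one_le_pow₀ (by norm_num)
    · linarith
  have hy1' : 0 < y - 1 := by linarith
  have hz1' : 0 < z - 1 := by linarith
  calc _ ≤ A ^ 3 * (y ^ N / (y - 1)) + (16 * B * A ^ 2 / (z - 1)) * (y ^ N / (y - 1)) :=
        add_le_add hS1 hS2
    _ = (A ^ 3 + 16 * B * A ^ 2 / (z - 1)) / (y - 1) * y ^ N := by ring
    _ ≤ _ := by
        apply mul_le_mul_of_nonneg_left hyN
        positivity

end H35A
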