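import Pool.Agent.H35R3.Al.StmtsB
import Pool.Agent.H973R3.NC.DV

/-! Task P9 of project ALPHA: derivatives (written by helper880). -/

set_option autoImplicit false

namespace H35A

open H974 H12S H973N Finset

theorem fe_insert_self (M : ℕ) (a : Edg) (F : Finset Edg) : fe M a (insert a F) ↔ fe M a F := by
  unfold fe
  rw [Finset.erase_insert_eq_erase]

theorem fe_erase_self (M : ℕ) (a : Edg) (F : Finset Edg) : fe M a (F.erase a) ↔ fe M a F := by
  unfold fe
  rw [Finset.erase_eq_of_notMem (Finset.notMem_erase a F)]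

theorem not_Pf_self (M : ℕ) (a : Edg) (F : Finset Edg) : ¬ Pf (fe M a) a F := by
  rintro ⟨h1, h2⟩
  rw [fe_insert_self] at h1
  rw [fe_erase_self] at h2
  exact h2 h1

theorem X3_left (q : ℝ) (M : ℕ) (a c : Edg) : X3 q M a a c = 0 := by
  unfold X3
  have : PQ q (EM M) (SD (fe M a) a c) = PQ q (EM M) (fun _ => False) := by
    apply Pr_congr
    intro F _
    constructor
    · rintro ⟨h | h, _⟩ <;> exact not_Pf_self M a _ h
    · exact False.elim
  rw [this]
  unfold PQ Pr
  rw [Ex_congr (g := fun _ => (0:ℝ)) (fun F _ => ind_not_of (fun h => h)), Ex_const]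

theorem X3_right (q : ℝ) (M : ℕ) (a b : Edg) : X3 q M a b a = 0 := by
  unfold X3
  have : PQ q (EM M) (SD (fe M a) b a) = PQ q (EM M) (fun _ => False) := by
    apply Pr_congr
    intro F _
    constructor
    · rintro ⟨_, h | h, _⟩ <;> exact not_Pf_self M a _ h
    · exact False.elim
  rw [this]
  unfold PQ Pr
  rw [Ex_congr (g := fun _ => (0:ℝ)) (fun F _ => ind_not_of (fun h => h)), Ex_const]

theorem taskP9 : TaskP9 := by
  intro M
  refine ⟨fun q => ?_, fun q h0 h1 => ?_⟩
  · have h := HasDerivAt.fun_sum (u := EM M) (x := q)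
      (A := fun a => fun q : ℝ => PQ q (EM M) (fe M a))
      (A' := fun a => ∑ b ∈ EM M, PQ q (EM M) (Pf (fe M a) b))
      (fun a _ => deriv_f (EM M) (fe M a) fe_mono q)
    exact h.const_mul _
  · have key : ∀ a : Edg, ∃ D : ℝ,
        HasDerivAt (fun q : ℝ => ∑ b ∈ EM M, PQ q (EM M) (Pf (fe M a) b)) D q ∧
        |D| ≤ ∑ b ∈ EM M, ∑ c ∈ (EM M).erase b, PQ q (EM M) (SD (fe M a) b c) := fun a =>
      deriv_T (EM M) (EM M) (Finset.Subset.refl _) (fe M a) fe_mono q h0 h1
    choose D hD hDb using key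
    refine ⟨((M:ℝ) ^ 2)⁻¹ * ∑ a ∈ EM M, D a, ?_, ?_⟩
    · have h := HasDerivAt.fun_sum (u := EM M) (x := q)
        (A := fun a => fun q : ℝ => ∑ b ∈ EM M, PQ q (EM M) (Pf (fe M a) b))
        (A' := D) (fun a _ => hD a)
      exact h.const_mul _
    · rw [abs_mul, abs_of_nonneg (by positivity : (0:ℝ) ≤ ((M:ℝ) ^ 2)⁻¹)]
      refine mul_le_mul_of_nonneg_left ?_ (by positivity)
      refine (abs_sum_le_sum_abs _ _).trans (sum_le_sum fun a _ => (hDb a).trans ?_)
      refine sum_le_sum fun b _ => ?_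
      have h2 : ∑ c ∈ (EM M).erase b, PQ q (EM M) (SD (fe M a) b c) =
          ∑ c ∈ (EM M).erase b, ind (a ≠ b ∧ b ≠ c ∧ a ≠ c) * X3 q M a b c := by
        refine sum_congr rfl fun c hc => ?_
        have hcb : b ≠ c := fun h => (mem_erase.mp hc).1 h.symm
        by_cases hab : a = b
        · subst hab
          rw [X3_left, mul_zero]
          exact X3_left q M a c
        · by_cases hac : a = c
          · subst hac
            rw [X3_right, mul_zero]
            exact X3_right q M a b
          · rw [ind_of ⟨hab, hcb, hac⟩, one_mul]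
            rfl
      rw [h2]
      refine sum_le_sum_of_subset_of_nonneg (erase_subset _ _) fun c _ _ => ?_
      refine mul_nonneg (ind_nonneg _) ?_
      unfold X3 PQ
      exact Pr_nonneg (E := Edg) (p := fun _ => q) (fun _ => ⟨h0, h1⟩) _ _

end H35A
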