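import Pool.Agent.H35R3.Al.StmtsA

/-! Project ALPHA, task B (helper227). -/

set_option autoImplicit false

namespace H35A

open H974 Finset

/-- The ends of `e` are joined without `e`. -/
def evB (e : Edg) (F : Finset Edg) : Prop := Reach (↑(F.erase e)) (src e) (tgt e)

theorem evB_incr (T : Finset Edg) (e : Edg) : IncrE T (evB e) := by
  intro F G h _ hF
  exact Reach.mono (by exact_mod_cast Finset.erase_subset_erase e h) hF

theorem evB_tr (q : ℝ) (S : Finset Edg) (x y : ℤ) (b : Bool) :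
    Pr (fun _ => q) ((trl x y).mp S) (evB (x, y, b)) = Pr (fun _ => q) S (evB (0, 0, b)) := by
  rw [LSym.pr]
  apply Pr_congr
  intro F _
  unfold evB
  have h1 : ((trl x y).mp F).erase (x, y, b) = (trl x y).mp (F.erase (0, 0, b)) := by
    ext ⟨u, v, c⟩
    simp only [Finset.mem_erase, LSym.mem_mp, trl_φs, ne_eq, Prod.mk.injEq, sub_eq_zero]
  have h2 : src (x, y, b) = (trl x y).ψ (src (0, 0, b)) := by simp
  have h3 : tgt (x, y, b) = (trl x y).ψ (tgt (0, 0, b)) := by
    cases b <;> simp [add_comm]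
  rw [h1, h2, h3, LSym.coe_mp, LSym.reach_iff]

theorem ok_const {q : ℝ} (h0 : 0 ≤ q) (h1 : q ≤ 1) : Ok (fun _ : Edg => q) := fun _ => ⟨h0, h1⟩

theorem taskB : TaskB := by
  intro q h0 h1
  have hok := ok_const h0 h1
  have hle1 : ∀ b m, hpl b m q ≤ 1 := fun b m => Pr_le_one hok _ _
  refine ⟨fun b m => ⟨Pr_nonneg hok _ _, hle1 b m, ?_⟩, ?_, ?_⟩
  · exact Pr_mono_set hok (boxE_mono (Nat.le_succ m)) (evB_incr _ (0, 0, b))
  · rintro n ⟨x, y, b⟩ he
    have hsub : bE n ⊆ (trl x y).mp (boxE n) := by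
      rw [boxE, trl_RE]
      cases b <;>
      · unfold bE at he ⊢
        rintro ⟨u, v, _ | _⟩ h <;> simp only [mem_RE_true, mem_RE_false] at he h ⊢ <;> omega
    have h2 : PC n q (x, y, b) ≤ hpl b n q := by
      have h3 : Pr (fun _ => q) (bE n) (evB (x, y, b)) ≤
          Pr (fun _ => q) ((trl x y).mp (boxE n)) (evB (x, y, b)) :=
        Pr_mono_set hok hsub (evB_incr _ _)
      rw [evB_tr] at h3
      exact h3
    refine h2.trans ?_
    show hpl b n q ≤ ⨆ m : ℕ, hpl b m q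
    exact le_ciSup (f := fun m : ℕ => hpl b m q) ⟨1, by rintro _ ⟨m, rfl⟩; exact hle1 b m⟩ n
  · rintro n m ⟨x, y, b⟩ he hx hy
    simp only at hx hy
    have hsub : (trl x y).mp (boxE m) ⊆ bE n := by
      rw [boxE, trl_RE]
      unfold bE
      rintro ⟨u, v, _ | _⟩ h <;> simp only [mem_RE_true, mem_RE_false] at h ⊢ <;> omega
    have h3 : Pr (fun _ => q) ((trl x y).mp (boxE m)) (evB (x, y, b)) ≤
        Pr (fun _ => q) (bE n) (evB (x, y, b)) :=
      Pr_mono_set hok hsub (evB_incr _ _)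
    rw [evB_tr] at h3
    exact h3

end H35A
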