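import Pool.Agent.H35R3.Al.StmtsA

/-!
Project ALPHA, task K: derivative of the mean number of clusters in a box.
-/

set_option autoImplicit false

namespace H35A

open H974 Finset

section Gen

variable {V : Type*} {G G' : SimpleGraph V} {u v : V}

theorem reach_insert (hadj : ∀ a b, G'.Adj a b ↔ G.Adj a b ∨ (a = u ∧ b = v) ∨ (a = v ∧ b = u))
    {a b : V} (h : G'.Reachable a b) :
    G.Reachable a b ∨ (G.Reachable a u ∧ G.Reachable v b) ∨
      (G.Reachable a v ∧ G.Reachable u b) := by
  rw [SimpleGraph.reachable_iff_reflTransGen] at h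
  induction h with
  | refl => exact Or.inl (SimpleGraph.Reachable.refl _)
  | @tail b c _ hbc ih =>
    rcases (hadj b c).mp hbc with h1 | ⟨h1, h2⟩ | ⟨h1, h2⟩
    · rcases ih with h | ⟨h, h'⟩ | ⟨h, h'⟩
      · exact Or.inl (h.trans h1.reachable)
      · exact Or.inr (Or.inl ⟨h, h'.trans h1.reachable⟩)
      · exact Or.inr (Or.inr ⟨h, h'.trans h1.reachable⟩)
    · subst h1 h2
      rcases ih with h | ⟨h, h'⟩ | ⟨h, h'⟩
      · exact Or.inr (Or.inl ⟨h, SimpleGraph.Reachable.refl _⟩)
      · exact Or.inr (Or.inl ⟨h, SimpleGraph.Reachable.refl _⟩)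
      · exact Or.inl h
    · subst h1 h2
      rcases ih with h | ⟨h, h'⟩ | ⟨h, h'⟩
      · exact Or.inr (Or.inr ⟨h, SimpleGraph.Reachable.refl _⟩)
      · exact Or.inl h
      · exact Or.inr (Or.inr ⟨h, SimpleGraph.Reachable.refl _⟩)

theorem card_cc_reach
    (hadj : ∀ a b, G'.Adj a b ↔ G.Adj a b ∨ (a = u ∧ b = v) ∨ (a = v ∧ b = u))
    (h : G.Reachable u v) :
    Nat.card G'.ConnectedComponent = Nat.card G.ConnectedComponent := by
  have hle : G ≤ G' := fun a b hab => (hadj a b).mpr (Or.inl hab)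
  have hiff : ∀ a b, G'.Reachable a b ↔ G.Reachable a b := by
    intro a b
    constructor
    · intro hab
      rcases reach_insert hadj hab with h1 | ⟨h1, h2⟩ | ⟨h1, h2⟩
      · exact h1
      · exact (h1.trans h).trans h2
      · exact (h1.trans h.symm).trans h2
    · intro hab
      exact hab.mono hle
  symm
  apply Nat.card_congr
  refine Equiv.ofBijective (SimpleGraph.ConnectedComponent.map (SimpleGraph.Hom.ofLE hle)) ⟨?_, ?_⟩
  · intro c c' hcc
    induction c using SimpleGraph.ConnectedComponent.ind with | _ a =>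
    induction c' using SimpleGraph.ConnectedComponent.ind with | _ b =>
    rw [SimpleGraph.ConnectedComponent.map_mk, SimpleGraph.ConnectedComponent.map_mk,
      SimpleGraph.ConnectedComponent.eq] at hcc
    rw [SimpleGraph.ConnectedComponent.eq]
    exact (hiff a b).mp hcc
  · intro c
    induction c using SimpleGraph.ConnectedComponent.ind with | _ a =>
    exact ⟨G.connectedComponentMk a, rfl⟩

theorem card_cc_not [Finite V]
    (hadj : ∀ a b, G'.Adj a b ↔ G.Adj a b ∨ (a = u ∧ b = v) ∨ (a = v ∧ b = u))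
    (h : ¬ G.Reachable u v) :
    Nat.card G'.ConnectedComponent + 1 = Nat.card G.ConnectedComponent := by
  classical
  have hle : G ≤ G' := fun a b hab => (hadj a b).mpr (Or.inl hab)
  have huv : G'.Reachable u v :=
    SimpleGraph.Adj.reachable ((hadj u v).mpr (Or.inr (Or.inl ⟨rfl, rfl⟩)))
  have hfin : Finite G.ConnectedComponent := Quot.finite _
  have h1 : Nat.card {c : G.ConnectedComponent // c ≠ G.connectedComponentMk v} + 1 =
      Nat.card G.ConnectedComponent := by
    rw [← Nat.card_congr (Equiv.optionSubtypeNe (G.connectedComponentMk v)), Finite.card_option]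
  rw [← h1]
  congr 1
  symm
  apply Nat.card_congr
  refine Equiv.ofBijective (fun c : {c : G.ConnectedComponent // c ≠ G.connectedComponentMk v} =>
    SimpleGraph.ConnectedComponent.map (SimpleGraph.Hom.ofLE hle) c.1) ⟨?_, ?_⟩
  · rintro ⟨c, hc⟩ ⟨c', hc'⟩ hcc
    induction c using SimpleGraph.ConnectedComponent.ind with | _ a =>
    induction c' using SimpleGraph.ConnectedComponent.ind with | _ b =>
    simp only at hcc
    rw [SimpleGraph.ConnectedComponent.map_mk, SimpleGraph.ConnectedComponent.map_mk,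
      SimpleGraph.ConnectedComponent.eq] at hcc
    have hcc' : G'.Reachable a b := hcc
    rw [Subtype.mk.injEq, SimpleGraph.ConnectedComponent.eq]
    rw [Ne, SimpleGraph.ConnectedComponent.eq] at hc hc'
    rcases reach_insert hadj hcc' with h1 | ⟨h1, h2⟩ | ⟨h1, h2⟩
    · exact h1
    · exact absurd h2.symm hc'
    · exact absurd h1 hc
  · intro c
    induction c using SimpleGraph.ConnectedComponent.ind with | _ a =>
    by_cases hav : G.Reachable a v
    · refine ⟨⟨G.connectedComponentMk u, ?_⟩, ?_⟩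
      · rw [Ne, SimpleGraph.ConnectedComponent.eq]
        exact h
      · simp only
        rw [SimpleGraph.ConnectedComponent.map_mk, SimpleGraph.ConnectedComponent.eq]
        exact huv.trans (hav.mono hle).symm
    · refine ⟨⟨G.connectedComponentMk a, ?_⟩, rfl⟩
      rw [Ne, SimpleGraph.ConnectedComponent.eq]
      exact hav

end Gen

theorem src_mem {n : ℕ} {e : Edg} (he : e ∈ bE n) :
    (0 ≤ (src e).1 ∧ (src e).1 < n) ∧ (0 ≤ (src e).2 ∧ (src e).2 < n) := by
  obtain ⟨x, y, b⟩ := e
  unfold bE at he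
  cases b
  · rw [mem_RE_false] at he
    simp only [src_mk]
    omega
  · rw [mem_RE_true] at he
    simp only [src_mk]
    omega

theorem tgt_mem {n : ℕ} {e : Edg} (he : e ∈ bE n) :
    (0 ≤ (tgt e).1 ∧ (tgt e).1 < n) ∧ (0 ≤ (tgt e).2 ∧ (tgt e).2 < n) := by
  obtain ⟨x, y, b⟩ := e
  unfold bE at he
  cases b
  · rw [mem_RE_false] at he
    simp only [tgt_false]
    omega
  · rw [mem_RE_true] at he
    simp only [tgt_true]
    omega

instance (n : ℕ) : Finite (bV n) := by
  have h : ({v : ℤ × ℤ | (0 ≤ v.1 ∧ v.1 < n) ∧ (0 ≤ v.2 ∧ v.2 < n)}).Finite := by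
    apply Set.Finite.subset (Finset.finite_toSet (Finset.Ico (0:ℤ) n ×ˢ Finset.Ico (0:ℤ) n))
    rintro ⟨x, y⟩ hv
    simp only [Set.mem_ofPred_eq] at hv
    simp only [Finset.coe_product, Finset.coe_Ico, Set.mem_prod, Set.mem_Ico]
    exact hv
  exact h

theorem card_bV (n : ℕ) : Nat.card (bV n) = n ^ 2 := by
  rw [Nat.subtype_card (Finset.Ico (0:ℤ) n ×ˢ Finset.Ico (0:ℤ) n)]
  · rw [Finset.card_product, Int.card_Ico]
    simp [sq]
  · rintro ⟨x, y⟩
    simp [Finset.mem_product]

theorem reach_iff {n : ℕ} {F : Finset Edg} (hF : F ⊆ bE n) (u v : bV n) :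
    Reach (↑F : Set Edg) u.1 v.1 ↔ (openG n F).Reachable u v := by
  constructor
  · intro h
    have key : ∀ w : Vtx, Reach (↑F : Set Edg) u.1 w → ∃ hw : (0 ≤ w.1 ∧ w.1 < n) ∧ (0 ≤ w.2 ∧ w.2 < n),
        (openG n F).Reachable u ⟨w, hw⟩ := by
      intro w hw
      unfold Reach at hw
      induction hw with
      | refl => exact ⟨u.2, SimpleGraph.Reachable.refl _⟩
      | @tail b c _ hbc ih =>
        obtain ⟨hb, hr⟩ := ih
        obtain ⟨e, he, hbc⟩ := hbc
        have he' : e ∈ F := by simpa using he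
        have hc : (0 ≤ c.1 ∧ c.1 < n) ∧ (0 ≤ c.2 ∧ c.2 < n) := by
          rcases hbc with ⟨_, h2⟩ | ⟨h1, _⟩
          · rw [← h2]; exact tgt_mem (hF he')
          · rw [← h1]; exact src_mem (hF he')
        refine ⟨hc, hr.trans (SimpleGraph.Adj.reachable ?_)⟩
        exact ⟨e, he', hbc⟩
    obtain ⟨_, hr⟩ := key v.1 h
    exact hr
  · intro h
    rw [SimpleGraph.reachable_iff_reflTransGen] at h
    unfold Reach
    induction h with
    | refl => exact Relation.ReflTransGen.refl
    | tail _ hbc ih =>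
      obtain ⟨e, he, hbc⟩ := hbc
      exact ih.tail ⟨e, by simpa using he, hbc⟩

theorem openG_insert {n : ℕ} {F : Finset Edg} {e : Edg} (he : e ∈ bE n) (a b : bV n) :
    (openG n (insert e F)).Adj a b ↔ (openG n F).Adj a b ∨
      (a = ⟨src e, src_mem he⟩ ∧ b = ⟨tgt e, tgt_mem he⟩) ∨
      (a = ⟨tgt e, tgt_mem he⟩ ∧ b = ⟨src e, src_mem he⟩) := by
  constructor
  · rintro ⟨e', he', h⟩
    rw [Finset.mem_insert] at he'
    rcases he' with rfl | he'
    · right
      rcases h with ⟨h1, h2⟩ | ⟨h1, h2⟩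
      · left
        exact ⟨Subtype.ext h1.symm, Subtype.ext h2.symm⟩
      · right
        exact ⟨Subtype.ext h2.symm, Subtype.ext h1.symm⟩
    · exact Or.inl ⟨e', he', h⟩
  · rintro (⟨e', he', h⟩ | ⟨rfl, rfl⟩ | ⟨rfl, rfl⟩)
    · exact ⟨e', Finset.mem_insert_of_mem he', h⟩
    · exact ⟨e, Finset.mem_insert_self _ _, Or.inl ⟨rfl, rfl⟩⟩
    · exact ⟨e, Finset.mem_insert_self _ _, Or.inr ⟨rfl, rfl⟩⟩

theorem Kn_diff {n : ℕ} {F : Finset Edg} {e : Edg} (hF : F ⊆ bE n) (he : e ∈ bE n) :
    (Kn n (insert e F) : ℝ) - (Kn n F : ℝ) = -ind (¬ Reach (↑F : Set Edg) (src e) (tgt e)) := by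
  have h0 := reach_iff hF (⟨src e, src_mem he⟩ : bV n) ⟨tgt e, tgt_mem he⟩
  by_cases h : Reach (↑F : Set Edg) (src e) (tgt e)
  · rw [ind_not_of (not_not.mpr h)]
    have h1 := card_cc_reach (openG_insert (F := F) he) (h0.mp h)
    unfold Kn
    rw [h1]
    ring
  · rw [ind_of h]
    have h1 := card_cc_not (openG_insert (F := F) he) (fun hr => h (h0.mpr hr))
    unfold Kn
    rw [← h1]
    push_cast
    ring

theorem Ex_zero (S : Finset Edg) (f : Finset Edg → ℝ) : Ex (fun _ => 0) S f = f ∅ := by
  induction S using Finset.induction_on with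
  | empty => rw [Ex_empty]
  | insert a S ha ih => rw [Ex_insert _ ha, ih]; ring

theorem Kn_empty (n : ℕ) : Kn n ∅ = n ^ 2 := by
  unfold Kn
  rw [← card_bV]
  symm
  apply Nat.card_congr
  refine Equiv.ofBijective (openG n ∅).connectedComponentMk ⟨?_, ?_⟩
  · intro a b hab
    rw [SimpleGraph.ConnectedComponent.eq, SimpleGraph.reachable_iff_reflTransGen] at hab
    induction hab with
    | refl => rfl
    | tail _ hbc _ =>
      obtain ⟨e, he, _⟩ := hbc
      simp at he
  · intro c
    induction c using SimpleGraph.ConnectedComponent.ind with | _ a =>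
    exact ⟨a, rfl⟩

theorem taskK : TaskK := by
  intro n
  refine ⟨?_, ?_⟩
  · unfold EK
    rw [Ex_zero, Kn_empty]
    push_cast
    rfl
  · intro q
    have h := Ex_hasDerivAt (E := Edg) (fun p _ => p) (fun _ => 1) q (fun _ => hasDerivAt_id q)
      (bE n) (fun F => (Kn n F : ℝ))
    have h2 : (∑ e ∈ bE n, (1:ℝ) * Ex (fun _ => q) ((bE n).erase e)
        (fun F => (Kn n (insert e F) : ℝ) - (Kn n F : ℝ))) =
        -∑ e ∈ bE n, (1 - PC n q e) := by
      rw [← Finset.sum_neg_distrib]
      apply Finset.sum_congr rfl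
      intro e he
      have h3 : PC n q e = Pr (fun _ => q) ((bE n).erase e)
          (fun F => Reach (↑F : Set Edg) (src e) (tgt e)) := by
        unfold PC
        rw [Pr_local (Finset.erase_subset e (bE n))]
        · apply Pr_congr
          intro F hF
          have : F.erase e = F := Finset.erase_eq_of_notMem (fun h => by
            simpa using hF h)
          rw [this]
        · intro F hF
          have : (F ∩ (bE n).erase e).erase e = F.erase e := by
            ext x
            simp only [Finset.mem_erase, Finset.mem_inter]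
            constructor
            · rintro ⟨h1, h2, _⟩
              exact ⟨h1, h2⟩
            · rintro ⟨h1, h2⟩
              exact ⟨h1, h2, h1, hF h2⟩
          rw [this]
      rw [h3, ← Pr_not, one_mul]
      unfold Pr
      have h4 : Ex (fun _ => q) ((bE n).erase e)
          (fun F => (Kn n (insert e F) : ℝ) - (Kn n F : ℝ)) =
          Ex (fun _ => q) ((bE n).erase e)
            (fun F => (-1) * ind (¬ Reach (↑F : Set Edg) (src e) (tgt e))) := by
        apply Ex_congr
        intro F hF
        rw [Kn_diff (hF.trans (Finset.erase_subset _ _)) he]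
        ring
      rw [h4, Ex_mul_left]
      ring
    rw [h2] at h
    exact h

end H35A
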