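import Pool.Agent.H35R3.Al.StmtsA

/-! Project ALPHA, task L: the limit of the mean number of clusters per vertex. -/

set_option autoImplicit false

namespace H35A

open H974 Finset MeasureTheory Filter

namespace TL

theorem pr_cont (S : Finset Edg) (A : Finset Edg → Prop) :
    Continuous (fun q : ℝ => Pr (fun _ => q) S A) := by
  unfold Pr Ex
  refine continuous_finsetSum _ (fun F _ => ?_)
  refine Continuous.mul (Continuous.mul ?_ ?_) continuous_const
  · exact continuous_finsetProd _ (fun _ _ => continuous_id)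
  · exact continuous_finsetProd _ (fun _ _ => continuous_const.sub continuous_id)

theorem ok_const {q : ℝ} (h0 : 0 ≤ q) (h1 : q ≤ 1) : Ok (fun _ : Edg => q) := fun _ => ⟨h0, h1⟩

theorem hinf_meas (b : Bool) : Measurable (fun q : ℝ => hinf b q) := by
  unfold hinf
  exact Measurable.iSup (fun m => (pr_cont _ _).measurable)

theorem hinf_facts (hB : TaskB) {q : ℝ} (h0 : 0 ≤ q) (h1 : q ≤ 1) (b : Bool) :
    Tendsto (fun m => hpl b m q) atTop (nhds (hinf b q)) ∧ 0 ≤ hinf b q ∧ hinf b q ≤ 1 := by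
  have h := (hB q h0 h1).1 b
  have hmono : Monotone (fun m => hpl b m q) := monotone_nat_of_le_succ (fun m => (h m).2.2)
  have hbdd : BddAbove (Set.range (fun m => hpl b m q)) := by
    refine ⟨1, ?_⟩
    rintro x ⟨m, rfl⟩
    exact (h m).2.1
  refine ⟨tendsto_atTop_ciSup hmono hbdd, ?_, ?_⟩
  · exact (h 0).1.trans (le_ciSup hbdd 0)
  · exact ciSup_le (fun m => (h m).2.1)

/-- the edges of each type -/
theorem bE_eq (n : ℕ) : bE n =
    (Ico (0:ℤ) ((n:ℤ) - 1) ×ˢ (Ico (0:ℤ) n ×ˢ {true})) ∪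
    (Ico (0:ℤ) n ×ˢ (Ico (0:ℤ) ((n:ℤ) - 1) ×ˢ {false})) := by
  ext ⟨x, y, b⟩
  unfold bE
  cases b
  · simp only [mem_RE_false, mem_union, mem_product, mem_Ico, mem_singleton]
    simp only [Bool.false_eq_true, and_false, false_or, and_true]
    omega
  · simp only [mem_RE_true, mem_union, mem_product, mem_Ico, mem_singleton]
    simp only [Bool.true_eq_false, and_false, or_false, and_true]
    omega

theorem sum_bE (n : ℕ) (hn : 1 ≤ n) (g : Bool → ℝ) :
    ∑ e ∈ bE n, g e.2.2 = ((n:ℝ) - 1) * n * (g true + g false) := by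
  have hd : Disjoint (Ico (0:ℤ) ((n:ℤ) - 1) ×ˢ (Ico (0:ℤ) n ×ˢ ({true} : Finset Bool)))
      (Ico (0:ℤ) n ×ˢ (Ico (0:ℤ) ((n:ℤ) - 1) ×ˢ ({false} : Finset Bool))) := by
    rw [Finset.disjoint_left]
    rintro ⟨x, y, b⟩ h1 h2
    simp only [mem_product, mem_singleton] at h1 h2
    rw [h1.2.2] at h2
    exact absurd h2.2.2 (by simp)
  rw [bE_eq, sum_union hd]
  have e1 : ∑ e ∈ Ico (0:ℤ) ((n:ℤ) - 1) ×ˢ (Ico (0:ℤ) n ×ˢ ({true} : Finset Bool)), g e.2.2 =
      ((n:ℝ) - 1) * n * g true := by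
    rw [Finset.sum_congr rfl (g := fun _ => g true) (fun e he => by
      simp only [mem_product, mem_singleton] at he
      rw [he.2.2])]
    rw [sum_const, card_product, card_product, Int.card_Ico, Int.card_Ico, card_singleton,
      nsmul_eq_mul]
    have h1 : ((n:ℤ) - 1 - 0).toNat = n - 1 := by omega
    have h2 : ((n:ℤ) - 0).toNat = n := by omega
    rw [h1, h2]
    push_cast [Nat.cast_sub hn]
    ring
  have e2 : ∑ e ∈ Ico (0:ℤ) n ×ˢ (Ico (0:ℤ) ((n:ℤ) - 1) ×ˢ ({false} : Finset Bool)), g e.2.2 =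
      ((n:ℝ) - 1) * n * g false := by
    rw [Finset.sum_congr rfl (g := fun _ => g false) (fun e he => by
      simp only [mem_product, mem_singleton] at he
      rw [he.2.2])]
    rw [sum_const, card_product, card_product, Int.card_Ico, Int.card_Ico, card_singleton,
      nsmul_eq_mul]
    have h1 : ((n:ℤ) - 1 - 0).toNat = n - 1 := by omega
    have h2 : ((n:ℤ) - 0).toNat = n := by omega
    rw [h1, h2]
    push_cast [Nat.cast_sub hn]
    ring
  rw [e1, e2]
  ring

/-- inner edges -/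
def Inner (n m : ℕ) (e : Edg) : Prop :=
  ((m:ℤ) ≤ e.1 ∧ e.1 + m ≤ (n:ℤ) - 1) ∧ ((m:ℤ) ≤ e.2.1 ∧ e.2.1 + m ≤ (n:ℤ) - 1)

open Classical in
theorem card_outer (n m : ℕ) : ((bE n).filter (fun e => ¬ Inner n m e)).card ≤ 8 * m * n := by
  have hsub : (bE n).filter (fun e => ¬ Inner n m e) ⊆
      ((Ico (0:ℤ) m ×ˢ (Ico (0:ℤ) n ×ˢ (univ : Finset Bool))) ∪
       (Ico ((n:ℤ) - m) n ×ˢ (Ico (0:ℤ) n ×ˢ (univ : Finset Bool)))) ∪
      ((Ico (0:ℤ) n ×ˢ (Ico (0:ℤ) m ×ˢ (univ : Finset Bool))) ∪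
       (Ico (0:ℤ) n ×ˢ (Ico ((n:ℤ) - m) n ×ˢ (univ : Finset Bool)))) := by
    rintro ⟨x, y, b⟩ h
    rw [mem_filter, bE_eq] at h
    obtain ⟨h1, h2⟩ := h
    unfold Inner at h2
    simp only [mem_union, mem_product, mem_Ico, mem_univ, and_true, mem_singleton] at h1 h2 ⊢
    omega
  refine (card_le_card hsub).trans ?_
  refine (card_union_le _ _).trans ?_
  refine (add_le_add (card_union_le _ _) (card_union_le _ _)).trans ?_
  simp only [card_product, Int.card_Ico, Finset.card_univ, Fintype.card_bool]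
  have h1 : ((m:ℤ) - 0).toNat = m := by omega
  have h2 : ((n:ℤ) - 0).toNat = n := by omega
  have h3 : ((n:ℤ) - ((n:ℤ) - m)).toNat = m := by omega
  rw [h1, h2, h3]
  apply le_of_eq
  ring

/-- the density of the derivative -/
noncomputable def DD (n : ℕ) (q : ℝ) : ℝ := (∑ e ∈ bE n, (1 - PC n q e)) / (n:ℝ) ^ 2

theorem pc_bounds {q : ℝ} (h0 : 0 ≤ q) (h1 : q ≤ 1) (n : ℕ) (e : Edg) :
    0 ≤ PC n q e ∧ PC n q e ≤ 1 :=
  ⟨Pr_nonneg (ok_const h0 h1) _ _, Pr_le_one (ok_const h0 h1) _ _⟩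

theorem DD_cont (n : ℕ) : Continuous (DD n) := by
  unfold DD PC
  exact (continuous_finsetSum _ (fun e _ => continuous_const.sub (pr_cont _ _))).div_const _

theorem DD_bound {q : ℝ} (h0 : 0 ≤ q) (h1 : q ≤ 1) (n : ℕ) (hn : 1 ≤ n) : ‖DD n q‖ ≤ 2 := by
  have hnR : (1:ℝ) ≤ n := by exact_mod_cast hn
  have h2 : 0 ≤ ∑ e ∈ bE n, (1 - PC n q e) :=
    sum_nonneg (fun e _ => by linarith [(pc_bounds h0 h1 n e).2])
  have h3 : ∑ e ∈ bE n, (1 - PC n q e) ≤ ∑ e ∈ bE n, (fun _ : Bool => (1:ℝ)) e.2.2 :=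
    sum_le_sum (fun e _ => by
      have := (pc_bounds h0 h1 n e).1
      simp only
      linarith)
  rw [sum_bE n hn (fun _ : Bool => (1:ℝ))] at h3
  rw [DD, Real.norm_of_nonneg (by positivity), div_le_iff₀ (by positivity)]
  nlinarith

theorem DD_lower (hB : TaskB) {q : ℝ} (h0 : 0 ≤ q) (h1 : q ≤ 1) (n : ℕ) (hn : 1 ≤ n) :
    (2 - hinf true q - hinf false q) - 2 / n ≤ DD n q := by
  have hnR : (1:ℝ) ≤ n := by exact_mod_cast hn
  have h2 : ∑ e ∈ bE n, (fun b : Bool => 1 - hinf b q) e.2.2 ≤ ∑ e ∈ bE n, (1 - PC n q e) :=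
    sum_le_sum (fun e he => by
      have := (hB q h0 h1).2.1 n e he
      simp only
      linarith)
  rw [sum_bE n hn (fun b : Bool => 1 - hinf b q)] at h2
  have ht := (hinf_facts hB h0 h1 true).2
  have hf := (hinf_facts hB h0 h1 false).2
  rw [DD, le_div_iff₀ (by positivity)]
  have h4 : ((2 - hinf true q - hinf false q) - 2 / (n:ℝ)) * (n:ℝ) ^ 2 =
      (2 - hinf true q - hinf false q) * n ^ 2 - 2 * n := by
    field_simp
  rw [h4]
  refine le_trans ?_ h2
  nlinarith

theorem DD_upper (hB : TaskB) {q : ℝ} (h0 : 0 ≤ q) (h1 : q ≤ 1) (n m : ℕ) (hn : 1 ≤ n) :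
    DD n q ≤ (2 - hpl true m q - hpl false m q) + 8 * m / n := by
  classical
  have hnR : (1:ℝ) ≤ n := by exact_mod_cast hn
  have h2 : ∑ e ∈ bE n, (1 - PC n q e) ≤
      ∑ e ∈ bE n, ((fun b : Bool => 1 - hpl b m q) e.2.2 + (if Inner n m e then 0 else 1)) :=
    sum_le_sum (fun e he => by
      have hp := (pc_bounds h0 h1 n e).1
      have hh := ((hB q h0 h1).1 e.2.2 m).2.1
      simp only
      split_ifs with hi
      · have := (hB q h0 h1).2.2 n m e he hi.1 hi.2
        linarith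
      · linarith)
  rw [sum_add_distrib, sum_bE n hn (fun b : Bool => 1 - hpl b m q)] at h2
  have h3 : ∑ e ∈ bE n, (if Inner n m e then (0:ℝ) else 1) ≤ 8 * m * n := by
    have h4 : ∑ e ∈ bE n, (if Inner n m e then (0:ℝ) else 1) =
        (((bE n).filter (fun e => ¬ Inner n m e)).card : ℝ) := by
      rw [Finset.card_filter]
      push_cast
      apply sum_congr rfl
      intro e _
      by_cases h : Inner n m e <;> simp [h]
    rw [h4]
    exact_mod_cast card_outer n m
  have ht := (hB q h0 h1).1 true m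
  have hf := (hB q h0 h1).1 false m
  rw [DD, div_le_iff₀ (by positivity)]
  have h5 : ((2 - hpl true m q - hpl false m q) + 8 * (m:ℝ) / n) * (n:ℝ) ^ 2 =
      (2 - hpl true m q - hpl false m q) * n ^ 2 + 8 * m * n := by
    field_simp
  rw [h5]
  refine h2.trans ?_
  have h6 : ((n:ℝ) - 1) * n * (1 - hpl true m q + (1 - hpl false m q)) ≤
      (2 - hpl true m q - hpl false m q) * n ^ 2 := by nlinarith
  linarith

theorem DD_tendsto (hB : TaskB) {q : ℝ} (h0 : 0 ≤ q) (h1 : q ≤ 1) :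
    Tendsto (fun n => DD n q) atTop (nhds (2 - hinf true q - hinf false q)) := by
  rw [Metric.tendsto_atTop]
  intro ε hε
  have ht := (hinf_facts hB h0 h1 true).1
  have hf := (hinf_facts hB h0 h1 false).1
  rw [Metric.tendsto_atTop] at ht hf
  obtain ⟨m1, hm1⟩ := ht (ε / 4) (by linarith)
  obtain ⟨m2, hm2⟩ := hf (ε / 4) (by linarith)
  set m := max m1 m2 with hm
  have a1 := hm1 m (le_max_left _ _)
  have a2 := hm2 m (le_max_right _ _)
  rw [Real.dist_eq, abs_lt] at a1 a2
  obtain ⟨N, hN⟩ := exists_nat_gt ((8 * m + 2) / (ε / 4))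
  refine ⟨max N 1, fun n hn => ?_⟩
  have hn1 : 1 ≤ n := (le_max_right _ _).trans hn
  have hnR : (1:ℝ) ≤ n := by exact_mod_cast hn1
  have hnN : (N:ℝ) ≤ n := by exact_mod_cast (le_max_left _ _).trans hn
  have h3 : (8 * (m:ℝ) + 2) / n < ε / 4 := by
    rw [div_lt_iff₀ (by linarith)]
    rw [div_lt_iff₀ (by linarith)] at hN
    nlinarith
  have h4 : 8 * (m:ℝ) / n + 2 / n < ε / 4 := by
    rw [← add_div]; exact h3
  have h5 : 0 ≤ 8 * (m:ℝ) / n := by positivity
  have h6 : 0 ≤ 2 / (n:ℝ) := by positivity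
  have hl := DD_lower hB h0 h1 n hn1
  have hu := DD_upper hB h0 h1 n m hn1
  rw [Real.dist_eq, abs_lt]
  constructor
  · linarith
  · linarith [a1.1, a2.1]

theorem sum_meas : Measurable (fun q : ℝ => hinf true q + hinf false q) :=
  (hinf_meas true).add (hinf_meas false)

theorem sum_bound (hB : TaskB) {q : ℝ} (h0 : 0 ≤ q) (h1 : q ≤ 1) :
    |hinf true q + hinf false q| ≤ 2 := by
  have ht := (hinf_facts hB h0 h1 true).2
  have hf := (hinf_facts hB h0 h1 false).2
  rw [abs_le]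
  constructor <;> linarith [ht.1, ht.2, hf.1, hf.2]

theorem sum_int (hB : TaskB) {x y : ℝ} (hx : x ∈ Set.Icc (0:ℝ) 1) (hy : y ∈ Set.Icc (0:ℝ) 1) :
    IntervalIntegrable (fun q => hinf true q + hinf false q) volume x y := by
  rw [intervalIntegrable_iff]
  apply Measure.integrableOn_of_bounded (M := 2)
  · exact measure_Ioc_lt_top.ne
  · exact sum_meas.aestronglyMeasurable
  · rw [ae_restrict_iff' measurableSet_uIoc]
    refine Eventually.of_forall (fun q hq => ?_)
    have hq2 : q ∈ Set.Icc (0:ℝ) 1 := by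
      have h3 := Set.uIoc_subset_uIcc hq
      exact (Set.uIcc_subset_Icc hx hy) h3
    exact sum_bound hB hq2.1 hq2.2

end TL

open TL in
theorem taskL : TaskL := by
  intro hK hB
  refine ⟨?_, fun x hx y hy => sum_int hB hx hy, fun q hq => sum_bound hB hq.1 hq.2⟩
  intro p hp0 hp1
  have hEK : ∀ n : ℕ, 1 ≤ n → EK n p / (n:ℝ) ^ 2 = 1 - ∫ q in (0:ℝ)..p, DD n q := by
    intro n hn
    have hnR : (1:ℝ) ≤ n := by exact_mod_cast hn
    have h1 : ∫ q in (0:ℝ)..p, (-∑ e ∈ bE n, (1 - PC n q e)) = EK n p - EK n 0 := by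
      apply intervalIntegral.integral_eq_sub_of_hasDerivAt
      · intro q _
        exact (hK n).2 q
      · apply Continuous.intervalIntegrable
        unfold PC
        exact (continuous_finsetSum _ (fun e _ => continuous_const.sub (pr_cont _ _))).neg
    rw [(hK n).1, intervalIntegral.integral_neg] at h1
    have h2 : ∫ q in (0:ℝ)..p, DD n q = (∫ q in (0:ℝ)..p, ∑ e ∈ bE n, (1 - PC n q e)) / (n:ℝ) ^ 2 := by
      unfold DD
      rw [intervalIntegral.integral_div]
    rw [h2]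
    field_simp
    linarith
  have hlim : Tendsto (fun n : ℕ => 1 - ∫ q in (0:ℝ)..p, DD n q) atTop
      (nhds (1 - ∫ q in (0:ℝ)..p, (2 - hinf true q - hinf false q))) := by
    apply Tendsto.sub tendsto_const_nhds
    apply intervalIntegral.tendsto_integral_filter_of_dominated_convergence (fun _ => (2:ℝ))
    · exact Eventually.of_forall (fun n => (DD_cont n).aestronglyMeasurable)
    · filter_upwards [eventually_ge_atTop 1] with n hn
      refine Eventually.of_forall (fun q hq => ?_)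
      rw [Set.uIoc_of_le hp0] at hq
      exact DD_bound hq.1.le (hq.2.trans hp1) n hn
    · exact intervalIntegrable_const
    · refine Eventually.of_forall (fun q hq => ?_)
      rw [Set.uIoc_of_le hp0] at hq
      exact DD_tendsto hB hq.1.le (hq.2.trans hp1)
  have hval : 1 - ∫ q in (0:ℝ)..p, (2 - hinf true q - hinf false q) = kap p := by
    unfold kap
    have h3 : (fun q : ℝ => 2 - hinf true q - hinf false q) =
        fun q => (2:ℝ) - (hinf true q + hinf false q) := by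
      funext q; ring
    rw [h3, intervalIntegral.integral_sub intervalIntegrable_const
      (sum_int hB ⟨le_rfl, zero_le_one⟩ ⟨hp0, hp1⟩), intervalIntegral.integral_const]
    simp only [smul_eq_mul, sub_zero]
    ring
  rw [hval] at hlim
  refine hlim.congr' ?_
  filter_upwards [eventually_ge_atTop 1] with n hn
  exact (hEK n hn).symm

end H35A
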