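import Pool.Agent.H35R3.Al.StmtsB

/-!
Project ALPHA, task P3: conditioning on the configuration in a block around `a`.
-/

set_option autoImplicit false

namespace H35A

open H974 H12S H973N Finset

theorem SD_union_eq {f : Finset Edg → Prop} {b c : Edg} {w F : Finset Edg} (hb : b ∉ w)
    (hc : c ∉ w) : SD f b c (w ∪ F) ↔ SD (fun F => f (F ∪ w)) b c F := by
  have e1 : w ∪ F = F ∪ w := Finset.union_comm _ _
  have ec : ∀ G : Finset Edg, (G ∪ w).erase c = G.erase c ∪ w := by
    intro G
    rw [Finset.erase_union_distrib, Finset.erase_eq_of_notMem hc]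
  have eb : ∀ G : Finset Edg, (G ∪ w).erase b = G.erase b ∪ w := by
    intro G
    rw [Finset.erase_union_distrib, Finset.erase_eq_of_notMem hb]
  have ib : ∀ G : Finset Edg, insert b (G ∪ w) = insert b G ∪ w := fun G =>
    (Finset.insert_union _ _ _).symm
  have ic : ∀ G : Finset Edg, insert c (G ∪ w) = insert c G ∪ w := fun G =>
    (Finset.insert_union _ _ _).symm
  unfold SD Pf
  rw [e1]
  simp only [ec, eb, ib, ic]

theorem Fr.ne {M : ℕ} {r : ℤ} (hr : 0 ≤ r) {a b : Edg} (h : Fr M r a b) : a ≠ b := by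
  rintro rfl
  have := h (0, 0)
  unfold dst shE at this
  simp at this
  omega

theorem taskP3 : TaskP3 := by
  classical
  intro q h0 h1 M r hr hM a ha b hb c hc hbc hab hac
  have hMpos : 0 < M := by omega
  have ha' := red_of_mem ha
  have hb' := red_of_mem hb
  have hc' := red_of_mem hc
  set B := bT M (bp a) r with hB
  have hBsub : B ⊆ EM M := by
    intro x hx
    rw [hB] at hx
    unfold bT at hx
    obtain ⟨g, _, rfl⟩ := Finset.mem_image.1 hx
    exact red_mem_EM hMpos g
  have hba : Fr M (r + 1) b a := hab.symm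
  have hca : Fr M (r + 1) c a := hac.symm
  have hba0 : Fr M r b a := hba.mono (by omega)
  have hca0 : Fr M r c a := hca.mono (by omega)
  have hbB : b ∉ B := by
    intro hx
    rw [hB] at hx
    unfold bT at hx
    obtain ⟨g, hg, hgb⟩ := Finset.mem_image.1 hx
    exact hba0.notMem g hg (by rw [hgb, hb'])
  have hcB : c ∉ B := by
    intro hx
    rw [hB] at hx
    unfold bT at hx
    obtain ⟨g, hg, hgb⟩ := Finset.mem_image.1 hx
    exact hca0.notMem g hg (by rw [hgb, hc'])
  have hneab : a ≠ b := hab.ne (by omega)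
  have hneac : a ≠ c := hac.ne (by omega)
  have hOk : Ok (fun _ : Edg => q) := fun _ => ⟨h0, h1⟩
  have hU : EM M = B ∪ (EM M \ B) := (Finset.union_sdiff_of_subset hBsub).symm
  have hX : X3 q M a b c = Ex (fun _ => q) B (fun w => Ex (fun _ => q) (EM M \ B)
      (fun F => ind (SD (fe M a) b c (w ∪ F)))) := by
    unfold X3 PQ Pr
    conv_lhs => rw [hU]
    rw [Ex_union Finset.disjoint_sdiff]
  rw [hX]
  refine Ex_mono hOk ?_
  intro w hw
  have hbw : b ∉ w := fun h => hbB (hw h)
  have hcw : c ∉ w := fun h => hcB (hw h)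
  by_cases hL : L4T M r a w
  · rw [ind_of hL, one_mul]
    unfold PQ Pr
    refine le_of_eq (Ex_congr ?_)
    intro F _
    exact ind_congr (SD_union_eq hbw hcw)
  · rw [ind_not_of hL, zero_mul]
    have : Ex (fun _ => q) (EM M \ B) (fun F => ind (SD (fe M a) b c (w ∪ F))) =
        Ex (fun _ => q) (EM M \ B) (fun _ => 0) := by
      refine Ex_congr ?_
      intro F hF
      apply ind_not_of
      intro hSD
      have h2 : SD (fe M b) a c (w ∪ F) := SD_rot ha' hb' hneab hbc hneac hSD
      have h3 : L4T M r a (w ∪ F) := SD_L4T hr hM hb' ha' hc' hba hca0 h2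
      apply hL
      refine (L4T_congr ?_).1 h3
      intro g hg
      rw [Finset.mem_union]
      refine ⟨fun h => h.resolve_right ?_, Or.inl⟩
      intro hgF
      have h4 := Finset.mem_sdiff.1 (hF hgF)
      apply h4.2
      rw [hB]
      unfold bT
      exact Finset.mem_image.2 ⟨g, hg, rfl⟩
    rw [this, Ex_const]

end H35A
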