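import Pool.Agent.H35R3.Al.StmtsA

/-!
Task T of project ALPHA: Taylor expansion from finite volume approximations (pure analysis).
-/

set_option autoImplicit false

namespace H35A

open Finset MeasureTheory Filter Topology

theorem T_quad (f f1 : ℝ → ℝ) (c r M : ℝ) (hf : ∀ q, HasDerivAt f (f1 q) q)
    (hf1 : ∀ q, |q - c| ≤ r → ∃ D, HasDerivAt f1 D q ∧ |D| ≤ M) (d : ℝ) (hd : |d| ≤ r) :
    |f (c + d) - f c - f1 c * d| ≤ M * d ^ 2 := by
  have hr : 0 ≤ r := (abs_nonneg d).trans hd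
  have hM : 0 ≤ M := by
    obtain ⟨D, _, hD⟩ := hf1 c (by rw [sub_self, abs_zero]; exact hr)
    exact (abs_nonneg D).trans hD
  have hmem : ∀ q, q ∈ Metric.closedBall c |d| ↔ |q - c| ≤ |d| := fun q => by
    rw [Metric.mem_closedBall, Real.dist_eq]
  have hc : c ∈ Metric.closedBall c |d| := Metric.mem_closedBall_self (abs_nonneg d)
  have h1 : ∀ q ∈ Metric.closedBall c |d|, |f1 q - f1 c| ≤ M * |d| := by
    intro q hq
    have h2 : ∀ y ∈ Metric.closedBall c |d|, HasDerivAt f1 (deriv f1 y) y ∧ |deriv f1 y| ≤ M := by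
      intro y hy
      obtain ⟨D, hD, hD'⟩ := hf1 y (((hmem y).1 hy).trans hd)
      rw [hD.deriv]
      exact ⟨hD, hD'⟩
    have h3 := Convex.norm_image_sub_le_of_norm_hasDerivWithin_le (f := f1) (f' := deriv f1)
      (C := M) (s := Metric.closedBall c |d|) (x := c) (y := q)
      (fun y hy => (h2 y hy).1.hasDerivWithinAt) (fun y hy => by
        rw [Real.norm_eq_abs]; exact (h2 y hy).2) (convex_closedBall c |d|) hc hq
    rw [Real.norm_eq_abs, Real.norm_eq_abs] at h3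
    exact h3.trans (mul_le_mul_of_nonneg_left ((hmem q).1 hq) hM)
  have h4 := Convex.norm_image_sub_le_of_norm_hasDerivWithin_le
    (f := fun q => f q - f1 c * q) (f' := fun q => f1 q - f1 c)
    (C := M * |d|) (s := Metric.closedBall c |d|) (x := c) (y := c + d)
    (fun y _ => by
      have h5 : HasDerivAt (fun q => f q - f1 c * q) (f1 y - f1 c * 1) y :=
        (hf y).sub ((hasDerivAt_id y).const_mul (f1 c))
      rw [mul_one] at h5
      exact h5.hasDerivWithinAt)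
    (fun y hy => by rw [Real.norm_eq_abs]; exact h1 y hy) (convex_closedBall c |d|) hc
    ((hmem _).2 (by rw [add_sub_cancel_left]))
  rw [Real.norm_eq_abs, Real.norm_eq_abs, add_sub_cancel_left] at h4
  have e : f (c + d) - f1 c * (c + d) - (f c - f1 c * c) = f (c + d) - f c - f1 c * d := by ring
  have e2 : M * |d| * |d| = M * d ^ 2 := by rw [mul_assoc, abs_mul_abs_self, sq]
  rw [e, e2] at h4
  exact h4

theorem T_x1 (N : ℕ) : (1:ℝ) ≤ (2:ℝ) ^ N := one_le_pow₀ (by norm_num)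

theorem T_x0 (N : ℕ) : (0:ℝ) < (2:ℝ) ^ N := by positivity

/-- the quadratic estimate in one scale -/
theorem T_scale {h : ℝ → ℝ} {H H1 : ℕ → ℝ → ℝ} (hH : ∀ N q, HasDerivAt (H N) (H1 N q) q)
    {ε κ C : ℝ} (hε : 0 < ε) (hκ : 0 < κ) (hC : 0 ≤ C) {N : ℕ}
    (hyp : ∀ q : ℝ, |q - 1 / 2| ≤ κ * ((2:ℝ) ^ N) ^ (-(3/4) - ε) →
      |H N q - h q| ≤ C * ((2:ℝ) ^ N) ^ (-(5/4) + ε) ∧
      ∃ D, HasDerivAt (H1 N) D q ∧ |D| ≤ C * ((2:ℝ) ^ N) ^ (1/4 + ε))
    (d : ℝ) (hd : |d| ≤ κ * ((2:ℝ) ^ N) ^ (-(3/4) - ε)) :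
    |h (1/2 + d) - h (1/2) - H1 N (1/2) * d| ≤
      (2 * C + C * κ ^ 2) * ((2:ℝ) ^ N) ^ (-(5/4) + ε) := by
  set x : ℝ := (2:ℝ) ^ N with hx
  have hx0 : 0 < x := T_x0 N
  have hx1 : 1 ≤ x := T_x1 N
  have h1 := T_quad (H N) (H1 N) (1/2) (κ * x ^ (-(3/4) - ε)) (C * x ^ (1/4 + ε)) (hH N)
    (fun q hq => (hyp q hq).2) d hd
  have hrad : 0 ≤ κ * x ^ (-(3/4) - ε) := (abs_nonneg d).trans hd
  have h2 := (hyp (1/2) (by rw [sub_self, abs_zero]; exact hrad)).1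
  have h3 := (hyp (1/2 + d) (by rw [add_sub_cancel_left]; exact hd)).1
  have hd2 : d ^ 2 ≤ κ ^ 2 * x ^ (-(3/2) - 2 * ε) := by
    have : d ^ 2 ≤ (κ * x ^ (-(3/4) - ε)) ^ 2 := by
      rw [← sq_abs d]
      exact pow_le_pow_left₀ (abs_nonneg d) hd 2
    refine this.trans (le_of_eq ?_)
    rw [mul_pow, ← Real.rpow_natCast (x ^ (-(3/4) - ε)) 2, ← Real.rpow_mul hx0.le]
    congr 2
    push_cast
    ring
  have h4 : C * x ^ (1/4 + ε) * d ^ 2 ≤ C * κ ^ 2 * x ^ (-(5/4) + ε) := by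
    calc C * x ^ (1/4 + ε) * d ^ 2 ≤ C * x ^ (1/4 + ε) * (κ ^ 2 * x ^ (-(3/2) - 2 * ε)) := by
          apply mul_le_mul_of_nonneg_left hd2 (by positivity)
      _ = C * κ ^ 2 * (x ^ (1/4 + ε) * x ^ (-(3/2) - 2 * ε)) := by ring
      _ = C * κ ^ 2 * x ^ (-(5/4) - ε) := by
          rw [← Real.rpow_add hx0]
          congr 2
          ring
      _ ≤ C * κ ^ 2 * x ^ (-(5/4) + ε) := by
          apply mul_le_mul_of_nonneg_left _ (by positivity)
          exact Real.rpow_le_rpow_of_exponent_le hx1 (by linarith)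
  have e : h (1/2 + d) - h (1/2) - H1 N (1/2) * d =
      -(H N (1/2 + d) - h (1/2 + d)) + (H N (1/2) - h (1/2)) +
        (H N (1/2 + d) - H N (1/2) - H1 N (1/2) * d) := by ring
  rw [e]
  calc |-(H N (1/2 + d) - h (1/2 + d)) + (H N (1/2) - h (1/2)) +
        (H N (1/2 + d) - H N (1/2) - H1 N (1/2) * d)|
      ≤ |-(H N (1/2 + d) - h (1/2 + d))| + |H N (1/2) - h (1/2)| +
        |H N (1/2 + d) - H N (1/2) - H1 N (1/2) * d| := abs_add_three _ _ _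
    _ ≤ C * x ^ (-(5/4) + ε) + C * x ^ (-(5/4) + ε) + C * κ ^ 2 * x ^ (-(5/4) + ε) := by
        rw [abs_neg]
        exact add_le_add (add_le_add h3 h2) (h1.trans h4)
    _ = (2 * C + C * κ ^ 2) * x ^ (-(5/4) + ε) := by ring

/-- half of the radius -/
theorem T_half {ε : ℝ} (hε1 : ε < 1 / 100) (N : ℕ) :
    1 / 2 * ((2:ℝ) ^ N) ^ (-(3/4) - ε) ≤ ((2:ℝ) ^ (N + 1)) ^ (-(3/4) - ε) := by
  have h1 : ((2:ℝ) ^ (N + 1)) ^ (-(3/4) - ε) = (2:ℝ) ^ (-(3/4) - ε) * ((2:ℝ) ^ N) ^ (-(3/4) - ε) := by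
    rw [pow_succ, mul_comm, Real.mul_rpow (by norm_num) (by positivity)]
  rw [h1]
  apply mul_le_mul_of_nonneg_right _ (by positivity)
  have h2 : (2:ℝ) ^ (-1 : ℝ) ≤ (2:ℝ) ^ (-(3/4) - ε) :=
    Real.rpow_le_rpow_of_exponent_le (by norm_num) (by linarith)
  rw [Real.rpow_neg_one] at h2
  linarith

/-- consecutive derivatives are close -/
theorem T_step {h : ℝ → ℝ} {A : ℕ → ℝ} {ε κ C1 : ℝ} (hε : 0 < ε) (hε1 : ε < 1 / 100)
    (hκ : 0 < κ) (hC1 : 0 ≤ C1) {N0 : ℕ}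
    (hyp : ∀ N : ℕ, N0 ≤ N → ∀ d : ℝ, |d| ≤ κ * ((2:ℝ) ^ N) ^ (-(3/4) - ε) →
      |h (1/2 + d) - h (1/2) - A N * d| ≤ C1 * ((2:ℝ) ^ N) ^ (-(5/4) + ε))
    (N : ℕ) (hN : N0 ≤ N) :
    |A N - A (N + 1)| ≤ 4 * C1 / κ * ((2:ℝ) ^ N) ^ (-(1/2) + 2 * ε) := by
  set x : ℝ := (2:ℝ) ^ N with hx
  have hx0 : 0 < x := T_x0 N
  have hx1 : 1 ≤ x := T_x1 N
  set r : ℝ := κ * ((2:ℝ) ^ (N + 1)) ^ (-(3/4) - ε) with hr
  have hr0 : 0 < r := by positivity
  have hrr : κ / 2 * x ^ (-(3/4) - ε) ≤ r := by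
    have := mul_le_mul_of_nonneg_left (T_half hε1 N) hκ.le
    rw [hr]
    calc κ / 2 * x ^ (-(3/4) - ε) = κ * (1 / 2 * x ^ (-(3/4) - ε)) := by ring
      _ ≤ _ := this
  have hxx : x ≤ (2:ℝ) ^ (N + 1) := by rw [pow_succ]; linarith
  have hrN : r ≤ κ * x ^ (-(3/4) - ε) := by
    apply mul_le_mul_of_nonneg_left _ hκ.le
    exact Real.rpow_le_rpow_of_nonpos hx0 hxx (by linarith)
  have h1 := hyp N hN r (by rw [abs_of_pos hr0]; exact hrN)
  have h2 := hyp (N + 1) (by omega) r (by rw [abs_of_pos hr0])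
  have h3 : ((2:ℝ) ^ (N + 1)) ^ (-(5/4) + ε) ≤ x ^ (-(5/4) + ε) :=
    Real.rpow_le_rpow_of_nonpos hx0 hxx (by linarith)
  have h4 : |A N - A (N + 1)| * r ≤ 2 * C1 * x ^ (-(5/4) + ε) := by
    have e : (A N - A (N + 1)) * r = (h (1/2 + r) - h (1/2) - A (N + 1) * r) -
        (h (1/2 + r) - h (1/2) - A N * r) := by ring
    calc |A N - A (N + 1)| * r = |(A N - A (N + 1)) * r| := by rw [abs_mul, abs_of_pos hr0]
      _ ≤ |h (1/2 + r) - h (1/2) - A (N + 1) * r| + |h (1/2 + r) - h (1/2) - A N * r| := by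
          rw [e]; exact abs_sub _ _
      _ ≤ C1 * x ^ (-(5/4) + ε) + C1 * x ^ (-(5/4) + ε) := by
          apply add_le_add _ h1
          exact h2.trans (mul_le_mul_of_nonneg_left h3 hC1)
      _ = 2 * C1 * x ^ (-(5/4) + ε) := by ring
  have h5 : |A N - A (N + 1)| * (κ / 2 * x ^ (-(3/4) - ε)) ≤ 2 * C1 * x ^ (-(5/4) + ε) :=
    (mul_le_mul_of_nonneg_left hrr (abs_nonneg _)).trans h4
  have h6 : 0 < κ / 2 * x ^ (-(3/4) - ε) := by positivity
  have h7 : 4 * C1 / κ * x ^ (-(1/2) + 2 * ε) * (κ / 2 * x ^ (-(3/4) - ε)) =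
      2 * C1 * x ^ (-(5/4) + ε) := by
    have e1 : x ^ (-(5/4) + ε) = x ^ (-(1/2) + 2 * ε) * x ^ (-(3/4) - ε) := by
      rw [← Real.rpow_add hx0]
      congr 1
      ring
    rw [e1]
    field_simp
    ring
  rw [← h7] at h5
  exact le_of_mul_le_mul_right h5 h6

theorem T_pow {ε : ℝ} (N : ℕ) :
    ((2:ℝ) ^ N) ^ (-(1/2) + 2 * ε) = ((2:ℝ) ^ (-(1/2) + 2 * ε)) ^ N := by
  rw [← Real.rpow_natCast, ← Real.rpow_mul (by norm_num), ← Real.rpow_natCast,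
    ← Real.rpow_mul (by norm_num), mul_comm]

/-- everything for one `ε` -/
theorem T_eps {h : ℝ → ℝ} {A : ℕ → ℝ} {ε κ C1 : ℝ} (hε : 0 < ε) (hε1 : ε < 1 / 100)
    (hκ : 0 < κ) (hC1 : 0 ≤ C1) {N0 : ℕ}
    (hyp : ∀ N : ℕ, N0 ≤ N → ∀ d : ℝ, |d| ≤ κ * ((2:ℝ) ^ N) ^ (-(3/4) - ε) →
      |h (1/2 + d) - h (1/2) - A N * d| ≤ C1 * ((2:ℝ) ^ N) ^ (-(5/4) + ε)) :
    CauchySeq A ∧ ∀ b : ℝ, Tendsto A atTop (𝓝 b) → ∃ C3 : ℝ, 0 ≤ C3 ∧ ∀ N : ℕ, N0 ≤ N →
      |A N - b| ≤ C3 * ((2:ℝ) ^ N) ^ (-(1/2) + 2 * ε) := by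
  set ρ : ℝ := (2:ℝ) ^ (-(1/2) + 2 * ε) with hρ
  have hρ0 : 0 < ρ := by positivity
  have hρ1 : ρ < 1 := Real.rpow_lt_one_of_one_lt_of_neg (by norm_num) (by linarith)
  set C2 : ℝ := 4 * C1 / κ with hC2
  have hC20 : 0 ≤ C2 := by positivity
  have hstep : ∀ n : ℕ, dist (A (N0 + n)) (A (N0 + (n + 1))) ≤ C2 * ρ ^ N0 * ρ ^ n := by
    intro n
    rw [Real.dist_eq]
    have := T_step hε hε1 hκ hC1 hyp (N0 + n) (Nat.le_add_right _ _)
    rw [T_pow, ← hρ, pow_add] at this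
    rw [← add_assoc]
    calc _ ≤ _ := this
      _ = _ := by ring
  have hcau : CauchySeq (fun n => A (N0 + n)) := cauchySeq_of_le_geometric ρ _ hρ1 hstep
  have hcau' : CauchySeq A := by
    obtain ⟨b, hb⟩ := cauchySeq_tendsto_of_complete hcau
    have hb' : Tendsto (fun n => A (n + N0)) atTop (𝓝 b) := by
      refine hb.congr fun n => ?_
      rw [add_comm]
    exact ((tendsto_add_atTop_iff_nat N0).1 hb').cauchySeq
  refine ⟨hcau', fun b hb => ?_⟩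
  refine ⟨C2 / (1 - ρ), div_nonneg hC20 (by linarith), fun N hN => ?_⟩
  obtain ⟨n, rfl⟩ := Nat.exists_eq_add_of_le hN
  have hb' : Tendsto (fun n => A (N0 + n)) atTop (𝓝 b) := by
    have := (tendsto_add_atTop_iff_nat N0).2 hb
    refine this.congr fun n => ?_
    rw [add_comm]
  have := dist_le_of_le_geometric_of_tendsto ρ _ hρ1 hstep hb' n
  rw [Real.dist_eq] at this
  refine this.trans (le_of_eq ?_)
  rw [T_pow, ← hρ, pow_add]
  ring

/-- existence of the scale -/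
theorem T_choose {ε κ : ℝ} (hε : 0 < ε) (N0 : ℕ) (t : ℝ) (ht : 0 < t)
    (ht1 : t ≤ κ * ((2:ℝ) ^ N0) ^ (-(3/4) - ε)) :
    ∃ N : ℕ, N0 ≤ N ∧ t ≤ κ * ((2:ℝ) ^ N) ^ (-(3/4) - ε) ∧
      κ * ((2:ℝ) ^ (N + 1)) ^ (-(3/4) - ε) < t := by
  have hlim : Tendsto (fun N : ℕ => κ * ((2:ℝ) ^ N) ^ (-(3/4) - ε)) atTop (𝓝 0) := by
    have h1 : Tendsto (fun N : ℕ => ((2:ℝ) ^ N) ^ (-(3/4 + ε))) atTop (𝓝 0) :=
      (tendsto_rpow_neg_atTop (by linarith)).comp
        (tendsto_pow_atTop_atTop_of_one_lt (by norm_num))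
    have h2 := h1.const_mul κ
    rw [mul_zero] at h2
    refine h2.congr fun N => ?_
    congr 2
    ring
  have hex : ∃ n : ℕ, κ * ((2:ℝ) ^ (N0 + n + 1)) ^ (-(3/4) - ε) < t := by
    obtain ⟨M, hM⟩ := ((hlim.eventually (gt_mem_nhds ht)).and (eventually_ge_atTop (N0 + 1))).exists
    refine ⟨M - (N0 + 1), ?_⟩
    have : N0 + (M - (N0 + 1)) + 1 = M := by omega
    rw [this]
    exact hM.1
  classical
  refine ⟨N0 + Nat.find hex, Nat.le_add_right _ _, ?_, Nat.find_spec hex⟩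
  rcases Nat.eq_zero_or_pos (Nat.find hex) with h0 | h0
  · rw [h0, add_zero]; exact ht1
  · have := Nat.find_min hex (m := Nat.find hex - 1) (by omega)
    rw [not_lt] at this
    have e : N0 + (Nat.find hex - 1) + 1 = N0 + Nat.find hex := by omega
    rwa [e] at this

/-- the pointwise estimate -/
theorem T_point {h : ℝ → ℝ} {A : ℕ → ℝ} {ε κ C1 : ℝ} (hε : 0 < ε) (hε1 : ε < 1 / 100)
    (hκ : 0 < κ) (hC1 : 0 ≤ C1) {N0 : ℕ}
    (hyp : ∀ N : ℕ, N0 ≤ N → ∀ d : ℝ, |d| ≤ κ * ((2:ℝ) ^ N) ^ (-(3/4) - ε) →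
      |h (1/2 + d) - h (1/2) - A N * d| ≤ C1 * ((2:ℝ) ^ N) ^ (-(5/4) + ε))
    (b : ℝ) (hb : Tendsto A atTop (𝓝 b)) (hh : ∀ q ∈ Set.Icc (0:ℝ) 1, |h q| ≤ 2) :
    ∃ K : ℝ, 0 ≤ K ∧ ∀ d : ℝ, |d| ≤ 1 / 2 →
      |h (1/2 + d) - h (1/2) - b * d| ≤ K * |d| ^ (5/3 - 4 * ε) := by
  obtain ⟨C3, hC3, hA⟩ := (T_eps hε hε1 hκ hC1 hyp).2 b hb
  set γ : ℝ := 5/3 - 4 * ε with hγ
  have hγ0 : 0 < γ := by linarith
  set r0 : ℝ := κ * ((2:ℝ) ^ N0) ^ (-(3/4) - ε) with hr0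
  have hr0p : 0 < r0 := by positivity
  set K1 : ℝ := (C1 + C3 * κ) / (κ / 2) ^ γ with hK1
  set K2 : ℝ := (4 + |b|) / r0 ^ γ with hK2
  have hK1p : 0 ≤ K1 := by positivity
  have hK2p : 0 ≤ K2 := by positivity
  refine ⟨K1 + K2, by positivity, fun d hd => ?_⟩
  rcases eq_or_ne d 0 with h0 | h0
  · rw [h0, add_zero, sub_self, mul_zero, sub_zero, abs_zero]
    positivity
  have hd0 : 0 < |d| := abs_pos.2 h0
  have hdγ : 0 < |d| ^ γ := by positivity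
  by_cases hcase : |d| ≤ r0
  · obtain ⟨N, hN, hN1, hN2⟩ := T_choose hε N0 |d| hd0 hcase
    set x : ℝ := (2:ℝ) ^ N with hx
    have hx0 : 0 < x := T_x0 N
    have hx1 : 1 ≤ x := T_x1 N
    have h1 := hyp N hN d hN1
    have h2 := hA N hN
    have h3 : |h (1/2 + d) - h (1/2) - b * d| ≤ (C1 + C3 * κ) * x ^ (-(5/4) + ε) := by
      have e : h (1/2 + d) - h (1/2) - b * d =
          (h (1/2 + d) - h (1/2) - A N * d) + (A N - b) * d := by ring
      rw [e]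
      refine (abs_add_le _ _).trans ?_
      rw [abs_mul]
      have h4 : |A N - b| * |d| ≤ C3 * κ * x ^ (-(5/4) + ε) := by
        calc |A N - b| * |d| ≤ (C3 * x ^ (-(1/2) + 2 * ε)) * (κ * x ^ (-(3/4) - ε)) :=
              mul_le_mul h2 hN1 hd0.le (by positivity)
          _ = C3 * κ * (x ^ (-(1/2) + 2 * ε) * x ^ (-(3/4) - ε)) := by ring
          _ = C3 * κ * x ^ (-(5/4) + ε) := by
              rw [← Real.rpow_add hx0]
              congr 2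
              ring
      linarith
    have h5 : (κ / 2) ^ γ * x ^ (-(5/4) + ε) ≤ |d| ^ γ := by
      have h6 : κ / 2 * x ^ (-(3/4) - ε) ≤ |d| := by
        have := mul_le_mul_of_nonneg_left (T_half hε1 N) hκ.le
        calc κ / 2 * x ^ (-(3/4) - ε) = κ * (1 / 2 * x ^ (-(3/4) - ε)) := by ring
          _ ≤ κ * ((2:ℝ) ^ (N + 1)) ^ (-(3/4) - ε) := this
          _ ≤ |d| := hN2.le
      have h7 : (κ / 2 * x ^ (-(3/4) - ε)) ^ γ ≤ |d| ^ γ :=
        Real.rpow_le_rpow (by positivity) h6 hγ0.le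
      rw [Real.mul_rpow (by positivity) (by positivity), ← Real.rpow_mul hx0.le] at h7
      refine le_trans ?_ h7
      apply mul_le_mul_of_nonneg_left _ (by positivity)
      apply Real.rpow_le_rpow_of_exponent_le hx1
      rw [hγ]
      nlinarith
    calc |h (1/2 + d) - h (1/2) - b * d| ≤ (C1 + C3 * κ) * x ^ (-(5/4) + ε) := h3
      _ = K1 * ((κ / 2) ^ γ * x ^ (-(5/4) + ε)) := by
          rw [hK1]
          have : (κ / 2) ^ γ ≠ 0 := by positivity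
          field_simp
      _ ≤ K1 * |d| ^ γ := mul_le_mul_of_nonneg_left h5 hK1p
      _ ≤ (K1 + K2) * |d| ^ γ := by
          apply mul_le_mul_of_nonneg_right _ hdγ.le
          linarith
  · push Not at hcase
    have hb1 : |h (1/2 + d)| ≤ 2 := by
      apply hh
      rw [abs_le] at hd
      constructor <;> linarith [hd.1, hd.2]
    have hb2 : |h (1/2)| ≤ 2 := hh _ ⟨by norm_num, by norm_num⟩
    have h3 : |h (1/2 + d) - h (1/2) - b * d| ≤ 4 + |b| := by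
      have h4 : |b * d| ≤ |b| := by
        rw [abs_mul]
        calc |b| * |d| ≤ |b| * 1 := mul_le_mul_of_nonneg_left (by linarith) (abs_nonneg _)
          _ = |b| := mul_one _
      calc |h (1/2 + d) - h (1/2) - b * d| ≤ |h (1/2 + d) - h (1/2)| + |b * d| := abs_sub _ _
        _ ≤ |h (1/2 + d)| + |h (1/2)| + |b * d| := by
            have := abs_sub (h (1/2 + d)) (h (1/2))
            linarith
        _ ≤ 4 + |b| := by linarith
    have h5 : r0 ^ γ ≤ |d| ^ γ := Real.rpow_le_rpow hr0p.le hcase.le hγ0.le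
    calc |h (1/2 + d) - h (1/2) - b * d| ≤ 4 + |b| := h3
      _ = K2 * r0 ^ γ := by
          rw [hK2]
          have : r0 ^ γ ≠ 0 := by positivity
          field_simp
      _ ≤ K2 * |d| ^ γ := mul_le_mul_of_nonneg_left h5 hK2p
      _ ≤ (K1 + K2) * |d| ^ γ := by
          apply mul_le_mul_of_nonneg_right _ hdγ.le
          linarith

theorem taskT : TaskT := by
  intro h H H1 hH hyp hint hh
  -- the scale estimates
  have hsc : ∀ ε : ℝ, 0 < ε → ε < 1 / 100 → ∃ κ C1 : ℝ, ∃ N0 : ℕ, 0 < κ ∧ 0 ≤ C1 ∧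
      ∀ N : ℕ, N0 ≤ N → ∀ d : ℝ, |d| ≤ κ * ((2:ℝ) ^ N) ^ (-(3/4) - ε) →
      |h (1/2 + d) - h (1/2) - (fun N => H1 N (1/2)) N * d| ≤
        C1 * ((2:ℝ) ^ N) ^ (-(5/4) + ε) := by
    intro ε hε hε1
    obtain ⟨κ, C, N0, hκ, hN⟩ := hyp ε hε hε1
    have hC : 0 ≤ C := by
      have h1 := (hN N0 le_rfl (1/2) (by rw [sub_self, abs_zero]; positivity)).1
      by_contra hneg
      push Not at hneg
      have h2 : C * ((2:ℝ) ^ N0) ^ (-(5/4) + ε) < 0 :=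
        mul_neg_of_neg_of_pos hneg (by positivity)
      have := abs_nonneg (H N0 (1/2) - h (1/2))
      linarith
    refine ⟨κ, 2 * C + C * κ ^ 2, N0, hκ, by positivity, fun N hN0 d hd => ?_⟩
    exact T_scale hH hε hκ hC (hN N hN0) d hd
  obtain ⟨κ, C1, N0, hκ, hC1, hs⟩ := hsc (1/200) (by norm_num) (by norm_num)
  obtain ⟨b1, hb1⟩ := cauchySeq_tendsto_of_complete
    (T_eps (by norm_num) (by norm_num) hκ hC1 hs).1
  refine ⟨b1 / 2, fun ε hε => ?_⟩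
  set δ : ℝ := min (ε / 4) (1 / 200) with hδ
  have hδ0 : 0 < δ := by
    rw [hδ]
    exact lt_min (by linarith) (by norm_num)
  have hδ1 : δ < 1 / 100 := lt_of_le_of_lt (min_le_right _ _) (by norm_num)
  have hδε : 4 * δ ≤ ε := by
    have : δ ≤ ε / 4 := min_le_left _ _
    linarith
  obtain ⟨κ', C1', N0', hκ', hC1', hs'⟩ := hsc δ hδ0 hδ1
  obtain ⟨K, hK, hpt⟩ := T_point hδ0 hδ1 hκ' hC1' hs' b1 hb1 hh
  refine ⟨K, fun p hp => ?_⟩
  have hp2 : |p - 1/2| ≤ 1/2 := by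
    rw [abs_le]
    constructor <;> linarith [hp.1, hp.2]
  have hI : IntervalIntegrable h volume (1/2) p :=
    hint _ ⟨by norm_num, by norm_num⟩ _ hp
  have hI2 : IntervalIntegrable (fun q => h (1/2) + b1 * (q - 1/2)) volume (1/2) p := by
    apply Continuous.intervalIntegrable
    fun_prop
  have e1 : (∫ q in (1/2:ℝ)..p, (h (1/2) + b1 * (q - 1/2))) =
      h (1/2) * (p - 1/2) + b1 / 2 * (p - 1/2) ^ 2 := by
    have hF : ∀ q ∈ Set.uIcc (1/2:ℝ) p, HasDerivAt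
        (fun q => h (1/2) * (q - 1/2) + b1 / 2 * (q - 1/2) ^ 2) (h (1/2) + b1 * (q - 1/2)) q := by
      intro q _
      have h1 : HasDerivAt (fun q : ℝ => q - 1/2) 1 q := (hasDerivAt_id q).sub_const _
      have h2 := (h1.const_mul (h (1/2))).add ((h1.pow 2).const_mul (b1 / 2))
      refine h2.congr_deriv ?_
      push_cast
      ring
    rw [intervalIntegral.integral_eq_sub_of_hasDerivAt hF hI2]
    ring
  have e2 : (∫ q in (1/2:ℝ)..p, h q) - h (1/2) * (p - 1/2) - b1 / 2 * (p - 1/2) ^ 2 =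
      ∫ q in (1/2:ℝ)..p, (h q - (h (1/2) + b1 * (q - 1/2))) := by
    rw [intervalIntegral.integral_sub hI hI2, e1]
    ring
  rw [e2]
  have hγ0 : (0:ℝ) < 5/3 - 4 * δ := by linarith
  have h3 : ‖∫ q in (1/2:ℝ)..p, (h q - (h (1/2) + b1 * (q - 1/2)))‖ ≤
      K * |p - 1/2| ^ (5/3 - 4 * δ) * |p - 1/2| := by
    apply intervalIntegral.norm_integral_le_of_norm_le_const
    intro q hq
    rw [Real.norm_eq_abs]
    have hq1 : |q - 1/2| ≤ |p - 1/2| := by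
      rcases le_total (1/2) p with hle | hle
      · rw [Set.uIoc_of_le hle] at hq
        rw [abs_of_nonneg (by linarith [hq.1]), abs_of_nonneg (by linarith)]
        linarith [hq.2]
      · rw [Set.uIoc_of_ge hle] at hq
        rw [abs_of_nonpos (by linarith [hq.2]), abs_of_nonpos (by linarith)]
        linarith [hq.1]
    have h4 := hpt (q - 1/2) (hq1.trans hp2)
    have e3 : h q - (h (1/2) + b1 * (q - 1/2)) =
        h (1/2 + (q - 1/2)) - h (1/2) - b1 * (q - 1/2) := by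
      have : (1/2 : ℝ) + (q - 1/2) = q := by ring
      rw [this]
      ring
    rw [e3]
    refine h4.trans ?_
    apply mul_le_mul_of_nonneg_left _ hK
    exact Real.rpow_le_rpow (abs_nonneg _) hq1 hγ0.le
  rw [Real.norm_eq_abs] at h3
  refine h3.trans ?_
  rcases (abs_nonneg (p - 1/2)).eq_or_lt with h0 | h0
  · rw [← h0, mul_zero]
    exact mul_nonneg hK (Real.rpow_nonneg le_rfl _)
  · rw [mul_assoc]
    apply mul_le_mul_of_nonneg_left _ hK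
    calc |p - 1/2| ^ (5/3 - 4 * δ) * |p - 1/2| = |p - 1/2| ^ (5/3 - 4 * δ + 1) := by
          rw [Real.rpow_add_one h0.ne']
      _ ≤ |p - 1/2| ^ (8/3 - ε) := by
          apply Real.rpow_le_rpow_of_exponent_ge h0 (by linarith)
          linarith

end H35A
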