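import Pool.Agent.H35R3.Al.P6
import Pool.Agent.H35R3.Al.P2
import Pool.Agent.H35R3.Al.P4P5
import Pool.Agent.H35R3.Al.P7
import Pool.Agent.H35R3.Al.P8
import Pool.Agent.H35R3.Al.P9
import Pool.Agent.H35R3.Al.TaskB
import Pool.Agent.H35R3.Al.TaskK
import Pool.Agent.H35R3.Al.TaskL
import Pool.Agent.H35R3.Al.TaskP3
import Pool.Agent.H35R3.Al.TaskT
import Pool.Agent.H676R4.AlC
import Pool.Agent.H77R3.AL.TaskP1
import Pool.Agent.H973R4.Close

/-!
Project ALPHA: assembly.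
-/

set_option autoImplicit false

namespace H35A

open H974 H12S H973N Finset Filter

theorem a4_nn {q : ℝ} (h0 : 0 ≤ q) (h1 : q ≤ 1) (m : ℕ) : 0 ≤ a4 q m := by
  unfold a4
  exact add_nonneg (Pr_nonneg (okq h0 h1) _ _) (Pr_nonneg (okq h0 h1) _ _)

/-- Comparison of the torus average and the plane. -/
theorem HM_close {q : ℝ} (h0 : 0 ≤ q) (h1 : q ≤ 1) {M m : ℕ} (hm : 1 ≤ m) (hM : 2 * m + 2 < M) :
    |HM M q - (hinf true q + hinf false q)| ≤ 2 * a4 q m := by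
  classical
  have hMpos : (0:ℝ) < M := by exact_mod_cast (by omega : 0 < M)
  have hC := H676A.taskC q h0 h1 m hm
  have hB := (taskB q h0 h1).1
  have hle : ∀ b, hpl b m q ≤ hinf b q := by
    intro b
    exact le_ciSup (f := fun m : ℕ => hpl b m q)
      ⟨1, by rintro _ ⟨i, rfl⟩; exact (hB b i).2.1⟩ m
  have hpt : ∀ a ∈ EM M, |PQ q (EM M) (fe M a) - hinf a.2.2 q| ≤ a4 q m := by
    intro a ha
    have h2 := hC.1 M hM a ha
    have h3 := hC.2 a.2.2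
    have h4 := hle a.2.2
    rw [abs_le]
    constructor <;> linarith [h2.1, h2.2]
  have hsum : ∑ a ∈ EM M, hinf a.2.2 q = (M:ℝ) ^ 2 * (hinf true q + hinf false q) := by
    unfold EM
    rw [Finset.sum_product]
    simp only [Finset.sum_product, Fintype.univ_bool, Finset.sum_insert, Finset.mem_singleton,
      Bool.true_eq_false, not_false_eq_true, Finset.sum_singleton, Finset.sum_const,
      Int.card_Ico, sub_zero, Int.toNat_natCast, nsmul_eq_mul]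
    ring
  have hcard : ((EM M).card : ℝ) = 2 * (M:ℝ) ^ 2 := by
    unfold EM
    rw [Finset.card_product, Finset.card_product, Int.card_Ico]
    simp
    ring
  have e1 : HM M q - (hinf true q + hinf false q) =
      ((M:ℝ) ^ 2)⁻¹ * ∑ a ∈ EM M, (PQ q (EM M) (fe M a) - hinf a.2.2 q) := by
    rw [Finset.sum_sub_distrib, hsum]
    unfold HM
    field_simp
  rw [e1, abs_mul, abs_of_nonneg (by positivity)]
  have h5 : |∑ a ∈ EM M, (PQ q (EM M) (fe M a) - hinf a.2.2 q)| ≤ 2 * (M:ℝ) ^ 2 * a4 q m := by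
    refine (Finset.abs_sum_le_sum_abs _ _).trans ?_
    refine (Finset.sum_le_sum hpt).trans ?_
    rw [Finset.sum_const, nsmul_eq_mul, hcard]
  refine (mul_le_mul_of_nonneg_left h5 (by positivity)).trans (le_of_eq ?_)
  field_simp

theorem second_bound {q κ : ℝ} {N : ℕ} (hN : 1 ≤ N) (hW : Win q κ (2 ^ N)) :
    ∃ D, HasDerivAt (HM1 (2 ^ N)) D q ∧ |D| ≤ 6 * (2 ^ 40 * (κ ^ 4)⁻¹ *
      (∑ k ∈ Finset.range N, (16:ℝ) ^ k * (if k = 0 then 1 else a4 q (2 ^ (k - 1))) ^ 3 +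
        ∑ j ∈ Finset.range N, ∑ k ∈ Finset.range (j - 6),
      a4 q (2 ^ (j - 2)) * (16 ^ k * (if k = 0 then 1 else a4 q (2 ^ (k - 1))) ^ 2 *
        2 ^ (j - k)))) := by
  have h0 : 0 ≤ q := by linarith [hW.lo]
  have h1 : q ≤ 1 := by linarith [hW.hi]
  have hkpos := hW.kpos
  have hk1 : 1 ≤ (κ ^ 4)⁻¹ := by
    rw [one_le_inv₀ (by positivity)]
    exact pow_le_one₀ hW.kpos.le (by linarith [hW.kle])
  obtain ⟨D, hD1, hD2⟩ := (taskP9 (2 ^ N)).2 q h0 h1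
  refine ⟨D, hD1, ?_⟩
  have hA : ∀ k, 0 ≤ AA q k := AA_nonneg h0 h1
  have h7 := taskP7 q N
    (fun j k => 2 ^ 40 * (κ ^ 4)⁻¹ * (a4 q (2 ^ (j - 2)) * (16 ^ k * AA q k ^ 2 * 2 ^ (j - k))))
    (fun k => 2 ^ 30 * 16 ^ k * AA q k ^ 3) hN h0 h1
    (fun j k => by have := a4_nn h0 h1 (2 ^ (j - 2)); have := hA k; positivity)
    (fun k => by have := hA k; positivity)
    (fun k hk a ha => taskP5 Pool.Agent.H77R3.ALP1.taskP1 taskP4 q h0 h1 (2 ^ N) k
      (Nat.pow_lt_pow_right (by norm_num) hk) a ha)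
    (fun j _ k hjk a ha => taskP6 taskP2 taskP3 taskP4 q κ N hW j k hjk a ha)
  refine hD2.trans ?_
  refine (mul_le_mul_of_nonneg_left h7 (by positivity)).trans ?_
  have e1 : ((((2 ^ N : ℕ) : ℝ)) ^ 2)⁻¹ = ((4:ℝ) ^ N)⁻¹ := by
    push_cast
    rw [← pow_mul, mul_comm N 2, pow_mul]; norm_num
  rw [e1, ← mul_assoc, show ((4:ℝ) ^ N)⁻¹ * (6 * 4 ^ N) = 6 by field_simp]
  apply mul_le_mul_of_nonneg_left _ (by norm_num)
  rw [mul_add, Finset.mul_sum, Finset.mul_sum]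
  apply add_le_add
  · apply Finset.sum_le_sum
    intro k _
    have : 0 ≤ (16:ℝ) ^ k * AA q k ^ 3 := by have := hA k; positivity
    calc 2 ^ 30 * 16 ^ k * AA q k ^ 3 = 2 ^ 30 * 1 * (16 ^ k * AA q k ^ 3) := by ring
      _ ≤ 2 ^ 40 * (κ ^ 4)⁻¹ * (16 ^ k * AA q k ^ 3) := by
        apply mul_le_mul_of_nonneg_right _ this
        exact mul_le_mul (by norm_num) hk1 (by norm_num) (by norm_num)
      _ = _ := rfl
  · apply le_of_eq
    apply Finset.sum_congr rfl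
    intro j _
    rw [Finset.mul_sum]
    rfl

/-- The exponent bound. -/
theorem main_bound : ∃ κ : ℝ → ℝ,
    (∀ p ∈ Set.Icc (0:ℝ) 1, Tendsto (fun n : ℕ => EK n p / (n:ℝ) ^ 2) atTop (nhds (κ p))) ∧
    ∃ a b : ℝ, ∀ ε : ℝ, 0 < ε → ∃ C : ℝ, ∀ p ∈ Set.Icc (0:ℝ) 1,
      |κ p - κ (1/2) - a * (p - 1/2) - b * (p - 1/2) ^ 2| ≤ C * |p - 1/2| ^ (8/3 - ε) := by
  obtain ⟨hL1, hL2, hL3⟩ := taskL taskK taskB
  refine ⟨kap, fun p hp => hL1 p hp.1 hp.2, ?_⟩
  have hT := taskT (fun q => hinf true q + hinf false q) (fun N => HM (2 ^ N))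
    (fun N => HM1 (2 ^ N)) (fun N q => (taskP9 (2 ^ N)).1 q) ?_ hL2 hL3
  · obtain ⟨b, hb⟩ := hT
    refine ⟨hinf true (1/2) + hinf false (1/2) - 2, b, ?_⟩
    intro ε hε
    obtain ⟨C, hC⟩ := hb ε hε
    refine ⟨C, ?_⟩
    intro p hp
    have h2 := hC p hp
    have h3 : kap p - kap (1/2) = -2 * (p - 1/2) +
        ∫ q in (1/2:ℝ)..p, (hinf true q + hinf false q) := by
      unfold kap
      have h4 := intervalIntegral.integral_add_adjacent_intervals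
        (hL2 0 (by norm_num) (1/2) (by norm_num)) (hL2 (1/2) (by norm_num) p hp)
      rw [← h4]
      ring
    have h5 : kap p - kap (1/2) - (hinf true (1/2) + hinf false (1/2) - 2) * (p - 1/2) -
        b * (p - 1/2) ^ 2 = (∫ q in (1/2:ℝ)..p, (hinf true q + hinf false q)) -
        (hinf true (1/2) + hinf false (1/2)) * (p - 1/2) - b * (p - 1/2) ^ 2 := by
      rw [h3]; ring
    rw [h5]
    exact h2
  · intro ε hε hε1
    obtain ⟨κ, B, hκ, hB, hn⟩ := near0 (ε / 5) (by positivity)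
    obtain ⟨C8, hC8⟩ := taskP8 (ε / 5) B (by positivity) (by linarith) hB.le
    refine ⟨κ, max (2 * B * 4 ^ (5/4 : ℝ)) (6 * (2 ^ 40 * (κ ^ 4)⁻¹ * C8)), 4, hκ, ?_⟩
    intro N hN q hq
    have hM1 : (1:ℝ) ≤ 2 ^ N := one_le_pow₀ (by norm_num)
    have hq' : |q - 1/2| ≤ κ * (((2 ^ N : ℕ)) : ℝ) ^ (-(3/4) - ε / 5) := by
      refine hq.trans ?_
      push_cast
      apply mul_le_mul_of_nonneg_left _ hκ.le
      apply Real.rpow_le_rpow_of_exponent_le hM1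
      linarith
    obtain ⟨hW, ha4⟩ := hn (2 ^ N) Nat.one_le_two_pow q hq'
    have h0 : 0 ≤ q := by linarith [hW.lo]
    have h1 : q ≤ 1 := by linarith [hW.hi]
    constructor
    · have hm : 2 * 2 ^ (N - 2) + 2 < 2 ^ N := by
        have e : 2 ^ N = 4 * 2 ^ (N - 2) := by
          rw [show (4:ℕ) = 2 ^ 2 by norm_num, ← pow_add]; congr 1; omega
        have : 2 ^ 2 ≤ 2 ^ (N - 2) := Nat.pow_le_pow_right (by norm_num) (by omega)
        omega
      refine (HM_close h0 h1 Nat.one_le_two_pow hm).trans ?_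
      have h2 := ha4 (2 ^ (N - 2)) Nat.one_le_two_pow (Nat.pow_le_pow_right (by norm_num) (by omega))
      have h3 : (((2 ^ (N - 2) : ℕ)) : ℝ) = 2 ^ N / 4 := by
        push_cast
        rw [eq_div_iff (by norm_num), show (4:ℝ) = 2 ^ 2 by norm_num, ← pow_add]
        congr 1; omega
      rw [h3, Real.div_rpow (by positivity) (by norm_num)] at h2
      have h4 : (4:ℝ) ^ (-(5/4) + ε / 5) = ((4:ℝ) ^ (5/4 - ε / 5))⁻¹ := by
        rw [← Real.rpow_neg (by norm_num)]; congr 1; ring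
      rw [h4, div_inv_eq_mul] at h2
      have h5 : (4:ℝ) ^ (5/4 - ε / 5) ≤ 4 ^ (5/4 : ℝ) :=
        Real.rpow_le_rpow_of_exponent_le (by norm_num) (by linarith)
      have h6 : ((2:ℝ) ^ N) ^ (-(5/4) + ε / 5) ≤ ((2:ℝ) ^ N) ^ (-(5/4) + ε) :=
        Real.rpow_le_rpow_of_exponent_le hM1 (by linarith)
      calc 2 * a4 q (2 ^ (N - 2)) ≤
          2 * (B * (((2:ℝ) ^ N) ^ (-(5/4) + ε / 5) * 4 ^ (5/4 - ε / 5))) := by linarith
        _ ≤ 2 * (B * (((2:ℝ) ^ N) ^ (-(5/4) + ε) * 4 ^ (5/4 : ℝ))) := by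
          apply mul_le_mul_of_nonneg_left _ (by norm_num)
          apply mul_le_mul_of_nonneg_left _ hB.le
          apply mul_le_mul h6 h5 (by positivity) (by positivity)
        _ = (2 * B * 4 ^ (5/4 : ℝ)) * ((2:ℝ) ^ N) ^ (-(5/4) + ε) := by ring
        _ ≤ _ := by
          apply mul_le_mul_of_nonneg_right (le_max_left _ _) (by positivity)
    · obtain ⟨D, hD1, hD2⟩ := second_bound (by omega) hW
      refine ⟨D, hD1, hD2.trans ?_⟩
      have h2 := hC8 N (a4 q) (fun m => a4_nn h0 h1 m) ha4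
      have h3 : 1/4 + 5 * (ε / 5) = 1/4 + ε := by ring
      rw [h3] at h2
      have hk : 0 ≤ 6 * (2 ^ 40 * (κ ^ 4)⁻¹) := by positivity
      calc 6 * (2 ^ 40 * (κ ^ 4)⁻¹ *
          (∑ k ∈ Finset.range N, (16:ℝ) ^ k * (if k = 0 then 1 else a4 q (2 ^ (k - 1))) ^ 3 +
            ∑ j ∈ Finset.range N, ∑ k ∈ Finset.range (j - 6),
          a4 q (2 ^ (j - 2)) * (16 ^ k * (if k = 0 then 1 else a4 q (2 ^ (k - 1))) ^ 2 *
            2 ^ (j - k)))) ≤ 6 * (2 ^ 40 * (κ ^ 4)⁻¹ * (C8 * ((2:ℝ) ^ N) ^ (1/4 + ε))) := by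
            apply mul_le_mul_of_nonneg_left _ (by norm_num)
            exact mul_le_mul_of_nonneg_left h2 (by positivity)
        _ = (6 * (2 ^ 40 * (κ ^ 4)⁻¹ * C8)) * ((2:ℝ) ^ N) ^ (1/4 + ε) := by ring
        _ ≤ _ := by
          apply mul_le_mul_of_nonneg_right (le_max_right _ _) (by positivity)

end H35A
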