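import Pool.Agent.H35R3.Al.StmtsD
import Pool.Agent.H35R3.Al.TaskT

/-!
Task T2 of project ALPHA: pointwise Taylor expansion from finite volume approximations.
-/

set_option autoImplicit false

namespace H35A

open Finset MeasureTheory Filter Topology

theorem taskT2 : TaskT2 := by
  intro h H H1 hH hyp hh
  -- the scale estimates
  have hsc : ∀ ε : ℝ, 0 < ε → ε < 1 / 100 → ∃ κ C1 : ℝ, ∃ N0 : ℕ, 0 < κ ∧ 0 ≤ C1 ∧
      ∀ N : ℕ, N0 ≤ N → ∀ d : ℝ, |d| ≤ κ * ((2:ℝ) ^ N) ^ (-(3/4) - ε) →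
      |h (1/2 + d) - h (1/2) - (fun N => H1 N (1/2)) N * d| ≤
        C1 * ((2:ℝ) ^ N) ^ (-(5/4) + ε) := by
    intro ε hε hε1
    obtain ⟨κ, C, N0, hκ, hN⟩ := hyp ε hε hε1
    have hC : 0 ≤ C := by
      have h1 := (hN N0 le_rfl (1/2) (by rw [sub_self, abs_zero]; positivity)).1
      by_contra hneg
      push Not at hneg
      have h2 : C * ((2:ℝ) ^ N0) ^ (-(5/4) + ε) < 0 :=
        mul_neg_of_neg_of_pos hneg (by positivity)
      have := abs_nonneg (H N0 (1/2) - h (1/2))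
      linarith
    refine ⟨κ, 2 * C + C * κ ^ 2, N0, hκ, by positivity, fun N hN0 d hd => ?_⟩
    exact T_scale hH hε hκ hC (hN N hN0) d hd
  obtain ⟨κ, C1, N0, hκ, hC1, hs⟩ := hsc (1/200) (by norm_num) (by norm_num)
  obtain ⟨b1, hb1⟩ := cauchySeq_tendsto_of_complete
    (T_eps (by norm_num) (by norm_num) hκ hC1 hs).1
  refine ⟨b1, fun ε hε => ?_⟩
  set δ : ℝ := min (ε / 4) (1 / 200) with hδ
  have hδ0 : 0 < δ := by
    rw [hδ]
    exact lt_min (by linarith) (by norm_num)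
  have hδ1 : δ < 1 / 100 := lt_of_le_of_lt (min_le_right _ _) (by norm_num)
  have hδε : 4 * δ ≤ ε := by
    have : δ ≤ ε / 4 := min_le_left _ _
    linarith
  obtain ⟨κ', C1', N0', hκ', hC1', hs'⟩ := hsc δ hδ0 hδ1
  obtain ⟨K, hK, hpt⟩ := T_point hδ0 hδ1 hκ' hC1' hs' b1 hb1 hh
  refine ⟨K, fun p hp => ?_⟩
  have hp2 : |p - 1/2| ≤ 1/2 := by
    rw [abs_le]
    constructor <;> linarith [hp.1, hp.2]
  have h3 := hpt (p - 1/2) hp2
  have e : (1/2 : ℝ) + (p - 1/2) = p := by ring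
  rw [e] at h3
  rcases (abs_nonneg (p - 1/2)).eq_or_lt with h0 | h0
  · have hp0 : p - 1/2 = 0 := abs_eq_zero.1 h0.symm
    have hp1 : p = 1/2 := by linarith
    rw [hp1]
    simp only [sub_self, mul_zero, abs_zero]
    exact mul_nonneg hK (Real.rpow_nonneg le_rfl _)
  · refine h3.trans ?_
    apply mul_le_mul_of_nonneg_left _ hK
    apply Real.rpow_le_rpow_of_exponent_ge h0 (by linarith)
    linarith

end H35A
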