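import Pool.Agent.H35R3.Al.StmtsD
import Pool.Agent.H35R3.Al.TaskB

/-! Project ALPHA, task V: continuity of the connection probability. -/

set_option autoImplicit false

namespace H35A

open H974 H12S H973N Finset Filter

namespace TV

theorem pr_cont (S : Finset Edg) (A : Finset Edg → Prop) :
    Continuous (fun q : ℝ => Pr (fun _ => q) S A) := by
  unfold Pr Ex
  refine continuous_finsetSum _ (fun F _ => ?_)
  refine Continuous.mul (Continuous.mul ?_ ?_) continuous_const
  · exact continuous_finsetProd _ (fun _ _ => continuous_id)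
  · exact continuous_finsetProd _ (fun _ _ => continuous_const.sub continuous_id)

theorem hpl_cont (b : Bool) (m : ℕ) : Continuous (fun q : ℝ => hpl b m q) := pr_cont _ _

theorem hpl_le_hinf {q : ℝ} (h0 : 0 ≤ q) (h1 : q ≤ 1) (b : Bool) (m : ℕ) :
    hpl b m q ≤ hinf b q := by
  show hpl b m q ≤ ⨆ k : ℕ, hpl b k q
  exact le_ciSup (f := fun k : ℕ => hpl b k q)
    ⟨1, by rintro _ ⟨k, rfl⟩; exact ((taskB q h0 h1).1 b k).2.1⟩ m

end TV

open TV in
theorem taskV : TaskV := by
  intro hU hC
  have hunif : TendstoUniformlyOn (fun (m : ℕ) (q : ℝ) => hpl true m q + hpl false m q)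
      (fun q => hinf true q + hinf false q) atTop (Set.Icc (0:ℝ) 1) := by
    rw [Metric.tendstoUniformlyOn_iff]
    intro ε hε
    obtain ⟨m0, hm0⟩ := hU (ε / 4) (by linarith)
    filter_upwards [eventually_ge_atTop (max m0 1)] with m hm q hq
    have hm1 : 1 ≤ m := (le_max_right _ _).trans hm
    have ha := hm0 m ((le_max_left _ _).trans hm) q hq
    have hc := (hC q hq.1 hq.2 m hm1).2
    have ht := hc true
    have hf := hc false
    have ht2 := hpl_le_hinf hq.1 hq.2 true m
    have hf2 := hpl_le_hinf hq.1 hq.2 false m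
    rw [Real.dist_eq, abs_lt]
    constructor <;> linarith
  exact hunif.continuousOn (Eventually.frequently (Eventually.of_forall fun m =>
    ((hpl_cont true m).add (hpl_cont false m)).continuousOn))

end H35A
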