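import Pool.Agent.H35R3.Al.StmtsD

/-! Task W of project ALPHA (helper133). -/

set_option autoImplicit false

namespace H35A.W133

open Set MeasureTheory Filter Topology

theorem core (h κ : ℝ → ℝ) (hc : ContinuousOn h (Set.Icc (0:ℝ) 1))
    (hκ : ∀ p ∈ Set.Icc (0:ℝ) 1, κ p = 1 - 2 * p + ∫ q in (0:ℝ)..p, h q)
    (hexp : ∃ b : ℝ, ∀ ε : ℝ, 0 < ε → ∃ C : ℝ, ∀ p ∈ Set.Icc (0:ℝ) 1,
      |h p - h (1/2) - b * (p - 1/2)| ≤ C * |p - 1/2| ^ (5/3 - ε)) :
    (∀ p ∈ Set.Ioo (0:ℝ) 1, HasDerivAt κ (h p - 2) p) ∧ DifferentiableAt ℝ (deriv κ) (1/2) ∧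
    ∀ ε : ℝ, 0 < ε → ∃ C : ℝ, ∀ p ∈ Set.Ioo (0:ℝ) 1,
    |deriv κ p - deriv κ (1/2) - deriv (deriv κ) (1/2) * (p - 1/2)| ≤
      C * |p - 1/2| ^ (5/3 - ε) ∧
    |κ p - κ (1/2) - deriv κ (1/2) * (p - 1/2) - deriv (deriv κ) (1/2) / 2 * (p - 1/2) ^ 2| ≤
      C * |p - 1/2| ^ (8/3 - ε) := by
  obtain ⟨b, hb⟩ := hexp
  have hint : ∀ x ∈ Icc (0:ℝ) 1, ∀ y ∈ Icc (0:ℝ) 1, IntervalIntegrable h volume x y := by
    intro x hx y hy
    apply ContinuousOn.intervalIntegrable
    apply hc.mono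
    exact Set.uIcc_subset_Icc hx hy
  have h0 : (0:ℝ) ∈ Icc (0:ℝ) 1 := ⟨le_rfl, zero_le_one⟩
  have h1 : ∀ p ∈ Set.Ioo (0:ℝ) 1, HasDerivAt κ (h p - 2) p := by
    intro p hp
    have hp' : p ∈ Icc (0:ℝ) 1 := Ioo_subset_Icc_self hp
    have e1 : HasDerivAt (fun u => ∫ q in (0:ℝ)..u, h q) (h p) p := by
      apply intervalIntegral.integral_hasDerivAt_right (hint 0 h0 p hp')
      · exact (hc.mono Ioo_subset_Icc_self).stronglyMeasurableAtFilter isOpen_Ioo p hp
      · exact (hc.mono Ioo_subset_Icc_self).continuousAt (isOpen_Ioo.mem_nhds hp)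
    have e2 : HasDerivAt (fun u : ℝ => 1 - 2 * u + ∫ q in (0:ℝ)..u, h q) (h p - 2) p := by
      have e3 : HasDerivAt (fun u : ℝ => 1 - 2 * u) (-2) p := by
        have := ((hasDerivAt_id p).const_mul 2).const_sub 1
        simpa using this
      refine (e3.add e1).congr_deriv ?_
      ring
    apply e2.congr_of_eventuallyEq
    filter_upwards [isOpen_Ioo.mem_nhds hp] with u hu
    exact hκ u (Ioo_subset_Icc_self hu)
  have hhalf : (1/2 : ℝ) ∈ Ioo (0:ℝ) 1 := ⟨by norm_num, by norm_num⟩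
  have hhalf' : (1/2 : ℝ) ∈ Icc (0:ℝ) 1 := Ioo_subset_Icc_self hhalf
  have hder : ∀ p ∈ Ioo (0:ℝ) 1, deriv κ p = h p - 2 := fun p hp => (h1 p hp).deriv
  -- derivative of h
  have hb1 : HasDerivAt h b (1/2) := by
    obtain ⟨C, hC⟩ := hb (1/3) (by norm_num)
    rw [hasDerivAt_iff_isLittleO, Asymptotics.isLittleO_iff]
    intro c hc0
    have hcont : Continuous (fun x : ℝ => |C| * |x - 1/2| ^ (1/3 : ℝ)) := by
      apply continuous_const.mul
      apply Continuous.rpow_const (by fun_prop)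
      intro x
      right
      norm_num
    have htend : Tendsto (fun x : ℝ => |C| * |x - 1/2| ^ (1/3 : ℝ)) (𝓝 (1/2)) (𝓝 0) := by
      have := hcont.tendsto (1/2)
      simpa using this
    filter_upwards [htend.eventually (gt_mem_nhds hc0), isOpen_Ioo.mem_nhds hhalf] with x hx hxI
    have h2 := hC x (Ioo_subset_Icc_self hxI)
    rw [Real.norm_eq_abs, Real.norm_eq_abs, smul_eq_mul, mul_comm (x - 1/2) b]
    refine h2.trans ?_
    have e4 : (5/3 - 1/3 : ℝ) = 1/3 + 1 := by norm_num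
    rw [e4, Real.rpow_add_one' (abs_nonneg _) (by norm_num), ← mul_assoc]
    apply mul_le_mul_of_nonneg_right _ (abs_nonneg _)
    have h5 : C * |x - 1/2| ^ (1/3 : ℝ) ≤ |C| * |x - 1/2| ^ (1/3 : ℝ) :=
      mul_le_mul_of_nonneg_right (le_abs_self C) (Real.rpow_nonneg (abs_nonneg _) _)
    linarith
  have hdd : HasDerivAt (deriv κ) b (1/2) := by
    have h2 : HasDerivAt (fun p => h p - 2) b (1/2) := hb1.sub_const 2
    apply h2.congr_of_eventuallyEq
    filter_upwards [isOpen_Ioo.mem_nhds hhalf] with u hu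
    exact hder u hu
  refine ⟨h1, hdd.differentiableAt, ?_⟩
  intro ε hε
  obtain ⟨C1, hC1⟩ := hb ε hε
  set δ : ℝ := min ε (1/3) with hδ
  have hδ0 : 0 < δ := lt_min hε (by norm_num)
  have hδ1 : δ ≤ 1/3 := min_le_right _ _
  have hδε : δ ≤ ε := min_le_left _ _
  obtain ⟨C2, hC2⟩ := hb δ hδ0
  refine ⟨|C1| + |C2|, fun p hp => ⟨?_, ?_⟩⟩
  · rw [hdd.deriv, hder p hp, hder _ hhalf]
    have e1 : h p - 2 - (h (1/2) - 2) - b * (p - 1/2) = h p - h (1/2) - b * (p - 1/2) := by ring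
    rw [e1]
    refine (hC1 p (Ioo_subset_Icc_self hp)).trans ?_
    apply mul_le_mul_of_nonneg_right _ (Real.rpow_nonneg (abs_nonneg _) _)
    have := le_abs_self C1
    have := abs_nonneg C2
    linarith
  · have hp' : p ∈ Icc (0:ℝ) 1 := Ioo_subset_Icc_self hp
    rw [hdd.deriv, hder _ hhalf]
    have hI : IntervalIntegrable h volume (1/2) p := hint _ hhalf' _ hp'
    have hI2 : IntervalIntegrable (fun q => h (1/2) + b * (q - 1/2)) volume (1/2) p := by
      apply Continuous.intervalIntegrable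
      fun_prop
    have e1 : (∫ q in (1/2:ℝ)..p, (h (1/2) + b * (q - 1/2))) =
        h (1/2) * (p - 1/2) + b / 2 * (p - 1/2) ^ 2 := by
      have hF : ∀ q ∈ Set.uIcc (1/2:ℝ) p, HasDerivAt
          (fun q => h (1/2) * (q - 1/2) + b / 2 * (q - 1/2) ^ 2) (h (1/2) + b * (q - 1/2)) q := by
        intro q _
        have h1 : HasDerivAt (fun q : ℝ => q - 1/2) 1 q := (hasDerivAt_id q).sub_const _
        have h2 := (h1.const_mul (h (1/2))).add ((h1.pow 2).const_mul (b / 2))
        refine h2.congr_deriv ?_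
        push_cast
        ring
      rw [intervalIntegral.integral_eq_sub_of_hasDerivAt hF hI2]
      ring
    have e0 : κ p - κ (1/2) = -2 * (p - 1/2) + ∫ q in (1/2:ℝ)..p, h q := by
      rw [hκ p hp', hκ _ hhalf', ← intervalIntegral.integral_interval_sub_left
        (hint 0 h0 p hp') (hint 0 h0 _ hhalf')]
      ring
    have e2 : κ p - κ (1/2) - (h (1/2) - 2) * (p - 1/2) - b / 2 * (p - 1/2) ^ 2 =
        ∫ q in (1/2:ℝ)..p, (h q - (h (1/2) + b * (q - 1/2))) := by
      rw [intervalIntegral.integral_sub hI hI2, e1, e0]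
      ring
    rw [e2]
    have hγ0 : (0:ℝ) < 5/3 - δ := by linarith
    have h3 : ‖∫ q in (1/2:ℝ)..p, (h q - (h (1/2) + b * (q - 1/2)))‖ ≤
        |C2| * |p - 1/2| ^ (5/3 - δ) * |p - 1/2| := by
      apply intervalIntegral.norm_integral_le_of_norm_le_const
      intro q hq
      rw [Real.norm_eq_abs]
      have hqI : q ∈ Icc (0:ℝ) 1 := Set.uIcc_subset_Icc hhalf' hp' (Set.uIoc_subset_uIcc hq)
      have hq1 : |q - 1/2| ≤ |p - 1/2| := by
        rcases le_total (1/2) p with hle | hle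
        · rw [Set.uIoc_of_le hle] at hq
          rw [abs_of_nonneg (by linarith [hq.1]), abs_of_nonneg (by linarith)]
          linarith [hq.2]
        · rw [Set.uIoc_of_ge hle] at hq
          rw [abs_of_nonpos (by linarith [hq.2]), abs_of_nonpos (by linarith)]
          linarith [hq.1]
      have h4 := hC2 q hqI
      have e3 : h q - (h (1/2) + b * (q - 1/2)) = h q - h (1/2) - b * (q - 1/2) := by ring
      rw [e3]
      refine h4.trans ?_
      calc C2 * |q - 1/2| ^ (5/3 - δ) ≤ |C2| * |q - 1/2| ^ (5/3 - δ) :=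
            mul_le_mul_of_nonneg_right (le_abs_self C2) (Real.rpow_nonneg (abs_nonneg _) _)
        _ ≤ |C2| * |p - 1/2| ^ (5/3 - δ) := by
            apply mul_le_mul_of_nonneg_left _ (abs_nonneg C2)
            exact Real.rpow_le_rpow (abs_nonneg _) hq1 hγ0.le
    rw [Real.norm_eq_abs] at h3
    refine h3.trans ?_
    have hC12 : 0 ≤ |C1| + |C2| := by positivity
    rcases (abs_nonneg (p - 1/2)).eq_or_lt with h0 | h0
    · rw [← h0, mul_zero]
      exact mul_nonneg hC12 (Real.rpow_nonneg le_rfl _)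
    · rw [mul_assoc]
      have hp2 : |p - 1/2| ≤ 1 := by
        rw [abs_le]
        constructor <;> linarith [hp.1, hp.2]
      calc |C2| * (|p - 1/2| ^ (5/3 - δ) * |p - 1/2|)
          = |C2| * |p - 1/2| ^ (5/3 - δ + 1) := by
            rw [Real.rpow_add_one h0.ne']
        _ ≤ |C2| * |p - 1/2| ^ (8/3 - ε) := by
            apply mul_le_mul_of_nonneg_left _ (abs_nonneg C2)
            apply Real.rpow_le_rpow_of_exponent_ge h0 hp2
            linarith
        _ ≤ (|C1| + |C2|) * |p - 1/2| ^ (8/3 - ε) := by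
            apply mul_le_mul_of_nonneg_right _ (Real.rpow_nonneg (abs_nonneg _) _)
            have := abs_nonneg C1
            linarith

end H35A.W133

namespace H35A

theorem taskW : TaskW := W133.core

end H35A
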