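import Pool.Agent.H35R3.Al.Fin
import Pool.Agent.H35R3.Al.TaskW
import Pool.Agent.H35R3.Al.TaskV
import Pool.Agent.H35R3.Al.TaskT2
import Pool.Agent.H54.Al.TaskZ

/-!
Project ALPHA: final form, with the derivatives at the critical point.
-/

set_option autoImplicit false

namespace H35A

open H974 H12S H973N Finset Filter

/-- The hypothesis of `TaskT` and `TaskT2`. -/
theorem scale_hyp : ∀ ε : ℝ, 0 < ε → ε < 1 / 100 → ∃ κ C : ℝ, ∃ N0 : ℕ, 0 < κ ∧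
    ∀ N : ℕ, N0 ≤ N → ∀ q : ℝ, |q - 1 / 2| ≤ κ * ((2:ℝ) ^ N) ^ (-(3/4) - ε) →
      |HM (2 ^ N) q - (hinf true q + hinf false q)| ≤ C * ((2:ℝ) ^ N) ^ (-(5/4) + ε) ∧
      ∃ D, HasDerivAt (HM1 (2 ^ N)) D q ∧ |D| ≤ C * ((2:ℝ) ^ N) ^ (1/4 + ε) := by
  intro ε hε hε1
  obtain ⟨κ, B, hκ, hB, hn⟩ := near0 (ε / 5) (by positivity)
  obtain ⟨C8, hC8⟩ := taskP8 (ε / 5) B (by positivity) (by linarith) hB.le
  refine ⟨κ, max (2 * B * 4 ^ (5/4 : ℝ)) (6 * (2 ^ 40 * (κ ^ 4)⁻¹ * C8)), 4, hκ, ?_⟩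
  intro N hN q hq
  have hM1 : (1:ℝ) ≤ 2 ^ N := one_le_pow₀ (by norm_num)
  have hq' : |q - 1/2| ≤ κ * (((2 ^ N : ℕ)) : ℝ) ^ (-(3/4) - ε / 5) := by
    refine hq.trans ?_
    push_cast
    apply mul_le_mul_of_nonneg_left _ hκ.le
    apply Real.rpow_le_rpow_of_exponent_le hM1
    linarith
  obtain ⟨hW, ha4⟩ := hn (2 ^ N) Nat.one_le_two_pow q hq'
  have h0 : 0 ≤ q := by linarith [hW.lo]
  have h1 : q ≤ 1 := by linarith [hW.hi]
  constructor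
  · have hm : 2 * 2 ^ (N - 2) + 2 < 2 ^ N := by
      have e : 2 ^ N = 4 * 2 ^ (N - 2) := by
        rw [show (4:ℕ) = 2 ^ 2 by norm_num, ← pow_add]; congr 1; omega
      have : 2 ^ 2 ≤ 2 ^ (N - 2) := Nat.pow_le_pow_right (by norm_num) (by omega)
      omega
    refine (HM_close h0 h1 Nat.one_le_two_pow hm).trans ?_
    have h2 := ha4 (2 ^ (N - 2)) Nat.one_le_two_pow (Nat.pow_le_pow_right (by norm_num) (by omega))
    have h3 : (((2 ^ (N - 2) : ℕ)) : ℝ) = 2 ^ N / 4 := by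
      push_cast
      rw [eq_div_iff (by norm_num), show (4:ℝ) = 2 ^ 2 by norm_num, ← pow_add]
      congr 1; omega
    rw [h3, Real.div_rpow (by positivity) (by norm_num)] at h2
    have h4 : (4:ℝ) ^ (-(5/4) + ε / 5) = ((4:ℝ) ^ (5/4 - ε / 5))⁻¹ := by
      rw [← Real.rpow_neg (by norm_num)]; congr 1; ring
    rw [h4, div_inv_eq_mul] at h2
    have h5 : (4:ℝ) ^ (5/4 - ε / 5) ≤ 4 ^ (5/4 : ℝ) :=
      Real.rpow_le_rpow_of_exponent_le (by norm_num) (by linarith)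
    have h6 : ((2:ℝ) ^ N) ^ (-(5/4) + ε / 5) ≤ ((2:ℝ) ^ N) ^ (-(5/4) + ε) :=
      Real.rpow_le_rpow_of_exponent_le hM1 (by linarith)
    calc 2 * a4 q (2 ^ (N - 2)) ≤
        2 * (B * (((2:ℝ) ^ N) ^ (-(5/4) + ε / 5) * 4 ^ (5/4 - ε / 5))) := by linarith
      _ ≤ 2 * (B * (((2:ℝ) ^ N) ^ (-(5/4) + ε) * 4 ^ (5/4 : ℝ))) := by
        apply mul_le_mul_of_nonneg_left _ (by norm_num)
        apply mul_le_mul_of_nonneg_left _ hB.le
        apply mul_le_mul h6 h5 (by positivity) (by positivity)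
      _ = (2 * B * 4 ^ (5/4 : ℝ)) * ((2:ℝ) ^ N) ^ (-(5/4) + ε) := by ring
      _ ≤ _ := by
        apply mul_le_mul_of_nonneg_right (le_max_left _ _) (by positivity)
  · obtain ⟨D, hD1, hD2⟩ := second_bound (by omega) hW
    refine ⟨D, hD1, hD2.trans ?_⟩
    have h2 := hC8 N (a4 q) (fun m => a4_nn h0 h1 m) ha4
    have h3 : 1/4 + 5 * (ε / 5) = 1/4 + ε := by ring
    rw [h3] at h2
    have hk : 0 ≤ 6 * (2 ^ 40 * (κ ^ 4)⁻¹) := by positivity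
    calc 6 * (2 ^ 40 * (κ ^ 4)⁻¹ *
        (∑ k ∈ Finset.range N, (16:ℝ) ^ k * (if k = 0 then 1 else a4 q (2 ^ (k - 1))) ^ 3 +
          ∑ j ∈ Finset.range N, ∑ k ∈ Finset.range (j - 6),
        a4 q (2 ^ (j - 2)) * (16 ^ k * (if k = 0 then 1 else a4 q (2 ^ (k - 1))) ^ 2 *
          2 ^ (j - k)))) ≤ 6 * (2 ^ 40 * (κ ^ 4)⁻¹ * (C8 * ((2:ℝ) ^ N) ^ (1/4 + ε))) := by
          apply mul_le_mul_of_nonneg_left _ (by norm_num)
          exact mul_le_mul_of_nonneg_left h2 (by positivity)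
      _ = (6 * (2 ^ 40 * (κ ^ 4)⁻¹ * C8)) * ((2:ℝ) ^ N) ^ (1/4 + ε) := by ring
      _ ≤ _ := by
        apply mul_le_mul_of_nonneg_right (le_max_right _ _) (by positivity)

/-- The final form. -/
theorem final (hU : TaskU) : ∃ κ : ℝ → ℝ,
    (∀ p ∈ Set.Icc (0:ℝ) 1,
      Tendsto (fun n : ℕ => meanClusters n p / (n:ℝ) ^ 2) atTop (nhds (κ p))) ∧
    (∀ p ∈ Set.Ioo (0:ℝ) 1, DifferentiableAt ℝ κ p) ∧ DifferentiableAt ℝ (deriv κ) (1/2) ∧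
    ∀ ε : ℝ, 0 < ε → ∃ C : ℝ, ∀ p ∈ Set.Ioo (0:ℝ) 1,
      |κ p - κ (1/2) - deriv κ (1/2) * (p - 1/2) - deriv (deriv κ) (1/2) / 2 * (p - 1/2) ^ 2| ≤
        C * |p - 1/2| ^ (8/3 - ε) := by
  obtain ⟨hL1, hL2, hL3⟩ := taskL taskK taskB
  have hcont := taskV hU H676A.taskC
  have hT := taskT2 (fun q => hinf true q + hinf false q) (fun N => HM (2 ^ N))
    (fun N => HM1 (2 ^ N)) (fun N q => (taskP9 (2 ^ N)).1 q) scale_hyp hL3
  obtain ⟨h1, h2, h3⟩ := taskW (fun q => hinf true q + hinf false q) kap hcont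
    (fun p _ => rfl) hT
  refine ⟨kap, ?_, fun p hp => (h1 p hp).differentiableAt, h2, ?_⟩
  · intro p hp
    exact (hL1 p hp.1 hp.2).congr (fun n => by rw [H54AlZ.taskZ n p])
  · intro ε hε
    obtain ⟨C, hC⟩ := h3 ε hε
    exact ⟨C, fun p hp => (hC p hp).2⟩

end H35A
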