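import Pool.Agent.H12R2.Sep.Defs

/-! Core of task U of the project ALPHA: `a4 q m ≤ 2 * arm (1/2) m` for all `q`, `m ≥ 1`. -/

set_option autoImplicit false

namespace H35A

open H974 H12S Finset

/-- Primal arm bound for the four-arm event. -/
theorem a4ev_le_primal {q : ℝ} (h0 : 0 ≤ q) (h1 : q ≤ 1) (m : ℕ) (b : Bool) :
    PQ q (boxE m) (fun F => A4 (-m) m (-m) m (e0 b) ↑F) ≤ arm q m := by
  refine le_trans ?_ (arm_bound h0 h1 (boxE m) (0, 0) m)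
  apply Pr_mono (okq h0 h1)
  rintro F _ ⟨⟨w, hw, hr⟩, -, -⟩
  refine ⟨w, ?_, ?_⟩
  · obtain ⟨_, h⟩ := hw
    simp only
    omega
  · have hs : src (e0 b) = (0, 0) := rfl
    rw [hs] at hr
    exact hr.mono (fun e he => he.1.1)

/-- Dual arm bound for the four-arm event. -/
theorem a4ev_le_dual {q : ℝ} (h0 : 0 ≤ q) (h1 : q ≤ 1) {m : ℕ} (hm : 1 ≤ m) (b : Bool) :
    PQ q (boxE m) (fun F => A4 (-m) m (-m) m (e0 b) ↑F) ≤ arm (1 - q) m := by
  set P : Finset Edg → Prop := fun G => ∃ u : Vtx, (u.1 ≤ (0:ℤ) - m ∨ (0:ℤ) + m ≤ u.1 ∨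
    u.2 ≤ (0:ℤ) - m ∨ (0:ℤ) + m ≤ u.2) ∧ DReach (↑G) (0, 0) u with hP
  have s1 : PQ q (boxE m) (fun F => A4 (-m) m (-m) m (e0 b) ↑F) ≤
      PQ q (boxE m) (fun F => P (boxE m \ F)) := by
    apply Pr_mono (okq h0 h1)
    rintro F hFS ⟨hu, hv, huv⟩
    have he : e0 b ∈ RE (-m) m (-m) m := by
      unfold e0
      cases b
      · rw [mem_RE_false]; omega
      · rw [mem_RE_true]; omega
    obtain ⟨g, hg, hr⟩ := dual_arm (a := -m) (b := m) (c := -m) (d := m)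
      (F := ((↑F : Set Edg) ∩ ↑(RE (-m) m (-m) m)) \ {e0 b}) (e := e0 b)
      (fun x hx => hx.1.2) he (fun h => h.2 rfl) hu hv huv (f0 := dtgt (e0 b))
      (f1 := dsrc (e0 b)) (Or.inr ⟨rfl, rfl⟩)
    refine ⟨g, ?_, ?_⟩
    · unfold outF at hg
      have hg' : g.1 < -m ∨ m ≤ g.1 ∨ g.2 < -m ∨ m ≤ g.2 := hg
      omega
    · have ht : dtgt (e0 b) = (0, 0) := rfl
      rw [ht] at hr
      refine hr.mono ?_
      rintro x ⟨⟨hx1, hx2⟩, hx3⟩
      rw [Finset.mem_coe, Finset.mem_sdiff]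
      refine ⟨hx1, fun hxF => hx2 ⟨⟨hxF, hx1⟩, hx3⟩⟩
  have s2 : PQ q (boxE m) (fun F => P (boxE m \ F)) = PQ (1 - q) (boxE m) P :=
    (Pr_compl (fun _ : Edg => q) (boxE m) P).symm
  have s3 : PQ (1 - q) (boxE m) P = PQ (1 - q) (dmp (boxE m)) (fun F => ∃ u : Vtx,
      (u.1 ≤ (0:ℤ) - m ∨ (0:ℤ) + m ≤ u.1 ∨ u.2 ≤ (0:ℤ) - m ∨ (0:ℤ) + m ≤ u.2) ∧
        Reach (↑F) (0, 0) u) := by
    unfold PQ
    rw [pr_dmp]
    apply Pr_congr
    intro F _
    simp only [hP]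
    constructor
    · rintro ⟨u, h3, h4⟩
      exact ⟨u, h3, by rw [coe_dmp, reach_dl]; exact h4⟩
    · rintro ⟨u, h3, h4⟩
      rw [coe_dmp, reach_dl] at h4
      exact ⟨u, h3, h4⟩
  have s4 := arm_bound (q := 1 - q) (by linarith) (by linarith) (dmp (boxE m)) (0, 0) m
  rw [s2, s3] at s1
  exact s1.trans s4

theorem a4_le_arm_half {q : ℝ} (h0 : 0 ≤ q) (h1 : q ≤ 1) {m : ℕ} (hm : 1 ≤ m) :
    a4 q m ≤ 2 * arm (1/2) m := by
  unfold a4
  rcases le_total q (1/2) with h | h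
  · have k := arm_mono_param h0 h (by norm_num) m
    have t := a4ev_le_primal h0 h1 m true
    have f := a4ev_le_primal h0 h1 m false
    linarith
  · have k := arm_mono_param (p := 1 - q) (q := 1/2) (by linarith) (by linarith) (by norm_num) m
    have t := a4ev_le_dual h0 h1 hm true
    have f := a4ev_le_dual h0 h1 hm false
    linarith

theorem a4_uniform (η : ℝ) (hη : 0 < η) : ∃ m0 : ℕ, ∀ m : ℕ, m0 ≤ m → ∀ q ∈ Set.Icc (0:ℝ) 1,
    a4 q m ≤ η := by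
  obtain ⟨K, hK⟩ := exists_pow_lt_of_lt_one (show (0:ℝ) < η / 2 by positivity)
    (show (1 - (1/2 : ℝ)^188) < 1 by
      have : (0:ℝ) < (1/2 : ℝ)^188 := by positivity
      linarith)
  refine ⟨RR K, ?_⟩
  intro m hm q hq
  have h9 := RR_ge K
  have k1 := a4_le_arm_half hq.1 hq.2 (m := m) (by omega)
  have k2 := arm_anti (q := 1/2) (by norm_num) (by norm_num) hm
  have k3 := arm_decay K
  linarith

end H35A
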