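import Pool.Agent.H35R3.Al.Fin2
import Pool.Agent.H35R3.Al.TaskUcore

/-!
Project ALPHA: the final theorem.
-/

set_option autoImplicit false

namespace H35A

open H974 H12S H973N Finset Filter

theorem alpha_upper : ∃ κ : ℝ → ℝ,
    (∀ p ∈ Set.Icc (0:ℝ) 1,
      Tendsto (fun n : ℕ => meanClusters n p / (n:ℝ) ^ 2) atTop (nhds (κ p))) ∧
    (∀ p ∈ Set.Ioo (0:ℝ) 1, DifferentiableAt ℝ κ p) ∧ DifferentiableAt ℝ (deriv κ) (1/2) ∧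
    ∀ ε : ℝ, 0 < ε → ∃ C : ℝ, ∀ p ∈ Set.Ioo (0:ℝ) 1,
      |κ p - κ (1/2) - deriv κ (1/2) * (p - 1/2) - deriv (deriv κ) (1/2) / 2 * (p - 1/2) ^ 2| ≤
        C * |p - 1/2| ^ (8/3 - ε) := by
  apply final
  intro η hη
  exact a4_uniform η hη

end H35A
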