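import Pool.Agent.H35R3.Al.StmtsB

/-!
Project ALPHA: uniform decay of the four-arm probability and continuity of the connection
probability.
-/

set_option autoImplicit false

namespace H35A

open H974 H12S H973N Finset

/-- The four-arm probability tends to zero uniformly in the parameter. -/
def TaskU : Prop := ∀ η : ℝ, 0 < η → ∃ m0 : ℕ, ∀ m : ℕ, m0 ≤ m → ∀ q ∈ Set.Icc (0:ℝ) 1,
  a4 q m ≤ η

/-- Continuity. -/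
def TaskV : Prop := TaskU → TaskC →
  ContinuousOn (fun q => hinf true q + hinf false q) (Set.Icc (0:ℝ) 1)

/-- Taylor expansion from finite volume approximations (pure analysis), pointwise form. -/
def TaskT2 : Prop := ∀ (h : ℝ → ℝ) (H H1 : ℕ → ℝ → ℝ),
  (∀ N q, HasDerivAt (H N) (H1 N q) q) →
  (∀ ε : ℝ, 0 < ε → ε < 1 / 100 → ∃ κ C : ℝ, ∃ N0 : ℕ, 0 < κ ∧ ∀ N : ℕ, N0 ≤ N → ∀ q : ℝ,
    |q - 1 / 2| ≤ κ * ((2:ℝ) ^ N) ^ (-(3/4) - ε) →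
      |H N q - h q| ≤ C * ((2:ℝ) ^ N) ^ (-(5/4) + ε) ∧
      ∃ D, HasDerivAt (H1 N) D q ∧ |D| ≤ C * ((2:ℝ) ^ N) ^ (1/4 + ε)) →
  (∀ q ∈ Set.Icc (0:ℝ) 1, |h q| ≤ 2) →
  ∃ b : ℝ, ∀ ε : ℝ, 0 < ε → ∃ C : ℝ, ∀ p ∈ Set.Icc (0:ℝ) 1,
    |h p - h (1/2) - b * (p - 1/2)| ≤ C * |p - 1/2| ^ (5/3 - ε)

/-- From the pointwise expansion of `h` to the expansion of the cluster density, with the
derivatives at the critical point. -/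
def TaskW : Prop := ∀ h κ : ℝ → ℝ, ContinuousOn h (Set.Icc (0:ℝ) 1) →
  (∀ p ∈ Set.Icc (0:ℝ) 1, κ p = 1 - 2 * p + ∫ q in (0:ℝ)..p, h q) →
  (∃ b : ℝ, ∀ ε : ℝ, 0 < ε → ∃ C : ℝ, ∀ p ∈ Set.Icc (0:ℝ) 1,
    |h p - h (1/2) - b * (p - 1/2)| ≤ C * |p - 1/2| ^ (5/3 - ε)) →
  (∀ p ∈ Set.Ioo (0:ℝ) 1, HasDerivAt κ (h p - 2) p) ∧ DifferentiableAt ℝ (deriv κ) (1/2) ∧
  ∀ ε : ℝ, 0 < ε → ∃ C : ℝ, ∀ p ∈ Set.Ioo (0:ℝ) 1,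
    |deriv κ p - deriv κ (1/2) - deriv (deriv κ) (1/2) * (p - 1/2)| ≤
      C * |p - 1/2| ^ (5/3 - ε) ∧
    |κ p - κ (1/2) - deriv κ (1/2) * (p - 1/2) - deriv (deriv κ) (1/2) / 2 * (p - 1/2) ^ 2| ≤
      C * |p - 1/2| ^ (8/3 - ε)

end H35A
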