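import Pool.Agent.H973R3.NC.AsmC
import Pool.Agent.H12R2.Sep.Key3
import Pool.Agent.H35R3.Al.StmtsD

/-!
Project ALPHA-SHARP (MP_5f99b0_pr): the same bounds without loss in the exponent.
-/

set_option autoImplicit false

namespace H35A

open H974 H12S H973N Finset

/-- `H973N.W_bounds` with `ε = 0`. -/
def SW1 : Prop := ∃ C : ℝ, 0 < C ∧
    ∀ (q A : ℝ) (K : ℕ), 0 ≤ q → q ≤ 1 → 1 ≤ A →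
    (∀ k ≤ K, a4 q (2^k) ≤ A * ((2:ℝ)^k) ^ (-(5/4 : ℝ))) →
    W1s q K ≤ C * A * ((2:ℝ)^K) ^ (3/4 : ℝ) ∧
    W2s q K ≤ C * A^2 * ((2:ℝ)^K) ^ (3/2 : ℝ) ∧
    (4:ℝ)^K * a4 q (2^K) * W1s q K ≤ C * A^2 * ((2:ℝ)^K) ^ (3/2 : ℝ)

/-- The four-arm bound without loss. -/
def A4s (q A : ℝ) (n : ℕ) : Prop := ∀ k : ℕ, k ≤ n → a4 q k ≤ A * ((k:ℝ) + 1) ^ (-(5/4 : ℝ))

/-- `H973N.T_deriv` with `ε = 0`. -/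
def SW2 : Prop := ∀ κ : ℝ, 0 < κ → ∀ L : ℕ, 2 ≤ L →
    ∃ C : ℝ, 0 < C ∧ ∀ (q : ℝ) (n : ℕ), Win q κ n → ∀ (A : ℝ), 1 ≤ A → A4s q A n →
      ∀ (m : ℕ), 128 ≤ m → m ≤ n → ∀ (I J : Set Vtx), (∀ v ∈ I ∪ J, (m:ℤ) ≤ |v.2|) → ∃ D : ℝ,
        HasDerivAt (fun q => ∑ e ∈ boxE (m / 4), PQ q (SR L m)
          (Pf (fun F : Finset Edg => Cn I J ↑F) e)) D q ∧
          |D| ≤ C * A ^ 2 * (m:ℝ) ^ (3/2 : ℝ)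

/-- `H973N.hh_deriv` with `ε = 0`. -/
def SW2h : Prop := ∀ κ : ℝ, 0 < κ →
    ∃ C : ℝ, 0 < C ∧ ∀ (q : ℝ) (n : ℕ), Win q κ n → ∀ (A : ℝ), 1 ≤ A → A4s q A n →
      ∀ (h : ℕ), 1 ≤ h → h ≤ n → ∃ D : ℝ,
        HasDerivAt (fun q => hh q (16 * h) h) D q ∧ |D| ≤ C * A * (h:ℝ) ^ (3/4 : ℝ)

/-- One scale, in the window. -/
def SW3 : Prop := ∀ κ : ℝ, 0 < κ →
    ∃ (L M : ℕ) (K η : ℝ), 2 ≤ L ∧ 512 ≤ M ∧ 0 < K ∧ 0 < η ∧ η * (192 * L : ℝ) ^ (5/4 : ℝ) ≤ 1/64 ∧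
      ∀ (q : ℝ) (n : ℕ), Win q κ n → ∀ r : ℕ, 1 ≤ r → 4 * L * (M * r) ≤ n →
        ∃ I J : Set Vtx, (∀ v ∈ I ∪ J, ((M * r : ℕ) : ℤ) ≤ |v.2|) ∧
          ((M * r : ℕ):ℝ) ^ 2 * a4 q (4 * L * (M * r)) ≤
            K * ∑ e ∈ boxE ((M * r) / 4), PQ q (SR L (M * r))
              (Pf (fun F : Finset Edg => Cn I J ↑F) e) +
            ((M * r : ℕ):ℝ) ^ 2 * (η * a4 q ((M * r) / 8))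

/-- The four-arm bound at the critical point without loss (`H988R6.a4_sharp`). -/
def Crit : Prop := ∃ C : ℝ, 0 < C ∧ ∀ k : ℕ, 1 ≤ k → a4 (1/2) k ≤ C * (k:ℝ) ^ (-(5/4) : ℝ)

/-- One step of the bootstrap, four-arm part, without loss. -/
def SW4 : Prop := SW2 → SW3 → Crit → ∀ κ : ℝ, 0 < κ →
    ∃ A : ℝ, 1 ≤ A ∧ (∀ k : ℕ, a4 (1/2) k < A * ((k:ℝ) + 1) ^ (-(5/4 : ℝ))) ∧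
      ∀ (q : ℝ) (n : ℕ), 1 ≤ n → A ^ 2 * |q - 1/2| ≤ (n:ℝ) ^ (-(3/4 : ℝ)) →
        (∀ t ∈ Set.uIcc (1/2) q, Win t κ n ∧ A4s t A n) →
        ∀ k : ℕ, k ≤ n → a4 q k < A * ((k:ℝ) + 1) ^ (-(5/4 : ℝ))

/-- The near-critical window without loss. -/
def SW5c : Prop := ∃ κ B : ℝ, 0 < κ ∧ 0 < B ∧ ∀ n : ℕ, 1 ≤ n → ∀ q : ℝ,
      |q - 1/2| ≤ κ * (n:ℝ)^(-(3/4) : ℝ) → Win q κ n ∧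
      ∀ m : ℕ, 1 ≤ m → m ≤ n → a4 q m ≤ B * (m:ℝ)^(-(5/4) : ℝ)

def SW5 : Prop := SW2h → (∀ κ : ℝ, 0 < κ →
    ∃ A : ℝ, 1 ≤ A ∧ (∀ k : ℕ, a4 (1/2) k < A * ((k:ℝ) + 1) ^ (-(5/4 : ℝ))) ∧
      ∀ (q : ℝ) (n : ℕ), 1 ≤ n → A ^ 2 * |q - 1/2| ≤ (n:ℝ) ^ (-(3/4 : ℝ)) →
        (∀ t ∈ Set.uIcc (1/2) q, Win t κ n ∧ A4s t A n) →
        ∀ k : ℕ, k ≤ n → a4 q k < A * ((k:ℝ) + 1) ^ (-(5/4 : ℝ))) → SW5c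

/-- The numerical sum without loss. -/
def SW6 : Prop := ∀ B : ℝ, 0 ≤ B → ∃ C : ℝ, ∀ (N : ℕ) (f : ℕ → ℝ),
  (∀ m, 0 ≤ f m) → (∀ m : ℕ, 1 ≤ m → m ≤ 2 ^ N → f m ≤ B * (m:ℝ) ^ (-(5/4) : ℝ)) →
  ∑ k ∈ Finset.range N, (16:ℝ) ^ k * (if k = 0 then 1 else f (2 ^ (k - 1))) ^ 3 +
    ∑ j ∈ Finset.range N, ∑ k ∈ Finset.range (j - 6),
      f (2 ^ (j - 2)) * (16 ^ k * (if k = 0 then 1 else f (2 ^ (k - 1))) ^ 2 * 2 ^ (j - k)) ≤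
    C * ((2:ℝ) ^ N) ^ (1/4 : ℝ)

/-- Taylor expansion without loss (pure analysis). -/
def SW7 : Prop := ∀ (h : ℝ → ℝ) (H H1 : ℕ → ℝ → ℝ),
  (∀ N q, HasDerivAt (H N) (H1 N q) q) →
  (∃ κ C : ℝ, ∃ N0 : ℕ, 0 < κ ∧ ∀ N : ℕ, N0 ≤ N → ∀ q : ℝ,
    |q - 1 / 2| ≤ κ * ((2:ℝ) ^ N) ^ (-(3/4) : ℝ) →
      |H N q - h q| ≤ C * ((2:ℝ) ^ N) ^ (-(5/4) : ℝ) ∧
      ∃ D, HasDerivAt (H1 N) D q ∧ |D| ≤ C * ((2:ℝ) ^ N) ^ (1/4 : ℝ)) →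
  (∀ q ∈ Set.Icc (0:ℝ) 1, |h q| ≤ 2) →
  ∃ b C : ℝ, ∀ p ∈ Set.Icc (0:ℝ) 1,
    |h p - h (1/2) - b * (p - 1/2)| ≤ C * |p - 1/2| ^ (5/3 : ℝ)

/-- From the expansion of `h` to the expansion of the cluster density. -/
def SW8 : Prop := ∀ h κ : ℝ → ℝ, ContinuousOn h (Set.Icc (0:ℝ) 1) →
  (∀ p ∈ Set.Icc (0:ℝ) 1, κ p = 1 - 2 * p + ∫ q in (0:ℝ)..p, h q) →
  (∃ b C : ℝ, ∀ p ∈ Set.Icc (0:ℝ) 1,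
    |h p - h (1/2) - b * (p - 1/2)| ≤ C * |p - 1/2| ^ (5/3 : ℝ)) →
  (∀ p ∈ Set.Ioo (0:ℝ) 1, HasDerivAt κ (h p - 2) p) ∧ DifferentiableAt ℝ (deriv κ) (1/2) ∧
  ∃ C : ℝ, ∀ p ∈ Set.Ioo (0:ℝ) 1,
    |deriv κ p - deriv κ (1/2) - deriv (deriv κ) (1/2) * (p - 1/2)| ≤
      C * |p - 1/2| ^ (5/3 : ℝ) ∧
    |κ p - κ (1/2) - deriv κ (1/2) * (p - 1/2) - deriv (deriv κ) (1/2) / 2 * (p - 1/2) ^ 2| ≤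
      C * |p - 1/2| ^ (8/3 : ℝ)

end H35A
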