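import Pool.Agent.H35R3.Al.Fin3
import Pool.Agent.H35R3.Al.StmtsS
import Pool.Agent.H988R6.Up

/-!
Project ALPHA-SHARP: assembly.
-/

set_option autoImplicit false

namespace H35A

open H974 H12S H973N Finset Filter

theorem critS : Crit := by
  obtain ⟨c, C, hc, hC, h⟩ := Pool.Agent.H988R6.a4_sharp
  exact ⟨C, hC, fun k hk => (h k hk).2⟩

/-- The hypothesis of `SW7`. -/
theorem scale_hypS (h5 : SW5c) (h6 : SW6) : ∃ κ C : ℝ, ∃ N0 : ℕ, 0 < κ ∧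
    ∀ N : ℕ, N0 ≤ N → ∀ q : ℝ, |q - 1 / 2| ≤ κ * ((2:ℝ) ^ N) ^ (-(3/4) : ℝ) →
      |HM (2 ^ N) q - (hinf true q + hinf false q)| ≤ C * ((2:ℝ) ^ N) ^ (-(5/4) : ℝ) ∧
      ∃ D, HasDerivAt (HM1 (2 ^ N)) D q ∧ |D| ≤ C * ((2:ℝ) ^ N) ^ (1/4 : ℝ) := by
  obtain ⟨κ, B, hκ, hB, hn⟩ := h5
  obtain ⟨C8, hC8⟩ := h6 B hB.le
  refine ⟨κ, max (2 * B * 4 ^ (5/4 : ℝ)) (6 * (2 ^ 40 * (κ ^ 4)⁻¹ * C8)), 4, hκ, ?_⟩
  intro N hN q hq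
  have hM1 : (1:ℝ) ≤ 2 ^ N := one_le_pow₀ (by norm_num)
  have hq' : |q - 1/2| ≤ κ * (((2 ^ N : ℕ)) : ℝ) ^ (-(3/4) : ℝ) := by
    push_cast
    exact hq
  obtain ⟨hW, ha4⟩ := hn (2 ^ N) Nat.one_le_two_pow q hq'
  have h0 : 0 ≤ q := by linarith [hW.lo]
  have h1 : q ≤ 1 := by linarith [hW.hi]
  constructor
  · have hm : 2 * 2 ^ (N - 2) + 2 < 2 ^ N := by
      have e : 2 ^ N = 4 * 2 ^ (N - 2) := by
        rw [show (4:ℕ) = 2 ^ 2 by norm_num, ← pow_add]; congr 1; omega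
      have : 2 ^ 2 ≤ 2 ^ (N - 2) := Nat.pow_le_pow_right (by norm_num) (by omega)
      omega
    refine (HM_close h0 h1 Nat.one_le_two_pow hm).trans ?_
    have h2 := ha4 (2 ^ (N - 2)) Nat.one_le_two_pow (Nat.pow_le_pow_right (by norm_num) (by omega))
    have h3 : (((2 ^ (N - 2) : ℕ)) : ℝ) = 2 ^ N / 4 := by
      push_cast
      rw [eq_div_iff (by norm_num), show (4:ℝ) = 2 ^ 2 by norm_num, ← pow_add]
      congr 1; omega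
    rw [h3, Real.div_rpow (by positivity) (by norm_num)] at h2
    have h4 : (4:ℝ) ^ (-(5/4) : ℝ) = ((4:ℝ) ^ (5/4 : ℝ))⁻¹ := by
      rw [← Real.rpow_neg (by norm_num)]
    rw [h4, div_inv_eq_mul] at h2
    calc 2 * a4 q (2 ^ (N - 2)) ≤
        2 * (B * (((2:ℝ) ^ N) ^ (-(5/4) : ℝ) * 4 ^ (5/4 : ℝ))) := by linarith
      _ = (2 * B * 4 ^ (5/4 : ℝ)) * ((2:ℝ) ^ N) ^ (-(5/4) : ℝ) := by ring
      _ ≤ _ := by
        apply mul_le_mul_of_nonneg_right (le_max_left _ _) (by positivity)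
  · obtain ⟨D, hD1, hD2⟩ := second_bound (by omega) hW
    refine ⟨D, hD1, hD2.trans ?_⟩
    have h2 := hC8 N (a4 q) (fun m => a4_nn h0 h1 m) ha4
    have hk : 0 ≤ 6 * (2 ^ 40 * (κ ^ 4)⁻¹) := by positivity
    calc 6 * (2 ^ 40 * (κ ^ 4)⁻¹ *
        (∑ k ∈ Finset.range N, (16:ℝ) ^ k * (if k = 0 then 1 else a4 q (2 ^ (k - 1))) ^ 3 +
          ∑ j ∈ Finset.range N, ∑ k ∈ Finset.range (j - 6),
        a4 q (2 ^ (j - 2)) * (16 ^ k * (if k = 0 then 1 else a4 q (2 ^ (k - 1))) ^ 2 *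
          2 ^ (j - k)))) ≤ 6 * (2 ^ 40 * (κ ^ 4)⁻¹ * (C8 * ((2:ℝ) ^ N) ^ (1/4 : ℝ))) := by
          apply mul_le_mul_of_nonneg_left _ (by norm_num)
          exact mul_le_mul_of_nonneg_left h2 (by positivity)
      _ = (6 * (2 ^ 40 * (κ ^ 4)⁻¹ * C8)) * ((2:ℝ) ^ N) ^ (1/4 : ℝ) := by ring
      _ ≤ _ := by
        apply mul_le_mul_of_nonneg_right (le_max_right _ _) (by positivity)

/-- The final form. -/
theorem finalS (h5 : SW5c) (h6 : SW6) (h7 : SW7) (h8 : SW8) : ∃ κ : ℝ → ℝ,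
    (∀ p ∈ Set.Icc (0:ℝ) 1,
      Tendsto (fun n : ℕ => meanClusters n p / (n:ℝ) ^ 2) atTop (nhds (κ p))) ∧
    (∀ p ∈ Set.Ioo (0:ℝ) 1, DifferentiableAt ℝ κ p) ∧ DifferentiableAt ℝ (deriv κ) (1/2) ∧
    ∃ C : ℝ, ∀ p ∈ Set.Ioo (0:ℝ) 1,
      |deriv κ p - deriv κ (1/2) - deriv (deriv κ) (1/2) * (p - 1/2)| ≤
        C * |p - 1/2| ^ (5/3 : ℝ) ∧
      |κ p - κ (1/2) - deriv κ (1/2) * (p - 1/2) - deriv (deriv κ) (1/2) / 2 * (p - 1/2) ^ 2| ≤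
        C * |p - 1/2| ^ (8/3 : ℝ) := by
  obtain ⟨hL1, hL2, hL3⟩ := taskL taskK taskB
  have hcont := taskV (fun η hη => a4_uniform η hη) H676A.taskC
  have hT := h7 (fun q => hinf true q + hinf false q) (fun N => HM (2 ^ N))
    (fun N => HM1 (2 ^ N)) (fun N q => (taskP9 (2 ^ N)).1 q) (scale_hypS h5 h6) hL3
  obtain ⟨h1, h2, h3⟩ := h8 (fun q => hinf true q + hinf false q) kap hcont
    (fun p _ => rfl) hT
  refine ⟨kap, ?_, fun p hp => (h1 p hp).differentiableAt, h2, h3⟩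
  intro p hp
  exact (hL1 p hp.1 hp.2).congr (fun n => by rw [H54AlZ.taskZ n p])

/-- Assembly of the whole project. -/
theorem alpha_sharp_of (h2 : SW2) (h2h : SW2h) (h3 : SW3) (h4 : SW4) (h5 : SW5) (h6 : SW6)
    (h7 : SW7) (h8 : SW8) : ∃ κ : ℝ → ℝ,
    (∀ p ∈ Set.Icc (0:ℝ) 1,
      Tendsto (fun n : ℕ => meanClusters n p / (n:ℝ) ^ 2) atTop (nhds (κ p))) ∧
    (∀ p ∈ Set.Ioo (0:ℝ) 1, DifferentiableAt ℝ κ p) ∧ DifferentiableAt ℝ (deriv κ) (1/2) ∧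
    ∃ C : ℝ, ∀ p ∈ Set.Ioo (0:ℝ) 1,
      |deriv κ p - deriv κ (1/2) - deriv (deriv κ) (1/2) * (p - 1/2)| ≤
        C * |p - 1/2| ^ (5/3 : ℝ) ∧
      |κ p - κ (1/2) - deriv κ (1/2) * (p - 1/2) - deriv (deriv κ) (1/2) / 2 * (p - 1/2) ^ 2| ≤
        C * |p - 1/2| ^ (8/3 : ℝ) :=
  finalS (h5 h2h (h4 h2 h3 critS)) h6 h7 h8

end H35A
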