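import Pool.Agent.H35R3.Al.StmtsS

/-!
One step of the bootstrap, four-arm part, without loss in the exponent.
-/

set_option autoImplicit false
set_option maxHeartbeats 1000000

namespace H35A

open H974 H12S H973N Finset

theorem sw4_three_sum_le : (2:ℝ) ^ (5/4 : ℝ) ≤ 3 := by
  have h1 : ((2:ℝ) ^ (5/4 : ℝ)) ^ 4 = 32 := by
    rw [← Real.rpow_natCast, ← Real.rpow_mul (by norm_num)]
    rw [show (5/4:ℝ) * ((4:ℕ):ℝ) = ((5 : ℤ) : ℝ) by norm_num, Real.rpow_intCast]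
    norm_num
  by_contra hcon
  push Not at hcon
  have : (3:ℝ) ^ 4 < ((2:ℝ) ^ (5/4 : ℝ)) ^ 4 := pow_lt_pow_left₀ hcon (by norm_num) (by norm_num)
  rw [h1] at this
  norm_num at this

theorem sw4_cmp (k : ℕ) (hk : 1 ≤ k) :
    (k:ℝ) ^ (-(5/4 : ℝ)) ≤ 3 * ((k:ℝ) + 1) ^ (-(5/4 : ℝ)) := by
  have hk1 : (1:ℝ) ≤ k := by exact_mod_cast hk
  have hk0 : (0:ℝ) < k := by linarith
  have j1 : (2 * (k:ℝ)) ^ (-(5/4 : ℝ)) ≤ ((k:ℝ) + 1) ^ (-(5/4 : ℝ)) :=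
    Real.rpow_le_rpow_of_nonpos (by linarith) (by linarith) (by norm_num)
  rw [Real.mul_rpow (by norm_num) hk0.le] at j1
  have j2 : (2:ℝ) ^ (5/4 : ℝ) * (2:ℝ) ^ (-(5/4 : ℝ)) = 1 := by
    rw [← Real.rpow_add (by norm_num)]; norm_num
  have j3 : 0 < (k:ℝ) ^ (-(5/4 : ℝ)) := by positivity
  have j4 : 0 < (2:ℝ) ^ (-(5/4 : ℝ)) := by positivity
  have j5 : 1 ≤ 3 * (2:ℝ) ^ (-(5/4 : ℝ)) := by
    rw [← j2]
    exact mul_le_mul_of_nonneg_right sw4_three_sum_le j4.le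
  nlinarith

theorem sw4 : SW4 := by
  intro h2 h3 hcrit κ hκ
  obtain ⟨L, M, K, η, hL, hM, hK, hη, hηL, hstep⟩ := h3 κ hκ
  obtain ⟨C1, hC1, hT⟩ := h2 κ hκ L hL
  obtain ⟨Cc, hCc, hcr0⟩ := hcrit
  have hL0 : (0:ℝ) < L := by
    have : 0 < L := by omega
    exact_mod_cast this
  obtain ⟨k0, hk0⟩ : ∃ k0 : ℕ, k0 = 8 * L * M := ⟨_, rfl⟩
  have hk0p : 0 < k0 := by rw [hk0]; positivity
  have hk0r : (0:ℝ) < k0 := by exact_mod_cast hk0p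
  obtain ⟨c3, hc3⟩ : ∃ c3 : ℝ, c3 = (3:ℝ) ^ (5/4 : ℝ) := ⟨_, rfl⟩
  have hc3p : 0 < c3 := by rw [hc3]; positivity
  obtain ⟨K2, hK2⟩ : ∃ K2 : ℝ, K2 = K * (Cc * c3 + C1) * (8 * L : ℝ) ^ (5/4 : ℝ) := ⟨_, rfl⟩
  have hK2p : 0 < K2 := by rw [hK2]; positivity
  obtain ⟨A, hA⟩ : ∃ A : ℝ, A = 3 * ((k0:ℝ) + 1) ^ (5/4 : ℝ) + 6 * K2 + 3 * Cc + 1 := ⟨_, rfl⟩
  have hk1p : 1 ≤ ((k0:ℝ) + 1) ^ (5/4 : ℝ) := Real.one_le_rpow (by linarith) (by norm_num)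
  have hA1 : 4 ≤ A := by rw [hA]; nlinarith
  refine ⟨A, by linarith, ?_, ?_⟩
  · intro k
    rcases Nat.eq_zero_or_pos k with h | h
    · subst h
      have i1 := a4_le_two' (q := 1/2) (by norm_num) (by norm_num) 0
      simp only [Nat.cast_zero, zero_add, Real.one_rpow, mul_one]
      linarith
    · have i1 := hcr0 k h
      have i2 := sw4_cmp k h
      have i3 : 0 < ((k:ℝ) + 1) ^ (-(5/4 : ℝ)) := by positivity
      have i4 : Cc * (k:ℝ) ^ (-(5/4) : ℝ) ≤ Cc * (3 * ((k:ℝ) + 1) ^ (-(5/4 : ℝ))) :=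
        mul_le_mul_of_nonneg_left i2 hCc.le
      have i5 : (3 * Cc) * ((k:ℝ) + 1) ^ (-(5/4 : ℝ)) < A * ((k:ℝ) + 1) ^ (-(5/4 : ℝ)) := by
        apply mul_lt_mul_of_pos_right _ i3
        rw [hA]; nlinarith
      linarith
  intro q n hn hq hseg k hkn
  have hwq := hseg q Set.right_mem_uIcc
  have hq0 : 0 ≤ q := by linarith [hwq.1.lo]
  have hq1 : q ≤ 1 := by linarith [hwq.1.hi]
  have hnr : (1:ℝ) ≤ n := by exact_mod_cast hn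
  rcases Nat.lt_or_ge k k0 with hlt | hge
  · -- small scales
    have i1 := a4_le_two' hq0 hq1 k
    have hk0' : (0:ℝ) ≤ k := Nat.cast_nonneg _
    have hkr : ((k:ℝ) + 1) ≤ (k0:ℝ) + 1 := by
      have : (k:ℝ) ≤ k0 := by exact_mod_cast hlt.le
      linarith
    have i3 : ((k0:ℝ) + 1) ^ (-(5/4 : ℝ)) ≤ ((k:ℝ) + 1) ^ (-(5/4 : ℝ)) :=
      Real.rpow_le_rpow_of_nonpos (by linarith) hkr (by norm_num)
    have i6 : ((k0:ℝ) + 1) ^ (5/4 : ℝ) * ((k0:ℝ) + 1) ^ (-(5/4 : ℝ)) = 1 := by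
      rw [← Real.rpow_add (by linarith)]; norm_num
    have i7 : 0 < ((k0:ℝ) + 1) ^ (-(5/4 : ℝ)) := by positivity
    have i8 : 3 * ((k0:ℝ) + 1) ^ (5/4 : ℝ) ≤ A := by rw [hA]; nlinarith
    have i4 : 3 ≤ A * ((k0:ℝ) + 1) ^ (-(5/4 : ℝ)) := by
      have := mul_le_mul_of_nonneg_right i8 i7.le
      rw [mul_assoc, i6] at this
      linarith
    have i5 : A * ((k0:ℝ) + 1) ^ (-(5/4 : ℝ)) ≤ A * ((k:ℝ) + 1) ^ (-(5/4 : ℝ)) :=
      mul_le_mul_of_nonneg_left i3 (by linarith)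
    linarith
  · -- large scales
    have hk1' : 1 ≤ k := by omega
    have hkr : (0:ℝ) < k := by exact_mod_cast (by omega : 0 < k)
    obtain ⟨r, hr⟩ : ∃ r : ℕ, r = k / (4 * L * M) := ⟨_, rfl⟩
    obtain ⟨m, hm⟩ : ∃ m : ℕ, m = M * r := ⟨_, rfl⟩
    have hqq : 0 < 4 * L * M := by positivity
    have h1 : 4 * L * M * r ≤ k := by rw [hr]; exact Nat.mul_div_le _ _
    have h2' : k < 4 * L * M * r + 4 * L * M := by
      rw [hr]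
      have := Nat.lt_mul_div_succ k hqq
      rw [Nat.mul_add, Nat.mul_one] at this
      exact this
    have hr1 : 1 ≤ r := by
      rw [hr, Nat.le_div_iff_mul_le hqq]
      have : k0 = 2 * (4 * L * M) := by rw [hk0]; ring
      omega
    have hLm : 4 * L * m = 4 * L * M * r := by rw [hm]; ring
    have h3' : 4 * L * m ≤ k := by rw [hLm]; exact h1
    have hkm : k ≤ 8 * L * m := by
      have h6 : 8 * L * m = 2 * (4 * L * M * r) := by rw [hm]; ring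
      rw [h6]
      have h7 : 4 * L * M * 1 ≤ 4 * L * M * r := Nat.mul_le_mul_left _ hr1
      omega
    have hm512 : 512 ≤ m := by
      rw [hm]
      exact hM.trans (Nat.le_mul_of_pos_right _ hr1)
    have hmr : (512:ℝ) ≤ m := by exact_mod_cast hm512
    have hm0 : (0:ℝ) < m := by linarith
    have hmk : m < k := by
      have : 1 * m < 4 * L * m := Nat.mul_lt_mul_of_pos_right (by omega) (by omega)
      omega
    have hmn : m ≤ n := by omega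
    obtain ⟨I, J, hIJ, hbound⟩ := hstep q n hwq.1 r hr1 (by rw [← hm]; exact h3'.trans hkn)
    rw [← hm] at hbound hIJ
    -- Lipschitz bound
    have hlip := lip (f := fun q => ∑ e ∈ boxE (m / 4), PQ q (SR L m)
        (Pf (fun F : Finset Edg => Cn I J ↑F) e)) (a := 1/2) (b := q)
        (B := C1 * A ^ 2 * (m:ℝ) ^ (3/2 : ℝ))
        (fun t ht => hT t n (hseg t ht).1 A (by linarith) (hseg t ht).2 m (by omega) hmn I J hIJ)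
    have hup := T_upper (q := 1/2) (by norm_num) (by norm_num) (L := L) (m := m) (by omega) hL hIJ
    have hcr : a4 (1/2) (m / 2) ≤ Cc * (c3 * (m:ℝ) ^ (-(5/4 : ℝ))) := by
      have j1 := hcr0 (m / 2) (by omega)
      have j2 : (m:ℝ) / 3 ≤ ((m / 2 : ℕ) : ℝ) := by
        have : m ≤ 3 * (m / 2) := by omega
        have : (m:ℝ) ≤ 3 * ((m / 2 : ℕ) : ℝ) := by exact_mod_cast this
        linarith
      have j3 : ((m / 2 : ℕ) : ℝ) ^ (-(5/4 : ℝ)) ≤ ((m:ℝ) / 3) ^ (-(5/4 : ℝ)) :=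
        Real.rpow_le_rpow_of_nonpos (by linarith) j2 (by norm_num)
      have j4 : ((m:ℝ) / 3) ^ (-(5/4 : ℝ)) = c3 * (m:ℝ) ^ (-(5/4 : ℝ)) := by
        rw [hc3, Real.div_rpow hm0.le (by norm_num), Real.rpow_neg (by norm_num : (0:ℝ) ≤ 3)]
        field_simp
      calc a4 (1/2) (m / 2) ≤ Cc * ((m / 2 : ℕ) : ℝ) ^ (-(5/4) : ℝ) := j1
        _ ≤ Cc * (c3 * (m:ℝ) ^ (-(5/4 : ℝ))) := by
          rw [← j4]
          exact mul_le_mul_of_nonneg_left j3 hCc.le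
    have hdiff : C1 * A ^ 2 * (m:ℝ) ^ (3/2 : ℝ) * |q - 1/2| ≤ C1 * (m:ℝ) ^ (3/4 : ℝ) := by
      have j1 : (n:ℝ) ^ (-(3/4 : ℝ)) ≤ (m:ℝ) ^ (-(3/4 : ℝ)) :=
        Real.rpow_le_rpow_of_nonpos hm0 (by exact_mod_cast hmn) (by norm_num)
      have j2 : (m:ℝ) ^ (3/2 : ℝ) * (m:ℝ) ^ (-(3/4 : ℝ)) = (m:ℝ) ^ (3/4 : ℝ) := by
        rw [← Real.rpow_add hm0]; norm_num
      have j3 : 0 ≤ C1 * (m:ℝ) ^ (3/2 : ℝ) := by positivity
      calc C1 * A ^ 2 * (m:ℝ) ^ (3/2 : ℝ) * |q - 1/2|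
          = C1 * (m:ℝ) ^ (3/2 : ℝ) * (A^2 * |q - 1/2|) := by ring
        _ ≤ C1 * (m:ℝ) ^ (3/2 : ℝ) * (m:ℝ) ^ (-(3/4 : ℝ)) :=
          mul_le_mul_of_nonneg_left (hq.trans j1) j3
        _ = C1 * (m:ℝ) ^ (3/4 : ℝ) := by rw [mul_assoc, j2]
    have hm2 : (m:ℝ)^2 * (m:ℝ) ^ (-(5/4 : ℝ)) = (m:ℝ) ^ (3/4 : ℝ) := by
      rw [← Real.rpow_natCast, ← Real.rpow_add hm0]
      norm_num
    have hTq : ∑ e ∈ boxE (m / 4), PQ q (SR L m) (Pf (fun F : Finset Edg => Cn I J ↑F) e) ≤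
        (m:ℝ)^2 * ((Cc * c3 + C1) * (m:ℝ) ^ (-(5/4 : ℝ))) := by
      have j1 := (abs_le.mp (hlip.trans hdiff)).2
      have j2 : (m:ℝ)^2 * a4 (1/2) (m / 2) ≤
          (m:ℝ)^2 * (Cc * (c3 * (m:ℝ) ^ (-(5/4 : ℝ)))) :=
        mul_le_mul_of_nonneg_left hcr (by positivity)
      have j3 : (m:ℝ)^2 * ((Cc * c3 + C1) * (m:ℝ) ^ (-(5/4 : ℝ))) =
        (m:ℝ)^2 * (Cc * (c3 * (m:ℝ) ^ (-(5/4 : ℝ)))) + C1 * (m:ℝ) ^ (3/4 : ℝ) := by
        rw [← hm2]; ring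
      rw [j3]
      linarith
    have h5 : a4 q k ≤ a4 q (4 * L * m) :=
      a4_anti hq0 hq1 (by
        have : 0 < 4 * L * m := by positivity
        omega) h3'
    have hbd : (m:ℝ)^2 * a4 q (4 * L * m) ≤ (m:ℝ)^2 *
        (K * (Cc * c3 + C1) * (m:ℝ) ^ (-(5/4 : ℝ)) + η * a4 q (m / 8)) := by
      have j1 := mul_le_mul_of_nonneg_left hTq hK.le
      have j2 : (m:ℝ)^2 * (K * (Cc * c3 + C1) * (m:ℝ) ^ (-(5/4 : ℝ)) + η * a4 q (m / 8)) =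
        K * ((m:ℝ)^2 * ((Cc * c3 + C1) * (m:ℝ) ^ (-(5/4 : ℝ)))) +
          (m:ℝ)^2 * (η * a4 q (m / 8)) := by ring
      rw [j2]
      linarith
    have hbd2 : a4 q (4 * L * m) ≤
        K * (Cc * c3 + C1) * (m:ℝ) ^ (-(5/4 : ℝ)) + η * a4 q (m / 8) :=
      le_of_mul_le_mul_left hbd (by positivity)
    -- m ≥ k/(8L)
    have hmk2 : (k:ℝ) / (8 * L) ≤ m := by
      rw [div_le_iff₀ (by positivity)]
      have : (k:ℝ) ≤ ((8 * L * m : ℕ) : ℝ) := by exact_mod_cast hkm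
      push_cast at this
      linarith
    have h7 : (m:ℝ) ^ (-(5/4 : ℝ)) ≤ (8 * L : ℝ) ^ (5/4 : ℝ) * (k:ℝ) ^ (-(5/4 : ℝ)) := by
      calc (m:ℝ) ^ (-(5/4 : ℝ)) ≤ ((k:ℝ) / (8 * L)) ^ (-(5/4 : ℝ)) :=
            Real.rpow_le_rpow_of_nonpos (by positivity) hmk2 (by norm_num)
        _ = (8 * L : ℝ) ^ (5/4 : ℝ) * (k:ℝ) ^ (-(5/4 : ℝ)) := by
            rw [Real.div_rpow hkr.le (by positivity), Real.rpow_neg (by positivity) (5/4),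
              Real.rpow_neg (show (0:ℝ) ≤ 8 * L by positivity)]
            field_simp
    have h8 : (((m / 8 : ℕ) : ℝ) + 1) ^ (-(5/4 : ℝ)) ≤
        (192 * L : ℝ) ^ (5/4 : ℝ) * (k:ℝ) ^ (-(5/4 : ℝ)) := by
      have e1 : (k:ℝ) / (192 * L) ≤ ((m / 8 : ℕ) : ℝ) + 1 := by
        have e2 : m ≤ 9 * (m / 8) + 0 := by omega
        have e3 : (m:ℝ) ≤ 9 * ((m / 8 : ℕ) : ℝ) := by exact_mod_cast e2
        rw [div_le_iff₀ (by positivity)]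
        rw [div_le_iff₀ (by positivity)] at hmk2
        nlinarith
      calc (((m / 8 : ℕ) : ℝ) + 1) ^ (-(5/4 : ℝ)) ≤ ((k:ℝ) / (192 * L)) ^ (-(5/4 : ℝ)) :=
            Real.rpow_le_rpow_of_nonpos (by positivity) e1 (by norm_num)
        _ = (192 * L : ℝ) ^ (5/4 : ℝ) * (k:ℝ) ^ (-(5/4 : ℝ)) := by
            rw [Real.div_rpow hkr.le (by positivity), Real.rpow_neg (by positivity) (5/4),
              Real.rpow_neg (show (0:ℝ) ≤ 192 * L by positivity)]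
            field_simp
    have hkp : 0 < (k:ℝ) ^ (-(5/4 : ℝ)) := by positivity
    have h6 := hwq.2 (m / 8) (by omega)
    have h9 : η * a4 q (m / 8) ≤ A / 64 * (k:ℝ) ^ (-(5/4 : ℝ)) := by
      calc η * a4 q (m / 8) ≤ η * (A * (((m / 8 : ℕ) : ℝ) + 1) ^ (-(5/4 : ℝ))) :=
            mul_le_mul_of_nonneg_left h6 hη.le
        _ ≤ η * (A * ((192 * L : ℝ) ^ (5/4 : ℝ) * (k:ℝ) ^ (-(5/4 : ℝ)))) := by gcongr
        _ = (η * (192 * L : ℝ) ^ (5/4 : ℝ)) * (A * (k:ℝ) ^ (-(5/4 : ℝ))) := by ring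
        _ ≤ 1 / 64 * (A * (k:ℝ) ^ (-(5/4 : ℝ))) :=
            mul_le_mul_of_nonneg_right hηL (by positivity)
        _ = A / 64 * (k:ℝ) ^ (-(5/4 : ℝ)) := by ring
    have h10 : K * (Cc * c3 + C1) * (m:ℝ) ^ (-(5/4 : ℝ)) ≤ K2 * (k:ℝ) ^ (-(5/4 : ℝ)) := by
      calc K * (Cc * c3 + C1) * (m:ℝ) ^ (-(5/4 : ℝ)) ≤
            K * (Cc * c3 + C1) * ((8 * L : ℝ) ^ (5/4 : ℝ) * (k:ℝ) ^ (-(5/4 : ℝ))) := by gcongr
        _ = K2 * (k:ℝ) ^ (-(5/4 : ℝ)) := by rw [hK2]; ring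
    have h11 : a4 q k ≤ (K2 + A / 64) * (k:ℝ) ^ (-(5/4 : ℝ)) := by
      have : (K2 + A / 64) * (k:ℝ) ^ (-(5/4 : ℝ)) = K2 * (k:ℝ) ^ (-(5/4 : ℝ)) +
        A / 64 * (k:ℝ) ^ (-(5/4 : ℝ)) := by ring
      linarith
    have h12 := sw4_cmp k hk1'
    have h13 : (K2 + A / 64) * (k:ℝ) ^ (-(5/4 : ℝ)) ≤
        (K2 + A / 64) * (3 * ((k:ℝ) + 1) ^ (-(5/4 : ℝ))) :=
      mul_le_mul_of_nonneg_left h12 (by positivity)
    have h14 : 0 < ((k:ℝ) + 1) ^ (-(5/4 : ℝ)) := by positivity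
    have h15 : 3 * (K2 + A / 64) * ((k:ℝ) + 1) ^ (-(5/4 : ℝ)) <
        A * ((k:ℝ) + 1) ^ (-(5/4 : ℝ)) := by
      apply mul_lt_mul_of_pos_right _ h14
      have : 6 * K2 ≤ A := by rw [hA]; nlinarith
      linarith
    linarith

end H35A
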