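import Pool.Agent.H35R3.Al.StmtsS

/-!
Project ALPHA-SHARP, SW5: stability of the four-arm upper bound and of RSW in the near-critical
window, without loss (after `H973N.stab_of`).
-/

set_option autoImplicit false
set_option maxHeartbeats 1000000

namespace H35A

open H974 H12S H973N Finset

/-- Stability in the window `|q - 1/2| ≤ n^(-3/4) / C`. -/
theorem stab_sharp (h2h : SW2h) (hst : ∀ κ : ℝ, 0 < κ →
    ∃ A : ℝ, 1 ≤ A ∧ (∀ k : ℕ, a4 (1/2) k < A * ((k:ℝ) + 1) ^ (-(5/4 : ℝ))) ∧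
      ∀ (q : ℝ) (n : ℕ), 1 ≤ n → A ^ 2 * |q - 1/2| ≤ (n:ℝ) ^ (-(3/4 : ℝ)) →
        (∀ t ∈ Set.uIcc (1/2) q, Win t κ n ∧ A4s t A n) →
        ∀ k : ℕ, k ≤ n → a4 q k < A * ((k:ℝ) + 1) ^ (-(5/4 : ℝ))) :
    ∃ κ : ℝ, 0 < κ ∧ ∃ C : ℝ, 1 ≤ C ∧ ∀ n : ℕ, 1 ≤ n → ∀ q : ℝ,
      |q - 1/2| ≤ (n:ℝ) ^ (-(3/4 : ℝ)) / C → Win q κ n ∧ A4s q C n := by
  obtain ⟨κ1, hκ1, hwin⟩ := win_half
  have hκ1' : κ1 ≤ 1/2 := (hwin 1).kle
  refine ⟨κ1 / 2, by linarith, ?_⟩
  have hκ : 0 < κ1 / 2 := by linarith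
  obtain ⟨A, hA, hAcrit, hstep⟩ := hst (κ1 / 2) hκ
  obtain ⟨C2, hC2, hhd⟩ := h2h (κ1 / 2) hκ
  set C : ℝ := A^2 + 4 * (C2 * A / κ1) + 4 with hC
  have hA2 : 1 ≤ A^2 := by nlinarith
  have hx : 0 < C2 * A / κ1 := by positivity
  have hCpos : 0 < C := by linarith
  have hCA : A ≤ C := by nlinarith
  refine ⟨C, by linarith, ?_⟩
  intro n hn q hq
  have hnr : (1:ℝ) ≤ n := by exact_mod_cast hn
  have hn1 : (n:ℝ) ^ (-(3/4 : ℝ)) ≤ 1 := Real.rpow_le_one_of_one_le_of_nonpos hnr (by norm_num)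
  have hn0 : 0 < (n:ℝ) ^ (-(3/4 : ℝ)) := by positivity
  set δ : ℝ := (n:ℝ) ^ (-(3/4 : ℝ)) / C with hδ
  have hδ0 : 0 < δ := by positivity
  have hδ4 : δ ≤ 1/4 := by
    rw [hδ, div_le_iff₀ hCpos]; linarith
  -- the family of constraints
  set g : Bool × (Fin (n+1) ⊕ Fin (n+1)) → ℝ → ℝ := fun i s =>
    match i.2 with
    | Sum.inl k => a4 (qs i.1 s) k - A * (((k:ℕ):ℝ) + 1) ^ (-(5/4 : ℝ))
    | Sum.inr h => if (h:ℕ) = 0 then -1 else κ1 / 2 - hh (qs i.1 s) (16 * (h:ℕ)) (h:ℕ) with hg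
  have hgcont : ∀ i, Continuous (g i) := by
    rintro ⟨τ, k | h⟩
    · simp only [hg]
      apply Continuous.sub _ continuous_const
      unfold a4
      exact ((cont_Pr _ _).comp (cont_qs τ)).add ((cont_Pr _ _).comp (cont_qs τ))
    · simp only [hg]
      split_ifs
      · exact continuous_const
      · apply Continuous.sub continuous_const
        exact (cont_Pr _ _).comp (cont_qs τ)
  -- meaning of the constraints
  have hmean : ∀ s, 0 ≤ s → s ≤ δ → (∀ i, g i s ≤ 0) → ∀ τ : Bool,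
      Win (qs τ s) (κ1 / 2) n ∧ A4s (qs τ s) A n := by
    intro s hs hsδ hgs τ
    have hwin' : ∀ τ : Bool, ∀ h : ℕ, 1 ≤ h → h ≤ n → κ1 / 2 ≤ hh (qs τ s) (16 * h) h := by
      intro τ h h1 h2
      have := hgs (τ, Sum.inr ⟨h, by omega⟩)
      simp only [hg] at this
      rw [if_neg (by omega)] at this
      linarith
    refine ⟨⟨hκ, by linarith, ?_, ?_, hwin' τ, ?_⟩, ?_⟩
    · have := abs_qs (τ := τ) hs
      have := (abs_le.mp this.le).1
      linarith
    · have := abs_qs (τ := τ) hs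
      have := (abs_le.mp this.le).2
      linarith
    · intro h h1 h2
      rw [qs_flip]
      exact hwin' (!τ) h h1 h2
    · intro k hk
      have := hgs (τ, Sum.inl ⟨k, by omega⟩)
      simp only [hg] at this
      linarith
  -- constraints hold strictly at `0`
  have hstrict : ∀ t, 0 ≤ t → t ≤ δ → (∀ s, 0 ≤ s → s ≤ t → ∀ τ : Bool,
      Win (qs τ s) (κ1 / 2) n ∧ A4s (qs τ s) A n) → ∀ i, g i t < 0 := by
    intro t ht htδ hall
    rintro ⟨τ, k | h⟩
    · simp only [hg]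
      have hseg : ∀ t' ∈ Set.uIcc (1/2) (qs τ t), Win t' (κ1 / 2) n ∧ A4s t' A n := by
        intro t' ht'
        obtain ⟨s', h1, h2, rfl⟩ := uIcc_qs ht ht'
        exact hall s' h1 h2 τ
      have h3 := hstep (qs τ t) n hn (by
        rw [abs_qs ht]
        have h4 : A^2 * t ≤ C * δ := mul_le_mul (by linarith) htδ ht hCpos.le
        have h5 : C * δ = (n:ℝ) ^ (-(3/4 : ℝ)) := by rw [hδ]; field_simp
        linarith) hseg k (by have := k.2; omega)
      linarith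
    · simp only [hg]
      split_ifs with h0
      · norm_num
      · have h1 : 1 ≤ (h:ℕ) := by omega
        have h2 : (h:ℕ) ≤ n := by have := h.2; omega
        have hlip := lip (f := fun q => hh q (16 * ((h:ℕ):ℤ)) ((h:ℕ):ℤ)) (a := 1/2) (b := qs τ t)
          (B := C2 * A * ((h:ℕ):ℝ) ^ (3/4 : ℝ)) (by
            intro t' ht'
            obtain ⟨s', h3, h4, rfl⟩ := uIcc_qs ht ht'
            obtain ⟨hw, hA4⟩ := hall s' h3 h4 τ
            exact hhd (qs τ s') n hw A hA hA4 h h1 h2)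
        rw [abs_qs ht] at hlip
        have h3 := (hwin h).pri h h1 le_rfl
        have h4 : C2 * A * ((h:ℕ):ℝ) ^ (3/4 : ℝ) * t ≤ κ1 / 4 := by
          have hhr : (0:ℝ) < ((h:ℕ):ℝ) := by exact_mod_cast h1
          have h5 : ((h:ℕ):ℝ) ^ (3/4 : ℝ) ≤ (n:ℝ) ^ (3/4 : ℝ) :=
            Real.rpow_le_rpow hhr.le (by exact_mod_cast h2) (by norm_num)
          have h6 : (n:ℝ) ^ (3/4 : ℝ) * (n:ℝ) ^ (-(3/4 : ℝ)) ≤ 1 := by
            rw [← Real.rpow_add (by linarith)]
            exact Real.rpow_le_one_of_one_le_of_nonpos hnr (by norm_num)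
          have h7 : t * C ≤ (n:ℝ) ^ (-(3/4 : ℝ)) := by
            have : δ * C = (n:ℝ) ^ (-(3/4 : ℝ)) := by rw [hδ]; field_simp
            rw [← this]
            exact mul_le_mul_of_nonneg_right htδ hCpos.le
          have h8 : 4 * (C2 * A / κ1) ≤ C := by linarith
          have h9 : ((h:ℕ):ℝ) ^ (3/4 : ℝ) * (t * C) ≤ 1 := by
            calc _ ≤ (n:ℝ) ^ (3/4 : ℝ) * (n:ℝ) ^ (-(3/4 : ℝ)) :=
                  mul_le_mul h5 h7 (by positivity) (by positivity)
              _ ≤ 1 := h6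
          have h10 : ((h:ℕ):ℝ) ^ (3/4 : ℝ) * t * (4 * (C2 * A / κ1)) ≤ 1 := by
            calc _ ≤ ((h:ℕ):ℝ) ^ (3/4 : ℝ) * t * C :=
                  mul_le_mul_of_nonneg_left h8 (by positivity)
              _ ≤ 1 := by linarith
          have h11 : C2 * A * ((h:ℕ):ℝ) ^ (3/4 : ℝ) * t =
              κ1 / 4 * (((h:ℕ):ℝ) ^ (3/4 : ℝ) * t * (4 * (C2 * A / κ1))) := by
            field_simp
          rw [h11]
          have : 0 ≤ κ1 / 4 := by linarith
          nlinarith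
        have h5 := (abs_le.mp hlip).1
        linarith
  have hconc : ∀ t, 0 ≤ t → t ≤ δ → ∀ i, g i t < 0 := by
    apply bootstrap g δ hgcont
    · apply hstrict 0 le_rfl hδ0.le
      intro s hs1 hs2 τ
      have hs0 : s = 0 := le_antisymm hs2 hs1
      subst hs0
      have hq0 : qs τ 0 = 1/2 := by cases τ <;> simp [qs]
      rw [hq0]
      refine ⟨⟨hκ, by linarith, by norm_num, by norm_num, ?_, ?_⟩, ?_⟩
      · intro h h1 h2
        exact le_trans (by linarith) ((hwin n).pri h h1 h2)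
      · intro h h1 h2
        exact le_trans (by linarith) ((hwin n).dua h h1 h2)
      · exact fun k _ => (hAcrit k).le
    · intro t ht htδ hall
      apply hstrict t ht htδ
      intro s hs1 hs2 τ
      exact hmean s hs1 (hs2.trans htδ) (hall s hs1 hs2) τ
  -- conclusion
  obtain ⟨τ, hτ⟩ : ∃ τ : Bool, q = qs τ |q - 1/2| := by
    rcases le_total (1/2) q with h | h
    · refine ⟨true, ?_⟩
      unfold qs
      rw [abs_of_nonneg (by linarith)]
      simp
    · refine ⟨false, ?_⟩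
      unfold qs
      rw [abs_of_nonpos (by linarith)]
      simp only [Bool.false_eq_true, if_false]
      ring
  have hfin := hmean |q - 1/2| (abs_nonneg _) hq (fun i => (hconc _ (abs_nonneg _) hq i).le) τ
  rw [← hτ] at hfin
  refine ⟨hfin.1, fun k hk => (hfin.2 k hk).trans ?_⟩
  exact mul_le_mul_of_nonneg_right hCA (by positivity)

theorem sw5 : SW5 := by
  intro h2h hst
  obtain ⟨κ, hκ, C, hC, h2⟩ := stab_sharp h2h hst
  have hCpos : 0 < C := by linarith
  set κ' : ℝ := min κ (1/C) with hκ'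
  have hk0 : 0 < κ' := lt_min hκ (by positivity)
  refine ⟨κ', C, hk0, hCpos, ?_⟩
  intro n hn q hq
  have hnr : (1:ℝ) ≤ n := by exact_mod_cast hn
  have h3 := h2 n hn q (by
    refine hq.trans ?_
    have i2 : κ' ≤ 1/C := min_le_right _ _
    calc κ' * (n:ℝ)^(-(3/4) : ℝ) ≤ (1/C) * (n:ℝ)^(-(3/4) : ℝ) :=
          mul_le_mul_of_nonneg_right i2 (by positivity)
      _ = _ := by ring)
  refine ⟨⟨hk0, le_trans (min_le_left _ _) h3.1.kle, h3.1.lo, h3.1.hi,
    fun k k1 k2 => le_trans (min_le_left _ _) (h3.1.pri k k1 k2),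
    fun k k1 k2 => le_trans (min_le_left _ _) (h3.1.dua k k1 k2)⟩, ?_⟩
  intro m hm hmn
  have hmr : (1:ℝ) ≤ m := by exact_mod_cast hm
  refine (h3.2 m hmn).trans (mul_le_mul_of_nonneg_left ?_ hCpos.le)
  exact Real.rpow_le_rpow_of_nonpos (by linarith) (by linarith) (by norm_num)

end H35A
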