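import Pool.Agent.H35R3.Al.StmtsS

/-!
Project ALPHA-SHARP, SW6: the numerical sum without loss.
-/

set_option autoImplicit false

namespace H35A

open Finset

namespace SW6aux

/-- `2 ^ (1/4)` -/
noncomputable def rh : ℝ := (2:ℝ) ^ (1/4 : ℝ)

lemma rh_pos : 0 < rh := by unfold rh; positivity

lemma rh_gt : 1 < rh := by
  unfold rh
  exact Real.one_lt_rpow (by norm_num) (by norm_num)

lemma rh_four : rh ^ 4 = 2 := by
  unfold rh
  rw [← Real.rpow_natCast, ← Real.rpow_mul (by norm_num)]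
  norm_num

lemma two_pow (k : ℕ) : (2:ℝ) ^ k = rh ^ (4 * k) := by
  rw [pow_mul, rh_four]

lemma sixteen_pow (k : ℕ) : (16:ℝ) ^ k = rh ^ (16 * k) := by
  rw [show (16:ℝ) = 2 ^ 4 by norm_num, ← pow_mul, two_pow]
  congr 1
  ring

lemma two_pow_quarter (N : ℕ) : ((2:ℝ) ^ N) ^ (1/4 : ℝ) = rh ^ N := by
  unfold rh
  rw [← Real.rpow_natCast, ← Real.rpow_mul (by norm_num), ← Real.rpow_natCast,
    ← Real.rpow_mul (by norm_num), mul_comm]

lemma pow_eq (i : ℕ) : (((2 ^ i : ℕ)) : ℝ) ^ (-(5/4) : ℝ) = (rh ^ (5 * i))⁻¹ := by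
  unfold rh
  rw [Nat.cast_pow, Nat.cast_ofNat, ← Real.rpow_natCast, ← Real.rpow_mul (by norm_num),
    ← Real.rpow_natCast, ← Real.rpow_mul (by norm_num), ← Real.rpow_neg (by norm_num)]
  congr 1
  push_cast
  ring

lemma geom_le {x : ℝ} (hx : 1 < x) (n m : ℕ) (hnm : n ≤ m) :
    ∑ k ∈ range n, x ^ k ≤ x ^ m / (x - 1) := by
  rw [geom_sum_eq hx.ne']
  have h1 : 0 < x - 1 := by linarith
  have h2 : x ^ n ≤ x ^ m := pow_le_pow_right₀ hx.le hnm
  gcongr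
  linarith

end SW6aux

open SW6aux in
theorem sw6x : ∀ B : ℝ, 0 ≤ B → ∃ C : ℝ, ∀ (N : ℕ) (f : ℕ → ℝ),
  (∀ m, 0 ≤ f m) → (∀ m : ℕ, 1 ≤ m → m ≤ 2 ^ N → f m ≤ B * (m:ℝ) ^ (-(5/4) : ℝ)) →
  ∑ k ∈ Finset.range N, (16:ℝ) ^ k * (if k = 0 then 1 else f (2 ^ (k - 1))) ^ 3 +
    ∑ j ∈ Finset.range N, ∑ k ∈ Finset.range (j - 6),
      f (2 ^ (j - 2)) * (16 ^ k * (if k = 0 then 1 else f (2 ^ (k - 1))) ^ 2 * 2 ^ (j - k)) ≤
    C * ((2:ℝ) ^ N) ^ (1/4 : ℝ) := by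
  intro B hB
  have hr0 := rh_pos
  have hr1 := rh_gt
  set B' : ℝ := 1 + B * rh ^ 5 with hB'
  have hB'0 : 0 ≤ B' := by positivity
  have hr2 : 1 < rh ^ 2 := by nlinarith
  set D : ℝ := B * rh ^ 10 * B' ^ 2 / (rh ^ 2 - 1) with hD
  have hD0 : 0 ≤ D := by
    rw [hD]
    have : 0 < rh ^ 2 - 1 := by linarith
    positivity
  refine ⟨(B' ^ 3 + D) / (rh - 1), fun N f hf0 hf => ?_⟩
  rw [two_pow_quarter]
  have hfi : ∀ i, i ≤ N → f (2 ^ i) ≤ B * (rh ^ (5 * i))⁻¹ := by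
    intro i hi
    have h1 := hf (2 ^ i) Nat.one_le_two_pow (Nat.pow_le_pow_right (by norm_num) hi)
    rwa [pow_eq] at h1
  set g : ℕ → ℝ := fun k => if k = 0 then 1 else f (2 ^ (k - 1)) with hg
  have hg0 : ∀ k, 0 ≤ g k := by
    intro k
    simp only [hg]
    split_ifs
    · norm_num
    · exact hf0 _
  have hgk : ∀ k, k ≤ N → g k ≤ B' * (rh ^ (5 * k))⁻¹ := by
    intro k hk
    simp only [hg]
    split_ifs with h0
    · subst h0
      simp only [mul_zero, pow_zero, inv_one, mul_one]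
      rw [hB']
      have : 0 ≤ B * rh ^ 5 := by positivity
      linarith
    · obtain ⟨i, rfl⟩ : ∃ i, k = i + 1 := ⟨k - 1, by omega⟩
      have h1 := hfi i (by omega)
      simp only [Nat.add_sub_cancel]
      refine h1.trans ?_
      have h2 : (rh ^ (5 * (i + 1)))⁻¹ * rh ^ 5 = (rh ^ (5 * i))⁻¹ := by
        rw [mul_add, pow_add]
        field_simp
      have h3 : 0 ≤ (rh ^ (5 * (i + 1)))⁻¹ := by positivity
      rw [hB', ← h2]
      nlinarith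
  have hsum1 : ∑ k ∈ Finset.range N, (16:ℝ) ^ k * (g k) ^ 3 ≤ B' ^ 3 * (rh ^ N / (rh - 1)) := by
    calc ∑ k ∈ Finset.range N, (16:ℝ) ^ k * (g k) ^ 3
        ≤ ∑ k ∈ Finset.range N, B' ^ 3 * rh ^ k := by
          refine Finset.sum_le_sum fun k hk => ?_
          have hk' : k ≤ N := (mem_range.1 hk).le
          have h1 : (g k) ^ 3 ≤ (B' * (rh ^ (5 * k))⁻¹) ^ 3 :=
            pow_le_pow_left₀ (hg0 k) (hgk k hk') 3
          calc (16:ℝ) ^ k * (g k) ^ 3 ≤ 16 ^ k * (B' * (rh ^ (5 * k))⁻¹) ^ 3 := by gcongr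
            _ = B' ^ 3 * rh ^ k := by
              rw [sixteen_pow, mul_pow, inv_pow, ← pow_mul]
              have e : 16 * k = 5 * k * 3 + k := by ring
              rw [e, pow_add]
              field_simp
      _ = B' ^ 3 * ∑ k ∈ Finset.range N, rh ^ k := by rw [Finset.mul_sum]
      _ ≤ _ := by
          refine mul_le_mul_of_nonneg_left (geom_le hr1 N N le_rfl) (by positivity)
  have hinner : ∀ j ∈ Finset.range N, ∑ k ∈ Finset.range (j - 6),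
      f (2 ^ (j - 2)) * (16 ^ k * (g k) ^ 2 * 2 ^ (j - k)) ≤ D * rh ^ j := by
    intro j hj
    have hjN : j < N := mem_range.1 hj
    have hterm : ∀ k ∈ Finset.range (j - 6),
        f (2 ^ (j - 2)) * (16 ^ k * (g k) ^ 2 * 2 ^ (j - k)) ≤
          B * rh ^ 10 * B' ^ 2 * (rh ^ j)⁻¹ * (rh ^ 2) ^ k := by
      intro k hk
      have hk' : k < j - 6 := mem_range.1 hk
      have h1 : f (2 ^ (j - 2)) ≤ B * (rh ^ (5 * (j - 2)))⁻¹ := hfi _ (by omega)
      have h2 : (g k) ^ 2 ≤ (B' * (rh ^ (5 * k))⁻¹) ^ 2 :=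
        pow_le_pow_left₀ (hg0 k) (hgk k (by omega)) 2
      calc f (2 ^ (j - 2)) * (16 ^ k * (g k) ^ 2 * 2 ^ (j - k))
          ≤ (B * (rh ^ (5 * (j - 2)))⁻¹) *
            (16 ^ k * (B' * (rh ^ (5 * k))⁻¹) ^ 2 * 2 ^ (j - k)) := by
            have h3 : 0 ≤ f (2 ^ (j - 2)) := hf0 _
            gcongr
        _ = B * rh ^ 10 * B' ^ 2 * (rh ^ j)⁻¹ * (rh ^ 2) ^ k := by
            obtain ⟨i, rfl⟩ : ∃ i, j = k + i + 2 := ⟨j - k - 2, by omega⟩
            have e1 : k + i + 2 - 2 = k + i := by omega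
            have e2 : k + i + 2 - k = i + 2 := by omega
            rw [e1, e2, sixteen_pow, two_pow (i + 2)]
            field_simp
            ring
    calc ∑ k ∈ Finset.range (j - 6), f (2 ^ (j - 2)) * (16 ^ k * (g k) ^ 2 * 2 ^ (j - k))
        ≤ ∑ k ∈ Finset.range (j - 6), B * rh ^ 10 * B' ^ 2 * (rh ^ j)⁻¹ * (rh ^ 2) ^ k :=
          Finset.sum_le_sum hterm
      _ = B * rh ^ 10 * B' ^ 2 * (rh ^ j)⁻¹ * ∑ k ∈ Finset.range (j - 6), (rh ^ 2) ^ k := by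
          rw [Finset.mul_sum]
      _ ≤ B * rh ^ 10 * B' ^ 2 * (rh ^ j)⁻¹ * ((rh ^ 2) ^ j / (rh ^ 2 - 1)) := by
          refine mul_le_mul_of_nonneg_left (geom_le hr2 _ _ (by omega)) (by positivity)
      _ = D * rh ^ j := by
          rw [hD]
          have h1 : rh ^ 2 - 1 ≠ 0 := by linarith
          have h2 : (rh ^ 2) ^ j = (rh ^ j) ^ 2 := by rw [← pow_mul, ← pow_mul, mul_comm]
          rw [h2]
          field_simp
  have hsum2 : ∑ j ∈ Finset.range N, ∑ k ∈ Finset.range (j - 6),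
      f (2 ^ (j - 2)) * (16 ^ k * (g k) ^ 2 * 2 ^ (j - k)) ≤ D * (rh ^ N / (rh - 1)) := by
    calc _ ≤ ∑ j ∈ Finset.range N, D * rh ^ j := Finset.sum_le_sum hinner
      _ = D * ∑ j ∈ Finset.range N, rh ^ j := by rw [Finset.mul_sum]
      _ ≤ _ := mul_le_mul_of_nonneg_left (geom_le hr1 N N le_rfl) hD0
  have hfin : (B' ^ 3 + D) / (rh - 1) * rh ^ N =
      B' ^ 3 * (rh ^ N / (rh - 1)) + D * (rh ^ N / (rh - 1)) := by ring
  rw [hfin]
  exact add_le_add hsum1 hsum2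

/-- The numerical sum without loss. -/
theorem sw6 : SW6 := sw6x

end H35A
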