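import Pool.Agent.H35R3.Al.StmtsS
import Pool.Agent.H35R3.Al.TaskT

/-!
Task SW7 of project ALPHA-SHARP: Taylor expansion from finite volume approximations, without loss
in the exponent (pure analysis).
-/

set_option autoImplicit false

namespace H35A

open Finset MeasureTheory Filter Topology

/-- the quadratic estimate in one scale -/
theorem S7_scale {h : ℝ → ℝ} {H H1 : ℕ → ℝ → ℝ} (hH : ∀ N q, HasDerivAt (H N) (H1 N q) q)
    {ε κ C : ℝ} (hε : 0 ≤ ε) (hκ : 0 < κ) (hC : 0 ≤ C) {N : ℕ}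
    (hyp : ∀ q : ℝ, |q - 1 / 2| ≤ κ * ((2:ℝ) ^ N) ^ (-(3/4) - ε) →
      |H N q - h q| ≤ C * ((2:ℝ) ^ N) ^ (-(5/4) + ε) ∧
      ∃ D, HasDerivAt (H1 N) D q ∧ |D| ≤ C * ((2:ℝ) ^ N) ^ (1/4 + ε))
    (d : ℝ) (hd : |d| ≤ κ * ((2:ℝ) ^ N) ^ (-(3/4) - ε)) :
    |h (1/2 + d) - h (1/2) - H1 N (1/2) * d| ≤
      (2 * C + C * κ ^ 2) * ((2:ℝ) ^ N) ^ (-(5/4) + ε) := by
  set x : ℝ := (2:ℝ) ^ N with hx
  have hx0 : 0 < x := T_x0 N
  have hx1 : 1 ≤ x := T_x1 N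
  have h1 := T_quad (H N) (H1 N) (1/2) (κ * x ^ (-(3/4) - ε)) (C * x ^ (1/4 + ε)) (hH N)
    (fun q hq => (hyp q hq).2) d hd
  have hrad : 0 ≤ κ * x ^ (-(3/4) - ε) := (abs_nonneg d).trans hd
  have h2 := (hyp (1/2) (by rw [sub_self, abs_zero]; exact hrad)).1
  have h3 := (hyp (1/2 + d) (by rw [add_sub_cancel_left]; exact hd)).1
  have hd2 : d ^ 2 ≤ κ ^ 2 * x ^ (-(3/2) - 2 * ε) := by
    have : d ^ 2 ≤ (κ * x ^ (-(3/4) - ε)) ^ 2 := by
      rw [← sq_abs d]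
      exact pow_le_pow_left₀ (abs_nonneg d) hd 2
    refine this.trans (le_of_eq ?_)
    rw [mul_pow, ← Real.rpow_natCast (x ^ (-(3/4) - ε)) 2, ← Real.rpow_mul hx0.le]
    congr 2
    push_cast
    ring
  have h4 : C * x ^ (1/4 + ε) * d ^ 2 ≤ C * κ ^ 2 * x ^ (-(5/4) + ε) := by
    calc C * x ^ (1/4 + ε) * d ^ 2 ≤ C * x ^ (1/4 + ε) * (κ ^ 2 * x ^ (-(3/2) - 2 * ε)) := by
          apply mul_le_mul_of_nonneg_left hd2 (by positivity)
      _ = C * κ ^ 2 * (x ^ (1/4 + ε) * x ^ (-(3/2) - 2 * ε)) := by ring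
      _ = C * κ ^ 2 * x ^ (-(5/4) - ε) := by
          rw [← Real.rpow_add hx0]
          congr 2
          ring
      _ ≤ C * κ ^ 2 * x ^ (-(5/4) + ε) := by
          apply mul_le_mul_of_nonneg_left _ (by positivity)
          exact Real.rpow_le_rpow_of_exponent_le hx1 (by linarith)
  have e : h (1/2 + d) - h (1/2) - H1 N (1/2) * d =
      -(H N (1/2 + d) - h (1/2 + d)) + (H N (1/2) - h (1/2)) +
        (H N (1/2 + d) - H N (1/2) - H1 N (1/2) * d) := by ring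
  rw [e]
  calc |-(H N (1/2 + d) - h (1/2 + d)) + (H N (1/2) - h (1/2)) +
        (H N (1/2 + d) - H N (1/2) - H1 N (1/2) * d)|
      ≤ |-(H N (1/2 + d) - h (1/2 + d))| + |H N (1/2) - h (1/2)| +
        |H N (1/2 + d) - H N (1/2) - H1 N (1/2) * d| := abs_add_three _ _ _
    _ ≤ C * x ^ (-(5/4) + ε) + C * x ^ (-(5/4) + ε) + C * κ ^ 2 * x ^ (-(5/4) + ε) := by
        rw [abs_neg]
        exact add_le_add (add_le_add h3 h2) (h1.trans h4)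
    _ = (2 * C + C * κ ^ 2) * x ^ (-(5/4) + ε) := by ring

/-- consecutive derivatives are close -/
theorem S7_step {h : ℝ → ℝ} {A : ℕ → ℝ} {ε κ C1 : ℝ} (hε : 0 ≤ ε) (hε1 : ε < 1 / 100)
    (hκ : 0 < κ) (hC1 : 0 ≤ C1) {N0 : ℕ}
    (hyp : ∀ N : ℕ, N0 ≤ N → ∀ d : ℝ, |d| ≤ κ * ((2:ℝ) ^ N) ^ (-(3/4) - ε) →
      |h (1/2 + d) - h (1/2) - A N * d| ≤ C1 * ((2:ℝ) ^ N) ^ (-(5/4) + ε))
    (N : ℕ) (hN : N0 ≤ N) :
    |A N - A (N + 1)| ≤ 4 * C1 / κ * ((2:ℝ) ^ N) ^ (-(1/2) + 2 * ε) := by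
  set x : ℝ := (2:ℝ) ^ N with hx
  have hx0 : 0 < x := T_x0 N
  have hx1 : 1 ≤ x := T_x1 N
  set r : ℝ := κ * ((2:ℝ) ^ (N + 1)) ^ (-(3/4) - ε) with hr
  have hr0 : 0 < r := by positivity
  have hrr : κ / 2 * x ^ (-(3/4) - ε) ≤ r := by
    have := mul_le_mul_of_nonneg_left (T_half hε1 N) hκ.le
    rw [hr]
    calc κ / 2 * x ^ (-(3/4) - ε) = κ * (1 / 2 * x ^ (-(3/4) - ε)) := by ring
      _ ≤ _ := this
  have hxx : x ≤ (2:ℝ) ^ (N + 1) := by rw [pow_succ]; linarith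
  have hrN : r ≤ κ * x ^ (-(3/4) - ε) := by
    apply mul_le_mul_of_nonneg_left _ hκ.le
    exact Real.rpow_le_rpow_of_nonpos hx0 hxx (by linarith)
  have h1 := hyp N hN r (by rw [abs_of_pos hr0]; exact hrN)
  have h2 := hyp (N + 1) (by omega) r (by rw [abs_of_pos hr0])
  have h3 : ((2:ℝ) ^ (N + 1)) ^ (-(5/4) + ε) ≤ x ^ (-(5/4) + ε) :=
    Real.rpow_le_rpow_of_nonpos hx0 hxx (by linarith)
  have h4 : |A N - A (N + 1)| * r ≤ 2 * C1 * x ^ (-(5/4) + ε) := by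
    have e : (A N - A (N + 1)) * r = (h (1/2 + r) - h (1/2) - A (N + 1) * r) -
        (h (1/2 + r) - h (1/2) - A N * r) := by ring
    calc |A N - A (N + 1)| * r = |(A N - A (N + 1)) * r| := by rw [abs_mul, abs_of_pos hr0]
      _ ≤ |h (1/2 + r) - h (1/2) - A (N + 1) * r| + |h (1/2 + r) - h (1/2) - A N * r| := by
          rw [e]; exact abs_sub _ _
      _ ≤ C1 * x ^ (-(5/4) + ε) + C1 * x ^ (-(5/4) + ε) := by
          apply add_le_add _ h1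
          exact h2.trans (mul_le_mul_of_nonneg_left h3 hC1)
      _ = 2 * C1 * x ^ (-(5/4) + ε) := by ring
  have h5 : |A N - A (N + 1)| * (κ / 2 * x ^ (-(3/4) - ε)) ≤ 2 * C1 * x ^ (-(5/4) + ε) :=
    (mul_le_mul_of_nonneg_left hrr (abs_nonneg _)).trans h4
  have h6 : 0 < κ / 2 * x ^ (-(3/4) - ε) := by positivity
  have h7 : 4 * C1 / κ * x ^ (-(1/2) + 2 * ε) * (κ / 2 * x ^ (-(3/4) - ε)) =
      2 * C1 * x ^ (-(5/4) + ε) := by
    have e1 : x ^ (-(5/4) + ε) = x ^ (-(1/2) + 2 * ε) * x ^ (-(3/4) - ε) := by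
      rw [← Real.rpow_add hx0]
      congr 1
      ring
    rw [e1]
    field_simp
    ring
  rw [← h7] at h5
  exact le_of_mul_le_mul_right h5 h6

/-- everything for one `ε` -/
theorem S7_eps {h : ℝ → ℝ} {A : ℕ → ℝ} {ε κ C1 : ℝ} (hε : 0 ≤ ε) (hε1 : ε < 1 / 100)
    (hκ : 0 < κ) (hC1 : 0 ≤ C1) {N0 : ℕ}
    (hyp : ∀ N : ℕ, N0 ≤ N → ∀ d : ℝ, |d| ≤ κ * ((2:ℝ) ^ N) ^ (-(3/4) - ε) →
      |h (1/2 + d) - h (1/2) - A N * d| ≤ C1 * ((2:ℝ) ^ N) ^ (-(5/4) + ε)) :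
    CauchySeq A ∧ ∀ b : ℝ, Tendsto A atTop (𝓝 b) → ∃ C3 : ℝ, 0 ≤ C3 ∧ ∀ N : ℕ, N0 ≤ N →
      |A N - b| ≤ C3 * ((2:ℝ) ^ N) ^ (-(1/2) + 2 * ε) := by
  set ρ : ℝ := (2:ℝ) ^ (-(1/2) + 2 * ε) with hρ
  have hρ0 : 0 < ρ := by positivity
  have hρ1 : ρ < 1 := Real.rpow_lt_one_of_one_lt_of_neg (by norm_num) (by linarith)
  set C2 : ℝ := 4 * C1 / κ with hC2
  have hC20 : 0 ≤ C2 := by positivity
  have hstep : ∀ n : ℕ, dist (A (N0 + n)) (A (N0 + (n + 1))) ≤ C2 * ρ ^ N0 * ρ ^ n := by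
    intro n
    rw [Real.dist_eq]
    have := S7_step hε hε1 hκ hC1 hyp (N0 + n) (Nat.le_add_right _ _)
    rw [T_pow, ← hρ, pow_add] at this
    rw [← add_assoc]
    calc _ ≤ _ := this
      _ = _ := by ring
  have hcau : CauchySeq (fun n => A (N0 + n)) := cauchySeq_of_le_geometric ρ _ hρ1 hstep
  have hcau' : CauchySeq A := by
    obtain ⟨b, hb⟩ := cauchySeq_tendsto_of_complete hcau
    have hb' : Tendsto (fun n => A (n + N0)) atTop (𝓝 b) := by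
      refine hb.congr fun n => ?_
      rw [add_comm]
    exact ((tendsto_add_atTop_iff_nat N0).1 hb').cauchySeq
  refine ⟨hcau', fun b hb => ?_⟩
  refine ⟨C2 / (1 - ρ), div_nonneg hC20 (by linarith), fun N hN => ?_⟩
  obtain ⟨n, rfl⟩ := Nat.exists_eq_add_of_le hN
  have hb' : Tendsto (fun n => A (N0 + n)) atTop (𝓝 b) := by
    have := (tendsto_add_atTop_iff_nat N0).2 hb
    refine this.congr fun n => ?_
    rw [add_comm]
  have := dist_le_of_le_geometric_of_tendsto ρ _ hρ1 hstep hb' n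
  rw [Real.dist_eq] at this
  refine this.trans (le_of_eq ?_)
  rw [T_pow, ← hρ, pow_add]
  ring

/-- existence of the scale -/
theorem S7_choose {ε κ : ℝ} (hε : 0 ≤ ε) (N0 : ℕ) (t : ℝ) (ht : 0 < t)
    (ht1 : t ≤ κ * ((2:ℝ) ^ N0) ^ (-(3/4) - ε)) :
    ∃ N : ℕ, N0 ≤ N ∧ t ≤ κ * ((2:ℝ) ^ N) ^ (-(3/4) - ε) ∧
      κ * ((2:ℝ) ^ (N + 1)) ^ (-(3/4) - ε) < t := by
  have hlim : Tendsto (fun N : ℕ => κ * ((2:ℝ) ^ N) ^ (-(3/4) - ε)) atTop (𝓝 0) := by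
    have h1 : Tendsto (fun N : ℕ => ((2:ℝ) ^ N) ^ (-(3/4 + ε))) atTop (𝓝 0) :=
      (tendsto_rpow_neg_atTop (by linarith)).comp
        (tendsto_pow_atTop_atTop_of_one_lt (by norm_num))
    have h2 := h1.const_mul κ
    rw [mul_zero] at h2
    refine h2.congr fun N => ?_
    congr 2
    ring
  have hex : ∃ n : ℕ, κ * ((2:ℝ) ^ (N0 + n + 1)) ^ (-(3/4) - ε) < t := by
    obtain ⟨M, hM⟩ := ((hlim.eventually (gt_mem_nhds ht)).and (eventually_ge_atTop (N0 + 1))).exists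
    refine ⟨M - (N0 + 1), ?_⟩
    have : N0 + (M - (N0 + 1)) + 1 = M := by omega
    rw [this]
    exact hM.1
  classical
  refine ⟨N0 + Nat.find hex, Nat.le_add_right _ _, ?_, Nat.find_spec hex⟩
  rcases Nat.eq_zero_or_pos (Nat.find hex) with h0 | h0
  · rw [h0, add_zero]; exact ht1
  · have := Nat.find_min hex (m := Nat.find hex - 1) (by omega)
    rw [not_lt] at this
    have e : N0 + (Nat.find hex - 1) + 1 = N0 + Nat.find hex := by omega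
    rwa [e] at this

/-- the pointwise estimate -/
theorem S7_point {h : ℝ → ℝ} {A : ℕ → ℝ} {ε κ C1 : ℝ} (hε : 0 ≤ ε) (hε1 : ε < 1 / 100)
    (hκ : 0 < κ) (hC1 : 0 ≤ C1) {N0 : ℕ}
    (hyp : ∀ N : ℕ, N0 ≤ N → ∀ d : ℝ, |d| ≤ κ * ((2:ℝ) ^ N) ^ (-(3/4) - ε) →
      |h (1/2 + d) - h (1/2) - A N * d| ≤ C1 * ((2:ℝ) ^ N) ^ (-(5/4) + ε))
    (b : ℝ) (hb : Tendsto A atTop (𝓝 b)) (hh : ∀ q ∈ Set.Icc (0:ℝ) 1, |h q| ≤ 2) :
    ∃ K : ℝ, 0 ≤ K ∧ ∀ d : ℝ, |d| ≤ 1 / 2 →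
      |h (1/2 + d) - h (1/2) - b * d| ≤ K * |d| ^ (5/3 - 4 * ε) := by
  obtain ⟨C3, hC3, hA⟩ := (S7_eps hε hε1 hκ hC1 hyp).2 b hb
  set γ : ℝ := 5/3 - 4 * ε with hγ
  have hγ0 : 0 < γ := by linarith
  set r0 : ℝ := κ * ((2:ℝ) ^ N0) ^ (-(3/4) - ε) with hr0
  have hr0p : 0 < r0 := by positivity
  set K1 : ℝ := (C1 + C3 * κ) / (κ / 2) ^ γ with hK1
  set K2 : ℝ := (4 + |b|) / r0 ^ γ with hK2
  have hK1p : 0 ≤ K1 := by positivity
  have hK2p : 0 ≤ K2 := by positivity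
  refine ⟨K1 + K2, by positivity, fun d hd => ?_⟩
  rcases eq_or_ne d 0 with h0 | h0
  · rw [h0, add_zero, sub_self, mul_zero, sub_zero, abs_zero]
    positivity
  have hd0 : 0 < |d| := abs_pos.2 h0
  have hdγ : 0 < |d| ^ γ := by positivity
  by_cases hcase : |d| ≤ r0
  · obtain ⟨N, hN, hN1, hN2⟩ := S7_choose hε N0 |d| hd0 hcase
    set x : ℝ := (2:ℝ) ^ N with hx
    have hx0 : 0 < x := T_x0 N
    have hx1 : 1 ≤ x := T_x1 N
    have h1 := hyp N hN d hN1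
    have h2 := hA N hN
    have h3 : |h (1/2 + d) - h (1/2) - b * d| ≤ (C1 + C3 * κ) * x ^ (-(5/4) + ε) := by
      have e : h (1/2 + d) - h (1/2) - b * d =
          (h (1/2 + d) - h (1/2) - A N * d) + (A N - b) * d := by ring
      rw [e]
      refine (abs_add_le _ _).trans ?_
      rw [abs_mul]
      have h4 : |A N - b| * |d| ≤ C3 * κ * x ^ (-(5/4) + ε) := by
        calc |A N - b| * |d| ≤ (C3 * x ^ (-(1/2) + 2 * ε)) * (κ * x ^ (-(3/4) - ε)) :=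
              mul_le_mul h2 hN1 hd0.le (by positivity)
          _ = C3 * κ * (x ^ (-(1/2) + 2 * ε) * x ^ (-(3/4) - ε)) := by ring
          _ = C3 * κ * x ^ (-(5/4) + ε) := by
              rw [← Real.rpow_add hx0]
              congr 2
              ring
      linarith
    have h5 : (κ / 2) ^ γ * x ^ (-(5/4) + ε) ≤ |d| ^ γ := by
      have h6 : κ / 2 * x ^ (-(3/4) - ε) ≤ |d| := by
        have := mul_le_mul_of_nonneg_left (T_half hε1 N) hκ.le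
        calc κ / 2 * x ^ (-(3/4) - ε) = κ * (1 / 2 * x ^ (-(3/4) - ε)) := by ring
          _ ≤ κ * ((2:ℝ) ^ (N + 1)) ^ (-(3/4) - ε) := this
          _ ≤ |d| := hN2.le
      have h7 : (κ / 2 * x ^ (-(3/4) - ε)) ^ γ ≤ |d| ^ γ :=
        Real.rpow_le_rpow (by positivity) h6 hγ0.le
      rw [Real.mul_rpow (by positivity) (by positivity), ← Real.rpow_mul hx0.le] at h7
      refine le_trans ?_ h7
      apply mul_le_mul_of_nonneg_left _ (by positivity)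
      apply Real.rpow_le_rpow_of_exponent_le hx1
      rw [hγ]
      nlinarith
    calc |h (1/2 + d) - h (1/2) - b * d| ≤ (C1 + C3 * κ) * x ^ (-(5/4) + ε) := h3
      _ = K1 * ((κ / 2) ^ γ * x ^ (-(5/4) + ε)) := by
          rw [hK1]
          have : (κ / 2) ^ γ ≠ 0 := by positivity
          field_simp
      _ ≤ K1 * |d| ^ γ := mul_le_mul_of_nonneg_left h5 hK1p
      _ ≤ (K1 + K2) * |d| ^ γ := by
          apply mul_le_mul_of_nonneg_right _ hdγ.le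
          linarith
  · push Not at hcase
    have hb1 : |h (1/2 + d)| ≤ 2 := by
      apply hh
      rw [abs_le] at hd
      constructor <;> linarith [hd.1, hd.2]
    have hb2 : |h (1/2)| ≤ 2 := hh _ ⟨by norm_num, by norm_num⟩
    have h3 : |h (1/2 + d) - h (1/2) - b * d| ≤ 4 + |b| := by
      have h4 : |b * d| ≤ |b| := by
        rw [abs_mul]
        calc |b| * |d| ≤ |b| * 1 := mul_le_mul_of_nonneg_left (by linarith) (abs_nonneg _)
          _ = |b| := mul_one _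
      calc |h (1/2 + d) - h (1/2) - b * d| ≤ |h (1/2 + d) - h (1/2)| + |b * d| := abs_sub _ _
        _ ≤ |h (1/2 + d)| + |h (1/2)| + |b * d| := by
            have := abs_sub (h (1/2 + d)) (h (1/2))
            linarith
        _ ≤ 4 + |b| := by linarith
    have h5 : r0 ^ γ ≤ |d| ^ γ := Real.rpow_le_rpow hr0p.le hcase.le hγ0.le
    calc |h (1/2 + d) - h (1/2) - b * d| ≤ 4 + |b| := h3
      _ = K2 * r0 ^ γ := by
          rw [hK2]
          have : r0 ^ γ ≠ 0 := by positivity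
          field_simp
      _ ≤ K2 * |d| ^ γ := mul_le_mul_of_nonneg_left h5 hK2p
      _ ≤ (K1 + K2) * |d| ^ γ := by
          apply mul_le_mul_of_nonneg_right _ hdγ.le
          linarith

theorem sw7 : SW7 := by
  intro h H H1 hH hyp hh
  obtain ⟨κ, C, N0, hκ, hN⟩ := hyp
  have hC : 0 ≤ C := by
    have h1 := (hN N0 le_rfl (1/2) (by rw [sub_self, abs_zero]; positivity)).1
    by_contra hneg
    push Not at hneg
    have h2 : C * ((2:ℝ) ^ N0) ^ (-(5/4) : ℝ) < 0 :=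
      mul_neg_of_neg_of_pos hneg (by positivity)
    have := abs_nonneg (H N0 (1/2) - h (1/2))
    linarith
  have hN' : ∀ N : ℕ, N0 ≤ N → ∀ q : ℝ, |q - 1 / 2| ≤ κ * ((2:ℝ) ^ N) ^ (-(3/4) - (0:ℝ)) →
      |H N q - h q| ≤ C * ((2:ℝ) ^ N) ^ (-(5/4) + (0:ℝ)) ∧
      ∃ D, HasDerivAt (H1 N) D q ∧ |D| ≤ C * ((2:ℝ) ^ N) ^ (1/4 + (0:ℝ)) := by
    intro N hN0 q hq
    rw [sub_zero] at hq
    rw [add_zero, add_zero]
    exact hN N hN0 q hq
  have hs : ∀ N : ℕ, N0 ≤ N → ∀ d : ℝ, |d| ≤ κ * ((2:ℝ) ^ N) ^ (-(3/4) - (0:ℝ)) →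
      |h (1/2 + d) - h (1/2) - (fun N => H1 N (1/2)) N * d| ≤
        (2 * C + C * κ ^ 2) * ((2:ℝ) ^ N) ^ (-(5/4) + (0:ℝ)) := fun N hN0 d hd =>
    S7_scale hH le_rfl hκ hC (hN' N hN0) d hd
  have hC1 : 0 ≤ 2 * C + C * κ ^ 2 := by positivity
  obtain ⟨b, hb⟩ := cauchySeq_tendsto_of_complete
    (S7_eps le_rfl (by norm_num) hκ hC1 hs).1
  obtain ⟨K, hK, hpt⟩ := S7_point le_rfl (by norm_num) hκ hC1 hs b hb hh
  refine ⟨b, K, fun p hp => ?_⟩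
  have hp2 : |p - 1/2| ≤ 1/2 := by
    rw [abs_le]
    constructor <;> linarith [hp.1, hp.2]
  have h3 := hpt (p - 1/2) hp2
  have e : (1/2 : ℝ) + (p - 1/2) = p := by ring
  rw [e, mul_zero, sub_zero] at h3
  exact h3

end H35A
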