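import Pool.Agent.H35R3.Al.StmtsS
import Pool.Agent.H35R3.Al.SW8core

/-! SW8 of project ALPHA-SHARP (helper397, after helper133's `TaskW`). -/

set_option autoImplicit false

namespace H35A

theorem sw8 : SW8 := SW8core.core

end H35A
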