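import Pool.Agent.H35R3.Al.FinS
import Pool.Agent.H35R3.Al.SW12
import Pool.Agent.H35R3.Al.SW3
import Pool.Agent.H35R3.Al.SW4
import Pool.Agent.H35R3.Al.SW5
import Pool.Agent.H35R3.Al.SW6
import Pool.Agent.H35R3.Al.SW7
import Pool.Agent.H35R3.Al.SW8

/-!
Project ALPHA-SHARP: the final theorem.
-/

set_option autoImplicit false

namespace H35A

open H974 H12S H973N Finset Filter

/-- The near-critical window without loss in the exponent. -/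
theorem nearS : SW5c := sw5 sw2h (sw4 sw2 sw3 critS)

theorem alpha_sharp : ∃ κ : ℝ → ℝ,
    (∀ p ∈ Set.Icc (0:ℝ) 1,
      Tendsto (fun n : ℕ => meanClusters n p / (n:ℝ) ^ 2) atTop (nhds (κ p))) ∧
    (∀ p ∈ Set.Ioo (0:ℝ) 1, DifferentiableAt ℝ κ p) ∧ DifferentiableAt ℝ (deriv κ) (1/2) ∧
    ∃ C : ℝ, ∀ p ∈ Set.Ioo (0:ℝ) 1,
      |deriv κ p - deriv κ (1/2) - deriv (deriv κ) (1/2) * (p - 1/2)| ≤
        C * |p - 1/2| ^ (5/3 : ℝ) ∧
      |κ p - κ (1/2) - deriv κ (1/2) * (p - 1/2) - deriv (deriv κ) (1/2) / 2 * (p - 1/2) ^ 2| ≤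
        C * |p - 1/2| ^ (8/3 : ℝ) :=
  alpha_sharp_of sw2 sw2h sw3 sw4 sw5 sw6 sw7 sw8

end H35A
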