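import Pool.Agent.H35R3.Al.Tor
import Pool.Agent.H973R3.NC.TS
import Pool.Agent.H973R3.NC.FP

/-!
Local events on the torus.
-/

set_option autoImplicit false

namespace H35A

open H974 H12S H973N Finset

variable {M : ℕ}

/-- The local configuration. -/
noncomputable def pull (M : ℕ) (B F : Finset Edg) : Finset Edg := B.filter (fun e => red M e ∈ F)

theorem mem_pull {B F : Finset Edg} {e : Edg} : e ∈ pull M B F ↔ e ∈ B ∧ red M e ∈ F := by
  unfold pull; rw [Finset.mem_filter]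

theorem pull_congr {B F F' : Finset Edg} (h : ∀ e ∈ B, (red M e ∈ F ↔ red M e ∈ F')) :
    pull M B F = pull M B F' := by
  ext e
  rw [mem_pull, mem_pull]
  constructor
  · rintro ⟨h1, h2⟩; exact ⟨h1, (h e h1).1 h2⟩
  · rintro ⟨h1, h2⟩; exact ⟨h1, (h e h1).2 h2⟩

theorem PQ_pull {q : ℝ} {S B : Finset Edg} (hB : Set.InjOn (red M) (↑B : Set Edg))
    (hS : ∀ e ∈ B, red M e ∈ S) (A : Finset Edg → Prop) :
    PQ q S (fun F => A (pull M B F)) = PQ q B A := by
  classical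
  set φ : {e // e ∈ B} ↪ Edg := ⟨fun e => red M e.1, fun a b hab => Subtype.ext
    (hB a.2 b.2 hab)⟩ with hφ
  set ι : {e // e ∈ B} ↪ Edg := Function.Embedding.subtype _ with hι
  set S' : Finset Edg := B.attach.map φ with hS'
  have hmem : ∀ e ∈ B, red M e ∈ S' := by
    intro e he
    rw [hS', Finset.mem_map]
    exact ⟨⟨e, he⟩, Finset.mem_attach _ _, rfl⟩
  have hSS : S' ⊆ S := by
    intro x hx
    rw [hS', Finset.mem_map] at hx
    obtain ⟨e, _, rfl⟩ := hx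
    exact hS _ e.2
  have s1 : PQ q S (fun F => A (pull M B F)) = PQ q S' (fun F => A (pull M B F)) := by
    refine Pr_local hSS ?_
    intro F _
    rw [pull_congr (F := F) (F' := F ∩ S')]
    intro e he
    rw [Finset.mem_inter]
    exact ⟨fun h => ⟨h, hmem e he⟩, fun h => h.1⟩
  have s3 : PQ q B A = Pr (fun _ => q) B.attach (fun F => A (F.map ι)) := by
    have : B = B.attach.map ι := (Finset.attach_map_val).symm
    conv_lhs => rw [this]
    exact Pr_map _ _ _ _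
  rw [s1, s3]
  have s2 : PQ q S' (fun F => A (pull M B F)) =
      Pr (fun _ => q) B.attach (fun F => A (pull M B (F.map φ))) := Pr_map _ _ _ _
  rw [s2]
  apply Pr_congr
  intro F _
  have : pull M B (F.map φ) = F.map ι := by
    ext e
    rw [mem_pull, Finset.mem_map, Finset.mem_map]
    constructor
    · rintro ⟨he, x, hx, hxe⟩
      have : x.1 = e := hB x.2 he hxe
      exact ⟨x, hx, this⟩
    · rintro ⟨x, hx, rfl⟩
      exact ⟨x.2, x, hx, rfl⟩
  rw [this]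

theorem mem_blk {c : ℤ × ℤ} {ρ : ℕ} {e : Edg} (h : e ∈ blk c ρ) :
    (c.1 - ρ ≤ e.1 ∧ e.1 ≤ c.1 + ρ) ∧ (c.2 - ρ ≤ e.2.1 ∧ e.2.1 ≤ c.2 + ρ) := by
  obtain ⟨x, y, _ | _⟩ := e
  · unfold blk at h
    rw [mem_RE_false] at h
    simp only
    omega
  · unfold blk at h
    rw [mem_RE_true] at h
    simp only
    omega

theorem eq_of_mod {x y : ℤ} (h : x % M = y % M) (h2 : |x - y| < M) : x = y := by
  have h3 : (M:ℤ) ∣ x - y := Int.ModEq.dvd (Int.ModEq.symm h)
  have := Int.eq_zero_of_abs_lt_dvd h3 h2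
  omega

theorem inj_blk {c : ℤ × ℤ} {ρ : ℕ} (h : 2 * ρ < M) :
    Set.InjOn (red M) (↑(blk c ρ) : Set Edg) := by
  intro e he g hg heg
  have h1 := mem_blk (Finset.mem_coe.1 he)
  have h2 := mem_blk (Finset.mem_coe.1 hg)
  obtain ⟨x, y, b⟩ := e
  obtain ⟨x', y', b'⟩ := g
  unfold red at heg
  simp only [Prod.mk.injEq] at heg h1 h2
  have hM : (2:ℤ) * ρ < M := by exact_mod_cast h
  have e1 : x = x' := eq_of_mod (M := M) heg.1 (by rw [abs_lt]; omega)
  have e2 : y = y' := eq_of_mod (M := M) heg.2.1 (by rw [abs_lt]; omega)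
  rw [e1, e2, heg.2.2]

/-- Local four arms on the torus. -/
def L4T (M ρ : ℕ) (e : Edg) (F : Finset Edg) : Prop := L4 ρ e (lft M F)

theorem L4T_pull {ρ : ℕ} {e : Edg} {F : Finset Edg} :
    L4T M ρ e F ↔ L4 ρ e (↑(pull M (blk (bp e) ρ) F) : Set Edg) := by
  unfold L4T L4
  apply A4_congr
  intro g hg _
  rw [Finset.mem_coe, mem_pull]
  exact ⟨fun h => ⟨hg, h⟩, fun h => h.2⟩

theorem L4T_congr {ρ : ℕ} {e : Edg} {F F' : Finset Edg}
    (h : ∀ g ∈ blk (bp e) ρ, (red M g ∈ F ↔ red M g ∈ F')) : L4T M ρ e F ↔ L4T M ρ e F' := by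
  rw [L4T_pull, L4T_pull, pull_congr h]

theorem pr_L4T {q : ℝ} (h0 : 0 ≤ q) (h1 : q ≤ 1) {ρ : ℕ} (hρ : 2 * ρ < M) {e : Edg}
    {S : Finset Edg} (hS : ∀ g ∈ blk (bp e) ρ, red M g ∈ S) : PQ q S (L4T M ρ e) ≤ a4 q ρ := by
  have : PQ q S (L4T M ρ e) = PQ q S (fun F => L4 ρ e (↑(pull M (blk (bp e) ρ) F) : Set Edg)) :=
    Pr_congr fun F _ => L4T_pull
  rw [this, PQ_pull (inj_blk hρ) hS (fun F => L4 ρ e (↑F : Set Edg))]
  exact pr_L4 h0 h1 (Finset.Subset.refl _)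

theorem bp_mem_blk {e : Edg} {ρ : ℕ} (h : 1 ≤ ρ) : e ∈ blk (bp e) ρ := by
  obtain ⟨x, y, _ | _⟩ := e
  · unfold blk bp
    rw [mem_RE_false]
    simp only
    omega
  · unfold blk bp
    rw [mem_RE_true]
    simp only
    omega

theorem piv_L4T {u v : Vtx} {g : Edg} {ρ : ℕ} (hρ1 : 1 ≤ ρ) (hρ : 2 * ρ < M)
    (hu : ∀ z, BSfar (bp g) ρ (sh M z u)) (hv : ∀ z, BSfar (bp g) ρ (sh M z v))
    {F : Finset Edg} (h : Pf (fun F => Ct M F u v) (red M g) F) : L4T M ρ g F := by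
  obtain ⟨h1, h2⟩ := h
  simp only at h1 h2
  set F0 := F.erase (red M g) with hF0
  have e1 : insert (red M g) F = insert (red M g) F0 := by
    ext x
    simp only [hF0, Finset.mem_insert, Finset.mem_erase]
    tauto
  rw [e1] at h1
  obtain ⟨y, hy⟩ := eq_shE (M := M) g
  have as : Ct M F0 (src (red M g)) (src g) := by
    conv_rhs => rw [hy]
    rw [src_shE]; exact Ct.sh_right _ _ _
  have at' : Ct M F0 (tgt (red M g)) (tgt g) := by
    conv_rhs => rw [hy]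
    rw [tgt_shE]; exact Ct.sh_right _ _ _
  have h3 : (Ct M F0 u (src g) ∧ Ct M F0 (tgt g) v) ∨ (Ct M F0 u (tgt g) ∧ Ct M F0 (src g) v) := by
    rcases h1.insert_cases with h3 | ⟨h3, h4⟩ | ⟨h3, h4⟩
    · exact absurd h3 h2
    · exact Or.inl ⟨h3.trans as, at'.symm.trans h4⟩
    · exact Or.inr ⟨h3.trans at', as.symm.trans h4⟩
  have hin : inR (g.1 - ρ) (g.1 + ρ) (g.2.1 - ρ) (g.2.1 + ρ) (src g) ∧
      inR (g.1 - ρ) (g.1 + ρ) (g.2.1 - ρ) (g.2.1 + ρ) (tgt g) := BS_adj_box (bp_mem_blk hρ1)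
  have hgb : g ∈ (↑(blk (bp g) ρ) : Set Edg) := Finset.mem_coe.2 (bp_mem_blk hρ1)
  have arm : ∀ a w : Vtx, inR (g.1 - ρ) (g.1 + ρ) (g.2.1 - ρ) (g.2.1 + ρ) a → Ct M F0 a w →
      (∀ z, BSfar (bp g) ρ (sh M z w)) → ∃ w' ∈ bdR (g.1 - ρ) (g.1 + ρ) (g.2.1 - ρ) (g.2.1 + ρ),
      Reach ((lft M F ∩ ↑(RE (g.1 - ρ) (g.1 + ρ) (g.2.1 - ρ) (g.2.1 + ρ))) \ {g}) a w' := by
    intro a w ha hc hw
    obtain ⟨z, hz⟩ := hc
    obtain ⟨w', k1, k2, k3⟩ := first_exit ha hz (hw z)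
    refine ⟨w', ⟨k1, k2⟩, k3.mono ?_⟩
    rintro e ⟨he1, he2⟩
    have he3 : red M e ∈ F0 := he1
    rw [hF0, Finset.mem_erase] at he3
    refine ⟨⟨he3.2, he2⟩, ?_⟩
    rintro rfl
    exact he3.1 rfl
  have hnot : ¬ Reach ((lft M F ∩ ↑(RE (g.1 - ρ) (g.1 + ρ) (g.2.1 - ρ) (g.2.1 + ρ))) \ {g})
      (src g) (tgt g) := by
    intro hr
    have hc : Ct M F0 (src g) (tgt g) := by
      apply Ct.of_reach
      refine hr.mono ?_
      rintro e ⟨⟨he1, he2⟩, he3⟩
      show red M e ∈ F0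
      rw [hF0, Finset.mem_erase]
      refine ⟨?_, he1⟩
      intro heq
      exact he3 (inj_blk (c := bp g) hρ he2 hgb heq)
    apply h2
    rcases h3 with ⟨h3, h4⟩ | ⟨h3, h4⟩
    · exact (h3.trans hc).trans h4
    · exact (h3.trans hc.symm).trans h4
  rcases h3 with ⟨h3, h4⟩ | ⟨h3, h4⟩
  · exact ⟨arm _ _ hin.1 h3.symm hu, arm _ _ hin.2 h4 hv, hnot⟩
  · exact ⟨arm _ _ hin.1 h4 hv, arm _ _ hin.2 h3.symm hu, hnot⟩

/-- The torus distance of `a` and `b` is larger than `r`. -/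
def Fr (M : ℕ) (r : ℤ) (a b : Edg) : Prop := ∀ z, r < dst (shE M z a) b

theorem Fr.symm {r : ℤ} {a b : Edg} (h : Fr M r a b) : Fr M r b a := by
  intro z
  have := h (-z.1, -z.2)
  unfold dst shE at this ⊢
  simp only at this ⊢
  have e1 : |a.1 + M * -z.1 - b.1| = |b.1 + M * z.1 - a.1| := by
    rw [← abs_neg]; congr 1; ring
  have e2 : |a.2.1 + M * -z.2 - b.2.1| = |b.2.1 + M * z.2 - a.2.1| := by
    rw [← abs_neg]; congr 1; ring
  rw [e1, e2] at this
  exact this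

theorem Fr.mono {r r' : ℤ} (h : r' ≤ r) {a b : Edg} (hf : Fr M r a b) : Fr M r' a b :=
  fun z => lt_of_le_of_lt h (hf z)

theorem dst_blk {e g : Edg} {ρ : ℕ} (h : g ∈ blk (bp e) ρ) : dst g e ≤ ρ := by
  have := mem_blk h
  unfold bp at this
  simp only at this
  unfold dst
  rw [max_le_iff, abs_le, abs_le]
  omega

theorem Fr.notMem {ρ : ℕ} {a b : Edg} (h : Fr M ρ a b) : ∀ g ∈ blk (bp b) ρ, red M g ≠ red M a := by
  intro g hg hga
  obtain ⟨z, hz⟩ := eq_shE_of_red hga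
  have := h z
  rw [← hz] at this
  exact absurd (dst_blk hg) (not_le.2 this)

theorem Fr.far {ρ : ℕ} {a b : Edg} (h : Fr M (ρ + 1) a b) (z : ℤ × ℤ) :
    BSfar (bp b) ρ (sh M z (src a)) ∧ BSfar (bp b) ρ (sh M z (tgt a)) := by
  have h1 := h z
  unfold dst shE at h1
  simp only at h1
  rw [lt_max_iff, lt_abs, lt_abs] at h1
  rw [← src_shE, ← tgt_shE]
  obtain ⟨x, y, _ | _⟩ := a
  · unfold BSfar bp shE
    simp only [src_mk, tgt_false] at h1 ⊢
    omega
  · unfold BSfar bp shE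
    simp only [src_mk, tgt_true] at h1 ⊢
    omega

theorem piv_fe {a b : Edg} {ρ : ℕ} (hρ1 : 1 ≤ ρ) (hρ : 2 * ρ < M) (ha : red M a = a)
    (hb : red M b = b) (hab : Fr M (ρ + 1) a b) {F : Finset Edg} (h : Pf (fe M a) b F) :
    L4T M ρ b F := by
  have hmem := (hab.mono (r' := ρ) (by omega)).notMem
  have hne : a ≠ b := by
    intro h'
    exact hmem b (bp_mem_blk hρ1) (by rw [h'])
  have h' : Pf (fun F => Ct M F (src a) (tgt a)) (red M b) (F.erase a) := by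
    obtain ⟨h1, h2⟩ := h
    unfold fe at h1 h2
    rw [hb]
    refine ⟨?_, ?_⟩
    · show Ct M (insert b (F.erase a)) (src a) (tgt a)
      rwa [← Finset.erase_insert_of_ne hne.symm]
    · show ¬ Ct M ((F.erase a).erase b) (src a) (tgt a)
      rwa [Finset.erase_right_comm]
  have h2 := piv_L4T hρ1 hρ (fun z => (hab.far z).1) (fun z => (hab.far z).2) h'
  refine (L4T_congr ?_).1 h2
  intro g hg
  rw [Finset.mem_erase]
  exact ⟨fun h => h.2, fun h => ⟨fun h3 => hmem g hg (by rw [h3, ha]), h⟩⟩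

theorem SD_L4T {a b c : Edg} {ρ : ℕ} (hρ1 : 1 ≤ ρ) (hρ : 2 * ρ < M) (ha : red M a = a)
    (hb : red M b = b) (hc : red M c = c) (hab : Fr M (ρ + 1) a b) (hcb : Fr M ρ c b)
    {F : Finset Edg} (h : SD (fe M a) b c F) : L4T M ρ b F := by
  have hmem := hcb.notMem
  rcases h.1 with h1 | h1
  · refine (L4T_congr ?_).1 (piv_fe hρ1 hρ ha hb hab h1)
    intro g hg
    rw [Finset.mem_erase]
    exact ⟨fun h => h.2, fun h => ⟨fun h3 => hmem g hg (by rw [h3, hc]), h⟩⟩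
  · refine (L4T_congr ?_).1 (piv_fe hρ1 hρ ha hb hab h1)
    intro g hg
    rw [Finset.mem_insert]
    exact ⟨fun h => h.resolve_left (fun h3 => hmem g hg (by rw [h3, hc])), fun h => Or.inr h⟩

/-- Rerouting along a circuit. -/
theorem ctU {c : ℤ × ℤ} {m : ℕ} (hm : 1 ≤ m) {u v : Vtx}
    (hu : ∀ z, BSfar c (3 * m) (sh M z u)) (hv : ∀ z, BSfar c (3 * m) (sh M z v))
    {F : Finset Edg} (hU : BSU c m (pull M (blk c (3 * m)) F))
    (h : Ct M (F ∪ (blk c m).image (red M)) u v) : Ct M F u v := by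
  classical
  obtain ⟨z0, hz0⟩ := BSU_meet hm hU
  have meet : ∀ x y : Vtx, inR (c.1 - m) (c.1 + m) (c.2 - m) (c.2 + m) x →
      BSfar c (3 * m) y → Reach (lft M F) x y → Reach (lft M F) x z0 := by
    intro x y hx hy hxy
    obtain ⟨w, k1, k2, k3⟩ := first_exit (a := c.1 - (3 * m : ℕ)) (b := c.1 + (3 * m : ℕ))
      (c := c.2 - (3 * m : ℕ)) (d := c.2 + (3 * m : ℕ)) (u := x)
      (by unfold inR at hx ⊢; push_cast; omega) hxy hy
    have e1 : lft M F ∩ ↑(RE (c.1 - (3 * m : ℕ)) (c.1 + (3 * m : ℕ)) (c.2 - (3 * m : ℕ))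
        (c.2 + (3 * m : ℕ))) = (↑(pull M (blk c (3 * m)) F) : Set Edg) := by
      ext e
      rw [Finset.mem_coe, mem_pull]
      exact ⟨fun h => ⟨h.2, h.1⟩, fun h => ⟨h.2, h.1⟩⟩
    rw [e1] at k3
    refine (hz0 x w hx (by unfold BSfar; omega) k3).mono ?_
    intro e he
    rw [Finset.mem_coe, mem_pull] at he
    exact he.2
  have key : ∀ a w : Vtx, Reach (lft M (F ∪ (blk c m).image (red M))) a w →
      Reach (lft M F) a w ∨ ∃ z x, inR (c.1 - m) (c.1 + m) (c.2 - m) (c.2 + m) x ∧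
        Reach (lft M F) a (sh M z x) := by
    intro a w hw
    induction hw with
    | refl => exact Or.inl (Reach.refl _ _)
    | @tail w w' _ hs ih =>
      rcases ih with ih | ih
      · obtain ⟨e, he, hc⟩ := hs
        have he' : red M e ∈ F ∪ (blk c m).image (red M) := he
        rcases Finset.mem_union.1 he' with he | he
        · exact Or.inl (ih.trans (Adj.reach ⟨e, he, hc⟩))
        · right
          obtain ⟨e', he1, he2⟩ := Finset.mem_image.1 he
          obtain ⟨z, hz⟩ := eq_shE_of_red (M := M) he2.symm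
          have hb := BS_adj_box he1
          rcases hc with ⟨h1, h2⟩ | ⟨h1, h2⟩
          · refine ⟨z, src e', hb.1, ?_⟩
            rw [← src_shE, ← hz, h1]; exact ih
          · refine ⟨z, tgt e', hb.2, ?_⟩
            rw [← tgt_shE, ← hz, h2]; exact ih
      · exact Or.inr ih
  have key2 : ∀ a w : Vtx, (∀ z, BSfar c (3 * m) (sh M z a)) →
      Ct M (F ∪ (blk c m).image (red M)) a w → Ct M F a w ∨ Ct M F a z0 := by
    intro a w ha hc
    obtain ⟨z, hz⟩ := hc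
    rcases key _ _ hz with h1 | ⟨y, x, hx, h1⟩
    · exact Or.inl ⟨z, h1⟩
    · right
      have h2 := reach_sh (-y.1, -y.2) h1.symm
      rw [sh_neg] at h2
      have h3 := meet x _ hx (ha _) h2
      exact (Ct.trans ⟨y, h1⟩ (Ct.of_reach h3))
  rcases key2 u v hu h with h1 | h1
  · exact h1
  · rcases key2 v u hv h.symm with h2 | h2
    · exact h2.symm
    · exact h1.trans h2.symm

/-- Without crossing of the annulus, the edges of the block do not matter. -/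
theorem ctD {c : ℤ × ℤ} {m : ℕ} {u v : Vtx} (hu : ∀ z, BSfar c (3 * m) (sh M z u))
    {F : Finset Edg} (hD : BSD c m (pull M (blk c (3 * m)) F))
    (h : Ct M F u v) : Ct M (F \ (blk c m).image (red M)) u v := by
  classical
  obtain ⟨z, hz⟩ := h
  refine ⟨z, ?_⟩
  generalize sh M z v = v' at hz ⊢
  induction hz with
  | refl => exact Reach.refl _ _
  | @tail w w' hw hs ih =>
    obtain ⟨e, he, hc⟩ := hs
    have hne : red M e ∉ (blk c m).image (red M) := by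
      intro hb
      obtain ⟨e', he1, he2⟩ := Finset.mem_image.1 hb
      obtain ⟨y, hy⟩ := eq_shE_of_red (M := M) he2.symm
      have hb' := BS_adj_box he1
      have hex : ∃ x, inR (c.1 - m) (c.1 + m) (c.2 - m) (c.2 + m) x ∧ w = sh M y x := by
        rcases hc with ⟨h1, h2⟩ | ⟨h1, h2⟩
        · exact ⟨src e', hb'.1, by rw [← h1, hy, src_shE]⟩
        · exact ⟨tgt e', hb'.2, by rw [← h2, hy, tgt_shE]⟩
      obtain ⟨x, hx, hwx⟩ := hex
      have hr := reach_sh (-y.1, -y.2) (Reach.symm hw)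
      rw [hwx, sh_neg] at hr
      obtain ⟨w2, k1, k2, k3⟩ := first_exit (a := c.1 - (3 * m : ℕ)) (b := c.1 + (3 * m : ℕ))
        (c := c.2 - (3 * m : ℕ)) (d := c.2 + (3 * m : ℕ)) (u := x)
        (by unfold inR at hx ⊢; push_cast; omega) hr (hu _)
      apply hD
      refine ⟨x, w2, hx, by omega, k3.mono ?_⟩
      rintro e3 ⟨h3, h4⟩
      rw [Finset.mem_coe, mem_pull]
      exact ⟨h4, h3⟩
    refine ih.trans (Adj.reach ⟨e, ?_, hc⟩)
    show red M e ∈ F \ (blk c m).image (red M)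
    rw [Finset.mem_sdiff]
    exact ⟨he, hne⟩

end H35A
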