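import Pool.Agent.H35R3.Al.Far

/-!
The sum over the far triples.
-/

set_option autoImplicit false

namespace H35A

open H974 H12S H973N Finset

theorem X3_nonneg {q : ℝ} (h0 : 0 ≤ q) (h1 : q ≤ 1) (M : ℕ) (a b c : Edg) : 0 ≤ X3 q M a b c :=
  Pr_nonneg (okq h0 h1) _ _

theorem taskP6 (hP2 : TaskP2) (hP3 : TaskP3) (hP4 : TaskP4) : TaskP6 := by
  intro q κ N hW j k hjk a ha
  classical
  have h0 : 0 ≤ q := by linarith [hW.lo]
  have h1 : q ≤ 1 := by linarith [hW.hi]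
  have hok := okq h0 h1
  have hMpos : 0 < 2 ^ N := by positivity
  have hra := red_of_mem ha
  have hk4 : 0 ≤ (κ ^ 4)⁻¹ := by have := hW.kpos; positivity
  have ha4 : 0 ≤ a4 q (2 ^ (j - 2)) := by
    unfold a4
    exact add_nonneg (Pr_nonneg hok _ _) (Pr_nonneg hok _ _)
  have hAA := AA_nonneg h0 h1 k
  have hRHS : 0 ≤ 2 ^ 40 * (κ ^ 4)⁻¹ *
      (a4 q (2 ^ (j - 2)) * (16 ^ k * AA q k ^ 2 * 2 ^ (j - k))) := by positivity
  by_cases hjN : N < j + 2
  · refine le_trans (le_of_eq ?_) hRHS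
    apply Finset.sum_eq_zero
    intro b _
    apply Finset.sum_eq_zero
    intro c _
    rw [ind_not_of, zero_mul]
    intro hF
    have h2 := Fr_lt hMpos hF.2.1.1
    have h3 : 2 ^ N ≤ 2 ^ (j + 1) := Nat.pow_le_pow_right (by norm_num) (by omega)
    have h4 : (2:ℤ) ^ (j + 1) = 2 * 2 ^ j := pow_succ' _ _
    have h5 : ((2 ^ N : ℕ) : ℤ) ≤ 2 ^ (j + 1) := by exact_mod_cast h3
    omega
  push Not at hjN
  have hMj : 2 ^ (j + 1) < 2 ^ N := Nat.pow_lt_pow_right (by norm_num) (by omega)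
  set s : ℕ := 2 ^ k with hs
  have hspos : 0 < s := by positivity
  set ra : ℕ := 2 ^ (j - 2) with hradef
  set B0 := bT (2 ^ N) (bp a) ra with hB0
  set S := EM (2 ^ N) \ B0 with hS
  set Sh : Finset Edg := (EM (2 ^ N)).filter
    (fun b => Fr (2 ^ N) (2 ^ j) a b ∧ ¬ Fr (2 ^ N) (2 ^ (j + 1)) a b) with hSh
  set T := Sh.image (til s) with hT
  set g : Finset Edg → ℤ × ℤ → ℝ := fun w t =>
    PQ q S (Bf (fun F => fe (2 ^ N) a (F ∪ w)) (bT (2 ^ N) (ctr s t) (8 * s))) with hg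
  set A2 := AA q k ^ 2 with hA2
  set E1 : Edg → ℝ := fun b => Ex (fun _ => q) B0 (fun w => ind (L4T (2 ^ N) ra a w) *
    (A2 * g w (til s b))) with hE1
  have hgn : ∀ w t, 0 ≤ g w t := fun w t => Pr_nonneg hok _ _
  have hE1n : ∀ b, 0 ≤ E1 b := by
    intro b
    apply Ex_nonneg hok
    intro w _
    exact mul_nonneg (ind_nonneg _) (mul_nonneg (by positivity) (hgn _ _))
  have step1 : ∑ b ∈ EM (2 ^ N), ∑ c ∈ EM (2 ^ N),
      ind (Far (2 ^ N) j k a b c) * X3 q (2 ^ N) a b c ≤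
      ∑ b ∈ Sh, ∑ c ∈ Nb (2 ^ N) (2 ^ (k + 1)) b, E1 b := by
    rw [hSh, Finset.sum_filter]
    apply Finset.sum_le_sum
    intro b hb
    split_ifs with hbS
    · unfold Nb
      rw [Finset.sum_filter]
      apply Finset.sum_le_sum
      intro c hc
      by_cases hcb : Fr (2 ^ N) ((2 ^ (k + 1) : ℕ) : ℤ) b c
      · rw [if_neg (not_not.2 hcb), ind_not_of, zero_mul]
        intro hF
        apply hF.2.2.2
        push_cast at hcb
        exact hcb
      · rw [if_pos hcb]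
        by_cases hF : Far (2 ^ N) j k a b c
        · rw [ind_of hF, one_mul]
          exact far_point hP2 hP3 h0 h1 hjk hMj ha hb hc hF
        · rw [ind_not_of hF, zero_mul]
          exact hE1n b
    · apply le_of_eq
      apply Finset.sum_eq_zero
      intro c _
      rw [ind_not_of, zero_mul]
      exact fun hF => hbS hF.2.1
  have hNb : ∀ b, ((Nb (2 ^ N) (2 ^ (k + 1)) b).card : ℝ) ≤ 2 * (8 * s) ^ 2 := by
    intro b
    have h2 := hP4 (2 ^ N) (2 ^ (k + 1)) b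
    have h3 : 2 * 2 ^ (k + 1) + 1 ≤ 8 * s := by
      rw [pow_succ, ← hs]; omega
    have h4 : (Nb (2 ^ N) (2 ^ (k + 1)) b).card ≤ 2 * (8 * s) ^ 2 :=
      h2.trans (Nat.mul_le_mul_left _ (Nat.pow_le_pow_left h3 2))
    exact_mod_cast h4
  have step2 : ∑ b ∈ Sh, ∑ c ∈ Nb (2 ^ N) (2 ^ (k + 1)) b, E1 b ≤
      2 * (8 * s) ^ 2 * ∑ b ∈ Sh, E1 b := by
    rw [Finset.mul_sum]
    apply Finset.sum_le_sum
    intro b _
    rw [Finset.sum_const, nsmul_eq_mul]
    exact mul_le_mul_of_nonneg_right (hNb b) (hE1n b)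
  have step3 : ∑ b ∈ Sh, E1 b = Ex (fun _ => q) B0 (fun w => ind (L4T (2 ^ N) ra a w) *
      (A2 * ∑ b ∈ Sh, g w (til s b))) := by
    rw [hE1]
    rw [← Ex_sum]
    apply Ex_congr
    intro w _
    rw [Finset.mul_sum, Finset.mul_sum]
  -- cardinality of `T`
  have hMs : 2 ^ N = s * (64 * 2 ^ (N - k - 6)) := by
    rw [hs, show (64:ℕ) = 2 ^ 6 by norm_num, ← pow_add, ← pow_add]
    congr 1; omega
  have hTc : T.card ≤ (2 * 2 ^ (j + 1 - k) + 1) ^ 2 := by
    refine card_til (M := 2 ^ N) (a := a) hspos hMs Sh ?_ T ?_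
    · intro b hb
      rw [hSh, Finset.mem_filter] at hb
      refine ⟨hb.1, ?_⟩
      have : ((s:ℕ):ℤ) * ((2 ^ (j + 1 - k) : ℕ) : ℤ) = 2 ^ (j + 1) := by
        rw [hs]; push_cast
        rw [← pow_add]; congr 1; omega
      rw [this]
      exact hb.2.2
    · intro t ht
      rw [hT, Finset.mem_image] at ht
      exact ht
  have hsq : Real.sqrt T.card ≤ 8 * 2 ^ (j - k) := by
    rw [Real.sqrt_le_left (by positivity)]
    have h2 : T.card ≤ (8 * 2 ^ (j - k)) ^ 2 := by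
      refine hTc.trans (Nat.pow_le_pow_left ?_ 2)
      have : 2 ^ (j + 1 - k) = 2 * 2 ^ (j - k) := by
        rw [← pow_succ']; congr 1; omega
      have h3 : 1 ≤ 2 ^ (j - k) := Nat.one_le_two_pow
      omega
    exact_mod_cast h2
  have step4 : ∀ w ⊆ B0, ∑ b ∈ Sh, g w (til s b) ≤
      2 * s ^ 2 * (2 * 64 ^ 2 * (κ ^ 4)⁻¹ * (8 * 2 ^ (j - k))) := by
    intro w hw
    have hmaps : ∀ b ∈ Sh, til s b ∈ T := fun b hb => Finset.mem_image_of_mem _ hb
    rw [← Finset.sum_fiberwise_of_maps_to hmaps]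
    have h2 : ∀ t ∈ T, ∑ b ∈ Sh with til s b = t, g w (til s b) ≤ 2 * s ^ 2 * g w t := by
      intro t _
      have : ∑ b ∈ Sh with til s b = t, g w (til s b) = ∑ b ∈ Sh with til s b = t, g w t := by
        apply Finset.sum_congr rfl
        intro b hb
        rw [(Finset.mem_filter.1 hb).2]
      rw [this, Finset.sum_const, nsmul_eq_mul]
      apply mul_le_mul_of_nonneg_right _ (hgn _ _)
      have := card_fib hspos Sh t
      exact_mod_cast this
    refine (Finset.sum_le_sum h2).trans ?_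
    rw [← Finset.mul_sum]
    apply mul_le_mul_of_nonneg_left _ (by positivity)
    have hdis : Disjoint w S := by
      rw [Finset.disjoint_left]
      intro e he he'
      exact (Finset.mem_sdiff.1 he').2 (hw he)
    have h3 := tileT (M := 2 ^ N) (a := a) (w := w) (S := S) (s := s) (K := 64)
      (m := 2 ^ (N - k - 6)) (R := 8 * s) hW hdis (by norm_num) (by omega) ?_ ?_ ?_ hMs T ?_ ?_
    · have h4 : ((64:ℕ):ℝ) = 64 := by norm_num
      rw [h4] at h3
      refine le_trans h3 ?_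
      exact mul_le_mul_of_nonneg_left hsq (by positivity)
    · have : 16 * s ≤ 2 ^ N := by
        rw [hs, show (16:ℕ) = 2 ^ 4 by norm_num, ← pow_add]
        exact Nat.pow_le_pow_right (by norm_num) (by omega)
      omega
    · have : 64 * s ≤ 2 ^ N := by
        rw [hs, show (64:ℕ) = 2 ^ 6 by norm_num, ← pow_add]
        exact Nat.pow_le_pow_right (by norm_num) (by omega)
      omega
    · omega
    · intro t ht
      rw [hT, Finset.mem_image] at ht
      obtain ⟨b, hb, rfl⟩ := ht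
      rw [hSh, Finset.mem_filter, mem_EM] at hb
      have hs' : (0:ℤ) < s := by exact_mod_cast hspos
      have hMz : ((2 ^ N : ℕ):ℤ) = s * ((64:ℕ) * (2 ^ (N - k - 6) : ℕ)) := by exact_mod_cast hMs
      have key : ∀ y : ℤ, 0 ≤ y → y < (2 ^ N : ℕ) → 0 ≤ y / s ∧
          y / s < (64:ℕ) * (2 ^ (N - k - 6) : ℕ) := by
        intro y hy hy'
        exact ⟨Int.ediv_nonneg hy hs'.le, Int.ediv_lt_of_lt_mul hs' (by rw [hMz] at hy'; linarith)⟩
      exact ⟨key _ hb.1.1.1 hb.1.1.2, key _ hb.1.2.1 hb.1.2.2⟩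
    · intro t ht
      rw [hT, Finset.mem_image] at ht
      obtain ⟨b, hb, rfl⟩ := ht
      rw [hSh, Finset.mem_filter] at hb
      exact tile_good hjk hMpos hra hb.2.1
  have step5 : Ex (fun _ => q) B0 (fun w => ind (L4T (2 ^ N) ra a w) *
      (A2 * ∑ b ∈ Sh, g w (til s b))) ≤ a4 q ra *
      (A2 * (2 * s ^ 2 * (2 * 64 ^ 2 * (κ ^ 4)⁻¹ * (8 * 2 ^ (j - k))))) := by
    have h2 : Ex (fun _ => q) B0 (fun w => ind (L4T (2 ^ N) ra a w) *
      (A2 * ∑ b ∈ Sh, g w (til s b))) ≤ Ex (fun _ => q) B0 (fun w => ind (L4T (2 ^ N) ra a w) *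
      (A2 * (2 * s ^ 2 * (2 * 64 ^ 2 * (κ ^ 4)⁻¹ * (8 * 2 ^ (j - k)))))) := by
      apply Ex_mono hok
      intro w hw
      apply mul_le_mul_of_nonneg_left _ (ind_nonneg _)
      exact mul_le_mul_of_nonneg_left (step4 w hw) (by positivity)
    rw [Ex_mul_right] at h2
    refine h2.trans ?_
    apply mul_le_mul_of_nonneg_right _ (by positivity)
    refine pr_L4T h0 h1 ?_ (S := B0) (fun g hg => mem_bT.2 ⟨g, hg, rfl⟩)
    have : 2 * ra ≤ 2 ^ (j + 1) := by
      rw [hradef, ← pow_succ']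
      exact Nat.pow_le_pow_right (by norm_num) (by omega)
    omega
  refine step1.trans (step2.trans ?_)
  rw [step3]
  refine (mul_le_mul_of_nonneg_left step5 (by positivity)).trans ?_
  have hs2 : (s:ℝ) ^ 2 * (s:ℝ) ^ 2 = 16 ^ k := by
    rw [hs]; push_cast
    rw [← pow_add, ← pow_mul, show (16:ℝ) = 2 ^ 4 by norm_num, ← pow_mul]
    congr 1; ring
  have e1 : 2 * (8 * (s:ℝ)) ^ 2 * (a4 q ra *
      (A2 * (2 * (s:ℝ) ^ 2 * (2 * 64 ^ 2 * (κ ^ 4)⁻¹ * (8 * 2 ^ (j - k)))))) =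
      2 ^ 24 * (κ ^ 4)⁻¹ * (a4 q ra * (((s:ℝ) ^ 2 * (s:ℝ) ^ 2) * A2 * 2 ^ (j - k))) := by
    ring
  rw [e1, hs2]
  apply mul_le_mul_of_nonneg_right _ (by positivity)
  apply mul_le_mul_of_nonneg_right _ hk4
  norm_num

end H35A
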