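import Pool.Agent.H35R3.Al.StmtsG

/-!
Project BG-SHARP: one scale inequality in the window with an arbitrary exponent (SG0), after SW3.
-/

set_option autoImplicit false
set_option maxHeartbeats 1000000

namespace H35A

open H974 H12S H973N Finset

theorem sg0_card (L m r N : ℕ) :
    (prs L m r N).card ≤ (2 * (2 * N + 1)) * (2 * (2 * N + 1)) := by
  unfold prs
  refine (Finset.card_filter_le _ _).trans ?_
  rw [Finset.card_product, Finset.card_product, Int.card_Icc, Finset.card_univ,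
    Fintype.card_bool]
  have : ((N:ℤ) + 1 - -(N:ℤ)).toNat = 2 * N + 1 := by omega
  rw [this]

theorem sg0_ne (L m r N : ℕ) : (prs L m r N).Nonempty := by
  refine ⟨((true, 0), (true, 0)), ?_⟩
  unfold prs
  simp only [Finset.mem_filter, Finset.mem_product, Finset.mem_Icc, Finset.mem_univ, true_and,
    mul_zero, abs_zero]
  refine ⟨⟨⟨by omega, by omega⟩, ⟨by omega, by omega⟩⟩, ?_, ?_⟩ <;> positivity

theorem sg0_num {L : ℕ} (hL : 2 ≤ L) (p : ℝ) :
    1 / (2 * (192 * (L:ℝ)) ^ (p + 1)) * (192 * (L:ℝ)) ^ p ≤ 1 / 64 := by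
  have hLr : (2:ℝ) ≤ L := by exact_mod_cast hL
  have h0 : (0:ℝ) < 192 * (L:ℝ) := by linarith
  have h1 : (0:ℝ) < (192 * (L:ℝ)) ^ p := Real.rpow_pos_of_pos h0 _
  rw [Real.rpow_add h0, Real.rpow_one]
  calc 1 / (2 * ((192 * (L:ℝ)) ^ p * (192 * (L:ℝ)))) * (192 * (L:ℝ)) ^ p
      = 1 / (384 * (L:ℝ)) := by
        field_simp
        norm_num
    _ ≤ 1 / 64 := by
        apply one_div_le_one_div_of_le (by norm_num)
        linarith

theorem sg0 : SG0 := by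
  intro κ p' hκ hp'
  obtain ⟨C, c, hC, hc, hex⟩ := exit_prob2 κ hκ
  obtain ⟨L, hL, hLK⟩ := KY_choose_L C c (p' + 1) hc
  have hLr : (2:ℝ) ≤ L := by exact_mod_cast hL
  obtain ⟨X, hX⟩ : ∃ X : ℝ, X = (192 * (L:ℝ)) ^ (p' + 1) := ⟨_, rfl⟩
  have hX0 : 0 < X := by rw [hX]; positivity
  have e0 : (64 * (3 * L : ℕ) : ℝ) ^ (p' + 1) = X := by
    have e1 : (64 * ((3 * L : ℕ) : ℝ)) = 192 * (L:ℝ) := by push_cast; ring
    rw [hX, e1]
  rw [e0] at hLK
  obtain ⟨M1, M2, N, hM1, hM2, hex2⟩ := hex L (1 / (32 * X)) hL (by positivity)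
  have hη : 1 / (32 * X) + C * Real.exp (-c * L) ≤ 1 / (16 * X) := by
    have h2 : C * Real.exp (-c * L) ≤ 1 / (32 * X) := by
      rw [le_div_iff₀ (by positivity)]
      calc C * Real.exp (-c * L) * (32 * X) = 32 * (C * Real.exp (-c * L) * X) := by ring
        _ ≤ 32 * (1 / 32) := by linarith
        _ = 1 := by norm_num
    calc 1 / (32 * X) + C * Real.exp (-c * L) ≤ 1 / (32 * X) + 1 / (32 * X) := by linarith
      _ = 1 / (16 * X) := by field_simp; norm_num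
  refine ⟨L, M2, 8 * (((2 * (2 * N + 1)) * (2 * (2 * N + 1)) : ℕ) : ℝ), 1 / (2 * X), hL, by omega,
    by positivity, by positivity, ?_, ?_⟩
  · rw [hX]
    exact sg0_num hL p'
  intro q n hW r hr hn
  have h0 : 0 ≤ q := by linarith [hW.lo]
  have h1 : q ≤ 1 := by linarith [hW.hi]
  have ha0 : ∀ j, 0 ≤ a4 q j := fun j => a4_nonneg h0 h1 _
  obtain ⟨m, hm⟩ : ∃ m : ℕ, m = M2 * r := ⟨_, rfl⟩
  rw [← hm] at hn ⊢
  have hmM : M2 ≤ m := by rw [hm]; exact Nat.le_mul_of_pos_right _ hr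
  have hm64 : 64 ≤ m := by omega
  set T : (Bool × ℤ) × (Bool × ℤ) → ℝ := fun p =>
    ∑ e ∈ boxE (m / 4), PQ q (SR L m) (fun F =>
      Sev L m (m / M2) (m / M1) p.1.1 (2 * (m / M2 : ℕ) * p.1.2) p.2.1
        (2 * (m / M2 : ℕ) * p.2.2) e ↑F) with hT
  have hs := a4_sum_ge h0 h1 hL hm64
  have hs2 : ∑ e ∈ boxE (m / 4), PQ q (SR L m)
        (fun F => A4 (-(2 * L * m : ℕ)) (2 * L * m : ℕ) (-m) m e ↑F) ≤
      ∑ p ∈ prs L m (m / M2) N, T p + (m:ℝ) ^ 2 * (1 / (16 * X)) * a4 q (m / 8) := by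
    refine (Finset.sum_le_sum fun e he => hex2 q n hW m hmM hn e he).trans ?_
    rw [Finset.sum_add_distrib, Finset.sum_comm, Finset.sum_const, nsmul_eq_mul]
    refine add_le_add le_rfl ?_
    calc ((boxE (m / 4)).card : ℝ) * ((1 / (32 * X) + C * Real.exp (-c * L)) * a4 q (m / 8))
        ≤ (m:ℝ) ^ 2 * ((1 / (16 * X)) * a4 q (m / 8)) := by
          apply mul_le_mul (KY_card hm64) _ (mul_nonneg (by positivity) (ha0 _)) (by positivity)
          exact mul_le_mul_of_nonneg_right hη (ha0 _)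
      _ = _ := by ring
  obtain ⟨p, hp, hmax⟩ := Finset.exists_max_image (prs L m (m / M2) N) T (sg0_ne _ _ _ _)
  have hs4 : ∑ p ∈ prs L m (m / M2) N, T p ≤ ((prs L m (m / M2) N).card : ℝ) * T p := by
    rw [← nsmul_eq_mul]
    exact Finset.sum_le_card_nsmul _ _ _ hmax
  have hTp : 0 ≤ T p := Finset.sum_nonneg fun e _ => Pr_nonneg (okq h0 h1) _ _
  have hcd : ((prs L m (m / M2) N).card : ℝ) ≤
      (((2 * (2 * N + 1)) * (2 * (2 * N + 1)) : ℕ) : ℝ) := by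
    exact_mod_cast sg0_card _ _ _ _
  have hs5 := mul_le_mul_of_nonneg_right hcd hTp
  refine ⟨cell p.1.1 m (2 * (m / M2 : ℕ) * p.1.2) (m / M2),
    cell p.2.1 m (2 * (m / M2 : ℕ) * p.2.2) (m / M2), ?_, ?_⟩
  · have hcell : ∀ (τ : Bool) (x : ℤ) (r : ℕ), ∀ v ∈ cell τ m x r, (m:ℤ) ≤ |v.2| := by
      intro τ x r v hv
      have hv2 : v.2 = sy τ m := (mem_cell.mp hv).1
      rw [hv2]
      cases τ
      · unfold sy; simp
      · unfold sy; simp
    rintro v (hv | hv)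
    · exact hcell _ _ _ v hv
    · exact hcell _ _ _ v hv
  · have h5 : T p ≤ ∑ e ∈ boxE (m / 4), PQ q (SR L m) (Pf (fun F : Finset Edg =>
            Cn (cell p.1.1 m (2 * (m / M2 : ℕ) * p.1.2) (m / M2))
              (cell p.2.1 m (2 * (m / M2 : ℕ) * p.2.2) (m / M2)) ↑F) e) := by
      rw [hT]
      apply Finset.sum_le_sum
      intro e _
      apply Pr_mono (okq h0 h1)
      intro F _ hF
      rw [← Pv_iff]
      refine Qev_Pv ?_ hF.1
      have : m / M2 ≤ m / M1 := Nat.div_le_div_left (by omega) (by omega)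
      omega
    have h6 : 8 * (((2 * (2 * N + 1)) * (2 * (2 * N + 1)) : ℕ) : ℝ) * T p ≤
        8 * (((2 * (2 * N + 1)) * (2 * (2 * N + 1)) : ℕ) : ℝ) *
          ∑ e ∈ boxE (m / 4), PQ q (SR L m) (Pf (fun F : Finset Edg =>
            Cn (cell p.1.1 m (2 * (m / M2 : ℕ) * p.1.2) (m / M2))
              (cell p.2.1 m (2 * (m / M2 : ℕ) * p.2.2) (m / M2)) ↑F) e) :=
      mul_le_mul_of_nonneg_left h5 (by positivity)
    have h7 : 8 * ((m:ℝ) ^ 2 * (1 / (16 * X)) * a4 q (m / 8)) =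
        (m:ℝ) ^ 2 * (1 / (2 * X) * a4 q (m / 8)) := by
      field_simp
      ring
    have h8 : (m:ℝ) ^ 2 * a4 q (4 * L * m) = 8 * ((m:ℝ) ^ 2 / 8 * a4 q (4 * L * m)) := by ring
    rw [h8]
    linarith

end H35A
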