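import Pool.Agent.H35R3.Al.StmtsG

/-!
Project BG-SHARP: two-sided bounds for the four-arm probabilities in the near-critical window.
-/

set_option maxHeartbeats 1000000

namespace H35A

open H974 H12S H973N Finset

/-- The choice of constants. -/
theorem sg1_const {c C η L : ℝ} {s : ℕ} (hc : 0 < c) (hC : 0 < C) (hη : 0 < η) (hL : 2 ≤ L)
    (hs : C / c < 192 ^ s) (h : η * (192 * L) ^ ((5/4 : ℝ) + s) ≤ 1/64) :
    η * (C * (16:ℝ) ^ (5/4 : ℝ)) * (4 * L) ^ (5/4 : ℝ) ≤ c / 2 := by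
  have hL0 : (0:ℝ) < 192 * L := by linarith
  rw [Real.rpow_add hL0, Real.rpow_natCast] at h
  have h1 : (192:ℝ) ^ s ≤ (192 * L) ^ s := pow_le_pow_left₀ (by norm_num) (by linarith) s
  have h2 : (16:ℝ) ^ (5/4 : ℝ) * (4 * L) ^ (5/4 : ℝ) ≤ (192 * L) ^ (5/4 : ℝ) := by
    rw [← Real.mul_rpow (by norm_num) (by linarith)]
    exact Real.rpow_le_rpow (by nlinarith) (by linarith) (by norm_num)
  have h3 : 0 < (192 * L) ^ (5/4 : ℝ) := Real.rpow_pos_of_pos hL0 _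
  have h4 : η * ((192 * L) ^ (5/4 : ℝ) * (C / c)) ≤ 1/64 := by
    refine le_trans (mul_le_mul_of_nonneg_left (mul_le_mul_of_nonneg_left ?_ h3.le) hη.le) h
    linarith
  have h5 : η * (192 * L) ^ (5/4 : ℝ) * C ≤ c / 64 := by
    have e : η * ((192 * L) ^ (5/4 : ℝ) * (C / c)) = (η * (192 * L) ^ (5/4 : ℝ) * C) / c := by
      field_simp
    rw [e, div_le_iff₀ hc] at h4
    linarith
  calc η * (C * (16:ℝ) ^ (5/4 : ℝ)) * (4 * L) ^ (5/4 : ℝ)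
      = η * C * ((16:ℝ) ^ (5/4 : ℝ) * (4 * L) ^ (5/4 : ℝ)) := by ring
    _ ≤ η * C * (192 * L) ^ (5/4 : ℝ) := mul_le_mul_of_nonneg_left h2 (by positivity)
    _ = η * (192 * L) ^ (5/4 : ℝ) * C := by ring
    _ ≤ c / 64 := h5
    _ ≤ c / 2 := by linarith

theorem sg1 : SG1 := by
  intro h0 h2 h5 hcr
  obtain ⟨κ, B, hκ, hB, hw⟩ := h5
  obtain ⟨c, C, hc, hC, hcrit⟩ := hcr
  obtain ⟨s, hs⟩ := pow_unbounded_of_one_lt (C / c) (by norm_num : (1:ℝ) < 192)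
  obtain ⟨L, M, K, η, hL, hM, hK, hη, hηL, hT⟩ := h0 κ (5/4 + s) hκ (by positivity)
  obtain ⟨C2, hC2, hD⟩ := h2 κ hκ L hL
  have hLr : (2:ℝ) ≤ L := by exact_mod_cast hL
  have hMr : (512:ℝ) ≤ M := by exact_mod_cast hM
  have hconst := sg1_const hc hC hη hLr hs hηL
  set P : ℝ := (4 * (L:ℝ)) ^ (5/4 : ℝ) with hP
  have hPpos : 0 < P := Real.rpow_pos_of_pos (by linarith) _
  set A : ℝ := 4 * B + 2 with hA
  have hA1 : 1 ≤ A := by linarith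
  set c1 : ℝ := c / (2 * P * K) with hc1
  have hc1pos : 0 < c1 := by positivity
  set M3 : ℝ := (M:ℝ) ^ (3/4 : ℝ) with hM3
  have hM3pos : 0 < M3 := Real.rpow_pos_of_pos (by linarith) _
  set Q : ℝ := (4 * (L:ℝ) * M) ^ (-(3/4) : ℝ) with hQ
  have hQpos : 0 < Q := Real.rpow_pos_of_pos (by positivity) _
  set κ0 : ℝ := min (κ * Q) (c1 / (2 * C2 * A^2 * M3)) with hκ0
  have hκ0pos : 0 < κ0 := lt_min (by positivity) (by positivity)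
  refine ⟨κ0, hκ0pos, c1 / 2 * (M:ℝ) ^ (-(5/4) : ℝ), B, by positivity, hB, ?_⟩
  intro n hn q hq k hk hkn
  have hnr : (1:ℝ) ≤ n := by exact_mod_cast hn
  have hkr : (1:ℝ) ≤ k := by exact_mod_cast hk
  have hknr : (k:ℝ) ≤ n := by exact_mod_cast hkn
  set n' : ℕ := 4 * L * (M * n) with hn'
  have hn'1 : 1 ≤ n' := by
    rw [hn']
    have : 0 < 4 * L * (M * n) := by positivity
    exact this
  have hn'r : (n':ℝ) = 4 * L * M * n := by rw [hn']; push_cast; ring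
  have hn0 : 0 < (n:ℝ) ^ (-(3/4) : ℝ) := Real.rpow_pos_of_pos (by linarith) _
  have hMn : M * n ≤ n' := by
    rw [hn']
    exact Nat.le_mul_of_pos_left _ (by positivity)
  have hnn' : n ≤ n' := le_trans (Nat.le_mul_of_pos_left _ (by positivity)) hMn
  -- the window at scale `n'`
  have hwin : ∀ t : ℝ, |t - 1/2| ≤ |q - 1/2| → Win t κ n' ∧
      ∀ m : ℕ, 1 ≤ m → m ≤ n' → a4 t m ≤ B * (m:ℝ)^(-(5/4) : ℝ) := by
    intro t ht
    apply hw n' hn'1 t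
    rw [hn'r, Real.mul_rpow (by positivity) (by positivity), ← mul_assoc]
    calc |t - 1/2| ≤ |q - 1/2| := ht
      _ ≤ κ0 * (n:ℝ) ^ (-(3/4) : ℝ) := hq
      _ ≤ κ * Q * (n:ℝ) ^ (-(3/4) : ℝ) := mul_le_mul_of_nonneg_right (min_le_left _ _) hn0.le
  have hq' := hwin q le_rfl
  have hh' := hwin (1/2) (by simp)
  have hq0 : 0 ≤ q := by linarith [hq'.1.lo]
  have hq1 : q ≤ 1 := by linarith [hq'.1.hi]
  refine ⟨?_, hq'.2 k hk (hkn.trans hnn')⟩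
  -- four-arm bound in the form of `SW2`
  have hA4 : ∀ t ∈ Set.uIcc (1/2) q, Win t κ n' ∧ A4s t A n' := by
    intro t ht
    have h1 := hwin t (Set.abs_sub_left_of_mem_uIcc ht)
    refine ⟨h1.1, ?_⟩
    have ht0 : 0 ≤ t := by linarith [h1.1.lo]
    have ht1 : t ≤ 1 := by linarith [h1.1.hi]
    intro j hj
    rcases Nat.eq_zero_or_pos j with h3 | h3
    · subst h3
      have := a4_le_two' ht0 ht1 0
      simp only [Nat.cast_zero, zero_add, Real.one_rpow, mul_one]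
      linarith
    · have h4 := h1.2 j h3 hj
      have hj1 : (1:ℝ) ≤ j := by exact_mod_cast h3
      have h6 : (j:ℝ) ^ (-(5/4) : ℝ) ≤ 4 * ((j:ℝ) + 1) ^ (-(5/4 : ℝ)) := by
        have e1 : (2 * (j:ℝ)) ^ (-(5/4) : ℝ) ≤ ((j:ℝ) + 1) ^ (-(5/4 : ℝ)) :=
          Real.rpow_le_rpow_of_nonpos (by linarith) (by linarith) (by norm_num)
        rw [Real.mul_rpow (by norm_num) (by linarith)] at e1
        have e2 : (1/4 : ℝ) ≤ (2:ℝ) ^ (-(5/4) : ℝ) := by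
          calc (1/4 : ℝ) = (2:ℝ) ^ (-(2:ℝ)) := by
                rw [Real.rpow_neg (by norm_num), Real.rpow_two]; norm_num
            _ ≤ _ := Real.rpow_le_rpow_of_exponent_le (by norm_num) (by norm_num)
        have e3 : 0 < (j:ℝ) ^ (-(5/4) : ℝ) := Real.rpow_pos_of_pos (by linarith) _
        nlinarith
      have h7 : 0 < ((j:ℝ) + 1) ^ (-(5/4 : ℝ)) := Real.rpow_pos_of_pos (by linarith) _
      calc a4 t j ≤ B * (j:ℝ) ^ (-(5/4) : ℝ) := h4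
        _ ≤ B * (4 * ((j:ℝ) + 1) ^ (-(5/4 : ℝ))) := mul_le_mul_of_nonneg_left h6 hB.le
        _ = (4 * B) * ((j:ℝ) + 1) ^ (-(5/4 : ℝ)) := by ring
        _ ≤ A * ((j:ℝ) + 1) ^ (-(5/4 : ℝ)) := mul_le_mul_of_nonneg_right (by linarith) h7.le
  -- the scale `m = M k`
  set m : ℕ := M * k with hm
  have hmr : (m:ℝ) = M * k := by rw [hm]; push_cast; ring
  have hm512 : 512 ≤ m := by
    rw [hm]
    calc 512 ≤ M := hM
      _ ≤ M * k := Nat.le_mul_of_pos_right _ hk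
  have hmpos : (0:ℝ) < m := by
    have : (512:ℝ) ≤ m := by exact_mod_cast hm512
    linarith
  have hmn : m ≤ n' := le_trans (Nat.mul_le_mul_left M hkn) hMn
  have hLmn : 4 * L * m ≤ n' := by
    rw [hn', hm]
    exact Nat.mul_le_mul_left _ (Nat.mul_le_mul_left M hkn)
  obtain ⟨I, J, hIJ, hbound⟩ := hT (1/2) n' hh'.1 k hk hLmn
  rw [← hm] at hIJ hbound
  set Tf : ℝ → ℝ := fun q => ∑ e ∈ boxE (m / 4), PQ q (SR L m)
    (Pf (fun F : Finset Edg => Cn I J ↑F) e) with hTf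
  have hlip := lip (f := Tf) (a := 1/2) (b := q) (B := C2 * A ^ 2 * (m:ℝ) ^ (3/2 : ℝ))
    (fun t ht => hD t n' (hA4 t ht).1 A hA1 (hA4 t ht).2 m (by omega) hmn I J hIJ)
  have hup : Tf q ≤ (m:ℝ)^2 * a4 q (m / 2) := T_upper hq0 hq1 (L := L) (m := m) (by omega) hL hIJ
  have hkm : k ≤ m / 2 := by
    have : 512 * k ≤ m := by rw [hm]; exact Nat.mul_le_mul_right k hM
    omega
  have ha : a4 q (m / 2) ≤ a4 q k := a4_anti hq0 hq1 hk hkm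
  -- lower bound for `T(1/2)`
  have hX : 0 < (m:ℝ) ^ (-(5/4) : ℝ) := Real.rpow_pos_of_pos hmpos _
  have hlow : c * ((m:ℝ) ^ (-(5/4) : ℝ) / P) ≤ a4 (1/2) (4 * L * m) := by
    have h1 := (hcrit (4 * L * m) (by
      have : 0 < 4 * L * m := by positivity
      exact this)).1
    have e : ((4 * L * m : ℕ) : ℝ) ^ (-(5/4) : ℝ) = (m:ℝ) ^ (-(5/4) : ℝ) / P := by
      push_cast
      rw [Real.mul_rpow (by positivity) hmpos.le, Real.rpow_neg (by positivity : (0:ℝ) ≤ 4 * L),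
        ← hP]
      field_simp
    rw [e] at h1
    exact h1
  have hhigh : a4 (1/2) (m / 8) ≤ C * ((16:ℝ) ^ (5/4 : ℝ) * (m:ℝ) ^ (-(5/4) : ℝ)) := by
    have h1 := (hcrit (m / 8) (by omega)).2
    have e : ((m / 8 : ℕ) : ℝ) ^ (-(5/4) : ℝ) ≤ (16:ℝ) ^ (5/4 : ℝ) * (m:ℝ) ^ (-(5/4) : ℝ) := by
      have e1 : (m:ℝ) / 16 ≤ ((m / 8 : ℕ) : ℝ) := by
        have e2 : m ≤ 16 * (m / 8) := by omega
        have e3 : (m:ℝ) ≤ 16 * ((m / 8 : ℕ) : ℝ) := by exact_mod_cast e2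
        linarith
      calc ((m / 8 : ℕ) : ℝ) ^ (-(5/4) : ℝ) ≤ ((m:ℝ) / 16) ^ (-(5/4) : ℝ) :=
            Real.rpow_le_rpow_of_nonpos (by positivity) e1 (by norm_num)
        _ = _ := by
            rw [Real.div_rpow hmpos.le (by norm_num), Real.rpow_neg (by norm_num : (0:ℝ) ≤ 16)]
            field_simp
    exact h1.trans (mul_le_mul_of_nonneg_left e hC.le)
  have hm2 : (m:ℝ)^2 * (m:ℝ) ^ (-(5/4) : ℝ) = (m:ℝ) ^ (3/4 : ℝ) := by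
    rw [← Real.rpow_natCast, ← Real.rpow_add hmpos]
    congr 1
    push_cast
    ring
  have hm34 : 0 < (m:ℝ) ^ (3/4 : ℝ) := Real.rpow_pos_of_pos hmpos _
  have hTl : c1 * (m:ℝ) ^ (3/4 : ℝ) ≤ Tf (1/2) := by
    have h1 : (m:ℝ)^2 * (c * ((m:ℝ) ^ (-(5/4) : ℝ) / P)) ≤
        K * Tf (1/2) + (m:ℝ)^2 * (η * (C * ((16:ℝ) ^ (5/4 : ℝ) * (m:ℝ) ^ (-(5/4) : ℝ)))) := by
      refine le_trans (mul_le_mul_of_nonneg_left hlow (by positivity)) (hbound.trans ?_)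
      have : (m:ℝ)^2 * (η * a4 (1/2) (m / 8)) ≤
          (m:ℝ)^2 * (η * (C * ((16:ℝ) ^ (5/4 : ℝ) * (m:ℝ) ^ (-(5/4) : ℝ)))) :=
        mul_le_mul_of_nonneg_left (mul_le_mul_of_nonneg_left hhigh hη.le) (by positivity)
      linarith
    have h3 : (m:ℝ)^2 * (c * ((m:ℝ) ^ (-(5/4) : ℝ) / P)) = c / P * (m:ℝ) ^ (3/4 : ℝ) := by
      rw [← hm2]; ring
    have h4 : (m:ℝ)^2 * (η * (C * ((16:ℝ) ^ (5/4 : ℝ) * (m:ℝ) ^ (-(5/4) : ℝ)))) =
        η * (C * (16:ℝ) ^ (5/4 : ℝ)) * (m:ℝ) ^ (3/4 : ℝ) := by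
      rw [← hm2]; ring
    rw [h3, h4] at h1
    have h6 : η * (C * (16:ℝ) ^ (5/4 : ℝ)) ≤ c / P / 2 := by
      rw [div_div, mul_comm P 2, ← div_div, le_div_iff₀ hPpos]
      exact hconst
    have h7 := mul_le_mul_of_nonneg_right h6 hm34.le
    have h8 : c / P / 2 * (m:ℝ) ^ (3/4 : ℝ) ≤ K * Tf (1/2) := by linarith
    have h9 : c1 * (m:ℝ) ^ (3/4 : ℝ) = (c / P / 2 * (m:ℝ) ^ (3/4 : ℝ)) / K := by
      rw [hc1]; field_simp
    rw [h9, div_le_iff₀ hK]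
    linarith
  -- the error
  have herr : C2 * A ^ 2 * (m:ℝ) ^ (3/2 : ℝ) * |q - 1/2| ≤ c1 / 2 * (m:ℝ) ^ (3/4 : ℝ) := by
    have e1 : (n:ℝ) ^ (-(3/4) : ℝ) ≤ M3 * (m:ℝ) ^ (-(3/4) : ℝ) := by
      have e2 : (m:ℝ) / M ≤ n := by
        rw [div_le_iff₀ (by linarith), hmr]
        nlinarith
      calc (n:ℝ) ^ (-(3/4) : ℝ) ≤ ((m:ℝ) / M) ^ (-(3/4) : ℝ) :=
            Real.rpow_le_rpow_of_nonpos (by positivity) e2 (by norm_num)
        _ = _ := by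
            rw [Real.div_rpow hmpos.le (by linarith), Real.rpow_neg (by linarith : (0:ℝ) ≤ M), hM3]
            field_simp
    have e3 : |q - 1/2| ≤ c1 / (2 * C2 * A^2 * M3) * (M3 * (m:ℝ) ^ (-(3/4) : ℝ)) := by
      calc |q - 1/2| ≤ κ0 * (n:ℝ) ^ (-(3/4) : ℝ) := hq
        _ ≤ c1 / (2 * C2 * A^2 * M3) * (n:ℝ) ^ (-(3/4) : ℝ) :=
          mul_le_mul_of_nonneg_right (min_le_right _ _) hn0.le
        _ ≤ _ := mul_le_mul_of_nonneg_left e1 (by positivity)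
    have e4 : (m:ℝ) ^ (3/2 : ℝ) * (m:ℝ) ^ (-(3/4) : ℝ) = (m:ℝ) ^ (3/4 : ℝ) := by
      rw [← Real.rpow_add hmpos]; congr 1; norm_num
    calc C2 * A ^ 2 * (m:ℝ) ^ (3/2 : ℝ) * |q - 1/2|
        ≤ C2 * A ^ 2 * (m:ℝ) ^ (3/2 : ℝ) *
          (c1 / (2 * C2 * A^2 * M3) * (M3 * (m:ℝ) ^ (-(3/4) : ℝ))) :=
          mul_le_mul_of_nonneg_left e3 (by positivity)
      _ = c1 / 2 * ((m:ℝ) ^ (3/2 : ℝ) * (m:ℝ) ^ (-(3/4) : ℝ)) := by field_simp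
      _ = _ := by rw [e4]
  -- conclusion
  have hfin : c1 / 2 * (m:ℝ) ^ (3/4 : ℝ) ≤ (m:ℝ)^2 * a4 q k := by
    have j1 := (abs_le.mp (hlip.trans herr)).1
    have j2 : Tf q ≤ (m:ℝ)^2 * a4 q k := hup.trans (mul_le_mul_of_nonneg_left ha (by positivity))
    linarith
  have hfin2 : c1 / 2 * (m:ℝ) ^ (-(5/4) : ℝ) ≤ a4 q k := by
    have hm2pos : 0 < (m:ℝ)^2 := by positivity
    have : (m:ℝ)^2 * (c1 / 2 * (m:ℝ) ^ (-(5/4) : ℝ)) ≤ (m:ℝ)^2 * a4 q k := by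
      have e : (m:ℝ)^2 * (c1 / 2 * (m:ℝ) ^ (-(5/4) : ℝ)) = c1 / 2 * (m:ℝ) ^ (3/4 : ℝ) := by
        rw [← hm2]; ring
      rw [e]
      exact hfin
    exact le_of_mul_le_mul_left this hm2pos
  have hlast : (m:ℝ) ^ (-(5/4) : ℝ) = (M:ℝ) ^ (-(5/4) : ℝ) * (k:ℝ) ^ (-(5/4) : ℝ) := by
    rw [hmr, Real.mul_rpow (by linarith) (by linarith)]
  rw [hlast, ← mul_assoc] at hfin2
  exact hfin2

end H35A
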