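import Pool.Agent.H35R3.Al.StmtsG2
import Pool.Agent.H974R4.W2.Close
import Pool.Agent.H343R3.BG.Low

/-!
Project BG-SHARP, task SG2.
-/

set_option autoImplicit false

namespace H35A

theorem sg2 : SG2 := fun κ0 _ hG => H343BG.gwd H974.exit3 H974.stIn κ0 hG

end H35A
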