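import Pool.Agent.H35R3.Al.StmtsG2
import Pool.Agent.H974R4.W2.FinA
import Pool.Agent.H974R4.Far
import Pool.Agent.H12R2.Sep.WinHalf
import Pool.Agent.H31R3.Kes.Inputs

/-!
SG3 (helper853): beyond the window the crossing probabilities are close to one.
-/

set_option autoImplicit false

namespace H35A

open H974 H12S Finset

theorem sg3 : SG3 := by
  intro κ0 hκ0 hG
  obtain ⟨κs, hκs, hκs2, hsup⟩ := super_scale
  obtain ⟨κh, hκh, hhalf⟩ := win_half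
  set κ' : ℝ := min κs κh with hκ'
  have hκ'0 : 0 < κ' := lt_min hκs hκh
  obtain ⟨Λ, n0, hΛ, hmain⟩ := hG κ' (2 / κ0) hκ'0
  have htend : Filter.Tendsto (fun n : ℕ => κ0 * (n:ℝ) ^ (-(3/4) : ℝ)) Filter.atTop (nhds 0) := by
    have := ((tendsto_rpow_neg_atTop (y := 3/4) (by norm_num)).comp
      (tendsto_natCast_atTop_atTop (R := ℝ))).const_mul κ0
    rw [mul_zero] at this
    exact this
  obtain ⟨M, hM⟩ := Filter.eventually_atTop.mp
    (htend.eventually (ge_mem_nhds (show (0:ℝ) < 1/4 by norm_num)))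
  have hΛr : (1:ℝ) ≤ Λ := by exact_mod_cast hΛ
  have hΛp : (0:ℝ) < Λ := by linarith
  refine ⟨κ0 * (24 * Λ : ℝ) ^ (3/4 : ℝ), by positivity, 12 * Λ * (max n0 (max M 1)), ?_⟩
  intro N hN p hp hp1
  set n1 : ℕ := N / (12 * Λ) with hn1
  have h12 : 0 < 12 * Λ := by omega
  have hn1b : max n0 (max M 1) ≤ n1 := by
    rw [hn1, Nat.le_div_iff_mul_le h12, mul_comm]
    exact hN
  have h1 : n0 ≤ n1 := (le_max_left _ _).trans hn1b
  have h2 : M ≤ n1 := ((le_max_left _ _).trans (le_max_right _ _)).trans hn1b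
  have h3 : 1 ≤ n1 := ((le_max_right _ _).trans (le_max_right _ _)).trans hn1b
  have hn1r : (1:ℝ) ≤ n1 := by exact_mod_cast h3
  have hn1p : (0:ℝ) < n1 := by linarith
  set δ : ℝ := κ0 * (n1:ℝ) ^ (-(3/4) : ℝ) with hδ
  have hδ0 : 0 < δ := by positivity
  have hδ4 : δ ≤ 1/4 := hM n1 h2
  set q : ℝ := 1/2 + δ with hq
  have hnot : ¬ Win q κs (Λ * n1) := by
    intro hW
    have hWs : ∀ t ∈ Set.Icc (1/2) q, Win t κ' (Λ * n1) := by
      intro t ht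
      have hwh := hhalf (Λ * n1)
      refine ⟨hκ'0, (min_le_left _ _).trans hκs2, by linarith [ht.1], by linarith [ht.2, hW.hi],
        ?_, ?_⟩
      · intro k k1 k2
        calc κ' ≤ κh := min_le_right _ _
          _ ≤ hh (1/2) (16 * k) k := hwh.pri k k1 k2
          _ ≤ _ := hh_mono_param (by norm_num) ht.1 (by linarith [ht.2]) _ _
      · intro k k1 k2
        calc κ' ≤ κs := min_le_left _ _
          _ ≤ hh (1 - q) (16 * k) k := hW.dua k k1 k2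
          _ ≤ _ := hh_mono_param (by linarith) (by linarith [ht.2]) (by linarith [ht.1]) _ _
    have hlb : ∀ t ∈ Set.Icc (1/2) q,
        2 / κ0 * (n1:ℝ) ^ (3/4 : ℝ) * (((Λ * n1 : ℕ) : ℝ) + 1) ^ 2 ≤ WD t (Λ * n1) := by
      intro t ht
      refine hmain n1 h1 t ?_ (hWs t ht)
      rw [abs_of_nonneg (by linarith [ht.1])]
      linarith [ht.2]
    have hint := WD_int (by norm_num) (by linarith) (by linarith) (Λ * n1) hlb
    have hnn : 0 < (((Λ * n1 : ℕ) : ℝ) + 1) ^ 2 := by positivity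
    have e1 : q - 1/2 = δ := by rw [hq]; ring
    have e2 : (n1:ℝ) ^ (3/4 : ℝ) * (n1:ℝ) ^ (-(3/4) : ℝ) = 1 := by
      rw [← Real.rpow_add hn1p]; norm_num
    have e3 : 2 / κ0 * (n1:ℝ) ^ (3/4 : ℝ) * (((Λ * n1 : ℕ) : ℝ) + 1) ^ 2 * (q - 1/2) =
        2 * (((Λ * n1 : ℕ) : ℝ) + 1) ^ 2 := by
      rw [e1, hδ]
      calc _ = (2 / κ0 * κ0) * ((n1:ℝ) ^ (3/4 : ℝ) * (n1:ℝ) ^ (-(3/4) : ℝ)) *
            (((Λ * n1 : ℕ) : ℝ) + 1) ^ 2 := by ring
        _ = _ := by rw [e2, div_mul_cancel₀ _ hκ0.ne', mul_one]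
    rw [e3] at hint
    linarith
  obtain ⟨N', hN'2, hN'n, hN'e⟩ := hsup q (by linarith) (by linarith) (Λ * n1) hnot
  have hdiv : 12 * Λ * n1 ≤ N := Nat.mul_div_le N (12 * Λ)
  have h4 : 4 * N' ≤ N := by
    have e1 : 12 * Λ * n1 = 12 * (Λ * n1) := by ring
    have e2 : 1 ≤ Λ * n1 := Nat.mul_pos hΛ h3
    omega
  have h5 := H31K.eps_all (p := q) (by linarith) (by linarith) hN'2 hN'e h4
  have hqp : q ≤ p := by
    refine le_trans ?_ hp
    have e1 : (N:ℝ) ≤ 24 * Λ * n1 := by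
      have i1 : N < 12 * Λ * (n1 + 1) := Nat.lt_mul_div_succ N h12
      have i2 : 12 * Λ * (n1 + 1) ≤ 24 * Λ * n1 := by
        have : 12 * Λ * (n1 + 1) ≤ 12 * Λ * (2 * n1) := Nat.mul_le_mul_left _ (by omega)
        linarith
      exact_mod_cast i1.le.trans i2
    have hNp : (0:ℝ) < N := by
      have i1 : 0 < 12 * Λ * n1 := Nat.mul_pos h12 h3
      exact_mod_cast i1.trans_le hdiv
    have hL : (0:ℝ) < 24 * Λ := by linarith
    have e2 : (N:ℝ) / (24 * Λ) ≤ n1 := by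
      rw [div_le_iff₀ hL]
      linarith
    have e3 : (n1:ℝ) ^ (-(3/4) : ℝ) ≤ ((N:ℝ) / (24 * Λ)) ^ (-(3/4) : ℝ) :=
      Real.rpow_le_rpow_of_nonpos (by positivity) e2 (by norm_num)
    have e4 : ((N:ℝ) / (24 * Λ)) ^ (-(3/4) : ℝ) = (24 * Λ : ℝ) ^ (3/4 : ℝ) * (N:ℝ) ^ (-(3/4) : ℝ) := by
      rw [Real.div_rpow hNp.le hL.le, Real.rpow_neg hL.le, div_inv_eq_mul, mul_comm]
    rw [e4] at e3
    have e5 : δ ≤ κ0 * ((24 * Λ : ℝ) ^ (3/4 : ℝ) * (N:ℝ) ^ (-(3/4) : ℝ)) :=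
      mul_le_mul_of_nonneg_left e3 hκ0.le
    rw [hq]
    linarith
  have h6 : hh q (2 * N) (N - 1) ≤ hh p (2 * N) (N - 1) :=
    hh_mono_param (by linarith) hqp hp1 _ _
  have h7 : eps p N = 1 - hh p (2 * N) (N - 1) := rfl
  have h8 : eps q N = 1 - hh q (2 * N) (N - 1) := rfl
  linarith

end H35A

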