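import Pool.Agent.H35R3.Al.StmtsG
import Pool.Agent.H31R3.Kes.Beta0

/-! SG5 of project BG-SHARP (helper30): sharp `β = 5/36` from the sharp inputs. -/

set_option autoImplicit false
set_option maxHeartbeats 400000

namespace H35A

open H974 H12S H973N Finset

theorem sg5u : SG5u := by
  rintro ⟨c, C, hc, hC, harm⟩ ⟨κ, hκ, hst⟩
  obtain ⟨a, ha⟩ : ∃ a : ℝ, a = 3/4 := ⟨_, rfl⟩
  obtain ⟨b, hb⟩ : ∃ b : ℝ, b = 5/48 := ⟨_, rfl⟩
  have ha0 : 0 < a := by rw [ha]; norm_num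
  have hb0 : 0 < b := by rw [hb]; norm_num
  obtain ⟨e, he'⟩ : ∃ e : ℝ, e = 5/36 := ⟨_, rfl⟩
  have he0 : 0 < e := by rw [he']; norm_num
  have hba : e = b / a := by
    rw [he', hb, ha]; norm_num
  refine ⟨3 * C * (2:ℝ)^b * κ^(-(b/a)) + κ^(-e), by positivity, ?_⟩
  intro p hp
  rw [← he']
  obtain ⟨s, hs⟩ : ∃ s : ℝ, s = (p:ℝ) - 1/2 := ⟨_, rfl⟩
  rw [← hs]
  have hs0 : 0 < s := by rw [hs]; linarith
  have hs1 : s ≤ 1/2 := by have := p.2.2; rw [hs]; linarith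
  have hse : 0 < s^e := Real.rpow_pos_of_pos hs0 _
  rcases lt_or_ge κ s with hks | hks
  · -- far from the critical point
    have h2 : κ^e ≤ s^e := Real.rpow_le_rpow hκ.le hks.le he0.le
    have h3 : 1 ≤ κ^(-e) * s^e := by
      rw [Real.rpow_neg hκ.le, ← div_eq_inv_mul, le_div_iff₀ (Real.rpow_pos_of_pos hκ _), one_mul]
      exact h2
    calc theta p ≤ 1 := H31K.theta_le_one p
      _ ≤ κ^(-e) * s^e := h3
      _ ≤ (3 * C * (2:ℝ)^b * κ^(-(b/a)) + κ^(-e)) * s^e := by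
          apply mul_le_mul_of_nonneg_right _ hse.le
          have : 0 < 3 * C * (2:ℝ)^b * κ^(-(b/a)) := by positivity
          linarith
  · obtain ⟨x, hx⟩ : ∃ x : ℝ, x = (κ/s)^(1/a) := ⟨_, rfl⟩
    have hks1 : 1 ≤ κ/s := by rw [le_div_iff₀ hs0, one_mul]; exact hks
    have hx1 : 1 ≤ x := by rw [hx]; exact Real.one_le_rpow hks1 (by positivity)
    have hxa : x^a = κ/s := by
      rw [hx, ← Real.rpow_mul (by positivity), one_div, inv_mul_cancel₀ ha0.ne', Real.rpow_one]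
    obtain ⟨n, hn⟩ : ∃ n : ℕ, n = ⌊x⌋₊ := ⟨_, rfl⟩
    have hn1 : 1 ≤ n := by rw [hn]; exact Nat.le_floor (by exact_mod_cast hx1)
    have hn1' : (1:ℝ) ≤ n := by exact_mod_cast hn1
    have hnx : (n:ℝ) ≤ x := by rw [hn]; exact Nat.floor_le (by linarith)
    have hxn : x ≤ 2 * n := by
      have h3 : x < n + 1 := by rw [hn]; exact Nat.lt_floor_add_one x
      linarith
    have hwin : |(p:ℝ) - 1/2| ≤ κ * (n:ℝ)^(-(3/4) : ℝ) := by
      rw [← hs, abs_of_pos hs0]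
      have h3 : (n:ℝ)^a ≤ κ/s := by
        rw [← hxa]; exact Real.rpow_le_rpow (by positivity) hnx ha0.le
      have h4 : (n:ℝ)^(-(3/4) : ℝ) = ((n:ℝ)^a)⁻¹ := by
        rw [← Real.rpow_neg (by positivity), ha]
      rw [h4, ← div_eq_mul_inv, le_div_iff₀ (by positivity)]
      rw [le_div_iff₀ hs0] at h3
      linarith
    obtain ⟨_, h5, _⟩ := hst n hn1 p hwin
    have h6 := (harm n hn1).2
    have h7 : (n:ℝ)^(-(5/48) : ℝ) ≤ (2:ℝ)^b * κ^(-(b/a)) * s^e := by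
      have h8 : (n:ℝ)^(-(5/48) : ℝ) = (n:ℝ)^(-b) := by rw [hb]
      rw [h8]
      calc (n:ℝ)^(-b) ≤ (x/2)^(-b) :=
            Real.rpow_le_rpow_of_nonpos (by positivity) (by linarith) (by linarith)
        _ = (2:ℝ)^b * (κ/s)^(-(b/a)) := by
            rw [Real.div_rpow (by linarith) (by norm_num), hx, ← Real.rpow_mul (by positivity),
              Real.rpow_neg (by norm_num : (0:ℝ) ≤ 2), div_inv_eq_mul, mul_comm]
            congr 2
            field_simp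
        _ = (2:ℝ)^b * κ^(-(b/a)) * s^(b/a) := by
            rw [Real.div_rpow hκ.le hs0.le, Real.rpow_neg hs0.le, div_inv_eq_mul, mul_assoc]
        _ = (2:ℝ)^b * κ^(-(b/a)) * s^e := by rw [hba]
    calc theta p ≤ arm p n := theta_le_arm p n
      _ ≤ 3 * arm (1/2) n := h5
      _ ≤ 3 * (C * (n:ℝ)^(-(5/48) : ℝ)) := by linarith
      _ ≤ 3 * (C * ((2:ℝ)^b * κ^(-(b/a)) * s^e)) := by
          have := mul_le_mul_of_nonneg_left h7 hC.le
          linarith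
      _ = (3 * C * (2:ℝ)^b * κ^(-(b/a))) * s^e := by ring
      _ ≤ (3 * C * (2:ℝ)^b * κ^(-(b/a)) + κ^(-e)) * s^e := by
          apply mul_le_mul_of_nonneg_right _ hse.le
          have : 0 < κ^(-e) := by positivity
          linarith

theorem sg5l : SG5l := by
  rintro ⟨c, C, hc, hC, harm⟩ ⟨C0, hC0, N0, hN0⟩
  obtain ⟨a, ha⟩ : ∃ a : ℝ, a = 3/4 := ⟨_, rfl⟩
  obtain ⟨b, hb⟩ : ∃ b : ℝ, b = 5/48 := ⟨_, rfl⟩
  have ha0 : 0 < a := by rw [ha]; norm_num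
  have hb0 : 0 < b := by rw [hb]; norm_num
  obtain ⟨e, he'⟩ : ∃ e : ℝ, e = 5/36 := ⟨_, rfl⟩
  have he0 : 0 < e := by rw [he']; norm_num
  have hba : b / a = e := by
    rw [he', hb, ha]; norm_num
  obtain ⟨C1, hC1⟩ : ∃ C1 : ℝ, C1 = max C0 1 := ⟨_, rfl⟩
  have hC1a : C0 ≤ C1 := by rw [hC1]; exact le_max_left _ _
  have hC1b : 1 ≤ C1 := by rw [hC1]; exact le_max_right _ _
  have hC1p : 0 < C1 := by linarith
  refine ⟨1/2 * (c * ((2 * ((N0:ℝ) + 4))^(-b) * C1^(-e))), by positivity, ?_⟩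
  intro p hp
  rw [← he']
  obtain ⟨s, hs⟩ : ∃ s : ℝ, s = (p:ℝ) - 1/2 := ⟨_, rfl⟩
  rw [← hs]
  have hs0 : 0 < s := by rw [hs]; linarith
  have hs1 : s ≤ 1/2 := by have := p.2.2; rw [hs]; linarith
  obtain ⟨x, hx⟩ : ∃ x : ℝ, x = (C1/s)^(1/a) := ⟨_, rfl⟩
  have hks1 : 1 ≤ C1/s := by rw [le_div_iff₀ hs0, one_mul]; linarith
  have hx1 : 1 ≤ x := by rw [hx]; exact Real.one_le_rpow hks1 (by positivity)
  have hx0 : 0 < x := by linarith
  obtain ⟨N, hN⟩ : ∃ N : ℕ, N = ⌈x⌉₊ + N0 + 2 := ⟨_, rfl⟩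
  have hNx : x ≤ N := by
    have := Nat.le_ceil x
    rw [hN]; push_cast
    have h2 : (0:ℝ) ≤ N0 := by positivity
    linarith
  have hNle : (N:ℝ) ≤ (N0 + 4) * x := by
    have := Nat.ceil_lt_add_one (a := x) (by linarith)
    rw [hN]; push_cast
    have h2 : (0:ℝ) ≤ N0 := by positivity
    nlinarith
  have hN1 : (1:ℝ) ≤ N := hx1.trans hNx
  have hfar : eps p N ≤ 1/100 := by
    apply hN0 N (by omega) p _ p.2.2
    have h3 : C1 * (N:ℝ)^(-(3/4) : ℝ) ≤ s := by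
      have h4 : (N:ℝ)^(-(3/4) : ℝ) = (N:ℝ)^(-a) := by rw [ha]
      rw [h4]
      calc C1 * (N:ℝ)^(-a) ≤ C1 * x^(-a) :=
            mul_le_mul_of_nonneg_left
              (Real.rpow_le_rpow_of_nonpos (by linarith) hNx (by linarith)) hC1p.le
        _ = s := by
            rw [hx, ← Real.rpow_mul (by positivity)]
            have : (1/a) * -a = -1 := by field_simp
            rw [this, Real.rpow_neg_one, inv_div]
            field_simp
    have h5 : C0 * (N:ℝ)^(-(3/4) : ℝ) ≤ C1 * (N:ℝ)^(-(3/4) : ℝ) :=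
      mul_le_mul_of_nonneg_right hC1a (by positivity)
    rw [hs] at h3
    linarith
  have h5 : 1/2 * arm p (2 * N) ≤ theta p :=
    le_theta p (fun m => arm_chain p.2.1 p.2.2 (by omega) hfar m)
  have h6 : arm (1/2) (2 * N) ≤ arm p (2 * N) :=
    arm_mono_param (by norm_num) hp.le p.2.2 _
  have h8 : c * ((2 * N : ℕ) : ℝ)^(-(5/48) : ℝ) ≤ arm (1/2) (2 * N) := (harm (2 * N) (by omega)).1
  have h9 : (2 * ((N0:ℝ) + 4))^(-b) * C1^(-e) * s^e ≤ ((2 * N : ℕ) : ℝ)^(-(5/48) : ℝ) := by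
    have h10 : ((2 * N : ℕ) : ℝ)^(-(5/48) : ℝ) = ((2 * N : ℕ) : ℝ)^(-b) := by rw [hb]
    rw [h10]
    have h11 : ((2 * N : ℕ) : ℝ) ≤ (2 * ((N0:ℝ) + 4)) * x := by push_cast; linarith
    have h12 : x^(-b) = C1^(-e) * s^e := by
      rw [hx, ← Real.rpow_mul (by positivity), show 1 / a * -b = -(b/a) by ring, hba,
        Real.div_rpow hC1p.le hs0.le, Real.rpow_neg hs0.le, div_inv_eq_mul]
    calc (2 * ((N0:ℝ) + 4))^(-b) * C1^(-e) * s^e = (2 * ((N0:ℝ) + 4))^(-b) * x^(-b) := by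
          rw [h12]; ring
      _ = ((2 * ((N0:ℝ) + 4)) * x)^(-b) :=
          (Real.mul_rpow (x := 2 * ((N0:ℝ) + 4)) (y := x) (by positivity) (by linarith)).symm
      _ ≤ ((2 * N : ℕ) : ℝ)^(-b) :=
          Real.rpow_le_rpow_of_nonpos (by push_cast; linarith) h11 (by linarith)
  calc 1/2 * (c * ((2 * ((N0:ℝ) + 4))^(-b) * C1^(-e))) * s^e
      = 1/2 * (c * ((2 * ((N0:ℝ) + 4))^(-b) * C1^(-e) * s^e)) := by ring
    _ ≤ 1/2 * (c * ((2 * N : ℕ) : ℝ)^(-(5/48) : ℝ)) := by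
        have := mul_le_mul_of_nonneg_left h9 hc.le
        linarith
    _ ≤ 1/2 * arm p (2 * N) := by linarith
    _ ≤ theta p := h5

end H35A
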