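import Pool.Agent.H35R3.Al.StmtsG
import Pool.Agent.H31R3.Kes.Decay
import Pool.Agent.H974R2.Glue

/-!
Project BG-SHARP (MP_5f99b0_pr), task SG6a: the product form of `H31K.arm_le_eps`.
-/

set_option autoImplicit false

namespace H35A

open H974 H31K Finset

/-- the part of the annulus between radius `n - 1` and `2 n - 1` -/
noncomputable def sg6aE (n : ℤ) : Finset Edg :=
  (RE (n - 1) (2 * n - 1) (-(2 * n - 1)) (2 * n - 1) ∪
    RE (-(2 * n - 1)) (-(n - 1)) (-(2 * n - 1)) (2 * n - 1)) ∪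
  (RE (-(2 * n - 1)) (2 * n - 1) (n - 1) (2 * n - 1) ∪
    RE (-(2 * n - 1)) (2 * n - 1) (-(2 * n - 1)) (-(n - 1)))

theorem sg6a : SG6a := by
  intro p N M h0 h1 hM hNM
  have hM' : (2:ℤ) ≤ M := by exact_mod_cast hM
  have hNM' : (N:ℤ) + 2 ≤ M := by exact_mod_cast hNM
  have ok := okq h0 h1
  set n : ℤ := (M:ℤ) with hn
  set S := boxE (2 * M) with hS
  have sub : ∀ a b c d : ℤ, -(2 * n) ≤ a → b ≤ 2 * n → -(2 * n) ≤ c → d ≤ 2 * n →
      RE a b c d ⊆ S := by
    intro a b c d ha hb hc hd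
    rw [hS]
    unfold boxE
    exact RE_subset (by push_cast; omega) (by push_cast; omega) (by push_cast; omega)
      (by push_cast; omega)
  have e1 : Pr (fun _ => p) S (LRc (n - 1) (2 * n - 1) (-(2 * n - 1)) (2 * n - 1)) =
      hh p n (4 * n - 2) := by
    rw [pr_LRc p (LRE_subset_RE.trans (sub _ _ _ _ (by omega) (by omega) (by omega) (by omega)))]
    congr 1 <;> ring
  have e2 : Pr (fun _ => p) S (LRc (-(2 * n - 1)) (-(n - 1)) (-(2 * n - 1)) (2 * n - 1)) =
      hh p n (4 * n - 2) := by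
    rw [pr_LRc p (LRE_subset_RE.trans (sub _ _ _ _ (by omega) (by omega) (by omega) (by omega)))]
    congr 1 <;> ring
  have e3 : Pr (fun _ => p) S (TBc (-(2 * n - 1)) (2 * n - 1) (n - 1) (2 * n - 1)) =
      hh p n (4 * n - 2) := by
    rw [pr_TBc p (TBE_subset_RE.trans (sub _ _ _ _ (by omega) (by omega) (by omega) (by omega)))]
    congr 1 <;> ring
  have e4 : Pr (fun _ => p) S (TBc (-(2 * n - 1)) (2 * n - 1) (-(2 * n - 1)) (-(n - 1))) =
      hh p n (4 * n - 2) := by
    rw [pr_TBc p (TBE_subset_RE.trans (sub _ _ _ _ (by omega) (by omega) (by omega) (by omega)))]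
    congr 1 <;> ring
  -- the crossing event
  let D : Finset Edg → Prop := fun F =>
      ((LRc (n - 1) (2 * n - 1) (-(2 * n - 1)) (2 * n - 1) F ∨
        LRc (-(2 * n - 1)) (-(n - 1)) (-(2 * n - 1)) (2 * n - 1) F)) ∨
      (TBc (-(2 * n - 1)) (2 * n - 1) (n - 1) (2 * n - 1) F ∨
        TBc (-(2 * n - 1)) (2 * n - 1) (-(2 * n - 1)) (-(n - 1)) F)
  have i1 : arm p (2 * M) ≤ Pr (fun _ => p) S (fun F => Arm N F ∧ D F) := by
    unfold arm
    apply Pr_mono ok
    intro F hF hA
    refine ⟨Arm_anti (by omega) hA, ?_⟩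
    obtain ⟨v, hv, hr⟩ := hA
    have hnb := not_blk_of_arm (F := F) (R1 := n - 1) (R2 := 2 * n - 1) (by omega) (by omega)
      (v := v) (hr.mono Set.inter_subset_left) (by
        rcases hv.2 with hv | hv | hv | hv <;> push_cast at hv <;> omega)
    unfold Blk at hnb
    simp only [D]
    tauto
  have hT : sg6aE n ⊆ S := by
    unfold sg6aE
    refine Finset.union_subset (Finset.union_subset ?_ ?_) (Finset.union_subset ?_ ?_) <;>
      exact sub _ _ _ _ (by omega) (by omega) (by omega) (by omega)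
  have hA : boxE N ⊆ S := boxE_mono (by omega)
  have hd : Disjoint (boxE N) (sg6aE n) := by
    rw [Finset.disjoint_left]
    unfold boxE sg6aE
    rintro ⟨u, v, _ | _⟩ he1 he2
    · simp only [Finset.mem_union, mem_RE_false] at he1 he2; omega
    · simp only [Finset.mem_union, mem_RE_true] at he1 he2; omega
  have hDloc : ∀ F : Finset Edg, F ⊆ S → (D F ↔ D (F ∩ sg6aE n)) := by
    intro F _
    have k1 := LRc_local (F := F) (S := sg6aE n) (a := n - 1) (b := 2 * n - 1)
      (c := -(2 * n - 1)) (d := 2 * n - 1) (LRE_subset_RE.trans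
        (Finset.subset_union_left.trans Finset.subset_union_left))
    have k2 := LRc_local (F := F) (S := sg6aE n) (a := -(2 * n - 1)) (b := -(n - 1))
      (c := -(2 * n - 1)) (d := 2 * n - 1) (LRE_subset_RE.trans
        (Finset.subset_union_right.trans Finset.subset_union_left))
    have k3 := TBc_local (F := F) (S := sg6aE n) (a := -(2 * n - 1)) (b := 2 * n - 1)
      (c := n - 1) (d := 2 * n - 1) (TBE_subset_RE.trans
        (Finset.subset_union_left.trans Finset.subset_union_right))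
    have k4 := TBc_local (F := F) (S := sg6aE n) (a := -(2 * n - 1)) (b := 2 * n - 1)
      (c := -(2 * n - 1)) (d := -(n - 1)) (TBE_subset_RE.trans
        (Finset.subset_union_right.trans Finset.subset_union_right))
    simp only [D]
    rw [k1, k2, k3, k4]
  have i5 := Pr_indep (p := fun _ => p) hA hT hd (A := Arm N) (B := D)
    (fun F _ => Arm_local (Finset.Subset.refl _)) hDloc
  rw [pr_Arm p hA] at i5
  have i2 := Pr_or_le ok S (fun F => LRc (n - 1) (2 * n - 1) (-(2 * n - 1)) (2 * n - 1) F ∨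
        LRc (-(2 * n - 1)) (-(n - 1)) (-(2 * n - 1)) (2 * n - 1) F)
      (fun F => TBc (-(2 * n - 1)) (2 * n - 1) (n - 1) (2 * n - 1) F ∨
        TBc (-(2 * n - 1)) (2 * n - 1) (-(2 * n - 1)) (-(n - 1)) F)
  have i3 := Pr_or_le ok S (LRc (n - 1) (2 * n - 1) (-(2 * n - 1)) (2 * n - 1))
    (LRc (-(2 * n - 1)) (-(n - 1)) (-(2 * n - 1)) (2 * n - 1))
  have i4 := Pr_or_le ok S (TBc (-(2 * n - 1)) (2 * n - 1) (n - 1) (2 * n - 1))
    (TBc (-(2 * n - 1)) (2 * n - 1) (-(2 * n - 1)) (-(n - 1)))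
  rw [e1, e2] at i3
  rw [e3, e4] at i4
  have d1 := hh_dual (q := p) (w := n) (h := 4 * n - 2) (by omega) (by omega)
  have d2 : hh (1 - p) (4 * n) (n - 1) ≤ hh (1 - p) (4 * n - 2 + 1) (n - 1) :=
    hh_mono (by linarith) (by linarith) (by omega) (by omega) le_rfl
  have d3 := long_cross (p := 1 - p) (by linarith) (by linarith) hM
  rw [← hn] at d3
  have i6 : Pr (fun _ => p) S D ≤ 20 * eps (1 - p) M := by
    have i7 : Pr (fun _ => p) S D ≤ _ := i2
    linarith
  calc arm p (2 * M) ≤ _ := i1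
    _ = arm p N * Pr (fun _ => p) S D := i5
    _ ≤ arm p N * (20 * eps (1 - p) M) :=
      mul_le_mul_of_nonneg_left i6 (arm_nonneg h0 h1 N)

end H35A
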