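import Pool.Agent.H35R3.Al.StmtsG
import Pool.Agent.H31R3.Kes.GLow

/-!
Project BG-SHARP (helper35), task SG6l (helper174): lower bound for the mean cluster size below
the critical point, up to a constant.
-/

set_option autoImplicit false
set_option maxHeartbeats 400000

namespace H35A

open H974 H12S H973N Finset

theorem sg6l : SG6l := by
  intro hArm hStab
  obtain ⟨κ, hκ, hst⟩ := hStab
  obtain ⟨c0, C0, hc0, -, har⟩ := hArm
  set C : ℝ := 1 / c0 with hCdef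
  have hC : 0 < C := by positivity
  set a : ℝ := 3/4 with ha
  set b : ℝ := 5/48 with hb
  have ha0 : 0 < a := by rw [ha]; norm_num
  have ha1 : a ≤ 1 := by rw [ha]; norm_num
  have h2b : 0 < 2 - 2 * b := by rw [hb]; norm_num
  have hedef : (2 - 2 * b) / a = 43/18 := by rw [ha, hb]; norm_num
  have hD : 0 < κ^4 / (36 * C^2) * ((1/2 : ℝ)^(2 - 2 * b) * κ^(43/18 : ℝ)) := by positivity
  have hE : 0 < (κ/4)^(43/18 : ℝ) := by positivity
  refine ⟨min (κ^4 / (36 * C^2) * ((1/2 : ℝ)^(2 - 2 * b) * κ^(43/18 : ℝ))) ((κ/4)^(43/18 : ℝ)),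
    lt_min hD hE, fun p hp => ?_⟩
  set s : ℝ := 1/2 - (p:ℝ) with hs
  have hs0 : 0 < s := by rw [hs]; linarith
  have hsp : 0 < s^(-(43/18) : ℝ) := Real.rpow_pos_of_pos hs0 _
  set x : ℝ := (κ/s)^(1/a) with hx
  have hx0 : 0 < x := by positivity
  have hxa : x^a = κ/s := by
    rw [hx, ← Real.rpow_mul (by positivity), one_div_mul_cancel ha0.ne', Real.rpow_one]
  by_cases hx4 : x < 4
  · -- small scale
    refine le_trans ?_ (sigma_ge_one p)
    rw [← ENNReal.ofReal_one]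
    apply ENNReal.ofReal_le_ofReal
    have h1 : κ / s ≤ 4 := by
      rw [← hxa]
      calc x^a ≤ 4^a := Real.rpow_le_rpow hx0.le hx4.le ha0.le
        _ ≤ 4^(1:ℝ) := Real.rpow_le_rpow_of_exponent_le (by norm_num) ha1
        _ = 4 := Real.rpow_one _
    have h2 : κ / 4 ≤ s := by
      rw [div_le_iff₀ hs0] at h1
      linarith
    have h3 : (κ/4)^(43/18 : ℝ) ≤ s^(43/18 : ℝ) :=
      Real.rpow_le_rpow (by positivity) h2 (by norm_num)
    calc min (κ^4 / (36 * C^2) * ((1/2 : ℝ)^(2 - 2 * b) * κ^(43/18 : ℝ)))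
          ((κ/4)^(43/18 : ℝ)) * s^(-(43/18) : ℝ) ≤ s^(43/18 : ℝ) * s^(-(43/18) : ℝ) :=
          mul_le_mul_of_nonneg_right ((min_le_right _ _).trans h3) hsp.le
      _ = 1 := by
          rw [← Real.rpow_add hs0]
          norm_num
  · push Not at hx4
    obtain ⟨r, hr, hr1, hr2, hr3⟩ : ∃ r : ℕ, 1 ≤ r ∧ ((4 * r : ℕ):ℝ) ≤ x ∧
        1/2 * x ≤ ((4 * r : ℕ):ℝ) ∧ 0 < r := by
      have h4 : 1 ≤ x/4 := by linarith
      refine ⟨⌊x/4⌋₊, Nat.le_floor (by exact_mod_cast h4), ?_, ?_, ?_⟩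
      · have := Nat.floor_le (show 0 ≤ x/4 by positivity)
        push_cast
        linarith
      · have h5 := Nat.lt_floor_add_one (x/4)
        have h6 : (1:ℝ) ≤ (⌊x/4⌋₊ : ℝ) := by
          have : 1 ≤ ⌊x/4⌋₊ := Nat.le_floor (by exact_mod_cast h4)
          exact_mod_cast this
        push_cast
        linarith
      · exact Nat.floor_pos.mpr h4
    set n : ℝ := ((4 * r : ℕ):ℝ) with hn
    have hn0 : 0 < n := by
      rw [hn]; exact_mod_cast (by omega : 0 < 4 * r)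
    have hwin : |(p:ℝ) - 1/2| ≤ κ * n^(-(3/4) : ℝ) := by
      rw [abs_sub_comm, abs_of_pos (by linarith)]
      have e1 : (-(3/4) : ℝ) = -a := by rw [ha]
      rw [e1, Real.rpow_neg hn0.le, ← div_eq_mul_inv, le_div_iff₀ (by positivity)]
      have h7 : n^a ≤ κ/s := by
        rw [← hxa]
        exact Real.rpow_le_rpow hn0.le hr1 ha0.le
      rw [le_div_iff₀ hs0] at h7
      calc (1/2 - (p:ℝ)) * n^a = n^a * s := by rw [hs]; ring
        _ ≤ κ := h7
    obtain ⟨hW, -, hA⟩ := hst (4 * r) (by omega) p hwin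
    obtain ⟨hb0, -⟩ := har (4 * r) (by omega)
    have hb' : ((4 * r : ℕ):ℝ)^(-b) ≤ C * arm (1/2) (4 * r) := by
      rw [hCdef, one_div, ← div_eq_inv_mul, le_div_iff₀ hc0, mul_comm]
      exact hb0
    have hsum := H31K.gl_sum hr hW hA hC hb'
    refine le_trans (ENNReal.ofReal_le_ofReal ?_) (sigma_ge p (boxE (5 * r)) (boxV r))
    refine le_trans ?_ hsum
    have h8 : (1/2 * x)^(2 - 2 * b) ≤ n^(2 - 2 * b) :=
      Real.rpow_le_rpow (by positivity) hr2 h2b.le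
    have h9 : (1/2 * x)^(2 - 2 * b) =
        (1/2 : ℝ)^(2 - 2 * b) * (κ^(43/18 : ℝ) * s^(-(43/18) : ℝ)) := by
      rw [Real.mul_rpow (by norm_num) hx0.le, hx, ← Real.rpow_mul (by positivity)]
      have e3 : 1 / a * (2 - 2 * b) = 43/18 := by rw [← hedef]; ring
      rw [e3, Real.div_rpow hκ.le hs0.le, Real.rpow_neg hs0.le, div_eq_mul_inv (κ^(43/18 : ℝ))]
    calc min (κ^4 / (36 * C^2) * ((1/2 : ℝ)^(2 - 2 * b) * κ^(43/18 : ℝ)))
          ((κ/4)^(43/18 : ℝ)) * s^(-(43/18) : ℝ)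
        ≤ κ^4 / (36 * C^2) * ((1/2 : ℝ)^(2 - 2 * b) * κ^(43/18 : ℝ)) * s^(-(43/18) : ℝ) :=
          mul_le_mul_of_nonneg_right (min_le_left _ _) hsp.le
      _ = κ^4 / (36 * C^2) * (1/2 * x)^(2 - 2 * b) := by rw [h9]; ring
      _ ≤ κ^4 / (36 * C^2) * n^(2 - 2 * b) := mul_le_mul_of_nonneg_left h8 (by positivity)

end H35A
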