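import Pool.Agent.H35R3.Al.StmtsG
import Pool.Agent.H31R3.Kes.GUp

/-!
Project BG-SHARP (MP_5f99b0_pr), SG6u: sharp upper bound for the mean cluster size.
-/

set_option autoImplicit false
set_option maxHeartbeats 400000

namespace H35A

open H974 H31K Finset MeasureTheory

/-- Sharp power bound for the two-point function at and below the critical point. -/
theorem sg6u_tau_le_pow {C0 : ℝ} (hC0 : 0 < C0)
    (h : ∀ n : ℕ, 1 ≤ n → arm (1/2) n ≤ C0 * (n:ℝ) ^ (-(5/48) : ℝ)) :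
    ∀ p : unitInterval, (p:ℝ) ≤ 1/2 → ∀ x : Vtx,
      tau p x ≤ (8 * C0^2 + 3) * (((max x.1.natAbs x.2.natAbs : ℕ) : ℝ) + 1)^(-(5/24) : ℝ) := by
  intro p hp x
  set r := max x.1.natAbs x.2.natAbs with hr
  have hp0 : (0:ℝ) ≤ p := p.2.1
  have hr0 : (0:ℝ) < (r:ℝ) + 1 := by positivity
  by_cases h3 : r ≤ 2
  · have h4 : (1:ℝ)/3 ≤ ((r:ℝ) + 1)^(-(5/24) : ℝ) := by
      have h5 : (r:ℝ) + 1 ≤ 3 := by
        have : (r:ℝ) ≤ 2 := by exact_mod_cast h3
        linarith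
      calc (1:ℝ)/3 = (3:ℝ)^(-1:ℝ) := by rw [Real.rpow_neg_one]; norm_num
        _ ≤ (3:ℝ)^(-(5/24) : ℝ) :=
            Real.rpow_le_rpow_of_exponent_le (by norm_num) (by norm_num)
        _ ≤ ((r:ℝ) + 1)^(-(5/24) : ℝ) :=
            Real.rpow_le_rpow_of_nonpos hr0 h5 (by norm_num)
    have h6 := tau_le_one p x
    have h7 : 0 ≤ 8 * C0^2 * ((r:ℝ) + 1)^(-(5/24) : ℝ) := by positivity
    nlinarith
  · have h8 : 1 ≤ (r-1)/2 := by omega
    have h9 : r + 1 ≤ 8 * ((r-1)/2) := by omega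
    have h10 : 2 * (((r-1)/2 : ℕ):ℤ) < |x.1| ∨ 2 * (((r-1)/2 : ℕ):ℤ) < |x.2| := by
      have : r = x.1.natAbs ∨ r = x.2.natAbs := by
        rcases max_choice x.1.natAbs x.2.natAbs with h | h
        · left; rw [hr, h]
        · right; rw [hr, h]
      rw [Int.abs_eq_natAbs, Int.abs_eq_natAbs]
      rcases this with h | h
      · left; omega
      · right; omega
    have h11 := tau_le_arm_sq p h10
    set m := (r-1)/2 with hm
    have hm0 : (0:ℝ) < m := by exact_mod_cast (by omega : 0 < m)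
    have h12 : arm p m ≤ C0 * (m:ℝ)^(-(5/48) : ℝ) :=
      (arm_mono_param hp0 hp (by norm_num) m).trans (h m h8)
    have h13 : (arm p m)^2 ≤ (C0 * (m:ℝ)^(-(5/48) : ℝ))^2 :=
      pow_le_pow_left₀ (arm_nonneg hp0 (by linarith) m) h12 2
    have h14 : (C0 * (m:ℝ)^(-(5/48) : ℝ))^2 = C0^2 * (m:ℝ)^(-(5/24) : ℝ) := by
      rw [mul_pow, ← Real.rpow_natCast ((m:ℝ)^(-(5/48) : ℝ)), ← Real.rpow_mul hm0.le]
      congr 2
      norm_num
    have h15 : (m:ℝ)^(-(5/24) : ℝ) ≤ (((r:ℝ)+1)/8)^(-(5/24) : ℝ) := by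
      apply Real.rpow_le_rpow_of_nonpos (by positivity) _ (by norm_num)
      have : ((r + 1 : ℕ):ℝ) ≤ ((8 * m : ℕ) : ℝ) := by exact_mod_cast h9
      push_cast at this
      linarith
    have h16 : (((r:ℝ)+1)/8)^(-(5/24) : ℝ) ≤ 8 * ((r:ℝ)+1)^(-(5/24) : ℝ) := by
      rw [Real.div_rpow hr0.le (by norm_num)]
      rw [div_eq_mul_inv, mul_comm]
      apply mul_le_mul_of_nonneg_right _ (by positivity)
      rw [← Real.rpow_neg (by norm_num), neg_neg]
      calc (8:ℝ)^(5/24 : ℝ) ≤ (8:ℝ)^(1:ℝ) :=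
            Real.rpow_le_rpow_of_exponent_le (by norm_num) (by norm_num)
        _ = 8 := Real.rpow_one _
    have h17 : 0 ≤ ((r:ℝ)+1)^(-(5/24) : ℝ) := by positivity
    calc tau p x ≤ (arm p m)^2 := h11
      _ ≤ C0^2 * (m:ℝ)^(-(5/24) : ℝ) := h13.trans h14.le
      _ ≤ C0^2 * (8 * ((r:ℝ)+1)^(-(5/24) : ℝ)) :=
          mul_le_mul_of_nonneg_left (h15.trans h16) (by positivity)
      _ ≤ _ := by nlinarith

/-- Bound beyond the correlation length. -/
theorem sg6u_tau_far {C0 : ℝ} (hC0 : 0 < C0)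
    (h : ∀ n : ℕ, 1 ≤ n → arm (1/2) n ≤ C0 * (n:ℝ) ^ (-(5/48) : ℝ)) (ha : SG6a)
    (p : unitInterval) (hp : (p:ℝ) ≤ 1/2) {N : ℕ} (hN : 2 ≤ N)
    (he : eps (1 - (p:ℝ)) N ≤ 1/100)
    (x : Vtx) (hx : 16 * N ≤ max x.1.natAbs x.2.natAbs) :
    tau p x ≤ 384 * C0^2 * (N:ℝ)^(-(5/24) : ℝ) *
      ((N:ℝ) / ((max x.1.natAbs x.2.natAbs : ℕ) : ℝ))^3 := by
  have hp0 : (0:ℝ) ≤ p := p.2.1
  set r := max x.1.natAbs x.2.natAbs with hr
  set m := (r - 1) / (4 * N) with hm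
  have hm1 : 2 ≤ m := by
    rw [hm, Nat.le_div_iff_mul_le (by omega)]
    omega
  set j := Nat.log 2 m with hj
  have hj1 : 1 ≤ j := by
    rw [hj]
    exact Nat.log_pos (by norm_num) hm1
  have h1 : 2^j ≤ m := Nat.pow_log_le_self 2 (by omega)
  have h2 : m < 2^(j+1) := Nat.lt_pow_succ_log_self (by norm_num) m
  have h3 : m * (4 * N) ≤ r - 1 := Nat.div_mul_le_self (r-1) (4*N)
  have h4 : r - 1 < (m + 1) * (4 * N) := by
    have := Nat.lt_mul_div_succ (r-1) (show 0 < 4 * N by omega)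
    rw [← hm] at this
    calc r - 1 < 4 * N * (m + 1) := this
      _ = (m + 1) * (4 * N) := by ring
  set k := 2 * (2^j * N) with hk
  have h5 : 2 * k < r := by
    have : 2 * k ≤ m * (4 * N) := by
      calc 2 * k = 2^j * (4 * N) := by rw [hk]; ring
        _ ≤ m * (4 * N) := Nat.mul_le_mul_right _ h1
    omega
  have h6 : 2 * (k:ℤ) < |x.1| ∨ 2 * (k:ℤ) < |x.2| := by
    have : r = x.1.natAbs ∨ r = x.2.natAbs := by
      rcases max_choice x.1.natAbs x.2.natAbs with h | h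
      · left; rw [hr, h]
      · right; rw [hr, h]
    rw [Int.abs_eq_natAbs, Int.abs_eq_natAbs]
    rcases this with h | h
    · left; omega
    · right; omega
  have h7 := tau_le_arm_sq p h6
  have h2j : 2 ≤ 2^j := by
    calc 2 = 2^1 := by norm_num
      _ ≤ 2^j := Nat.pow_le_pow_right (by norm_num) hj1
  have hNN : N + 2 ≤ 2^j * N := by
    calc N + 2 ≤ 2 * N := by omega
      _ ≤ 2^j * N := Nat.mul_le_mul_right _ h2j
  have h8 : arm p k ≤ arm p N * (20 * eps (1 - (p:ℝ)) (2^j * N)) :=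
    ha p N (2^j * N) hp0 (by linarith) (by omega) hNN
  have h9 := eps_pow2 (p := 1 - (p:ℝ)) (by linarith) (by linarith) hN he j
  have h10 : arm p N ≤ C0 * (N:ℝ)^(-(5/48) : ℝ) :=
    (arm_mono_param hp0 hp (by norm_num) N).trans (h N (by omega))
  have hN0 : (0:ℝ) < N := by exact_mod_cast (by omega : 0 < N)
  have hr0 : (0:ℝ) < r := by exact_mod_cast (by omega : 0 < r)
  have h11 := eps_nonneg (p := 1 - (p:ℝ)) (by linarith) (by linarith) (2^j * N)
  have h12 : 20 * eps (1 - (p:ℝ)) (2^j * N) ≤ Real.exp (-((r:ℝ) / (8 * N))) := by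
    have g1 : ((r:ℝ) / (8 * N)) ≤ (2:ℝ)^j := by
      rw [div_le_iff₀ (by positivity)]
      have g2 : r ≤ 2^j * (8 * N) := by
        have : (m + 1) * (4 * N) ≤ 2^(j+1) * (4 * N) := Nat.mul_le_mul_right _ h2
        have e : 2^(j+1) * (4 * N) = 2^j * (8 * N) := by ring
        omega
      exact_mod_cast g2
    have g3 : (1/4 : ℝ) ≤ Real.exp (-1) := by
      rw [Real.exp_neg, one_div]
      apply inv_anti₀ (Real.exp_pos _)
      have := Real.exp_one_lt_d9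
      linarith
    calc 20 * eps (1 - (p:ℝ)) (2^j * N) ≤ 25 * eps (1 - (p:ℝ)) (2^j * N) := by linarith
      _ ≤ ((1:ℝ)/4)^(2^j) := h9
      _ ≤ (Real.exp (-1))^(2^j) := pow_le_pow_left₀ (by norm_num) g3 _
      _ = Real.exp (-((2:ℝ)^j)) := by
          rw [← Real.exp_nat_mul]
          congr 1
          push_cast
          ring
      _ ≤ _ := Real.exp_le_exp.mpr (by linarith)
  have h13 : arm p k ≤ C0 * (N:ℝ)^(-(5/48) : ℝ) * Real.exp (-((r:ℝ) / (8 * N))) :=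
    h8.trans (mul_le_mul h10 h12 (by positivity) (by positivity))
  have h14 : (arm p k)^2 ≤ (C0 * (N:ℝ)^(-(5/48) : ℝ) * Real.exp (-((r:ℝ) / (8 * N))))^2 :=
    pow_le_pow_left₀ (arm_nonneg hp0 (by linarith) k) h13 2
  have h15 : (C0 * (N:ℝ)^(-(5/48) : ℝ) * Real.exp (-((r:ℝ) / (8 * N))))^2 =
      C0^2 * (N:ℝ)^(-(5/24) : ℝ) * Real.exp (-((r:ℝ) / (4 * N))) := by
    rw [mul_pow, mul_pow, ← Real.rpow_natCast ((N:ℝ)^(-(5/48) : ℝ)), ← Real.rpow_mul hN0.le,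
      ← Real.exp_nat_mul]
    congr 2
    · congr 2
      norm_num
    · push_cast
      field_simp
      norm_num
  have h16 : Real.exp (-((r:ℝ) / (4 * N))) ≤ 384 * ((N:ℝ)/r)^3 := by
    refine (exp_neg_cube (by positivity)).trans (le_of_eq ?_)
    field_simp
    norm_num
  calc tau p x ≤ (arm p k)^2 := h7
    _ ≤ C0^2 * (N:ℝ)^(-(5/24) : ℝ) * Real.exp (-((r:ℝ) / (4 * N))) := h14.trans h15.le
    _ ≤ C0^2 * (N:ℝ)^(-(5/24) : ℝ) * (384 * ((N:ℝ)/r)^3) :=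
        mul_le_mul_of_nonneg_left h16 (by positivity)
    _ = _ := by ring

theorem sg6u : SG6u := by
  intro hA hF ha
  obtain ⟨_, C1, -, hC1, hArm⟩ := hA
  have hArm' : ∀ n : ℕ, 1 ≤ n → arm (1/2) n ≤ C1 * (n:ℝ) ^ (-(5/48) : ℝ) :=
    fun n hn => (hArm n hn).2
  obtain ⟨C0', hC0', N0, hN0'⟩ := hF
  set C0 : ℝ := max C0' 1 with hC0
  have hC01 : 1 ≤ C0 := le_max_right _ _
  have hN0 : ∀ N : ℕ, N0 ≤ N → ∀ p : ℝ,
      1/2 + C0 * (N:ℝ) ^ (-(3/4) : ℝ) ≤ p → p ≤ 1 → eps p N ≤ 1/100 := by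
    intro N hN p h1 h2
    refine hN0' N hN p (le_trans ?_ h1) h2
    have : C0' * (N:ℝ) ^ (-(3/4) : ℝ) ≤ C0 * (N:ℝ) ^ (-(3/4) : ℝ) :=
      mul_le_mul_of_nonneg_right (le_max_left _ _) (by positivity)
    linarith
  set C : ℝ := 8 * C1^2 + 3 with hC
  have hCpos : 0 < C := by rw [hC]; positivity
  set D : ℝ := 4096 * C + 384 * C1^2 with hD
  have hD0 : 0 < D := by rw [hD]; positivity
  set K : ℝ := (32 * C + 16 * D) * (((N0:ℝ) + 4)^(43/24 : ℝ) * C0^(43/18 : ℝ)) with hK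
  refine ⟨K, by rw [hK]; positivity, ?_⟩
  intro p hp
  have hp0 : (0:ℝ) ≤ p := p.2.1
  set s : ℝ := 1/2 - (p:ℝ) with hs
  have hs0 : 0 < s := by rw [hs]; linarith
  have hs1 : s ≤ 1/2 := by rw [hs]; linarith
  have hCs : 1 ≤ C0 / s := by
    rw [le_div_iff₀ hs0]
    linarith
  have hCs0 : 0 < C0 / s := by linarith
  set N1 : ℕ := ⌈(C0 / s)^(4/3 : ℝ)⌉₊ with hN1
  set N : ℕ := N1 + N0 + 2 with hN
  have hN2 : 2 ≤ N := by omega
  have hsb : 1 ≤ (C0 / s)^(4/3 : ℝ) := Real.one_le_rpow hCs (by norm_num)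
  have hNge : (C0 / s)^(4/3 : ℝ) ≤ N := by
    have h1 := Nat.le_ceil ((C0 / s)^(4/3 : ℝ))
    have h2 : ((N1:ℕ):ℝ) ≤ N := by exact_mod_cast (by omega : N1 ≤ N)
    exact h1.trans h2
  have hNle : (N:ℝ) ≤ ((N0:ℝ) + 4) * (C0 / s)^(4/3 : ℝ) := by
    have h1 : (N1:ℝ) < (C0 / s)^(4/3 : ℝ) + 1 := Nat.ceil_lt_add_one (by linarith)
    rw [hN]
    push_cast
    have h3 : (0:ℝ) ≤ N0 := Nat.cast_nonneg _
    nlinarith
  have hNpos : (0:ℝ) < N := by exact_mod_cast (by omega : 0 < N)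
  have hNs : C0 * (N:ℝ)^(-(3/4) : ℝ) ≤ s := by
    have h1 : (N:ℝ)^(-(3/4) : ℝ) ≤ ((C0 / s)^(4/3 : ℝ))^(-(3/4) : ℝ) :=
      Real.rpow_le_rpow_of_nonpos (by positivity) hNge (by norm_num)
    rw [← Real.rpow_mul hCs0.le] at h1
    have h2 : (4/3 : ℝ) * (-(3/4)) = -1 := by norm_num
    rw [h2, Real.rpow_neg_one, inv_div] at h1
    calc C0 * (N:ℝ)^(-(3/4) : ℝ) ≤ C0 * (s / C0) :=
          mul_le_mul_of_nonneg_left h1 (by linarith)
      _ = s := by field_simp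
  have heps : eps (1 - (p:ℝ)) N ≤ 1/100 := by
    apply hN0 N (by omega)
    · have : 1 - (p:ℝ) = 1/2 + s := by rw [hs]; ring
      rw [this]
      linarith
    · linarith
  -- the function `f`
  set f : ℕ → ℝ := fun r => if r < 2 * N then C * ((r:ℝ)+1)^(-(5/24) : ℝ)
    else D * (N:ℝ)^(-(5/24) : ℝ) * ((N:ℝ)/r)^3 with hf
  have hf0 : ∀ r, 0 ≤ f r := by
    intro r
    rw [hf]
    simp only
    split_ifs
    · positivity
    · positivity
  have hfx : ∀ x : Vtx, tau p x ≤ f (max x.1.natAbs x.2.natAbs) := by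
    intro x
    rw [hf]
    simp only
    split_ifs with h
    · exact sg6u_tau_le_pow hC1 hArm' p hp.le x
    · rw [not_lt] at h
      by_cases h16 : 16 * N ≤ max x.1.natAbs x.2.natAbs
      · refine (sg6u_tau_far hC1 hArm' ha p hp.le hN2 heps x h16).trans ?_
        have : 384 * C1^2 ≤ D := by rw [hD]; linarith
        refine mul_le_mul_of_nonneg_right ?_ (by positivity)
        exact mul_le_mul_of_nonneg_right this (by positivity)
      · have h1 := sg6u_tau_le_pow hC1 hArm' p hp.le x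
        set r := max x.1.natAbs x.2.natAbs with hr
        have hrN : (2:ℝ) * N ≤ r := by exact_mod_cast h
        have hr16 : (r:ℝ) ≤ 16 * N := by exact_mod_cast (by omega : r ≤ 16 * N)
        have hr0 : (0:ℝ) < r := by linarith
        have h2 : ((r:ℝ) + 1)^(-(5/24) : ℝ) ≤ (N:ℝ)^(-(5/24) : ℝ) :=
          Real.rpow_le_rpow_of_nonpos hNpos (by linarith) (by norm_num)
        have h3 : (1/16 : ℝ) ≤ (N:ℝ)/r := by
          rw [div_le_div_iff₀ (by norm_num) hr0]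
          linarith
        have h4 : (1/16 : ℝ)^3 ≤ ((N:ℝ)/r)^3 := pow_le_pow_left₀ (by norm_num) h3 3
        have h5 : (1:ℝ) ≤ 4096 * ((N:ℝ)/r)^3 := by
          norm_num at h4
          linarith
        calc tau p x ≤ C * ((r:ℝ) + 1)^(-(5/24) : ℝ) := h1
          _ ≤ C * (N:ℝ)^(-(5/24) : ℝ) := mul_le_mul_of_nonneg_left h2 hCpos.le
          _ = (C * (N:ℝ)^(-(5/24) : ℝ)) * 1 := by ring
          _ ≤ (C * (N:ℝ)^(-(5/24) : ℝ)) * (4096 * ((N:ℝ)/r)^3) :=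
              mul_le_mul_of_nonneg_left h5 (by positivity)
          _ = (4096 * C) * ((N:ℝ)^(-(5/24) : ℝ) * ((N:ℝ)/r)^3) := by ring
          _ ≤ D * ((N:ℝ)^(-(5/24) : ℝ) * ((N:ℝ)/r)^3) := by
              refine mul_le_mul_of_nonneg_right ?_ (by positivity)
              rw [hD]
              linarith [sq_nonneg C1]
          _ = _ := by ring
  refine (sigma_le_shell p hf0 hfx).trans ?_
  rw [ENNReal.tsum_eq_iSup_nat]
  apply iSup_le
  intro M
  rw [← ENNReal.ofReal_sum_of_nonneg (fun r _ => mul_nonneg (by positivity) (hf0 r))]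
  apply ENNReal.ofReal_le_ofReal
  have hsum : ∑ r ∈ range M, 8 * ((r:ℝ) + 1) * f r ≤ (32 * C + 16 * D) * (N:ℝ)^(2 - 5/24 : ℝ) := by
    have h1 : ∑ r ∈ range M, 8 * ((r:ℝ) + 1) * f r ≤
        ∑ r ∈ range (max M (2*N)), 8 * ((r:ℝ) + 1) * f r := by
      apply Finset.sum_le_sum_of_subset_of_nonneg
      · exact Finset.range_subset_range.mpr (le_max_left _ _)
      · intro r _ _
        exact mul_nonneg (by positivity) (hf0 r)
    refine h1.trans ?_
    rw [← Finset.sum_range_add_sum_Ico _ (le_max_right M (2*N))]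
    have h2 : ∑ r ∈ range (2*N), 8 * ((r:ℝ) + 1) * f r ≤ 32 * C * (N:ℝ)^(2 - 5/24 : ℝ) := by
      refine le_trans (le_of_eq ?_) (sum_near (a := 5/24) (a' := 5/24) hN2 hCpos.le (by norm_num)
        le_rfl (by norm_num))
      apply Finset.sum_congr rfl
      intro r hr
      rw [hf]
      simp only
      rw [if_pos (Finset.mem_range.mp hr)]
    have h3 : ∑ r ∈ Finset.Ico (2*N) (max M (2*N)), 8 * ((r:ℝ) + 1) * f r ≤
        16 * D * (N:ℝ)^(2 - 5/24 : ℝ) := by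
      refine le_trans (le_of_eq ?_) (sum_far (a' := 5/24) hN2 hD0.le (max M (2*N)))
      apply Finset.sum_congr rfl
      intro r hr
      rw [hf]
      simp only
      rw [if_neg (not_lt.mpr (Finset.mem_Ico.mp hr).1)]
    linarith
  refine hsum.trans ?_
  have h4 : (N:ℝ)^(2 - 5/24 : ℝ) ≤
      (((N0:ℝ) + 4)^(43/24 : ℝ) * C0^(43/18 : ℝ)) * s^(-(43/18) : ℝ) := by
    have h5 : (N:ℝ)^(43/24 : ℝ) ≤ (((N0:ℝ) + 4) * (C0 / s)^(4/3 : ℝ))^(43/24 : ℝ) :=
      Real.rpow_le_rpow hNpos.le hNle (by norm_num)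
    rw [Real.mul_rpow (by positivity) (by positivity), ← Real.rpow_mul hCs0.le] at h5
    have h6 : (4/3 : ℝ) * (43/24) = 43/18 := by norm_num
    rw [h6, Real.div_rpow (by linarith) hs0.le] at h5
    have h7 : (2 - 5/24 : ℝ) = 43/24 := by norm_num
    rw [h7]
    refine h5.trans (le_of_eq ?_)
    rw [Real.rpow_neg hs0.le]
    ring
  calc (32 * C + 16 * D) * (N:ℝ)^(2 - 5/24 : ℝ) ≤
      (32 * C + 16 * D) * ((((N0:ℝ) + 4)^(43/24 : ℝ) * C0^(43/18 : ℝ)) * s^(-(43/18) : ℝ)) :=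
        mul_le_mul_of_nonneg_left h4 (by positivity)
    _ = K * s^(-(43/18) : ℝ) := by rw [hK]; ring

end H35A
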