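import Pool.Agent.H974R2.Arm

/-!
Project ALPHA (MP_5f99b0_pr): definitions and independent tasks which use only the light library
`Pool.Agent.H974R2.{Basic,Lattice,Cross,Sym,Arm}`.
-/

set_option autoImplicit false

namespace H35A

open H974 Finset MeasureTheory Filter

/-- Edges of the `n × n` box with vertices `{0,…,n-1}²`. -/
noncomputable def bE (n : ℕ) : Finset Edg := RE 0 ((n:ℤ) - 1) 0 ((n:ℤ) - 1)

/-- Vertices of the `n × n` box. -/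
abbrev bV (n : ℕ) : Type := {v : ℤ × ℤ // (0 ≤ v.1 ∧ v.1 < n) ∧ (0 ≤ v.2 ∧ v.2 < n)}

/-- The graph of the open edges in the `n × n` box. -/
def openG (n : ℕ) (F : Finset Edg) : SimpleGraph (bV n) where
  Adj u v := ∃ e ∈ F, (src e = u.1 ∧ tgt e = v.1) ∨ (src e = v.1 ∧ tgt e = u.1)
  symm := ⟨by
    rintro u v ⟨e, he, h⟩
    exact ⟨e, he, h.symm⟩⟩
  loopless := ⟨by
    rintro u ⟨⟨x, y, b⟩, _, h⟩
    rcases h with ⟨h1, h2⟩ | ⟨h1, h2⟩ <;> cases b <;>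
      · have h3 := h1.trans h2.symm
        simp [src, tgt] at h3⟩

/-- The number of clusters in the `n × n` box. -/
noncomputable def Kn (n : ℕ) (F : Finset Edg) : ℕ := Nat.card (openG n F).ConnectedComponent

/-- The mean number of clusters of bond percolation with parameter `p` in the `n × n` box. -/
noncomputable def EK (n : ℕ) (p : ℝ) : ℝ := Ex (fun _ => p) (bE n) (fun F => (Kn n F : ℝ))

/-- The ends of `e` are connected in the box without `e`. -/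
noncomputable def PC (n : ℕ) (q : ℝ) (e : Edg) : ℝ :=
  Pr (fun _ => q) (bE n) (fun F => Reach (↑(F.erase e)) (src e) (tgt e))

/-- The ends of the edge `(0,0,b)` are connected in the box `[-m,m]²` without this edge. -/
noncomputable def hpl (b : Bool) (m : ℕ) (q : ℝ) : ℝ :=
  Pr (fun _ => q) (boxE m) (fun F => Reach (↑(F.erase ((0, 0, b) : Edg))) (src (0, 0, b))
    (tgt (0, 0, b)))

/-- The ends of the edge `(0,0,b)` are connected in the plane without this edge. -/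
noncomputable def hinf (b : Bool) (q : ℝ) : ℝ := ⨆ m : ℕ, hpl b m q

/-- Derivative of the mean number of clusters. -/
def TaskK : Prop := ∀ n : ℕ, EK n 0 = (n:ℝ) ^ 2 ∧
  ∀ q : ℝ, HasDerivAt (EK n) (-∑ e ∈ bE n, (1 - PC n q e)) q

/-- Comparison of the box with the plane. -/
def TaskB : Prop := ∀ q : ℝ, 0 ≤ q → q ≤ 1 →
  (∀ b m, 0 ≤ hpl b m q ∧ hpl b m q ≤ 1 ∧ hpl b m q ≤ hpl b (m + 1) q) ∧
  (∀ n : ℕ, ∀ e ∈ bE n, PC n q e ≤ hinf e.2.2 q) ∧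
  (∀ n m : ℕ, ∀ e ∈ bE n, ((m:ℤ) ≤ e.1 ∧ e.1 + m ≤ (n:ℤ) - 1) →
    ((m:ℤ) ≤ e.2.1 ∧ e.2.1 + m ≤ (n:ℤ) - 1) → hpl e.2.2 m q ≤ PC n q e)

/-- The cluster density. -/
noncomputable def kap (p : ℝ) : ℝ := 1 - 2 * p + ∫ q in (0:ℝ)..p, (hinf true q + hinf false q)

/-- The limit. -/
def TaskL : Prop := TaskK → TaskB →
  (∀ p : ℝ, 0 ≤ p → p ≤ 1 →
    Tendsto (fun n : ℕ => EK n p / (n:ℝ) ^ 2) atTop (nhds (kap p))) ∧
  (∀ x ∈ Set.Icc (0:ℝ) 1, ∀ y ∈ Set.Icc (0:ℝ) 1,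
    IntervalIntegrable (fun q => hinf true q + hinf false q) volume x y) ∧
  (∀ q ∈ Set.Icc (0:ℝ) 1, |hinf true q + hinf false q| ≤ 2)

/-- Taylor expansion from finite volume approximations (pure analysis). -/
def TaskT : Prop := ∀ (h : ℝ → ℝ) (H H1 : ℕ → ℝ → ℝ),
  (∀ N q, HasDerivAt (H N) (H1 N q) q) →
  (∀ ε : ℝ, 0 < ε → ε < 1 / 100 → ∃ κ C : ℝ, ∃ N0 : ℕ, 0 < κ ∧ ∀ N : ℕ, N0 ≤ N → ∀ q : ℝ,
    |q - 1 / 2| ≤ κ * ((2:ℝ) ^ N) ^ (-(3/4) - ε) →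
      |H N q - h q| ≤ C * ((2:ℝ) ^ N) ^ (-(5/4) + ε) ∧
      ∃ D, HasDerivAt (H1 N) D q ∧ |D| ≤ C * ((2:ℝ) ^ N) ^ (1/4 + ε)) →
  (∀ x ∈ Set.Icc (0:ℝ) 1, ∀ y ∈ Set.Icc (0:ℝ) 1, IntervalIntegrable h volume x y) →
  (∀ q ∈ Set.Icc (0:ℝ) 1, |h q| ≤ 2) →
  ∃ b : ℝ, ∀ ε : ℝ, 0 < ε → ∃ C : ℝ, ∀ p ∈ Set.Icc (0:ℝ) 1,
    |(∫ q in (1/2:ℝ)..p, h q) - h (1/2) * (p - 1/2) - b * (p - 1/2) ^ 2| ≤
      C * |p - 1/2| ^ (8/3 - ε)

end H35A
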