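import Pool.Agent.H35R3.Al.Loc
import Pool.Agent.H35R3.Al.StmtsA

/-!
Project ALPHA (MP_5f99b0_pr): tasks about percolation on the torus.
-/

set_option autoImplicit false

namespace H35A

open H974 H12S H973N Finset

/-- Comparison of the torus and the plane. -/
def TaskC : Prop := ∀ q : ℝ, 0 ≤ q → q ≤ 1 → ∀ m : ℕ, 1 ≤ m →
  (∀ M : ℕ, 2 * m + 2 < M → ∀ e ∈ EM M, hpl e.2.2 m q ≤ PQ q (EM M) (fe M e) ∧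
    PQ q (EM M) (fe M e) ≤ hpl e.2.2 m q + a4 q m) ∧
  (∀ b : Bool, hinf b q ≤ hpl b m q + a4 q m)

/-- The probability that the second difference of the connection event does not vanish. -/
noncomputable def X3 (q : ℝ) (M : ℕ) (a b c : Edg) : ℝ := PQ q (EM M) (SD (fe M a) b c)

/-- Three disjoint blocks. -/
def TaskP1 : Prop := ∀ q : ℝ, 0 ≤ q → q ≤ 1 → ∀ M r : ℕ, 1 ≤ r → 2 * r < M →
  ∀ a ∈ EM M, ∀ b ∈ EM M, ∀ c ∈ EM M, Fr M (2 * r) a b → Fr M (2 * r) b c → Fr M (2 * r) a c →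
    X3 q M a b c ≤ a4 q r ^ 3

/-- The image of a block on the torus. -/
noncomputable def bT (M : ℕ) (c : ℤ × ℤ) (r : ℕ) : Finset Edg := by
  classical exact (blk c r).image (red M)

/-- Two disjoint blocks inside a larger block, with a prescribed configuration `w` outside `S`. -/
def TaskP2 : Prop := ∀ q : ℝ, 0 ≤ q → q ≤ 1 → ∀ M r R : ℕ, 1 ≤ r → 2 * r < M →
  ∀ S w : Finset Edg, S ⊆ EM M → Disjoint w S → w ⊆ EM M →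
  ∀ a ∈ EM M, ∀ b ∈ EM M, ∀ c ∈ EM M, ∀ ctr : ℤ × ℤ,
  Fr M (2 * r) a b → Fr M (2 * r) b c → Fr M (2 * r) a c →
  bT M (bp b) r ⊆ bT M ctr R → bT M (bp c) r ⊆ bT M ctr R → bT M ctr R ⊆ S →
  PQ q S (SD (fun F => fe M a (F ∪ w)) b c) ≤
    a4 q r ^ 2 * PQ q S (Bf (fun F => fe M a (F ∪ w)) (bT M ctr R))

/-- Conditioning on the configuration in a block around `a`. -/
def TaskP3 : Prop := ∀ q : ℝ, 0 ≤ q → q ≤ 1 → ∀ M r : ℕ, 1 ≤ r → 2 * r < M →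
  ∀ a ∈ EM M, ∀ b ∈ EM M, ∀ c ∈ EM M, b ≠ c →
  Fr M (r + 1) a b → Fr M (r + 1) a c →
  X3 q M a b c ≤ Ex (fun _ => q) (bT M (bp a) r) (fun w => ind (L4T M r a w) *
    PQ q (EM M \ bT M (bp a) r) (SD (fun F => fe M a (F ∪ w)) b c))

/-- The edges of the torus at distance at most `r` of `a`. -/
noncomputable def Nb (M r : ℕ) (a : Edg) : Finset Edg := by
  classical exact (EM M).filter (fun b => ¬ Fr M r a b)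

/-- Counting. -/
def TaskP4 : Prop := ∀ (M r : ℕ) (a : Edg), (Nb M r a).card ≤ 2 * (2 * r + 1) ^ 2

/-- The local factor of the class `k`. -/
noncomputable def AA (q : ℝ) (k : ℕ) : ℝ := if k = 0 then 1 else a4 q (2 ^ (k - 1))

/-- Comparable distances. -/
def Cmp (M k : ℕ) (a b c : Edg) : Prop :=
  (a ≠ b ∧ b ≠ c ∧ a ≠ c) ∧
  (k = 0 ∨ (Fr M (2 ^ k) a b ∧ Fr M (2 ^ k) b c ∧ Fr M (2 ^ k) a c)) ∧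
  ¬ Fr M (2 ^ (k + 1)) b c ∧ ¬ Fr M (2 ^ (k + 8)) a b

/-- `a` is much farther from `b` than `c` is. -/
def Far (M j k : ℕ) (a b c : Edg) : Prop :=
  b ≠ c ∧ (Fr M (2 ^ j) a b ∧ ¬ Fr M (2 ^ (j + 1)) a b) ∧
    (k = 0 ∨ Fr M (2 ^ k) b c) ∧ ¬ Fr M (2 ^ (k + 1)) b c

/-- The sum over the comparable triples. -/
def TaskP5 : Prop := TaskP1 → TaskP4 → ∀ q : ℝ, 0 ≤ q → q ≤ 1 → ∀ M k : ℕ, 2 ^ k < M →
  ∀ a ∈ EM M, ∑ b ∈ EM M, ∑ c ∈ EM M, ind (Cmp M k a b c) * X3 q M a b c ≤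
    2 ^ 30 * 16 ^ k * AA q k ^ 3

/-- The sum over the far triples (owner: helper35). -/
def TaskP6 : Prop := ∀ (q κ : ℝ) (N : ℕ), Win q κ (2 ^ N) → ∀ j k : ℕ, k + 7 ≤ j →
  ∀ a ∈ EM (2 ^ N), ∑ b ∈ EM (2 ^ N), ∑ c ∈ EM (2 ^ N),
    ind (Far (2 ^ N) j k a b c) * X3 q (2 ^ N) a b c ≤
    2 ^ 40 * (κ ^ 4)⁻¹ * (a4 q (2 ^ (j - 2)) * (16 ^ k * AA q k ^ 2 * 2 ^ (j - k)))

/-- Decomposition of the sum over all triples. -/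
def TaskP7 : Prop := ∀ (q : ℝ) (N : ℕ) (U : ℕ → ℕ → ℝ) (V : ℕ → ℝ), 1 ≤ N → 0 ≤ q → q ≤ 1 →
  (∀ j k, 0 ≤ U j k) → (∀ k, 0 ≤ V k) →
  (∀ k < N, ∀ a ∈ EM (2 ^ N), ∑ b ∈ EM (2 ^ N), ∑ c ∈ EM (2 ^ N),
    ind (Cmp (2 ^ N) k a b c) * X3 q (2 ^ N) a b c ≤ V k) →
  (∀ j < N, ∀ k, k + 7 ≤ j → ∀ a ∈ EM (2 ^ N), ∑ b ∈ EM (2 ^ N), ∑ c ∈ EM (2 ^ N),
    ind (Far (2 ^ N) j k a b c) * X3 q (2 ^ N) a b c ≤ U j k) →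
  ∑ a ∈ EM (2 ^ N), ∑ b ∈ EM (2 ^ N), ∑ c ∈ EM (2 ^ N),
    ind (a ≠ b ∧ b ≠ c ∧ a ≠ c) * X3 q (2 ^ N) a b c ≤
    6 * 4 ^ N * (∑ k ∈ Finset.range N, V k +
      ∑ j ∈ Finset.range N, ∑ k ∈ Finset.range (j - 6), U j k)

/-- The numerical sum. -/
def TaskP8 : Prop := ∀ ε B : ℝ, 0 < ε → ε < 1 / 100 → 0 ≤ B → ∃ C : ℝ, ∀ (N : ℕ) (f : ℕ → ℝ),
  (∀ m, 0 ≤ f m) → (∀ m : ℕ, 1 ≤ m → m ≤ 2 ^ N → f m ≤ B * (m:ℝ) ^ (-(5/4) + ε)) →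
  ∑ k ∈ Finset.range N, (16:ℝ) ^ k * (if k = 0 then 1 else f (2 ^ (k - 1))) ^ 3 +
    ∑ j ∈ Finset.range N, ∑ k ∈ Finset.range (j - 6),
      f (2 ^ (j - 2)) * (16 ^ k * (if k = 0 then 1 else f (2 ^ (k - 1))) ^ 2 * 2 ^ (j - k)) ≤
    C * ((2:ℝ) ^ N) ^ (1/4 + 5 * ε)

/-- The density of the connection event on the torus. -/
noncomputable def HM (M : ℕ) (q : ℝ) : ℝ := ((M:ℝ) ^ 2)⁻¹ * ∑ a ∈ EM M, PQ q (EM M) (fe M a)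

/-- Its derivative. -/
noncomputable def HM1 (M : ℕ) (q : ℝ) : ℝ :=
  ((M:ℝ) ^ 2)⁻¹ * ∑ a ∈ EM M, ∑ b ∈ EM M, PQ q (EM M) (Pf (fe M a) b)

/-- Derivatives. -/
def TaskP9 : Prop := ∀ M : ℕ, (∀ q : ℝ, HasDerivAt (HM M) (HM1 M q) q) ∧
  ∀ q : ℝ, 0 ≤ q → q ≤ 1 → ∃ D : ℝ, HasDerivAt (HM1 M) D q ∧
    |D| ≤ ((M:ℝ) ^ 2)⁻¹ * ∑ a ∈ EM M, ∑ b ∈ EM M, ∑ c ∈ EM M,
      ind (a ≠ b ∧ b ≠ c ∧ a ≠ c) * X3 q M a b c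

end H35A
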