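import Pool.Agent.H35R3.Al.StmtsA

/-!
Project ALPHA: the mean number of clusters in Mathlib terms.
-/

set_option autoImplicit false

namespace H35A

open H974 Finset

/-- The `n × n` grid: product of two paths with `n` vertices. -/
def grid (n : ℕ) : SimpleGraph (Fin n × Fin n) := SimpleGraph.pathGraph n □ SimpleGraph.pathGraph n

open Classical in
/-- The mean number of connected components (clusters, isolated vertices included) of bond
percolation with parameter `p` on the `n × n` grid: sum over all sets `ω` of open edges. -/
noncomputable def meanClusters (n : ℕ) (p : ℝ) : ℝ :=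
  ∑ ω ∈ (grid n).edgeFinset.powerset, p ^ ω.card * (1 - p) ^ ((grid n).edgeFinset \ ω).card *
    (Nat.card (SimpleGraph.fromEdgeSet (ω : Set (Sym2 (Fin n × Fin n)))).ConnectedComponent : ℝ)

/-- The two definitions of the mean number of clusters agree. -/
def TaskZ : Prop := ∀ (n : ℕ) (p : ℝ), meanClusters n p = EK n p

end H35A
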