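import Pool.Agent.H35R3.Al.StmtsS
import Pool.Agent.H974R2.GammaInf
import Pool.Agent.H974R2.Infinite

/-!
Project BG-SHARP (MP_5f99b0_pr): sharp behaviour of the percolation probability and of the mean
cluster size at the critical point, bond percolation on the square lattice.
-/

set_option autoImplicit false

namespace H35A

open H974 H12S H973N Finset

/-- The statement of `SW3` with an arbitrary exponent. -/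
def SG0 : Prop := ∀ κ p : ℝ, 0 < κ → 0 < p →
    ∃ (L M : ℕ) (K η : ℝ), 2 ≤ L ∧ 512 ≤ M ∧ 0 < K ∧ 0 < η ∧ η * (192 * L : ℝ) ^ p ≤ 1/64 ∧
      ∀ (q : ℝ) (n : ℕ), Win q κ n → ∀ r : ℕ, 1 ≤ r → 4 * L * (M * r) ≤ n →
        ∃ I J : Set Vtx, (∀ v ∈ I ∪ J, ((M * r : ℕ) : ℤ) ≤ |v.2|) ∧
          ((M * r : ℕ):ℝ) ^ 2 * a4 q (4 * L * (M * r)) ≤
            K * ∑ e ∈ boxE ((M * r) / 4), PQ q (SR L (M * r))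
              (Pf (fun F : Finset Edg => Cn I J ↑F) e) +
            ((M * r : ℕ):ℝ) ^ 2 * (η * a4 q ((M * r) / 8))

/-- Two-sided four-arm bound at the critical point. -/
def Crit2 : Prop := ∃ c C : ℝ, 0 < c ∧ 0 < C ∧ ∀ k : ℕ, 1 ≤ k →
    c * (k:ℝ) ^ (-(5/4) : ℝ) ≤ a4 (1/2) k ∧ a4 (1/2) k ≤ C * (k:ℝ) ^ (-(5/4) : ℝ)

/-- Two-sided four-arm bound in the window. -/
def GLo (κ0 : ℝ) : Prop := ∃ c C : ℝ, 0 < c ∧ 0 < C ∧ ∀ n : ℕ, 1 ≤ n → ∀ q : ℝ,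
    |q - 1/2| ≤ κ0 * (n:ℝ) ^ (-(3/4) : ℝ) → ∀ m : ℕ, 1 ≤ m → m ≤ n →
      c * (m:ℝ) ^ (-(5/4) : ℝ) ≤ a4 q m ∧ a4 q m ≤ C * (m:ℝ) ^ (-(5/4) : ℝ)

def SG1 : Prop := SG0 → SW2 → SW5c → Crit2 → ∃ κ0 : ℝ, 0 < κ0 ∧ GLo κ0

/-- Supercritical crossings beyond the window. -/
def GFar : Prop := ∃ C0 : ℝ, 0 < C0 ∧ ∃ N0 : ℕ, ∀ N : ℕ, N0 ≤ N → ∀ p : ℝ,
    1/2 + C0 * (N:ℝ) ^ (-(3/4) : ℝ) ≤ p → p ≤ 1 → eps p N ≤ 1/100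

/-- Stability of the one-arm probability in the window. -/
def GStab : Prop := ∃ κ : ℝ, 0 < κ ∧ ∀ n : ℕ, 1 ≤ n → ∀ q : ℝ,
    |q - 1/2| ≤ κ * (n:ℝ) ^ (-(3/4) : ℝ) →
      Win q κ n ∧ arm q n ≤ 3 * arm (1/2) n ∧ arm (1/2) n ≤ 3 * arm q n

def SG4 : Prop := SW5c → GStab

/-- Sharp one-arm bounds at the critical point (`H160R2.SA.arSharp`). -/
def GArm : Prop := ∃ c C : ℝ, 0 < c ∧ 0 < C ∧ ∀ n : ℕ, 1 ≤ n →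
    c * (n:ℝ) ^ (-(5/48) : ℝ) ≤ arm (1/2) n ∧ arm (1/2) n ≤ C * (n:ℝ) ^ (-(5/48) : ℝ)

def SG5u : Prop := GArm → GStab → ∃ C : ℝ, 0 < C ∧ ∀ p : unitInterval,
    (1/2 : ℝ) < p → theta p ≤ C * ((p:ℝ) - 1/2) ^ (5/36 : ℝ)

def SG5l : Prop := GArm → GFar → ∃ c : ℝ, 0 < c ∧ ∀ p : unitInterval,
    (1/2 : ℝ) < p → c * ((p:ℝ) - 1/2) ^ (5/36 : ℝ) ≤ theta p

def SG6l : Prop := GArm → GStab → ∃ c : ℝ, 0 < c ∧ ∀ p : unitInterval,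
    (p : ℝ) < 1/2 → ENNReal.ofReal (c * (1/2 - (p:ℝ)) ^ (-(43/18) : ℝ)) ≤ sigma p

/-- Product form of `H31K.arm_le_eps`. -/
def SG6a : Prop := ∀ (p : ℝ) (N N' : ℕ), 0 ≤ p → p ≤ 1 → 2 ≤ N' → N + 2 ≤ N' →
    arm p (2 * N') ≤ arm p N * (20 * eps (1 - p) N')

def SG6u : Prop := GArm → GFar → SG6a → ∃ C : ℝ, 0 < C ∧ ∀ p : unitInterval,
    (p : ℝ) < 1/2 → sigma p ≤ ENNReal.ofReal (C * (1/2 - (p:ℝ)) ^ (-(43/18) : ℝ))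

end H35A
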