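import Pool.Agent.H35R3.Al.StmtsG
import Pool.Agent.H974R4.W2.FinA

/-!
Project BG-SHARP (MP_5f99b0_pr): statements which use the derivative sums of `H974R4.W2`.
-/

set_option autoImplicit false

namespace H35A

open H974 H12S H973N Finset

/-- Lower bound for the derivative of the crossing probabilities beyond the window. -/
def GWD (κ0 : ℝ) : Prop := ∀ κ Y : ℝ, 0 < κ → ∃ Λ n0 : ℕ, 1 ≤ Λ ∧ ∀ n1 : ℕ, n0 ≤ n1 → ∀ q : ℝ,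
    |q - 1/2| ≤ κ0 * (n1:ℝ) ^ (-(3/4) : ℝ) → Win q κ (Λ * n1) →
      Y * (n1:ℝ) ^ (3/4 : ℝ) * (((Λ * n1 : ℕ) : ℝ) + 1) ^ 2 ≤ WD q (Λ * n1)

def SG2 : Prop := ∀ κ0 : ℝ, 0 < κ0 → GLo κ0 → GWD κ0

def SG3 : Prop := ∀ κ0 : ℝ, 0 < κ0 → GWD κ0 → GFar

end H35A
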