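import Pool.Agent.H35R3.Al.StmtsD
import Pool.Agent.H35R3.Al.TaskUcore

/-! Task U of the project ALPHA: the four-arm probability tends to zero uniformly. -/

set_option autoImplicit false

namespace H35A

theorem taskU : TaskU := fun η hη => a4_uniform η hη

end H35A
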