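import Pool.Agent.H35R3.Al.StmtsB
import Pool.Agent.H35R3.Al.Bes

/-!
The sum of the influences of blocks on the torus, for the connection of the ends of an edge with a
prescribed configuration around this edge.
-/

set_option autoImplicit false

namespace H35A

open H974 H12S H973N Finset

variable {M : ℕ}

theorem pull_mono {B F G : Finset Edg} (h : F ⊆ G) : pull M B F ⊆ pull M B G := by
  intro e he
  rw [mem_pull] at he ⊢
  exact ⟨he.1, h he.2⟩

theorem mem_bT {c : ℤ × ℤ} {r : ℕ} {e : Edg} : e ∈ bT M c r ↔ ∃ g ∈ blk c r, red M g = e := by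
  unfold bT
  rw [Finset.mem_image]

/-- Hypotheses on a tile: `3R`-block inside `S`, away from `a`. -/
structure Good (M : ℕ) (S : Finset Edg) (a : Edg) (c : ℤ × ℤ) (R : ℕ) : Prop where
  sub : bT M c (3 * R) ⊆ S
  src : ∀ z, BSfar c (3 * R) (sh M z (src a))
  tgt : ∀ z, BSfar c (3 * R) (sh M z (tgt a))
  nota : a ∉ bT M c (3 * R)

theorem bT_eq {c : ℤ × ℤ} {r : ℕ} [DecidableEq Edg] :
    (blk c r).image (red M) = bT M c r := by
  ext e
  rw [mem_bT, Finset.mem_image]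

theorem tile_up {S w F : Finset Edg} {a : Edg} {c : ℤ × ℤ} {R : ℕ} (hR : 1 ≤ R)
    (hG : Good M S a c R) (hna : a ∉ bT M c R)
    (hU : BSU c R (pull M (blk c (3 * R)) ((F ∪ w).erase a)))
    (h : fe M a (F ∪ bT M c R ∪ w)) : fe M a (F ∪ w) := by
  have e1 : (F ∪ bT M c R ∪ w).erase a =
      (F ∪ w).erase a ∪ (blk c R).image (red M) := by
    rw [bT_eq]
    ext e
    rw [Finset.mem_erase, Finset.mem_union, Finset.mem_union, Finset.mem_union,
      Finset.mem_erase, Finset.mem_union]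
    constructor
    · rintro ⟨h1, (h2 | h2) | h2⟩
      · exact Or.inl ⟨h1, Or.inl h2⟩
      · exact Or.inr h2
      · exact Or.inl ⟨h1, Or.inr h2⟩
    · rintro (⟨h1, h2 | h2⟩ | h1)
      · exact ⟨h1, Or.inl (Or.inl h2)⟩
      · exact ⟨h1, Or.inr h2⟩
      · exact ⟨fun h => hna (h ▸ h1), Or.inl (Or.inr h1)⟩
  unfold fe at h ⊢
  rw [e1] at h
  exact ctU hR hG.src hG.tgt hU h

theorem tile_down {S w F : Finset Edg} {a : Edg} {c : ℤ × ℤ} {R : ℕ}
    (hG : Good M S a c R)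
    (hD : BSD c R (pull M (blk c (3 * R)) ((F ∪ w).erase a)))
    (h : fe M a (F ∪ w)) : fe M a (F \ bT M c R ∪ w) := by
  unfold fe at h ⊢
  refine Ct.mono ?_ (ctD hG.src hD h)
  rw [bT_eq]
  intro e he
  rw [Finset.mem_sdiff, Finset.mem_erase, Finset.mem_union] at he
  rw [Finset.mem_erase, Finset.mem_union, Finset.mem_sdiff]
  obtain ⟨⟨h1, h2⟩, h3⟩ := he
  rcases h2 with h2 | h2
  · exact ⟨h1, Or.inl ⟨h2, h3⟩⟩
  · exact ⟨h1, Or.inr h2⟩

theorem tile1 {q κ : ℝ} {n : ℕ} (hW : Win q κ n) {S w : Finset Edg} {a : Edg}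
    (hw : Disjoint w S) {R : ℕ} (hR : 1 ≤ R) (hRn : 2 * R ≤ n) (hRM : 2 * (3 * R) < M)
    {T : Finset (ℤ × ℤ)} {c : ℤ × ℤ → ℤ × ℤ} (hT : ∀ t ∈ T, Good M S a (c t) R)
    (hd : ∀ t ∈ T, ∀ t' ∈ T, t ≠ t' → Disjoint (bT M (c t) (3 * R)) (bT M (c t') (3 * R))) :
    ∑ t ∈ T, PQ q S (Bf (fun F => fe M a (F ∪ w)) (bT M (c t) R)) ≤
      2 * (κ ^ 4)⁻¹ * Real.sqrt T.card := by
  classical
  have h0 : 0 ≤ q := by linarith [hW.lo]
  have h1 : q ≤ 1 := by linarith [hW.hi]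
  have hk4 : 0 < κ ^ 4 := by have := hW.kpos; positivity
  have hk41 : κ ^ 4 ≤ 1 := pow_le_one₀ hW.kpos.le (by linarith [hW.kle])
  have hinj : ∀ t ∈ T, Set.InjOn (red M) (↑(blk (c t) (3 * R)) : Set Edg) :=
    fun t _ => inj_blk hRM
  have hmS : ∀ t ∈ T, ∀ e ∈ blk (c t) (3 * R), red M e ∈ S :=
    fun t ht e he => (hT t ht).sub (mem_bT.2 ⟨e, he, rfl⟩)
  have hbsub : ∀ t, bT M (c t) R ⊆ bT M (c t) (3 * R) := by
    intro t e he
    rw [mem_bT] at he ⊢
    obtain ⟨g, hg, rfl⟩ := he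
    refine ⟨g, ?_, rfl⟩
    unfold blk at hg ⊢
    exact RE_subset (by push_cast; omega) (by push_cast; omega) (by push_cast; omega)
      (by push_cast; omega) hg
  have hpc : ∀ t ∈ T, ∀ F, F ⊆ S → pull M (blk (c t) (3 * R)) F =
      pull M (blk (c t) (3 * R)) ((F ∪ w).erase a) := by
    intro t ht F _
    apply pull_congr
    intro e he
    have he1 : red M e ∈ S := hmS t ht e he
    have he2 : red M e ≠ a := fun h => (hT t ht).nota (mem_bT.2 ⟨e, he, h⟩)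
    have he3 : red M e ∉ w := fun h => Finset.disjoint_left.1 hw h he1
    rw [Finset.mem_erase, Finset.mem_union]
    constructor
    · intro h; exact ⟨he2, Or.inl h⟩
    · rintro ⟨_, h | h⟩
      · exact h
      · exact absurd h he3
  refine bessel (u := κ ^ 4) h0 h1 hk4 hk41 (f := fun F => fe M a (F ∪ w)) ?_
    (N := fun t => bT M (c t) (3 * R))
    (U := fun t F => BSU (c t) R (pull M (blk (c t) (3 * R)) F))
    (D := fun t F => BSD (c t) R (pull M (blk (c t) (3 * R)) F))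
    (fun t ht => (hT t ht).sub) hd ?_ ?_ ?_ ?_ ?_ ?_ ?_ ?_
  · intro F G hFG h
    exact fe_mono _ _ (Finset.union_subset_union_left hFG) h
  · intro t _ F
    show _ ↔ _
    rw [pull_congr (F := F) (F' := F ∩ bT M (c t) (3 * R))]
    intro e he
    rw [Finset.mem_inter]
    exact ⟨fun h => ⟨h, mem_bT.2 ⟨e, he, rfl⟩⟩, fun h => h.1⟩
  · intro t _ F
    show _ ↔ _
    rw [pull_congr (F := F) (F' := F ∩ bT M (c t) (3 * R))]
    intro e he
    rw [Finset.mem_inter]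
    exact ⟨fun h => ⟨h, mem_bT.2 ⟨e, he, rfl⟩⟩, fun h => h.1⟩
  · intro t _ F G hFG h
    exact BSU_mono (pull_mono hFG) h
  · intro t _ F G hFG h h'
    exact h (BS_crs_mono (by exact_mod_cast pull_mono hFG) h')
  · intro t ht F hF hU h
    rw [hpc t ht F hF] at hU
    have hna : a ∉ bT M (c t) R := fun h' => (hT t ht).nota (hbsub t h')
    exact tile_up hR (hT t ht) hna hU h
  · intro t ht F hF hD h
    rw [hpc t ht F hF] at hD
    exact tile_down (hT t ht) hD h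
  · intro t ht
    have e1 := PQ_pull (q := q) (hinj t ht) (hmS t ht) (BSU (c t) R)
    refine le_trans ?_ (le_of_eq e1.symm)
    refine (win_circ hW hR hRn (c t).1 (c t).2 (blk (c t) (3 * R)) ?_).1
    have h2 : blk (c t) (3 * R) ⊆ blk (c t) (3 * R) := Finset.Subset.refl _
    unfold blk at h2 ⊢
    push_cast at h2 ⊢
    exact h2
  · intro t ht
    have e1 := PQ_pull (q := q) (hinj t ht) (hmS t ht) (BSD (c t) R)
    refine le_trans ?_ (le_of_eq e1.symm)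
    exact (win_blk hW hR hRn (c t).1 (c t).2 (blk (c t) (3 * R))).1

theorem tile_disj {s K R m : ℕ} (hK : 6 * R < K * s) (hM : M = s * (K * m)) {t t' : ℤ × ℤ}
    (ht : (0 ≤ t.1 ∧ t.1 < K * m) ∧ (0 ≤ t.2 ∧ t.2 < K * m))
    (ht' : (0 ≤ t'.1 ∧ t'.1 < K * m) ∧ (0 ≤ t'.2 ∧ t'.2 < K * m))
    (h1 : (K : ℤ) ∣ t.1 - t'.1) (h2 : (K : ℤ) ∣ t.2 - t'.2) (hne : t ≠ t') :
    Disjoint (bT M (s * t.1, s * t.2) (3 * R)) (bT M (s * t'.1, s * t'.2) (3 * R)) := by
  rw [Finset.disjoint_left]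
  intro e he he'
  obtain ⟨g, hg, hge⟩ := mem_bT.1 he
  obtain ⟨g', hg', hge'⟩ := mem_bT.1 he'
  obtain ⟨z, hz⟩ := eq_shE_of_red (M := M) (hge.trans hge'.symm)
  have k1 := mem_blk hg
  have k2 := mem_blk hg'
  rw [hz] at k1
  unfold shE at k1
  simp only at k1 k2
  have key : ∀ x y x' y' ζ : ℤ, (K : ℤ) ∣ x - y → (0 ≤ x ∧ x < K * m) → (0 ≤ y ∧ y < K * m) →
      (s * x - (3 * R : ℕ) ≤ y' + M * ζ ∧ y' + M * ζ ≤ s * x + (3 * R : ℕ)) →
      (s * y - (3 * R : ℕ) ≤ y' ∧ y' ≤ s * y + (3 * R : ℕ)) → x = y := by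
    intro x y _ y' ζ hdv hx hy hx' hy'
    have hdv2 : (K : ℤ) ∣ x - y - K * m * ζ := by
      have : (K : ℤ) ∣ K * m * ζ := ⟨m * ζ, by ring⟩
      exact dvd_sub hdv this
    have hMz : (M : ℤ) = s * (K * m) := by rw [hM]; push_cast; ring
    have hsmall : |(s : ℤ) * (x - y - K * m * ζ)| ≤ 6 * R := by
      have e1 : (s : ℤ) * (x - y - K * m * ζ) = s * x - s * y - M * ζ := by rw [hMz]; ring
      rw [e1, abs_le]
      push_cast at hx' hy'
      constructor <;> linarith [hx'.1, hx'.2, hy'.1, hy'.2]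
    have hKs : (6 * R : ℤ) < K * s := by exact_mod_cast hK
    have hs0 : (0:ℤ) ≤ s := by positivity
    have hzero : x - y - K * m * ζ = 0 := by
      by_contra hne
      have h3 : (K : ℤ) ≤ |x - y - K * m * ζ| :=
        Int.le_of_dvd (abs_pos.2 hne) ((dvd_abs _ _).2 hdv2)
      rw [abs_mul, abs_of_nonneg hs0] at hsmall
      nlinarith
    have hζ : ζ = 0 := by
      by_contra hζ
      have hKm : (0:ℤ) < K * m := by omega
      rcases lt_or_gt_of_ne hζ with h | h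
      · nlinarith
      · nlinarith
    rw [hζ] at hzero
    linarith [hzero]
  apply hne
  apply Prod.ext
  · exact key t.1 t'.1 0 g'.1 z.1 h1 ht.1 ht'.1 k1.1 k2.1
  · exact key t.2 t'.2 0 g'.2.1 z.2 h2 ht.2 ht'.2 k1.2 k2.2

theorem tileT {q κ : ℝ} {n : ℕ} (hW : Win q κ n) {S w : Finset Edg} {a : Edg}
    (hw : Disjoint w S) {s K m R : ℕ} (hK1 : 1 ≤ K) (hR : 1 ≤ R) (hRn : 2 * R ≤ n)
    (hRM : 2 * (3 * R) < M) (hK : 6 * R < K * s) (hM : M = s * (K * m)) (T : Finset (ℤ × ℤ))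
    (hT0 : ∀ t ∈ T, (0 ≤ t.1 ∧ t.1 < K * m) ∧ (0 ≤ t.2 ∧ t.2 < K * m))
    (hT : ∀ t ∈ T, Good M S a (s * t.1, s * t.2) R) :
    ∑ t ∈ T, PQ q S (Bf (fun F => fe M a (F ∪ w)) (bT M (s * t.1, s * t.2) R)) ≤
      2 * K ^ 2 * (κ ^ 4)⁻¹ * Real.sqrt T.card := by
  classical
  have hKpos : (0 : ℤ) < K := by omega
  set C : Finset (ℤ × ℤ) := Finset.Ico (0 : ℤ) K ×ˢ Finset.Ico (0 : ℤ) K with hC
  set cl : ℤ × ℤ → ℤ × ℤ := fun t => (t.1 % K, t.2 % K) with hcl
  have hmaps : ∀ t ∈ T, cl t ∈ C := by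
    intro t _
    rw [hC, Finset.mem_product, Finset.mem_Ico, Finset.mem_Ico]
    exact ⟨⟨Int.emod_nonneg _ hKpos.ne', Int.emod_lt_of_pos _ hKpos⟩,
      ⟨Int.emod_nonneg _ hKpos.ne', Int.emod_lt_of_pos _ hKpos⟩⟩
  rw [← Finset.sum_fiberwise_of_maps_to hmaps]
  have hbound : ∀ j ∈ C, ∑ t ∈ T with cl t = j,
      PQ q S (Bf (fun F => fe M a (F ∪ w)) (bT M (s * t.1, s * t.2) R)) ≤
      2 * (κ ^ 4)⁻¹ * Real.sqrt T.card := by
    intro j _
    have h1 := tile1 (c := fun t => ((s : ℤ) * t.1, (s : ℤ) * t.2)) hW hw hR hRn hRM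
      (T := T.filter fun t => cl t = j)
      (fun t ht => hT t (Finset.mem_filter.1 ht).1) ?_
    · refine h1.trans ?_
      apply mul_le_mul_of_nonneg_left _ (by have := hW.kpos; positivity)
      apply Real.sqrt_le_sqrt
      exact_mod_cast Finset.card_le_card (Finset.filter_subset _ _)
    · intro t ht t' ht' hne
      have e1 := (Finset.mem_filter.1 ht).2
      have e2 := (Finset.mem_filter.1 ht').2
      have e3 : cl t = cl t' := e1.trans e2.symm
      simp only [hcl, Prod.mk.injEq] at e3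
      exact tile_disj hK hM (hT0 t (Finset.mem_filter.1 ht).1) (hT0 t' (Finset.mem_filter.1 ht').1)
        (Int.ModEq.dvd (Int.ModEq.symm e3.1)) (Int.ModEq.dvd (Int.ModEq.symm e3.2)) hne
  refine (Finset.sum_le_sum hbound).trans ?_
  rw [Finset.sum_const, nsmul_eq_mul]
  have hcard : C.card = K ^ 2 := by
    rw [hC, Finset.card_product, Int.card_Ico]
    simp [sq]
  rw [hcard]
  push_cast
  apply le_of_eq
  ring

end H35A
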