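import Pool.Agent.H973R3.NC.A4L
import Pool.Agent.H973R3.NC.DV

/-!
Bond percolation on the discrete torus `(ℤ/M)²`, seen as periodic bond percolation in the plane.
-/

set_option autoImplicit false

namespace H35A

open H974 H12S H973N Finset

variable {M : ℕ}

/-- The representative of an edge in the fundamental domain. -/
def red (M : ℕ) (e : Edg) : Edg := (e.1 % M, e.2.1 % M, e.2.2)

/-- Translation of vertices by a period. -/
def sh (M : ℕ) (z : ℤ × ℤ) (v : Vtx) : Vtx := (v.1 + M * z.1, v.2 + M * z.2)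

/-- Translation of edges by a period. -/
def shE (M : ℕ) (z : ℤ × ℤ) (e : Edg) : Edg := (e.1 + M * z.1, e.2.1 + M * z.2, e.2.2)

/-- The periodic configuration. -/
def lft (M : ℕ) (F : Finset Edg) : Set Edg := {e | red M e ∈ F}

/-- Connection on the torus. -/
def Ct (M : ℕ) (F : Finset Edg) (u v : Vtx) : Prop := ∃ z : ℤ × ℤ, Reach (lft M F) u (sh M z v)

/-- The ends of `e` are connected without `e`. -/
def fe (M : ℕ) (e : Edg) (F : Finset Edg) : Prop := Ct M (F.erase e) (src e) (tgt e)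

/-- The edges of the torus. -/
noncomputable def EM (M : ℕ) : Finset Edg :=
  Finset.Ico (0:ℤ) M ×ˢ (Finset.Ico (0:ℤ) M ×ˢ Finset.univ)

theorem red_shE (z : ℤ × ℤ) (e : Edg) : red M (shE M z e) = red M e := by
  unfold red shE
  simp only [Int.add_mul_emod_self_left]

theorem red_red (e : Edg) : red M (red M e) = red M e := by
  unfold red
  simp only [Int.emod_emod_of_dvd _ (dvd_refl _)]

theorem shE_div (e : Edg) : shE M (e.1 / M, e.2.1 / M) (red M e) = e := by
  unfold red shE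
  obtain ⟨x, y, b⟩ := e
  simp only [Int.emod_add_mul_ediv]

theorem eq_shE (e : Edg) : ∃ z, e = shE M z (red M e) := ⟨_, (shE_div e).symm⟩

theorem eq_shE_of_red {e g : Edg} (h : red M e = red M g) : ∃ z, e = shE M z g := by
  obtain ⟨z, hz⟩ := eq_shE (M := M) e
  obtain ⟨w, hw⟩ := eq_shE (M := M) g
  refine ⟨(z.1 - w.1, z.2 - w.2), ?_⟩
  rw [hz, hw, h]
  unfold shE
  simp only [Prod.mk.injEq, and_true]
  rw [← h]
  constructor <;> ring_nf

theorem src_shE (z : ℤ × ℤ) (e : Edg) : src (shE M z e) = sh M z (src e) := rfl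

theorem tgt_shE (z : ℤ × ℤ) (e : Edg) : tgt (shE M z e) = sh M z (tgt e) := by
  obtain ⟨x, y, _ | _⟩ := e
  · show ((x + M * z.1, y + M * z.2 + 1) : ℤ × ℤ) = (x + M * z.1, y + 1 + M * z.2)
    rw [Prod.mk.injEq]; constructor <;> ring
  · show ((x + M * z.1 + 1, y + M * z.2) : ℤ × ℤ) = (x + 1 + M * z.1, y + M * z.2)
    rw [Prod.mk.injEq]; constructor <;> ring

theorem sh_zero (v : Vtx) : sh M (0, 0) v = v := by
  unfold sh; simp

theorem sh_sh (z w : ℤ × ℤ) (v : Vtx) : sh M z (sh M w v) = sh M (z.1 + w.1, z.2 + w.2) v := by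
  unfold sh
  rw [Prod.mk.injEq]; constructor <;> ring

theorem sh_neg (z : ℤ × ℤ) (v : Vtx) : sh M (-z.1, -z.2) (sh M z v) = v := by
  rw [sh_sh]; simp [sh]

theorem sh_neg' (z : ℤ × ℤ) (v : Vtx) : sh M z (sh M (-z.1, -z.2) v) = v := by
  rw [sh_sh]; simp [sh]

theorem mem_EM {e : Edg} : e ∈ EM M ↔ (0 ≤ e.1 ∧ e.1 < M) ∧ (0 ≤ e.2.1 ∧ e.2.1 < M) := by
  unfold EM
  simp only [Finset.mem_product, Finset.mem_Ico, Finset.mem_univ, and_true]

theorem red_mem_EM (hM : 0 < M) (e : Edg) : red M e ∈ EM M := by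
  rw [mem_EM]
  have h : (0:ℤ) < M := by exact_mod_cast hM
  exact ⟨⟨Int.emod_nonneg _ h.ne', Int.emod_lt_of_pos _ h⟩,
    ⟨Int.emod_nonneg _ h.ne', Int.emod_lt_of_pos _ h⟩⟩

theorem red_of_mem {e : Edg} (h : e ∈ EM M) : red M e = e := by
  rw [mem_EM] at h
  obtain ⟨x, y, b⟩ := e
  unfold red
  simp only at h ⊢
  rw [Int.emod_eq_of_lt h.1.1 h.1.2, Int.emod_eq_of_lt h.2.1 h.2.2]

theorem lft_mono {F G : Finset Edg} (h : F ⊆ G) : lft M F ⊆ lft M G := fun _ he => h he

theorem adj_sh {F : Finset Edg} {u v : Vtx} (z : ℤ × ℤ) (h : Adj (lft M F) u v) :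
    Adj (lft M F) (sh M z u) (sh M z v) := by
  obtain ⟨e, he, hc⟩ := h
  refine ⟨shE M z e, ?_, ?_⟩
  · show red M (shE M z e) ∈ F
    rw [red_shE]; exact he
  · rw [src_shE, tgt_shE]
    rcases hc with ⟨h1, h2⟩ | ⟨h1, h2⟩
    · left; rw [h1, h2]; exact ⟨rfl, rfl⟩
    · right; rw [h1, h2]; exact ⟨rfl, rfl⟩

theorem reach_sh {F : Finset Edg} {u v : Vtx} (z : ℤ × ℤ) (h : Reach (lft M F) u v) :
    Reach (lft M F) (sh M z u) (sh M z v) := by
  induction h with
  | refl => exact Reach.refl _ _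
  | tail _ hs ih => exact ih.trans (adj_sh z hs).reach

theorem Ct.mono {F G : Finset Edg} {u v : Vtx} (h : F ⊆ G) (hc : Ct M F u v) : Ct M G u v := by
  obtain ⟨z, hz⟩ := hc
  exact ⟨z, hz.mono (lft_mono h)⟩

theorem Ct.refl (F : Finset Edg) (u : Vtx) : Ct M F u u :=
  ⟨(0, 0), by rw [sh_zero]; exact Reach.refl _ _⟩

theorem Ct.of_reach {F : Finset Edg} {u v : Vtx} (h : Reach (lft M F) u v) : Ct M F u v :=
  ⟨(0, 0), by rw [sh_zero]; exact h⟩

theorem Ct.symm {F : Finset Edg} {u v : Vtx} (h : Ct M F u v) : Ct M F v u := by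
  obtain ⟨z, hz⟩ := h
  refine ⟨(-z.1, -z.2), ?_⟩
  have := reach_sh (-z.1, -z.2) hz.symm
  rwa [sh_neg] at this

theorem Ct.trans {F : Finset Edg} {u v w : Vtx} (h : Ct M F u v) (h' : Ct M F v w) :
    Ct M F u w := by
  obtain ⟨z, hz⟩ := h
  obtain ⟨z', hz'⟩ := h'
  refine ⟨(z.1 + z'.1, z.2 + z'.2), ?_⟩
  have := reach_sh z hz'
  rw [sh_sh] at this
  exact hz.trans this

theorem Ct.sh_right (F : Finset Edg) (z : ℤ × ℤ) (u : Vtx) : Ct M F u (sh M z u) := by
  refine ⟨(-z.1, -z.2), ?_⟩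
  rw [sh_neg]
  exact Reach.refl _ _

/-- A path which uses the new edge. -/
theorem Ct.insert_cases {F : Finset Edg} {g : Edg} {u v : Vtx} (h : Ct M (insert g F) u v) :
    Ct M F u v ∨ (Ct M F u (src g) ∧ Ct M F (tgt g) v) ∨
      (Ct M F u (tgt g) ∧ Ct M F (src g) v) := by
  obtain ⟨z, hz⟩ := h
  have key : ∀ w, Reach (lft M (insert g F)) u w → Ct M F u w ∨
      (Ct M F u (src g) ∧ Ct M F (tgt g) w) ∨ (Ct M F u (tgt g) ∧ Ct M F (src g) w) := by
    intro w hw
    induction hw with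
    | refl => exact Or.inl (Ct.refl _ _)
    | @tail w w' _ hs ih =>
      obtain ⟨e, he, hc⟩ := hs
      have he' : red M e = g ∨ red M e ∈ F := Finset.mem_insert.1 he
      rcases he' with he' | he'
      · obtain ⟨y, hy⟩ := eq_shE (M := M) e
        rw [he'] at hy
        have hs1 : src e = sh M y (src g) := by rw [hy, src_shE]
        have ht1 : tgt e = sh M y (tgt g) := by rw [hy, tgt_shE]
        have a1 : Ct M F (src g) (src e) := by rw [hs1]; exact Ct.sh_right _ _ _
        have a2 : Ct M F (tgt g) (tgt e) := by rw [ht1]; exact Ct.sh_right _ _ _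
        rcases hc with ⟨h1, h2⟩ | ⟨h1, h2⟩
        · rw [h1] at a1
          rw [h2] at a2
          rcases ih with ih | ⟨i1, i2⟩ | ⟨i1, i2⟩
          · exact Or.inr (Or.inl ⟨ih.trans a1.symm, a2⟩)
          · exact Or.inr (Or.inl ⟨i1, a2⟩)
          · exact Or.inl (i1.trans a2)
        · rw [h1] at a1
          rw [h2] at a2
          rcases ih with ih | ⟨i1, i2⟩ | ⟨i1, i2⟩
          · exact Or.inr (Or.inr ⟨ih.trans a2.symm, a1⟩)
          · exact Or.inl (i1.trans a1)
          · exact Or.inr (Or.inr ⟨i1, a1⟩)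
      · have ha : Ct M F w w' := Ct.of_reach (Adj.reach ⟨e, he', hc⟩)
        rcases ih with ih | ⟨i1, i2⟩ | ⟨i1, i2⟩
        · exact Or.inl (ih.trans ha)
        · exact Or.inr (Or.inl ⟨i1, i2.trans ha⟩)
        · exact Or.inr (Or.inr ⟨i1, i2.trans ha⟩)
  have hb : Ct M F (sh M z v) v := (Ct.sh_right F z v).symm
  rcases key _ hz with h1 | ⟨h1, h2⟩ | ⟨h1, h2⟩
  · exact Or.inl (h1.trans hb)
  · exact Or.inr (Or.inl ⟨h1, h2.trans hb⟩)
  · exact Or.inr (Or.inr ⟨h1, h2.trans hb⟩)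

theorem Ct.edge {F : Finset Edg} {g : Edg} (hg : g ∈ F) (hM : red M g = g) :
    Ct M F (src g) (tgt g) :=
  Ct.of_reach (Adj.reach ⟨g, by show red M g ∈ F; rw [hM]; exact hg, Or.inl ⟨rfl, rfl⟩⟩)

theorem fe_mono {e : Edg} : ∀ F G : Finset Edg, F ⊆ G → fe M e F → fe M e G :=
  fun _ _ h hc => Ct.mono (Finset.erase_subset_erase _ h) hc

/-- Pivotality is symmetric. -/
theorem piv_symm {e g : Edg} (he : red M e = e) (hne : e ≠ g) {F : Finset Edg}
    (h : Pf (fe M e) g F) : Pf (fe M g) e F := by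
  obtain ⟨h1, h2⟩ := h
  unfold fe at h1 h2
  set F0 := (F.erase g).erase e with hF0
  have e1 : (insert g F).erase e = insert g F0 := by
    rw [hF0, Finset.erase_insert_of_ne hne.symm]
    ext x
    simp only [Finset.mem_insert, Finset.mem_erase]
    tauto
  have e2 : (insert e F).erase g = insert e F0 := by
    rw [hF0, Finset.erase_insert_of_ne hne]
    ext x
    simp only [Finset.mem_insert, Finset.mem_erase]
    tauto
  have e3 : (F.erase e).erase g = F0 := by rw [hF0, Finset.erase_right_comm]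
  rw [e1] at h1
  have hst : Ct M (insert e F0) (src e) (tgt e) := Ct.edge (Finset.mem_insert_self _ _) he
  have hsub : F0 ⊆ insert e F0 := Finset.subset_insert _ _
  unfold Pf fe
  rw [e2, e3]
  rcases h1.insert_cases with h3 | ⟨h3, h4⟩ | ⟨h3, h4⟩
  · exact absurd h3 h2
  · refine ⟨((h3.symm.mono hsub).trans hst).trans (h4.symm.mono hsub), ?_⟩
    intro h5
    exact h2 ((h3.trans h5).trans h4)
  · refine ⟨((h4.mono hsub).trans hst.symm).trans (h3.mono hsub), ?_⟩
    intro h5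
    exact h2 ((h3.trans h5.symm).trans h4)

section SDx
variable {E : Type*} [DecidableEq E]

theorem SD_iff {f : Finset E → Prop} (hf : ∀ F G : Finset E, F ⊆ G → f F → f G) {b c : E}
    (hbc : b ≠ c) {F : Finset E} :
    SD f b c F ↔ (Pf f b (insert c F) ∧ ¬ Pf f b (F.erase c)) ∨
      (¬ Pf f b (insert c F) ∧ Pf f b (F.erase c)) := by
  have e1 : insert c (F.erase b) = (insert c F).erase b := (Finset.erase_insert_of_ne hbc.symm).symm
  have e2 : (insert b F).erase c = insert b (F.erase c) := Finset.erase_insert_of_ne hbc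
  have e3 : insert c (insert b F) = insert b (insert c F) := Finset.insert_comm _ _ _
  have e4 : (F.erase b).erase c = (F.erase c).erase b := Finset.erase_right_comm
  have m1 : f ((F.erase c).erase b) → f (insert b (F.erase c)) :=
    hf _ _ ((Finset.erase_subset _ _).trans (Finset.subset_insert _ _))
  have m2 : f ((F.erase c).erase b) → f ((insert c F).erase b) :=
    hf _ _ (Finset.erase_subset_erase _ ((Finset.erase_subset _ _).trans (Finset.subset_insert _ _)))
  have m3 : f (insert b (F.erase c)) → f (insert b (insert c F)) :=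
    hf _ _ (Finset.insert_subset_insert _ ((Finset.erase_subset _ _).trans (Finset.subset_insert _ _)))
  have m4 : f ((insert c F).erase b) → f (insert b (insert c F)) :=
    hf _ _ ((Finset.erase_subset _ _).trans (Finset.subset_insert _ _))
  unfold SD Pf
  rw [e1, e2, e3, e4]
  tauto

theorem SD_comm {f : Finset E → Prop} {b c : E} {F : Finset E} (h : SD f b c F) : SD f c b F := by
  obtain ⟨h1, h2, h3, h4⟩ := h
  refine ⟨h2, h1, ?_, ?_⟩
  · rwa [Finset.insert_comm]
  · rwa [Finset.erase_right_comm]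

theorem SD_block {f : Finset E → Prop} (hf : ∀ F G : Finset E, F ⊆ G → f F → f G) {b c : E}
    {F B : Finset E} (hb : b ∈ B) (hc : c ∈ B) (h : SD f b c F) : Bf f B F := by
  obtain ⟨_, _, h3, h4⟩ := h
  refine ⟨hf _ _ ?_ h3, fun h5 => h4 (hf _ _ ?_ h5)⟩
  · intro x hx
    rw [Finset.mem_insert, Finset.mem_insert] at hx
    rw [Finset.mem_union]
    rcases hx with rfl | rfl | hx
    · exact Or.inr hb
    · exact Or.inr hc
    · exact Or.inl hx
  · intro x hx
    rw [Finset.mem_sdiff] at hx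
    rw [Finset.mem_erase, Finset.mem_erase]
    exact ⟨fun h => hx.2 (h ▸ hc), fun h => hx.2 (h ▸ hb), hx.1⟩

end SDx

/-- The third difference is symmetric. -/
theorem SD_rot {a b c : Edg} (ha : red M a = a) (hb : red M b = b) (hab : a ≠ b) (hbc : b ≠ c)
    (hac : a ≠ c) {F : Finset Edg} (h : SD (fe M a) b c F) : SD (fe M b) a c F := by
  rw [SD_iff fe_mono hbc] at h
  rw [SD_iff fe_mono hac]
  have k : ∀ F, Pf (fe M a) b F ↔ Pf (fe M b) a F :=
    fun F => ⟨piv_symm ha hab, piv_symm hb hab.symm⟩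
  rw [k, k] at h
  exact h

end H35A
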